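import Pool.Agent.P.MP_fd5ae1_an.Calc

set_option autoImplicit false

open MeasureTheory Set Filter Topology Function
open scoped ENNReal NNReal

namespace Pool.Agent.P.MP_fd5ae1_an

theorem integrable_tsum' {f : ℕ → ℝ → ℂ} (hf : ∀ i, AEStronglyMeasurable (f i) volume)
    (hf' : ∑' i, ∫⁻ a, ‖f i a‖ₑ ≠ ∞) : Integrable fun a => ∑' i, f i a := by
  have h1 : ∫⁻ a, ∑' i, ‖f i a‖ₑ ≠ ∞ := by
    rwa [lintegral_tsum fun i => (hf i).enorm]
  have h2 : ∀ᵐ a, ∑' i, ‖f i a‖ₑ < ∞ :=
    ae_lt_top' (AEMeasurable.tsum fun i => (hf i).enorm) h1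
  refine ⟨?_, ?_⟩
  · refine aestronglyMeasurable_of_tendsto_ae atTop
      (f := fun n a => ∑ i ∈ Finset.range n, f i a)
      (fun n => Finset.aestronglyMeasurable_fun_sum _ fun i _ => hf i) ?_
    filter_upwards [h2] with a ha
    have : Summable fun i => f i a := by
      refine Summable.of_nnnorm ?_
      exact ENNReal.tsum_coe_ne_top_iff_summable.mp ha.ne
    exact this.hasSum.tendsto_sum_nat
  · exact lt_of_le_of_lt (lintegral_mono fun a => enorm_tsum_le_tsum_enorm) h1.lt_top

theorem exists_pieces {s : Set ℝ} (hs : MeasurableSet s) {h h' : ℝ → ℝ}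
    (hh : ∀ t ∈ s, HasDerivWithinAt h (h' t) s t) (h0 : ∀ t ∈ s, h' t ≠ 0) :
    ∃ P : ℕ → Set ℝ, (∀ n, MeasurableSet (P n)) ∧ Pairwise (Disjoint on P) ∧ (⋃ n, P n) = s ∧
      ∀ n, ∃ c : ℝ, 0 < c ∧ ∀ t ∈ P n, ∀ t' ∈ P n, c * |t - t'| ≤ |h t - h t'| := by
  classical
  obtain ⟨T, A, hd, hm, hsub, happ, hA⟩ := exists_partition_approximatesLinearOn_of_hasFDerivWithinAt
    h s (fun t => ContinuousLinearMap.toSpanSingleton ℝ (h' t)) (fun t ht => (hh t ht).hasFDerivWithinAt)
    (fun A => if A 1 = 0 then 1 else ‖A 1‖₊ / 2) (fun A => by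
      split_ifs with hA
      · exact one_ne_zero
      · simpa using hA)
  refine ⟨fun n => s ∩ T n, fun n => hs.inter (hm n), ?_, ?_, fun n => ?_⟩
  · intro i j hij
    exact (hd hij).mono inter_subset_right inter_subset_right
  · rw [← inter_iUnion, inter_eq_left.mpr hsub]
  · rcases s.eq_empty_or_nonempty with rfl | hne
    · exact ⟨1, one_pos, fun t ht => absurd ht.1 (notMem_empty t)⟩
    obtain ⟨y, hy, hAy⟩ := hA hne n
    have hA1 : A n 1 = h' y := by rw [hAy]; simp
    have hy0 := h0 y hy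
    refine ⟨|h' y| / 2, by positivity, fun t ht t' ht' => ?_⟩
    have := happ n t ht t' ht'
    rw [hA1, if_neg hy0, hAy] at this
    simp only [ContinuousLinearMap.toSpanSingleton_apply, smul_eq_mul, Real.norm_eq_abs,
      NNReal.coe_div, coe_nnnorm, NNReal.coe_ofNat] at this
    have h2 : |(t - t') * h' y| ≤ |h t - h t'| + |h t - h t' - (t - t') * h' y| := by
      have := abs_sub (h t - h t') (h t - h t' - (t - t') * h' y)
      simpa using this
    rw [abs_mul] at h2
    nlinarith

/-- The area formula with multiplicities, in the form needed here. -/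
theorem area {s : Set ℝ} (hs : MeasurableSet s) {h h' x u : ℝ → ℝ}
    (hh : ∀ t ∈ s, HasDerivWithinAt h (h' t) s t) (hx : ∀ t ∈ s, HasDerivWithinAt x (u t) s t)
    (mh' : Measurable h') (ih' : IntegrableOn h' s) :
    ∃ N : (ℝ → ℂ) → ℝ → ℂ,
      (∀ G : ℝ → ℂ, IntegrableOn (fun t => ((|h' t| : ℝ) : ℂ) * G t) s →
        Integrable (N G) ∧ ∫ b, N G b = ∫ t in s, ((|h' t| : ℝ) : ℂ) * G t) ∧
      (∀ (G φ : ℝ → ℂ) (b : ℝ), N (fun t => G t * φ (h t)) b = N G b * φ b) ∧
      (∀ᵐ b : ℝ, ∃ k : ℕ, {t ∈ s | h t = b}.encard = k ∧ N (fun _ => 1) b = k) ∧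
      ∀ g g' : ℝ → ℂ, (∀ r, HasDerivAt g (g' r) r) →
        ApDer (N fun t => g (x t)) (N fun t => g' (x t) * (u t / h' t : ℝ)) := by
  classical
  set s' : Set ℝ := s ∩ {t | h' t ≠ 0} with hs'
  have hs'm : MeasurableSet s' := hs.inter (mh' (measurableSet_singleton 0).compl)
  obtain ⟨P, hPm, hPd, hPU, hPc⟩ := exists_pieces hs'm (h := h) (h' := h')
    (fun t ht => (hh t ht.1).mono inter_subset_left) (fun t ht => ht.2)
  have hPs' : ∀ n, P n ⊆ s' := fun n => hPU ▸ subset_iUnion P n
  have hPs : ∀ n, P n ⊆ s := fun n => (hPs' n).trans inter_subset_left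
  have hinj : ∀ n, InjOn h (P n) := by
    intro n t ht t' ht' e
    obtain ⟨c, hc, hcb⟩ := hPc n
    have := hcb t ht t' ht'
    rw [e, sub_self, abs_zero] at this
    have h2 : |t - t'| ≤ 0 := by
      by_contra h3
      have := mul_pos hc (not_le.mp h3)
      linarith
    exact sub_eq_zero.mp (abs_nonpos_iff.mp h2)
  have hdP : ∀ n, ∀ t ∈ P n, HasDerivWithinAt h (h' t) (P n) t :=
    fun n t ht => (hh t (hPs n ht)).mono (hPs n)
  set B : ℕ → Set ℝ := fun n => h '' P n with hB
  have hBm : ∀ n, MeasurableSet (B n) := fun n =>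
    measurable_image_of_fderivWithin (hPm n) (fun t ht => (hdP n t ht).hasFDerivWithinAt) (hinj n)
  set j : ℕ → ℝ → ℝ := fun n => invFunOn h (P n) with hj
  have hjm : ∀ n, ∀ b ∈ B n, j n b ∈ P n := fun n b hb => invFunOn_mem hb
  have hjh : ∀ n, ∀ b ∈ B n, h (j n b) = b := fun n b hb => invFunOn_eq hb
  have hhj : ∀ n, ∀ t ∈ P n, j n (h t) = t := fun n t ht => (hinj n).leftInvOn_invFunOn ht
  have hvol : ∑' n, volume (B n) ≠ ∞ := by
    have e : ∀ n, volume (B n) = ∫⁻ t in P n, ‖h' t‖ₑ := by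
      intro n
      have := lintegral_image_eq_lintegral_abs_deriv_mul (hPm n) (hdP n) (hinj n) (fun _ => 1)
      simp only [lintegral_const, MeasurableSet.univ, Measure.restrict_apply, univ_inter, one_mul,
        mul_one] at this
      rw [this]
      simp only [Real.enorm_eq_ofReal_abs]
    simp only [e]
    rw [← lintegral_iUnion hPm hPd, hPU]
    exact (lt_of_le_of_lt (lintegral_mono_set inter_subset_left) ih'.2).ne
  have hfin : ∀ᵐ b : ℝ, {n | b ∈ B n}.Finite := ae_finite_setOfPred_mem hvol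
  set N : (ℝ → ℂ) → ℝ → ℂ := fun G b => ∑' n, (B n).indicator (fun b => G (j n b)) b with hN
  have hNfin : ∀ (G : ℝ → ℂ) (S : Finset ℕ) (b : ℝ), (∀ n, b ∈ B n ↔ n ∈ S) →
      N G b = ∑ n ∈ S, G (j n b) := by
    intro G S b hb
    simp only [hN]
    rw [tsum_eq_sum (s := S) fun n hn => indicator_of_notMem (fun h => hn ((hb n).mp h)) _]
    exact Finset.sum_congr rfl fun n hn => indicator_of_mem ((hb n).mpr hn) _
  refine ⟨N, fun G hG => ?_, fun G φ b => ?_, ?_, fun g g' hg => ?_⟩
  · have hcongr : ∀ n, EqOn (fun t => |h' t| • G (j n (h t)))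
        (fun t => ((|h' t| : ℝ) : ℂ) * G t) (P n) := by
      intro n t ht
      simp only [hhj n t ht, Complex.real_smul]
    have hi : ∀ n, IntegrableOn (fun b => G (j n b)) (B n) := by
      intro n
      rw [hB, integrableOn_image_iff_integrableOn_abs_deriv_smul (hPm n) (hdP n) (hinj n)]
      exact (integrableOn_congr_fun (hcongr n) (hPm n)).mpr (hG.mono_set (hPs n))
    have hi' : ∀ n, Integrable ((B n).indicator fun b => G (j n b)) :=
      fun n => (integrable_indicator_iff (hBm n)).mpr (hi n)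
    have hsum : ∑' n, ∫⁻ b, ‖(B n).indicator (fun b => G (j n b)) b‖ₑ ≠ ∞ := by
      have e : ∀ n, ∫⁻ b, ‖(B n).indicator (fun b => G (j n b)) b‖ₑ =
          ∫⁻ t in P n, ‖((|h' t| : ℝ) : ℂ) * G t‖ₑ := by
        intro n
        simp only [enorm_indicator_eq_indicator_enorm]
        rw [lintegral_indicator (hBm n), hB,
          lintegral_image_eq_lintegral_abs_deriv_mul (hPm n) (hdP n) (hinj n)]
        refine setLIntegral_congr_fun (hPm n) fun t ht => ?_
        simp only [hhj n t ht, enorm_mul]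
        congr 1
        rw [← ofReal_norm, Complex.norm_real, Real.norm_eq_abs, abs_abs]
      simp only [e]
      rw [← lintegral_iUnion hPm hPd, hPU]
      exact (lt_of_le_of_lt (lintegral_mono_set inter_subset_left) hG.2).ne
    refine ⟨integrable_tsum' (fun n => (hi' n).aestronglyMeasurable) hsum, ?_⟩
    simp only [hN]
    rw [integral_tsum (fun n => (hi' n).aestronglyMeasurable) hsum]
    have e : ∀ n, ∫ b, (B n).indicator (fun b => G (j n b)) b =
        ∫ t in P n, ((|h' t| : ℝ) : ℂ) * G t := by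
      intro n
      rw [integral_indicator (hBm n), hB,
        integral_image_eq_integral_abs_deriv_smul (hPm n) (hdP n) (hinj n)]
      exact setIntegral_congr_fun (hPm n) (hcongr n)
    simp only [e]
    rw [← integral_iUnion hPm hPd (by rw [hPU]; exact hG.mono_set inter_subset_left), hPU]
    symm
    refine setIntegral_eq_of_subset_of_forall_sdiff_eq_zero hs inter_subset_left fun t ht => ?_
    have : h' t = 0 := by
      by_contra h0
      exact ht.2 ⟨ht.1, h0⟩
    simp [this]
  · simp only [hN]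
    rw [← tsum_mul_right]
    congr 1; ext n
    by_cases hb : b ∈ B n
    · simp only [indicator_of_mem hb, hjh n b hb]
    · simp only [indicator_of_notMem hb, zero_mul]
  · have hnull : volume (h '' (s ∩ {t | h' t = 0})) = 0 :=
      addHaar_image_eq_zero_of_det_fderivWithin_eq_zero volume
        (f' := fun t => ContinuousLinearMap.toSpanSingleton ℝ (h' t))
        (fun t ht => ((hh t ht.1).mono inter_subset_left).hasFDerivWithinAt)
        (fun t ht => by rw [ContinuousLinearMap.det_toSpanSingleton]; exact ht.2)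
    filter_upwards [hfin, measure_eq_zero_iff_ae_notMem.mp hnull] with b hb hb0
    refine ⟨hb.toFinset.card, ?_, ?_⟩
    · have e : {t ∈ s | h t = b} = (fun n => j n b) '' {n | b ∈ B n} := by
        ext t
        constructor
        · rintro ⟨ht, rfl⟩
          have : t ∈ s' := ⟨ht, fun h0 => hb0 ⟨t, ⟨ht, h0⟩, rfl⟩⟩
          rw [← hPU, mem_iUnion] at this
          obtain ⟨n, hn⟩ := this
          exact ⟨n, ⟨t, hn, rfl⟩, hhj n t hn⟩
        · rintro ⟨n, hn, rfl⟩
          exact ⟨hPs n (hjm n b hn), hjh n b hn⟩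
      rw [e, InjOn.encard_image, hb.encard_eq_coe_toFinset_card]
      intro n hn m hm e
      by_contra hnm
      have h1 := hjm n b hn
      have h2 := hjm m b hm
      simp only at e
      rw [← e] at h2
      exact disjoint_left.mp (hPd hnm) h1 h2
    · rw [hNfin (fun _ => 1) hb.toFinset b (fun n => by simp)]
      simp
  · refine ⟨range fun S : Finset ℕ => {b | ∀ n, b ∈ B n ↔ n ∈ S}, countable_range _, ?_, ?_⟩
    · filter_upwards [hfin] with b hb
      exact ⟨_, ⟨hb.toFinset, rfl⟩, fun n => by simp⟩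
    · rintro _ ⟨S, rfl⟩ b hb
      rw [hNfin (fun t => g' (x t) * (u t / h' t : ℝ)) S b hb]
      refine HasDerivWithinAt.congr (f := fun b => ∑ n ∈ S, g (x (j n b))) ?_
        (fun b' hb' => hNfin (fun t => g (x t)) S b' hb') (hNfin (fun t => g (x t)) S b hb)
      refine HasDerivWithinAt.fun_sum fun n hn => ?_
      have hbB : b ∈ B n := (hb n).mpr hn
      refine HasDerivWithinAt.mono (t := B n) ?_ fun b' hb' => (hb' n).mpr hn
      have hne : h' (j n b) ≠ 0 := (hPs' n (hjm n b hbB)).2
      obtain ⟨c, hc, hcb⟩ := hPc n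
      have hcont : Tendsto (j n) (𝓝[B n] b) (𝓝[P n] (j n b)) := by
        refine tendsto_nhdsWithin_iff.mpr ⟨?_, eventually_nhdsWithin_of_forall (hjm n)⟩
        rw [tendsto_iff_dist_tendsto_zero]
        have t0 : Tendsto (fun b' => dist b' b / c) (𝓝[B n] b) (𝓝 0) := by
          have : Tendsto (fun b' => dist b' b / c) (𝓝 b) (𝓝 (dist b b / c)) :=
            (by fun_prop : Continuous fun b' : ℝ => dist b' b / c).tendsto b
          rw [dist_self, zero_div] at this
          exact this.mono_left nhdsWithin_le_nhds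
        refine squeeze_zero' (Eventually.of_forall fun _ => dist_nonneg) ?_ t0
        refine eventually_nhdsWithin_of_forall fun b' hb' => ?_
        have := hcb _ (hjm n b' hb') _ (hjm n b hbB)
        rw [hjh n b' hb', hjh n b hbB] at this
        rw [le_div_iff₀ hc, Real.dist_eq, Real.dist_eq]
        linarith
      have hjd : HasDerivWithinAt (j n) (h' (j n b))⁻¹ (B n) b := by
        have h1 : HasFDerivWithinAt h (ContinuousLinearEquiv.unitsEquivAut ℝ
            (Units.mk0 (h' (j n b)) hne) : ℝ →L[ℝ] ℝ) (P n) (j n b) := hdP n _ (hjm n b hbB)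
        exact HasFDerivWithinAt.of_local_left_inverse hcont h1 hbB
          (eventually_nhdsWithin_of_forall (hjh n))
      have hxd : HasDerivWithinAt (fun b => x (j n b)) (u (j n b) * (h' (j n b))⁻¹) (B n) b :=
        ((hx _ (hPs n (hjm n b hbB))).mono (hPs n)).comp b hjd (hjm n)
      have := (hg (x (j n b))).scomp_hasDerivWithinAt b hxd
      have e : g' (x (j n b)) * ((u (j n b) / h' (j n b) : ℝ) : ℂ) =
          (u (j n b) * (h' (j n b))⁻¹) • g' (x (j n b)) := by
        rw [Complex.real_smul, mul_comm, div_eq_mul_inv]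
      rw [e]; exact this

end Pool.Agent.P.MP_fd5ae1_an
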