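import Mathlib

set_option autoImplicit false

open MeasureTheory Set Filter Topology

namespace Pool.Agent.P.MP_fd5ae1_an

/-- Two integrations by parts against the kinked weight `|p - α q|`. -/
theorem kink_integral (F0 F1 F2 : ℝ → ℂ) (p q : ℝ) (hpq : p = 0 → q = 0)
    (h0 : ∀ α, 0 ≤ α → HasDerivAt F0 (F1 α) α) (h1 : ∀ α, 0 ≤ α → HasDerivAt F1 (F2 α) α)
    (hint : IntegrableOn (fun α : ℝ => ((p - α * q : ℝ) : ℂ) * F2 α) (Ioi 0))
    (hlim : Tendsto (fun α : ℝ => ((p - α * q : ℝ) : ℂ) * F1 α + (q : ℂ) * F0 α) atTop (𝓝 0)) :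
    ∫ α in Ioi (0 : ℝ), ((|p - α * q| : ℝ) : ℂ) * F2 α =
      -((|p| : ℝ) : ℂ) * F1 0 - ((|p| / p * q : ℝ) : ℂ) * F0 0 +
        (if 0 < p / q then 2 * ((|q| : ℝ) : ℂ) * F0 (p / q) else 0) := by
  set G : ℝ → ℂ := fun α => ((p - α * q : ℝ) : ℂ) * F1 α + (q : ℂ) * F0 α with hG
  have hGd : ∀ α, 0 ≤ α → HasDerivAt G (((p - α * q : ℝ) : ℂ) * F2 α) α := by
    intro α hα
    have a1 : HasDerivAt (fun α : ℝ => ((p - α * q : ℝ) : ℂ)) ((-q : ℝ) : ℂ) α := by
      have : HasDerivAt (fun α : ℝ => p - α * q) (-q) α := by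
        simpa using ((hasDerivAt_id α).mul_const q).const_sub p
      exact this.ofReal_comp
    have a2 := (a1.mul (h1 α hα)).add ((h0 α hα).const_mul (q : ℂ))
    have e : ((p - α * q : ℝ) : ℂ) * F2 α =
        ((-q : ℝ) : ℂ) * F1 α + ((p - α * q : ℝ) : ℂ) * F2 α + (q : ℂ) * F1 α := by
      push_cast; ring
    rw [e]
    exact a2
  have hIoi : ∀ c : ℝ, 0 ≤ c → ∫ α in Ioi c, ((p - α * q : ℝ) : ℂ) * F2 α = -G c := by
    intro c hc
    rw [integral_Ioi_of_hasDerivAt_of_tendsto' (f := G) (m := 0)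
      (fun x hx => hGd x (hc.trans hx)) (hint.mono_set (Ioi_subset_Ioi hc)) hlim]
    simp
  by_cases hp : p = 0
  · have hq := hpq hp
    subst hp; subst hq
    simp
  set σ : ℝ := |p| / p with hσ
  have hσp : σ * p = |p| := by rw [hσ]; field_simp
  have hG0 : G 0 = (p : ℂ) * F1 0 + (q : ℂ) * F0 0 := by simp [hG]
  have hσG0 : (σ : ℂ) * G 0 = ((|p| : ℝ) : ℂ) * F1 0 + ((σ * q : ℝ) : ℂ) * F0 0 := by
    rw [hG0, ← hσp]; push_cast; ring
  have hσcases : (0 < p ∧ σ = 1) ∨ (p < 0 ∧ σ = -1) := by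
    rcases lt_or_gt_of_ne hp with h | h
    · right; refine ⟨h, ?_⟩; rw [hσ, abs_of_neg h]; field_simp
    · left; refine ⟨h, ?_⟩; rw [hσ, abs_of_pos h]; field_simp
  split_ifs with hc
  · have hq : q ≠ 0 := by rintro rfl; simp at hc
    set c := p / q with hcdef
    have hpc : p = c * q := by rw [hcdef]; field_simp
    have hσq : σ * q = |q| := by
      rcases hσcases with ⟨h, h'⟩ | ⟨h, h'⟩
      · have : 0 < q := by
          by_contra hq'
          have : c * q ≤ 0 := mul_nonpos_of_nonneg_of_nonpos hc.le (not_lt.mp hq')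
          linarith
        rw [h', abs_of_pos this, one_mul]
      · have : q < 0 := by
          by_contra hq'
          have : 0 ≤ c * q := mul_nonneg hc.le (not_lt.mp hq')
          linarith
        rw [h', abs_of_neg this]; ring
    have habs : ∀ α, |p - α * q| = |c - α| * (σ * q) := by
      intro α
      rw [hσq, ← abs_mul]; congr 1; rw [hpc]; ring
    have hintabs : IntegrableOn (fun α : ℝ => ((|p - α * q| : ℝ) : ℂ) * F2 α) (Ioi 0) := by
      refine Integrable.mono hint ?_ (Eventually.of_forall fun α => ?_)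
      · have hm : AEStronglyMeasurable F2 (volume.restrict (Ioi 0)) := by
          have : ∀ α ∈ Ioi (0 : ℝ), F2 α = deriv F1 α := fun α hα => (h1 α (le_of_lt hα)).deriv.symm
          refine (measurable_deriv F1).aestronglyMeasurable.congr ?_
          filter_upwards [ae_restrict_mem measurableSet_Ioi] with α hα using (this α hα).symm
        exact (by fun_prop : Continuous fun α : ℝ =>
          ((|p - α * q| : ℝ) : ℂ)).aestronglyMeasurable.mul hm
      · simp only [norm_mul, Complex.norm_real, Real.norm_eq_abs, abs_abs, le_refl]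
    rw [← intervalIntegral.integral_interval_add_Ioi hintabs (hintabs.mono_set (Ioi_subset_Ioi hc.le))]
    have e1 : ∫ α in (0 : ℝ)..c, ((|p - α * q| : ℝ) : ℂ) * F2 α = (σ : ℂ) * (G c - G 0) := by
      rw [← intervalIntegral.integral_eq_sub_of_hasDerivAt
        (f := G) (f' := fun α => ((p - α * q : ℝ) : ℂ) * F2 α), ← intervalIntegral.integral_const_mul]
      · apply intervalIntegral.integral_congr
        intro α hα
        rw [uIcc_of_le hc.le] at hα
        have : |p - α * q| = σ * (p - α * q) := by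
          rw [habs, abs_of_nonneg (by linarith [hα.2]), hpc]; ring
        simp only [this]; push_cast; ring
      · intro α hα
        rw [uIcc_of_le hc.le] at hα
        exact hGd α hα.1
      · rw [intervalIntegrable_iff_integrableOn_Ioc_of_le hc.le]
        exact hint.mono_set Ioc_subset_Ioi_self
    have e2 : ∫ α in Ioi c, ((|p - α * q| : ℝ) : ℂ) * F2 α = (σ : ℂ) * G c := by
      have : ∫ α in Ioi c, ((|p - α * q| : ℝ) : ℂ) * F2 α =
          ∫ α in Ioi c, -(σ : ℂ) * (((p - α * q : ℝ) : ℂ) * F2 α) := by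
        apply setIntegral_congr_fun measurableSet_Ioi
        intro α hα
        have : |p - α * q| = -σ * (p - α * q) := by
          rw [habs, abs_of_nonpos (by linarith [mem_Ioi.mp hα]), hpc]; ring
        simp only [this]; push_cast; ring
      rw [this, integral_const_mul, hIoi c hc.le]; ring
    have hGc : G c = (q : ℂ) * F0 c := by
      simp only [hG]
      have : p - c * q = 0 := by rw [hpc]; ring
      rw [this]; simp
    rw [e1, e2, mul_sub, hσG0, hGc, ← hσq]
    push_cast; ring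
  · have habs : ∀ α, 0 < α → |p - α * q| = σ * (p - α * q) := by
      intro α hα
      rcases hσcases with ⟨h, h'⟩ | ⟨h, h'⟩
      · have : q ≤ 0 := by
          by_contra hq'
          exact hc (div_pos h (not_le.mp hq'))
        rw [h', one_mul, abs_of_nonneg]
        nlinarith
      · have : 0 ≤ q := by
          by_contra hq'
          exact hc (div_pos_of_neg_of_neg h (not_le.mp hq'))
        rw [h', abs_of_nonpos]
        · ring
        · nlinarith
    have : ∫ α in Ioi (0 : ℝ), ((|p - α * q| : ℝ) : ℂ) * F2 α =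
        ∫ α in Ioi (0 : ℝ), (σ : ℂ) * (((p - α * q : ℝ) : ℂ) * F2 α) := by
      apply setIntegral_congr_fun measurableSet_Ioi
      intro α hα
      simp only [habs α hα]; push_cast; ring
    rw [this, integral_const_mul, hIoi 0 le_rfl, mul_neg, hσG0]
    ring

/-- `F` is the derivative of `U` along countably many sets that cover almost every point. -/
def ApDer (U F : ℝ → ℂ) : Prop :=
  ∃ 𝒯 : Set (Set ℝ), 𝒯.Countable ∧ (∀ᵐ b : ℝ, ∃ T ∈ 𝒯, b ∈ T) ∧
    ∀ T ∈ 𝒯, ∀ b ∈ T, HasDerivWithinAt U (F b) T b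

theorem ApDer.sub {U F U' F' : ℝ → ℂ} (h : ApDer U F) (h' : ApDer U' F') :
    ApDer (fun b => U b - U' b) (fun b => F b - F' b) := by
  obtain ⟨𝒯, hc, hae, hd⟩ := h
  obtain ⟨𝒯', hc', hae', hd'⟩ := h'
  refine ⟨image2 (· ∩ ·) 𝒯 𝒯', hc.image2 hc' _, ?_, ?_⟩
  · filter_upwards [hae, hae'] with b ⟨T, hT, hb⟩ ⟨T', hT', hb'⟩
    exact ⟨T ∩ T', mem_image2_of_mem hT hT', hb, hb'⟩
  · rintro _ ⟨T, hT, T', hT', rfl⟩ b hb
    exact ((hd T hT b hb.1).mono inter_subset_left).sub ((hd' T' hT' b hb.2).mono inter_subset_right)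

theorem ApDer.ae_eq {U F V G : ℝ → ℂ} (h : ApDer U F) (hUV : ∀ᵐ b : ℝ, U b = V b)
    (hV : ∀ᵐ b : ℝ, HasDerivAt V (G b) b) : ∀ᵐ b : ℝ, G b = F b := by
  obtain ⟨𝒯, hc, hae, hd⟩ := h
  set E : Set ℝ := {b | U b = V b} with hE
  have hiso : ∀ᵐ b : ℝ, ∀ T ∈ 𝒯, ¬ (b ∈ T ∩ E ∧ 𝓝[(T ∩ E) ∩ Ioi b] b = ⊥) := by
    rw [ae_ball_iff hc]
    intro T _
    have := (countable_setOfPred_isolated_right_within (s := T ∩ E)).ae_notMem volume
    filter_upwards [this] with b hb
    exact hb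
  filter_upwards [hae, hUV, hV, hiso] with b ⟨T, hT, hb⟩ hb1 hb2 hb3
  have hbE : b ∈ T ∩ E := ⟨hb, hb1⟩
  have hne : (𝓝[(T ∩ E) ∩ Ioi b] b).NeBot := ⟨fun h => hb3 T hT ⟨hbE, h⟩⟩
  have hacc : AccPt b (𝓟 (T ∩ E)) := by
    rw [accPt_principal_iff_nhdsWithin]
    refine hne.mono (nhdsWithin_mono _ ?_)
    rintro y ⟨hy1, hy2⟩
    exact ⟨hy1, fun h => (ne_of_gt hy2) h⟩
  have hu : UniqueDiffWithinAt ℝ (T ∩ E) b := hacc.uniqueDiffWithinAt
  have d1 : HasDerivWithinAt V (F b) (T ∩ E) b :=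
    ((hd T hT b hb).mono inter_subset_left).congr (fun y hy => (hy.2 : U y = V y).symm) hb1.symm
  exact hu.eq_deriv _ hb2.hasDerivWithinAt d1

/-- A locally integrable function whose integrals over intervals depend only on the length is
almost everywhere constant. -/
theorem ae_const_of_shift {V : ℝ → ℂ} (hV : LocallyIntegrable V volume)
    (h : ∀ γ δ : ℝ, ∫ b in γ..(γ + δ), V b = ∫ b in (0 : ℝ)..δ, V b) :
    ∃ c : ℂ, ∀ᵐ b : ℝ, V b = c := by
  refine ⟨deriv (fun δ : ℝ => ∫ b in (0 : ℝ)..δ, V b) 0, ?_⟩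
  filter_upwards [LocallyIntegrable.ae_hasDerivAt_integral hV] with γ hγ
  have h1 : HasDerivAt (fun x => ∫ b in γ..x, V b) (V γ) (γ + 0) := by simpa using hγ γ
  have h2 := h1.comp_const_add γ 0
  simp only [h] at h2
  exact h2.deriv.symm

end Pool.Agent.P.MP_fd5ae1_an
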