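import Pool.Agent.P.MP_fd5ae1_an.Tools

set_option autoImplicit false

open MeasureTheory Set Filter Topology Complex
open scoped ENNReal

namespace Pool.Agent.P.MP_fd5ae1_an

variable {Ω : Type} [MeasurableSpace Ω] {μ : Measure Ω} [SFinite μ] {x y u v ε : Ω → ℝ}

/-- What the area formula gives for one direction `a` and one weight. -/
structure Rep (μ : Measure Ω) (x y u v ε : Ω → ℝ) (a ξ : ℝ) (U F : ℝ → ℂ) : Prop where
  iU : Integrable U
  iF : Integrable F
  eU : ∀ φ : ℝ → ℂ, Measurable φ → (∃ C, ∀ b, ‖φ b‖ ≤ C) → ∫ b, U b * φ b =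
    ∫ ω, (ε ω : ℂ) * (((|v ω - a * u ω| : ℝ) : ℂ) * gw ξ (x ω) * φ (y ω - a * x ω)) ∂μ
  eF : ∀ φ : ℝ → ℂ, Measurable φ → (∃ C, ∀ b, ‖φ b‖ ≤ C) → ∫ b, F b * φ b =
    ∫ ω, (ε ω : ℂ) * (((|v ω - a * u ω| : ℝ) : ℂ) *
      (gw ξ (x ω) ^ 2 * (u ω / (v ω - a * u ω) : ℝ)) * φ (y ω - a * x ω)) ∂μ
  ap : ApDer U fun b => -F b

theorem abs_mul_abs_div_le (p q : ℝ) : |p| * |q / p| ≤ |q| := by
  by_cases hp : p = 0
  · simp [hp]
  · rw [← abs_mul, mul_div_cancel₀ _ hp]

omit [SFinite μ] in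
theorem Good.integrable_f (H : Good μ x y u v ε) (ξ : ℝ) :
    Integrable (fun ω => (ε ω : ℂ) * ((|u ω| : ℝ) : ℂ) * gw ξ (x ω) ^ 2) μ := by
  refine H.iu.abs.mono' ?_ (Eventually.of_forall fun ω => ?_)
  · have := H.mx; have := H.mu; have := H.me; have := measurable_gw ξ
    exact (by fun_prop : Measurable fun ω =>
      (ε ω : ℂ) * ((|u ω| : ℝ) : ℂ) * gw ξ (x ω) ^ 2).aestronglyMeasurable
  · simp only [norm_mul, Complex.norm_real, Real.norm_eq_abs, abs_abs]
    calc _ ≤ 1 * |u ω| * 1 := by gcongr; exacts [H.be ω, norm_gw_sq_le _ _]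
      _ = _ := by ring

theorem split_key (H : Good μ x y u v ε) {ρ C : ℝ} (hρ : ρ = 1 ∨ ρ = -1) {Ψ0 Ψ1 Ψ2 : ℂ → ℂ}
    (hΨ : Adm ρ C Ψ0 Ψ1 Ψ2) {ξ a0 : ℝ} (hgen : ∀ᵐ ω ∂μ, v ω - a0 * u ω = 0 → u ω = 0)
    {U F : ℝ → ℂ} (hR : Rep μ x y u v ε a0 ξ U F) :
    (∫ b : ℝ, U b * Ψ1 b) - (∫ b : ℝ, F b * Ψ0 b) + 2 * ρ *
      ∫ ω, (ε ω : ℂ) * ((|u ω| : ℝ) : ℂ) * gw ξ (x ω) ^ 2 *
        (if 0 < ρ * (v ω / u ω - a0) then
          Ψ0 (((y ω - v ω / u ω * x ω : ℝ) : ℂ) + (ξ + I) * (v ω / u ω - a0 : ℝ)) else 0) ∂μ = 0 := by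
  have hC := hΨ.nonneg
  have b0 : ∀ b : ℝ, ‖Ψ0 b‖ ≤ C := fun b => by simpa using hΨ.b0 b (by simp)
  have b1 : ∀ b : ℝ, ‖Ψ1 b‖ ≤ C := fun b => by simpa using hΨ.b1 b (by simp)
  have := H.mx; have := H.my; have := H.mu; have := H.mv; have := H.me; have := measurable_gw ξ
  have := hΨ.m0; have := hΨ.m1
  rw [hR.eU (fun b => Ψ1 b) (by fun_prop) ⟨C, b1⟩, hR.eF (fun b => Ψ0 b) (by fun_prop) ⟨C, b0⟩,
    ← integral_const_mul, ← integral_sub, ← integral_add]
  · refine Eq.trans ?_ (key_identity H hρ hΨ ξ a0 hgen)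
    congr 1; ext ω; ring
  · refine Integrable.sub ?_ ?_
    · refine ((H.iv.sub (H.iu.const_mul a0)).abs.mul_const C).mono' ?_
        (Eventually.of_forall fun ω => ?_)
      · exact Measurable.aestronglyMeasurable (by fun_prop)
      · simp only [norm_mul, Complex.norm_real, Real.norm_eq_abs, abs_abs, Pi.sub_apply]
        calc _ ≤ 1 * (|v ω - a0 * u ω| * 1 * C) := by
              gcongr; exacts [H.be ω, norm_gw_le _ _, b1 _]
          _ = _ := by ring
    · refine (H.iu.abs.mul_const C).mono' ?_ (Eventually.of_forall fun ω => ?_)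
      · exact Measurable.aestronglyMeasurable (by fun_prop)
      · simp only [norm_mul, Complex.norm_real, Real.norm_eq_abs, abs_abs]
        calc _ ≤ 1 * (|v ω - a0 * u ω| * (1 * |u ω / (v ω - a0 * u ω)|) * C) := by
              gcongr; exacts [H.be ω, norm_gw_sq_le _ _, b0 _]
          _ ≤ _ := by
              rw [one_mul, one_mul]; gcongr; exact abs_mul_abs_div_le _ _
  · refine Integrable.const_mul ?_ _
    refine (H.integrable_f ξ).mul_bdd (c := C) ?_ (Eventually.of_forall fun ω => ?_)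
    · refine Measurable.aestronglyMeasurable (Measurable.ite ?_ (by fun_prop) measurable_const)
      exact measurableSet_lt measurable_const (by fun_prop)
    · split_ifs with h
      · have e : (((y ω - v ω / u ω * x ω : ℝ) : ℂ) + (ξ + I) * (v ω / u ω - a0 : ℝ)).im =
            v ω / u ω - a0 := by simp
        have := hΨ.b0 _ (by rw [e]; exact h.le)
        rw [e] at this
        exact this.trans (div_le_self hC (by linarith))
      · simpa using hC
  · refine ((H.iv.sub (H.iu.const_mul a0)).abs.mul_const C).mono' ?_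
      (Eventually.of_forall fun ω => ?_)
    · exact Measurable.aestronglyMeasurable (by fun_prop)
    · simp only [norm_mul, Complex.norm_real, Real.norm_eq_abs, abs_abs, Pi.sub_apply]
      calc _ ≤ 1 * (|v ω - a0 * u ω| * 1 * C) := by
            gcongr; exacts [H.be ω, norm_gw_le _ _, b1 _]
        _ = _ := by ring
  · refine (H.iu.abs.mul_const C).mono' ?_ (Eventually.of_forall fun ω => ?_)
    · exact Measurable.aestronglyMeasurable (by fun_prop)
    · simp only [norm_mul, Complex.norm_real, Real.norm_eq_abs, abs_abs]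
      calc _ ≤ 1 * (|v ω - a0 * u ω| * (1 * |u ω / (v ω - a0 * u ω)|) * C) := by
            gcongr; exacts [H.be ω, norm_gw_sq_le _ _, b0 _]
        _ ≤ _ := by
            rw [one_mul, one_mul]; gcongr; exact abs_mul_abs_div_le _ _

theorem norm_inv_shift_le {ρ η : ℝ} (hρ : ρ = 1 ∨ ρ = -1) (hη : 0 ≤ η) {z : ℂ} (hz : 0 < ρ * z.im) :
    ‖(z + ρ * η * I)⁻¹‖ ≤ ‖z‖⁻¹ := by
  have hz0 : z ≠ 0 := by rintro rfl; simp at hz
  rw [norm_inv]
  refine inv_anti₀ (norm_pos_iff.mpr hz0) ?_
  refine le_of_sq_le_sq ?_ (norm_nonneg _)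
  rw [Complex.sq_norm, Complex.sq_norm, Complex.normSq_apply, Complex.normSq_apply]
  have e1 : (z + ρ * η * I).re = z.re := by simp
  have e2 : (z + ρ * η * I).im = z.im + ρ * η := by simp
  rw [e1, e2]
  rcases hρ with rfl | rfl <;> nlinarith

/-- The two one-sided Cauchy kernels put together. -/
noncomputable def twoSided (η : ℝ) (z : ℂ) : ℂ :=
  (if 0 < (-1 : ℝ) * z.im then (z + (-1 : ℝ) * η * I)⁻¹ else 0) +
    (if 0 < (1 : ℝ) * z.im then (z + (1 : ℝ) * η * I)⁻¹ else 0)

theorem measurable_twoSided (η : ℝ) : Measurable (twoSided η) := by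
  unfold twoSided
  refine Measurable.add (Measurable.ite ?_ (by fun_prop) measurable_const)
    (Measurable.ite ?_ (by fun_prop) measurable_const) <;>
  exact measurableSet_lt measurable_const (by fun_prop)

theorem norm_twoSided_le {η : ℝ} (hη : 0 ≤ η) (z : ℂ) : ‖twoSided η z‖ ≤ ‖z‖⁻¹ := by
  unfold twoSided
  split_ifs with h1 h2 h2
  · linarith
  · rw [add_zero]; exact norm_inv_shift_le (Or.inr rfl) hη h1
  · rw [zero_add]; exact norm_inv_shift_le (Or.inl rfl) hη h2
  · simp

theorem tendsto_twoSided (z : ℂ) :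
    Tendsto (fun η => twoSided η z) (𝓝[>] 0) (𝓝 (twoSided 0 z)) := by
  refine Tendsto.mono_left ?_ nhdsWithin_le_nhds
  unfold twoSided
  refine Tendsto.add ?_ ?_
  · split_ifs with h
    · have hz0 : z ≠ 0 := by rintro rfl; simp at h
      refine ContinuousAt.tendsto (f := fun η : ℝ => (z + (-1 : ℝ) * η * I)⁻¹) ?_
      exact ContinuousAt.inv₀ (by fun_prop) (by simpa using hz0)
    · exact tendsto_const_nhds
  · split_ifs with h
    · have hz0 : z ≠ 0 := by rintro rfl; simp at h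
      refine ContinuousAt.tendsto (f := fun η : ℝ => (z + (1 : ℝ) * η * I)⁻¹) ?_
      exact ContinuousAt.inv₀ (by fun_prop) (by simpa using hz0)
    · exact tendsto_const_nhds

theorem pk_eq {η : ℝ} (hη : 0 < η) (t : ℝ) :
    ((t : ℂ) + (-1 : ℝ) * η * I)⁻¹ - ((t : ℂ) + (1 : ℝ) * η * I)⁻¹ = 2 * I * (pk η t : ℝ) ∧
    -((t : ℂ) + (-1 : ℝ) * η * I)⁻¹ ^ 2 - -((t : ℂ) + (1 : ℝ) * η * I)⁻¹ ^ 2 =
      2 * I * (pk' η t : ℝ) := by
  have h1 : ((t : ℂ) + (-1 : ℝ) * η * I) ≠ 0 := by
    intro h; have := congrArg Complex.im h; simp at this; linarith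
  have h2 : ((t : ℂ) + (1 : ℝ) * η * I) ≠ 0 := by
    intro h; have := congrArg Complex.im h; simp at this; linarith
  have h3 : ((t : ℂ) ^ 2 + (η : ℂ) ^ 2) =
      ((t : ℂ) + (-1 : ℝ) * η * I) * ((t : ℂ) + (1 : ℝ) * η * I) := by
    push_cast; linear_combination ((η : ℂ) ^ 2) * Complex.I_mul_I
  simp only [pk, pk']
  rw [Complex.ofReal_div, Complex.ofReal_div, Complex.ofReal_pow, Complex.ofReal_add,
    Complex.ofReal_pow, Complex.ofReal_pow, h3]
  have h4 : (2 * I * η : ℂ) = ((t : ℂ) + (1 : ℝ) * η * I) - ((t : ℂ) + (-1 : ℝ) * η * I) := by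
    push_cast; ring
  have h5 : (2 * I * ((-(2 * t * η) : ℝ) : ℂ)) =
      ((t : ℂ) + (-1 : ℝ) * η * I) ^ 2 - ((t : ℂ) + (1 : ℝ) * η * I) ^ 2 := by
    push_cast; ring
  rw [← mul_div_assoc, ← mul_div_assoc, h4, h5]
  generalize ((t : ℂ) + (-1 : ℝ) * η * I) = A at h1
  generalize ((t : ℂ) + (1 : ℝ) * η * I) = B at h2
  constructor
  · field_simp
  · field_simp; ring

theorem third_zero (H : Good μ x y u v ε) {ξ a0 : ℝ} {U F : ℝ → ℂ} (hR : Rep μ x y u v ε a0 ξ U F)
    (hk : ∫⁻ ω, ‖u ω‖ₑ * kern (v ω / u ω - a0) ∂μ ≠ ∞) {ρ s : ℝ} (hρ : ρ = 1 ∨ ρ = -1)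
    (hs : 0 < ρ * s) :
    ∫ ω, (ε ω : ℂ) * ((|u ω| : ℝ) : ℂ) * gw ξ (x ω) ^ 2 *
        (if 0 < ρ * (v ω / u ω - a0) then cexp (s * I *
          (((y ω - v ω / u ω * x ω : ℝ) : ℂ) + (ξ + I) * (v ω / u ω - a0 : ℝ))) else 0) ∂μ = 0 := by
  have := H.mx; have := H.my; have := H.mu; have := H.mv; have := H.me; have := measurable_gw ξ
  have := measurable_kern
  have hgen : ∀ᵐ ω ∂μ, v ω - a0 * u ω = 0 → u ω = 0 := by
    filter_upwards [ae_lt_top (by fun_prop) hk] with ω hω h0
    by_contra hu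
    have : v ω / u ω - a0 = 0 := by field_simp; linarith
    rw [this, kern_zero, ENNReal.mul_top (by simpa using hu)] at hω
    exact lt_irrefl _ hω
  set ζ : Ω → ℂ := fun ω =>
    ((y ω - v ω / u ω * x ω : ℝ) : ℂ) + (ξ + I) * (v ω / u ω - a0 : ℝ) with hζ
  have hζm : Measurable ζ := by simp only [hζ]; fun_prop
  have hζim : ∀ ω (β : ℝ), (ζ ω - β).im = v ω / u ω - a0 := by intro ω β; simp [hζ]
  set f : Ω → ℂ := fun ω => (ε ω : ℂ) * ((|u ω| : ℝ) : ℂ) * gw ξ (x ω) ^ 2 with hf
  have hfm : Measurable f := by simp only [hf]; fun_prop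
  have hfb : ∀ ω, ‖f ω‖ ≤ |u ω| := by
    intro ω
    simp only [hf, norm_mul, Complex.norm_real, Real.norm_eq_abs, abs_abs]
    calc _ ≤ 1 * |u ω| * 1 := by gcongr; exacts [H.be ω, norm_gw_sq_le _ _]
      _ = _ := by ring
  set κ : ℝ → ℝ → ℂ := fun η β => -I * ∫ ω, f ω * twoSided η (ζ ω - β) ∂μ with hκ
  set K : ℝ × Ω → ℝ := fun p => |u p.2| * ‖ζ p.2 - p.1‖⁻¹ with hK
  have hKm : Measurable K := by simp only [hK]; fun_prop
  have hKi : ∀ M : ℝ, Integrable K ((volume.restrict (Icc (-M) M)).prod μ) := by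
    intro M
    obtain ⟨c, hc, hcb⟩ := exists_kern_bound M
    refine ⟨hKm.aestronglyMeasurable, ?_⟩
    rw [hasFiniteIntegral_iff_enorm, lintegral_prod_symm' _ hKm.enorm]
    refine lt_of_le_of_lt (lintegral_mono (g := fun ω => ‖u ω‖ₑ * kern (v ω / u ω - a0) * c)
      fun ω => ?_) ?_
    · refine le_trans (lintegral_mono (g := fun β : ℝ =>
        ‖u ω‖ₑ * kern (v ω / u ω - a0) * kern ((ζ ω).re - β)) fun β => ?_) ?_
      · simp only [hK, enorm_mul]
        rw [mul_assoc, Real.enorm_abs]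
        refine mul_le_mul_right ?_ _
        rw [Real.enorm_eq_ofReal (by positivity), mul_comm]
        have := ofReal_norm_inv_le (ζ ω - β)
        rwa [hζim, Complex.sub_re, Complex.ofReal_re] at this
      · rw [lintegral_const_mul _ (by fun_prop)]
        exact mul_le_mul_right (hcb _) _
    · rw [lintegral_mul_const _ (by fun_prop)]
      exact ENNReal.mul_lt_top hk.lt_top hc.lt_top
  set Φ : ℝ → ℝ := fun β => ∫ ω, K (β, ω) ∂μ with hΦ
  have hΦl : LocallyIntegrable Φ volume := by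
    rw [locallyIntegrable_iff]
    intro k hk
    obtain ⟨M, hM⟩ := hk.isBounded.subset_closedBall 0
    rw [Real.closedBall_eq_Icc, zero_sub, zero_add] at hM
    exact IntegrableOn.mono_set (hKi M).integral_prod_left hM
  have hKae : ∀ᵐ β : ℝ, Integrable (fun ω => K (β, ω)) μ := by
    have : ∀ᵐ β : ℝ, ∀ n : ℕ, β ∈ Icc (-(n : ℝ)) n → Integrable (fun ω => K (β, ω)) μ :=
      ae_all_iff.mpr fun n => (ae_restrict_iff' measurableSet_Icc).mp (hKi n).prod_right_ae
    filter_upwards [this] with β hβ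
    obtain ⟨n, hn⟩ := exists_nat_ge |β|
    exact hβ n (abs_le.mp hn)
  have hbd0 : ∀ η : ℝ, 0 ≤ η → ∀ (β : ℝ) ω, ‖f ω * twoSided η (ζ ω - β)‖ ≤ K (β, ω) := by
    intro η hη β ω
    rw [norm_mul]
    exact mul_le_mul (hfb ω) (norm_twoSided_le hη _) (norm_nonneg _) (abs_nonneg _)
  have hmeas : ∀ η β : ℝ, AEStronglyMeasurable (fun ω => f ω * twoSided η (ζ ω - β)) μ := by
    intro η β
    have := measurable_twoSided η
    exact Measurable.aestronglyMeasurable (by fun_prop)
  obtain ⟨hκ0, c, hc⟩ := poisson_limit hR.iU hR.iF κ (κ 0) Φ hΦl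
    (fun η hη => by
      filter_upwards [hKae] with β hβ
      simp only [hκ, norm_mul, norm_neg, Complex.norm_I, one_mul]
      exact norm_integral_le_of_norm_le hβ (Eventually.of_forall (hbd0 η hη.1.le β)))
    (by
      filter_upwards [hKae] with β hβ
      refine Tendsto.const_mul _ ?_
      refine tendsto_integral_filter_of_dominated_convergence (fun ω => K (β, ω))
        (Eventually.of_forall fun η => hmeas η β) ?_ hβ
        (Eventually.of_forall fun ω => (tendsto_twoSided _).const_mul _)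
      filter_upwards [self_mem_nhdsWithin] with η hη
      exact Eventually.of_forall (hbd0 η (le_of_lt hη) β))
    (fun η hη β => by
      have k1 := split_key H (Or.inl rfl) (adm_rat (Or.inl rfl) β hη) hgen hR
      have k2 := split_key H (Or.inr rfl) (adm_rat (Or.inr rfl) β hη) hgen hR
      have ib : ∀ {ρ : ℝ}, (ρ = 1 ∨ ρ = -1) → ∀ {G : ℝ → ℂ}, Integrable G →
          Integrable (fun b : ℝ => G b * ((b : ℂ) - β + ρ * η * I)⁻¹) ∧
          Integrable (fun b : ℝ => G b * -((b : ℂ) - β + ρ * η * I)⁻¹ ^ 2) := by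
        intro ρ hρ G hG
        have A := adm_rat hρ β hη
        constructor
        · refine hG.mul_bdd (c := 2 / η ^ 3) (Measurable.aestronglyMeasurable (by fun_prop))
            (Eventually.of_forall fun b => ?_)
          simpa using A.b0 b (by simp)
        · refine hG.mul_bdd (c := 2 / η ^ 3) (Measurable.aestronglyMeasurable (by fun_prop))
            (Eventually.of_forall fun b => ?_)
          simpa using A.b1 b (by simp)
      have e1 : (∫ b : ℝ, U b * -((b : ℂ) - β + (-1 : ℝ) * η * I)⁻¹ ^ 2) -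
          (∫ b : ℝ, U b * -((b : ℂ) - β + (1 : ℝ) * η * I)⁻¹ ^ 2) =
          2 * I * ∫ b, U b * (pk' η (b - β) : ℂ) := by
        rw [← integral_sub (ib (Or.inr rfl) hR.iU).2 (ib (Or.inl rfl) hR.iU).2,
          ← integral_const_mul]
        congr 1; ext b
        have := (pk_eq hη.1 (b - β)).2
        rw [Complex.ofReal_sub] at this
        rw [← mul_sub, this]; ring
      have e2 : (∫ b : ℝ, F b * ((b : ℂ) - β + (-1 : ℝ) * η * I)⁻¹) -
          (∫ b : ℝ, F b * ((b : ℂ) - β + (1 : ℝ) * η * I)⁻¹) =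
          2 * I * ∫ b, F b * (pk η (b - β) : ℂ) := by
        rw [← integral_sub (ib (Or.inr rfl) hR.iF).1 (ib (Or.inl rfl) hR.iF).1,
          ← integral_const_mul]
        congr 1; ext b
        have := (pk_eq hη.1 (b - β)).1
        rw [Complex.ofReal_sub] at this
        rw [← mul_sub, this]; ring
      have ic : ∀ {ρ : ℝ}, (ρ = 1 ∨ ρ = -1) → Integrable (fun ω => f ω *
          (if 0 < ρ * (v ω / u ω - a0) then (ζ ω - β + ρ * η * I)⁻¹ else 0)) μ := by
        intro ρ hρ
        have A := adm_rat hρ β hη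
        refine (H.integrable_f ξ).mul_bdd (c := 2 / η ^ 3) ?_ (Eventually.of_forall fun ω => ?_)
        · refine Measurable.aestronglyMeasurable (Measurable.ite ?_ (by fun_prop) measurable_const)
          exact measurableSet_lt measurable_const (by fun_prop)
        · split_ifs with h
          · have e : (ζ ω).im = v ω / u ω - a0 := by simp [hζ]
            have := A.b0 (ζ ω) (by rw [e]; exact h.le)
            rw [e] at this
            exact this.trans (div_le_self A.nonneg (by linarith))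
          · simpa using A.nonneg
      have e3 : ∫ ω, f ω * twoSided η (ζ ω - β) ∂μ =
          (∫ ω, f ω * (if 0 < (-1 : ℝ) * (v ω / u ω - a0) then
            (ζ ω - β + (-1 : ℝ) * η * I)⁻¹ else 0) ∂μ) +
          ∫ ω, f ω * (if 0 < (1 : ℝ) * (v ω / u ω - a0) then
            (ζ ω - β + (1 : ℝ) * η * I)⁻¹ else 0) ∂μ := by
        rw [← integral_add (ic (Or.inr rfl)) (ic (Or.inl rfl))]
        congr 1; ext ω
        rw [twoSided, hζim, mul_add]
      simp only [hκ]
      rw [e3]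
      have h2I : (2 * I : ℂ) ≠ 0 := by simp
      refine mul_left_cancel₀ h2I ?_
      rw [mul_sub, ← e1, ← e2]
      set A := ∫ ω, f ω * (if 0 < (-1 : ℝ) * (v ω / u ω - a0) then
            (ζ ω - β + (-1 : ℝ) * η * I)⁻¹ else 0) ∂μ with hA
      set B := ∫ ω, f ω * (if 0 < (1 : ℝ) * (v ω / u ω - a0) then
            (ζ ω - β + (1 : ℝ) * η * I)⁻¹ else 0) ∂μ with hB
      change _ + 2 * ((1 : ℝ) : ℂ) * B = 0 at k1
      change _ + 2 * ((-1 : ℝ) : ℂ) * A = 0 at k2
      rw [Complex.ofReal_one] at k1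
      rw [Complex.ofReal_neg, Complex.ofReal_one] at k2
      rw [Complex.ofReal_neg, Complex.ofReal_one]
      linear_combination k2 - k1 + 2 * (A + B) * Complex.I_mul_I)
  have hπ : (Real.pi : ℂ) ≠ 0 := by exact_mod_cast Real.pi_ne_zero
  have hHl : LocallyIntegrable (fun b => Real.pi * F b + κ 0 b) volume :=
    (hR.iF.const_mul _).locallyIntegrable.add hκ0
  have hap := hR.ap.ae_eq
    (V := fun β => (Real.pi : ℂ)⁻¹ * (c - ∫ b in (0 : ℝ)..β, (Real.pi * F b + κ 0 b)))
    (G := fun β => (Real.pi : ℂ)⁻¹ * (-(Real.pi * F β + κ 0 β)))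
    (by filter_upwards [hc] with β hβ; rw [← hβ]; field_simp)
    (by
      filter_upwards [LocallyIntegrable.ae_hasDerivAt_integral hHl] with β hβ
      exact ((hβ 0).const_sub c).const_mul _)
  have hκz : ∀ᵐ β : ℝ, κ 0 β = 0 := by
    filter_upwards [hap] with β hβ
    field_simp at hβ
    linear_combination -hβ
  have hprim : ∀ᵐ β : ℝ, U β = (Real.pi : ℂ)⁻¹ * c - ∫ b in (0 : ℝ)..β, F b := by
    filter_upwards [hc] with β hβ
    have e : ∫ b in (0 : ℝ)..β, (Real.pi * F b + κ 0 b) = Real.pi * ∫ b in (0 : ℝ)..β, F b := by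
      rw [← intervalIntegral.integral_const_mul]
      refine intervalIntegral.integral_congr_ae ?_
      filter_upwards [hκz] with b hb _
      rw [hb, add_zero]
    rw [e] at hβ
    field_simp
    linear_combination hβ
  have hs0 : s ≠ 0 := by rintro rfl; simp at hs
  have hfo := fourier_of_primitive hR.iU hR.iF hprim hs0
  obtain ⟨C, hA⟩ := adm_exp hρ hs
  have k := split_key H hρ hA hgen hR
  rw [hfo, sub_self, zero_add] at k
  have hρ0 : (2 * ρ : ℂ) ≠ 0 := by rcases hρ with rfl | rfl <;> norm_num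
  exact (mul_eq_zero.mp k).resolve_left hρ0

theorem ae_generic (H : Good μ x y u v ε) :
    ∀ᵐ a0 : ℝ, ∫⁻ ω, ‖u ω‖ₑ * kern (v ω / u ω - a0) ∂μ ≠ ∞ := by
  have := H.mu; have := H.mv; have := measurable_kern
  have hm : Measurable fun p : ℝ × Ω => ‖u p.2‖ₑ * kern (v p.2 / u p.2 - p.1) := by fun_prop
  have : ∀ᵐ a0 : ℝ, ∀ n : ℕ, a0 ∈ Icc (-(n : ℝ)) n →
      ∫⁻ ω, ‖u ω‖ₑ * kern (v ω / u ω - a0) ∂μ < ∞ := by
    refine ae_all_iff.mpr fun n => (ae_restrict_iff' measurableSet_Icc).mp ?_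
    obtain ⟨c, hc, hcb⟩ := exists_kern_bound n
    refine ae_lt_top hm.lintegral_prod_right' (ne_of_lt ?_)
    rw [lintegral_lintegral_swap hm.aemeasurable]
    refine lt_of_le_of_lt (lintegral_mono (g := fun ω => ‖u ω‖ₑ * c) fun ω => ?_) ?_
    · simp only
      rw [lintegral_const_mul _ (by fun_prop)]
      exact mul_le_mul_right (hcb _) _
    · rw [lintegral_mul_const _ (by fun_prop)]
      exact ENNReal.mul_lt_top H.iu.2 hc.lt_top
  filter_upwards [this] with a0 h
  obtain ⟨n, hn⟩ := exists_nat_ge |a0|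
  exact (h n (abs_le.mp hn)).ne

theorem char_zero (H : Good μ x y u v ε) (hS : ∀ a ξ, ∃ U F, Rep μ x y u v ε a ξ U F)
    (ξ : ℝ) {s : ℝ} (hs : s ≠ 0) (t : ℝ) :
    ∫ ω, (ε ω : ℂ) * ((|u ω| : ℝ) : ℂ) *
      cexp (((s * (y ω - v ω / u ω * x ω) + t * (v ω / u ω) : ℝ) : ℂ) * I) *
        gw ξ (x ω) ^ 2 ∂μ = 0 := by
  have := H.mx; have := H.my; have := H.mu; have := H.mv; have := H.me; have := measurable_gw ξ
  obtain ⟨ρ, hρ, hρs⟩ : ∃ ρ : ℝ, (ρ = 1 ∨ ρ = -1) ∧ 0 < ρ * s := by
    rcases lt_or_gt_of_ne hs with h | h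
    · exact ⟨-1, Or.inr rfl, by linarith⟩
    · exact ⟨1, Or.inl rfl, by linarith⟩
  set l : ℂ := s * I * (ξ + I) - t * I with hl
  have hlre : l.re = -s := by simp [hl]
  have hl0 : l ≠ 0 := by
    intro h; rw [h] at hlre; simp at hlre; exact hs hlre
  set E : ℝ → ℂ := fun α => if 0 < ρ * α then cexp (l * α) else 0 with hE
  have hEm : Measurable E :=
    Measurable.ite (measurableSet_lt measurable_const (by fun_prop)) (by fun_prop) measurable_const
  have hEi : Integrable E ∧ ∫ α, E α ≠ 0 := by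
    rcases hρ with rfl | rfl
    · have e : E = (Ioi (0 : ℝ)).indicator fun α => cexp (l * α) := by
        ext α; simp [hE, indicator]
      have hneg : l.re < 0 := by rw [hlre]; linarith
      rw [e, integrable_indicator_iff measurableSet_Ioi, integral_indicator measurableSet_Ioi,
        integral_exp_mul_complex_Ioi hneg]
      exact ⟨integrableOn_exp_mul_complex_Ioi hneg 0, by simpa using hl0⟩
    · have e : E = (Iio (0 : ℝ)).indicator fun α => cexp (l * α) := by
        ext α; simp [hE, indicator]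
      have hpos : 0 < l.re := by rw [hlre]; linarith
      rw [e, integrable_indicator_iff measurableSet_Iio, integral_indicator measurableSet_Iio,
        ← integral_Iic_eq_integral_Iio, integral_exp_mul_complex_Iic hpos]
      exact ⟨(integrableOn_exp_mul_complex_Iic hpos 0).mono_set Iio_subset_Iic_self,
        by simpa using hl0⟩
  set f : Ω → ℂ := fun ω => (ε ω : ℂ) * ((|u ω| : ℝ) : ℂ) *
      cexp (((s * (y ω - v ω / u ω * x ω) + t * (v ω / u ω) : ℝ) : ℂ) * I) *
        gw ξ (x ω) ^ 2 with hf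
  have hfm : Measurable f := by simp only [hf]; fun_prop
  have hfi : Integrable f μ := by
    have := (H.integrable_f ξ).mul_bdd (c := 1) (g := fun ω =>
      cexp (((s * (y ω - v ω / u ω * x ω) + t * (v ω / u ω) : ℝ) : ℂ) * I))
      (Measurable.aestronglyMeasurable (by fun_prop))
      (Eventually.of_forall fun ω => (Complex.norm_exp_ofReal_mul_I _).le)
    refine this.congr (Eventually.of_forall fun ω => ?_)
    simp only [hf]; ring
  set K : ℝ → Ω → ℂ := fun a0 ω => f ω * E (v ω / u ω - a0) with hK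
  have hKi : Integrable (Function.uncurry K) (volume.prod μ) := by
    rw [integrable_prod_iff' (Measurable.aestronglyMeasurable (by simp only [hK]; fun_prop))]
    refine ⟨Eventually.of_forall fun ω =>
      (hEi.1.comp_sub_left (v ω / u ω)).const_mul (f ω), ?_⟩
    refine (hfi.norm.mul_const (∫ α, ‖E α‖)).congr (Eventually.of_forall fun ω => ?_)
    simp only [Function.uncurry, hK, norm_mul]
    rw [integral_const_mul, integral_sub_left_eq_self (fun α => ‖E α‖)]
  have hL : ∫ a0, ∫ ω, K a0 ω ∂μ = 0 := by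
    refine integral_eq_zero_of_ae ?_
    filter_upwards [ae_generic H] with a0 hk
    obtain ⟨U, F, hR⟩ := hS a0 ξ
    have := third_zero H hR hk hρ hρs
    rw [Pi.zero_apply, ← mul_zero (cexp (t * a0 * I)), ← this, ← integral_const_mul]
    congr 1; ext ω
    simp only [hK, hf, hE]
    split_ifs
    · have : cexp (((s * (y ω - v ω / u ω * x ω) + t * (v ω / u ω) : ℝ) : ℂ) * I) *
          cexp (l * (v ω / u ω - a0 : ℝ)) = cexp (t * a0 * I) * cexp (s * I *
          (((y ω - v ω / u ω * x ω : ℝ) : ℂ) + (ξ + I) * (v ω / u ω - a0 : ℝ))) := by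
        rw [← Complex.exp_add, ← Complex.exp_add]; congr 1; simp only [hl]; push_cast; ring
      linear_combination ((ε ω : ℂ) * ((|u ω| : ℝ) : ℂ) * gw ξ (x ω) ^ 2) * this
    · simp
  rw [integral_integral_swap hKi] at hL
  have e : ∫ ω, ∫ a0, K a0 ω ∂volume ∂μ = (∫ ω, f ω ∂μ) * ∫ α, E α := by
    rw [← integral_mul_const]
    congr 1; ext ω
    simp only [hK]
    rw [integral_const_mul, integral_sub_left_eq_self E]
  rw [e] at hL
  exact (mul_eq_zero.mp hL).resolve_right hEi.2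

/-- The abstract uniqueness theorem. -/
theorem core (H : Good μ x y u v ε) (hS : ∀ a ξ, ∃ U F, Rep μ x y u v ε a ξ U F)
    {S : Set (ℝ × ℝ)} (hSm : MeasurableSet S) :
    ∫ ω in {ω | (x ω, y ω) ∈ S}, ε ω * |u ω| ∂μ = 0 := by
  have := H.mx; have := H.my; have := H.mu; have := H.mv; have := H.me
  have hfi : Integrable (fun ω => ε ω * |u ω|) μ := by
    refine H.iu.abs.mono' (Measurable.aestronglyMeasurable (by fun_prop))
      (Eventually.of_forall fun ω => ?_)
    rw [norm_mul, Real.norm_eq_abs, Real.norm_eq_abs, abs_abs]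
    exact mul_le_of_le_one_left (abs_nonneg _) (H.be ω)
  set b : Ω → ℝ := fun ω => y ω - v ω / u ω * x ω with hb
  set m : Ω → ℝ := fun ω => v ω / u ω with hm
  have hbm : Measurable b := by simp only [hb]; fun_prop
  have hmm : Measurable m := by simp only [hm]; fun_prop
  set G : ℝ → ℝ → ℝ → ℂ := fun s t r => ∫ ω, ((ε ω * |u ω| : ℝ) : ℂ) *
    cexp (((s * b ω + t * m ω + r * x ω : ℝ) : ℂ) * I) ∂μ with hG
  have hneg : ∀ s, s ≠ 0 → ∀ t r, 0 < r → G s t (-r) = 0 := by
    intro s hs t r hr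
    have := fourier_of_cauchy (μ := μ) (f := fun ω => (ε ω : ℂ) * ((|u ω| : ℝ) : ℂ) *
      cexp (((s * b ω + t * m ω : ℝ) : ℂ) * I)) ?_ H.mx (fun ξ => char_zero H hS ξ hs t) hr
    · rw [← this]; simp only [hG]
      congr 1; ext ω
      rw [mul_assoc ((ε ω : ℂ) * _), ← Complex.exp_add]
      congr 1
      · push_cast; ring
      · congr 1; push_cast; ring
    · have := hfi.ofReal.mul_bdd (c := 1) (g := fun ω => cexp (((s * b ω + t * m ω : ℝ) : ℂ) * I))
        (Measurable.aestronglyMeasurable (by fun_prop))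
        (Eventually.of_forall fun ω => (Complex.norm_exp_ofReal_mul_I _).le)
      refine this.congr (Eventually.of_forall fun ω => ?_)
      simp
  have hconj : ∀ s t r, G (-s) (-t) (-r) = starRingEnd ℂ (G s t r) := by
    intro s t r
    simp only [hG]
    rw [← integral_conj]
    congr 1; ext ω
    rw [map_mul, Complex.conj_ofReal, ← Complex.exp_conj, map_mul, Complex.conj_ofReal,
      Complex.conj_I]
    congr 2; push_cast; ring
  have hne : ∀ s, s ≠ 0 → ∀ t r, r ≠ 0 → G s t r = 0 := by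
    intro s hs t r hr
    rcases lt_or_gt_of_ne hr with h | h
    · simpa using hneg s hs t (-r) (by linarith)
    · have := hneg (-s) (neg_ne_zero.mpr hs) (-t) r h
      rw [hconj] at this
      simpa using this
  have hcont : Continuous fun p : ℝ × ℝ × ℝ => G p.1 p.2.1 p.2.2 := by
    refine continuous_of_dominated (bound := fun ω => ‖ε ω * |u ω|‖)
      (fun p => Measurable.aestronglyMeasurable (by fun_prop))
      (fun p => Eventually.of_forall fun ω => ?_) hfi.norm
      (Eventually.of_forall fun ω => by fun_prop)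
    rw [norm_mul, Complex.norm_exp_ofReal_mul_I, mul_one, Complex.norm_real]
  have hne' : ∀ s, s ≠ 0 → ∀ t r, G s t r = 0 := by
    intro s hs t
    have hc : Continuous fun r => G s t r :=
      hcont.comp (continuous_const.prodMk (continuous_const.prodMk continuous_id))
    have := Continuous.ext_on (dense_compl_singleton (0 : ℝ)) hc continuous_const
      (fun r hr => hne s hs t r hr)
    exact fun r => congrFun this r
  have hall : ∀ s t r, G s t r = 0 := by
    intro s t r
    have hc : Continuous fun s => G s t r :=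
      hcont.comp (f := fun s : ℝ => (s, t, r)) (by fun_prop)
    have := Continuous.ext_on (dense_compl_singleton (0 : ℝ)) hc continuous_const
      (fun s hs => hne' s hs t r)
    exact congrFun this s
  set Z : Ω → EuclideanSpace ℝ (Fin 3) := fun ω => WithLp.toLp 2 ![b ω, m ω, x ω] with hZ
  have hZm : Measurable Z := by
    refine (WithLp.measurable_toLp 2 _).comp (measurable_pi_lambda _ fun i => ?_)
    fin_cases i <;> simpa
  have hmap : Measurable fun z : EuclideanSpace ℝ (Fin 3) => (z 2, z 0 + z 1 * z 2) := by fun_prop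
  have := setIntegral_eq_zero_of_fourier (μ := μ) (f := fun ω => ε ω * |u ω|) (by fun_prop) hfi hZm
    (fun ξ => by
      rw [← hall (ξ 0) (ξ 1) (ξ 2)]
      simp only [hG]
      congr 1; ext ω
      congr 4
      simp [hZ, PiLp.inner_apply, Fin.sum_univ_three]) (hmap hSm)
  convert this using 2
  congr 1
  ext ω
  simp [hZ, hb, hm]

end Pool.Agent.P.MP_fd5ae1_an
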