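import Pool.Agent.P.MP_fd5ae1_an.Poisson

set_option autoImplicit false

open MeasureTheory Set Filter Topology Complex

namespace Pool.Agent.P.MP_fd5ae1_an

/-- The weight `1 / (r - (ξ + i))`. -/
noncomputable def gw (ξ r : ℝ) : ℂ := ((r : ℂ) - (ξ + I))⁻¹

theorem one_le_norm_sub (ξ r : ℝ) : 1 ≤ ‖(r : ℂ) - (ξ + I)‖ := by
  have := Complex.abs_im_le_norm ((r : ℂ) - (ξ + I))
  simpa using this

theorem sub_ne_zero_w (ξ r : ℝ) : (r : ℂ) - (ξ + I) ≠ 0 := by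
  intro h; have := one_le_norm_sub ξ r; rw [h] at this; norm_num at this

theorem norm_gw_le (ξ r : ℝ) : ‖gw ξ r‖ ≤ 1 := by
  rw [gw, norm_inv]; exact inv_le_one_of_one_le₀ (one_le_norm_sub ξ r)

theorem norm_gw_sq_le (ξ r : ℝ) : ‖gw ξ r ^ 2‖ ≤ 1 := by
  rw [norm_pow]; exact pow_le_one₀ (norm_nonneg _) (norm_gw_le ξ r)

theorem hasDerivAt_gw (ξ r : ℝ) : HasDerivAt (gw ξ) (-(gw ξ r ^ 2)) r := by
  have h1 : HasDerivAt (fun z : ℂ => (z - (ξ + I))⁻¹) (-1 / ((r : ℂ) - (ξ + I)) ^ 2) r :=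
    ((hasDerivAt_id (r : ℂ)).sub_const _).inv (sub_ne_zero_w ξ r)
  have e : -(gw ξ r ^ 2) = -1 / ((r : ℂ) - (ξ + I)) ^ 2 := by
    simp only [gw]; field_simp
  rw [e]; exact h1.comp_ofReal

theorem measurable_gw (ξ : ℝ) : Measurable (gw ξ) := by
  unfold gw; fun_prop

/-- Admissible test functions: holomorphic on a closed half plane, with decay. -/
structure Adm (ρ C : ℝ) (Ψ0 Ψ1 Ψ2 : ℂ → ℂ) : Prop where
  m0 : Measurable Ψ0
  m1 : Measurable Ψ1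
  m2 : Measurable Ψ2
  d0 : ∀ z : ℂ, 0 ≤ ρ * z.im → HasDerivAt Ψ0 (Ψ1 z) z
  d1 : ∀ z : ℂ, 0 ≤ ρ * z.im → HasDerivAt Ψ1 (Ψ2 z) z
  b0 : ∀ z : ℂ, 0 ≤ ρ * z.im → ‖Ψ0 z‖ ≤ C / (1 + ρ * z.im)
  b1 : ∀ z : ℂ, 0 ≤ ρ * z.im → ‖Ψ1 z‖ ≤ C / (1 + ρ * z.im) ^ 2
  b2 : ∀ z : ℂ, 0 ≤ ρ * z.im → ‖Ψ2 z‖ ≤ C / (1 + ρ * z.im) ^ 3

theorem Adm.nonneg {ρ C : ℝ} {Ψ0 Ψ1 Ψ2 : ℂ → ℂ} (h : Adm ρ C Ψ0 Ψ1 Ψ2) : 0 ≤ C := by
  have := h.b0 0 (by simp)
  simp only [zero_im, mul_zero, add_zero, div_one] at this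
  exact (norm_nonneg _).trans this

theorem weight_bound {C α p q : ℝ} (hC : 0 ≤ C) (hα : 0 ≤ α) :
    |p - α * q| * (C / (1 + α) ^ 3) ≤ (|p| + |q|) * C * (1 + α ^ 2)⁻¹ := by
  have h1 : |p - α * q| ≤ (|p| + |q|) * (1 + α) := by
    have : |p - α * q| ≤ |p| + α * |q| := by
      have := abs_sub p (α * q)
      rwa [abs_mul, abs_of_nonneg hα] at this
    nlinarith [abs_nonneg p, abs_nonneg q, mul_nonneg hα (abs_nonneg p)]
  have h2 : (1 + α) / (1 + α) ^ 3 ≤ (1 + α ^ 2)⁻¹ := by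
    rw [inv_eq_one_div, div_le_div_iff₀ (by positivity) (by positivity)]
    nlinarith [mul_nonneg hα hα, mul_nonneg (mul_nonneg hα hα) hα]
  calc |p - α * q| * (C / (1 + α) ^ 3) ≤ (|p| + |q|) * (1 + α) * (C / (1 + α) ^ 3) := by gcongr
    _ = (|p| + |q|) * C * ((1 + α) / (1 + α) ^ 3) := by ring
    _ ≤ _ := by gcongr

/-- The pointwise identity along one dual line. -/
theorem pointwise_identity {ρ C : ℝ} (hρ : ρ = 1 ∨ ρ = -1) {Ψ0 Ψ1 Ψ2 : ℂ → ℂ}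
    (hΨ : Adm ρ C Ψ0 Ψ1 Ψ2) (ξ a0 x y u v : ℝ) (hgen : v - a0 * u = 0 → u = 0) :
    ∫ α in Ioi (0 : ℝ), ((|v - (a0 + ρ * α) * u| : ℝ) : ℂ) *
        Ψ2 (((y - (a0 + ρ * α) * x : ℝ) : ℂ) + (ξ + I) * (ρ * α : ℝ)) =
      ρ * (((|v - a0 * u| : ℝ) : ℂ) * gw ξ x * Ψ1 ((y - a0 * x : ℝ) : ℂ) -
        ((|v - a0 * u| : ℝ) : ℂ) * (gw ξ x ^ 2 * (u / (v - a0 * u) : ℝ)) * Ψ0 ((y - a0 * x : ℝ) : ℂ) +
        2 * ρ * ((|u| : ℝ) : ℂ) * gw ξ x ^ 2 *
          (if 0 < ρ * (v / u - a0) then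
            Ψ0 (((y - v / u * x : ℝ) : ℂ) + (ξ + I) * (v / u - a0 : ℝ)) else 0)) := by
  have hρ2 : ρ * ρ = 1 := by rcases hρ with rfl | rfl <;> norm_num
  have hρ2' : (ρ : ℂ) * ρ = 1 := by exact_mod_cast hρ2
  have hρabs : |ρ| = 1 := by rcases hρ with rfl | rfl <;> norm_num
  have hρ0 : ρ ≠ 0 := by rcases hρ with rfl | rfl <;> norm_num
  set g : ℂ := gw ξ x with hg
  set d : ℂ := (ξ + I) - x with hd
  have hgd : g * d = -1 := by
    have := sub_ne_zero_w ξ x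
    simp only [hg, hd, gw]; field_simp; ring
  set h : ℝ := y - a0 * x with hh
  set p : ℝ := v - a0 * u with hp
  set q : ℝ := ρ * u with hq
  set z : ℝ → ℂ := fun α => (h : ℂ) + ρ * d * α with hz
  have hzim : ∀ α : ℝ, ρ * (z α).im = α := by
    intro α; simp only [hz, hd]; simp; rw [← mul_assoc, hρ2, one_mul]
  have hzeq : ∀ α : ℝ, (((y - (a0 + ρ * α) * x : ℝ) : ℂ) + (ξ + I) * (ρ * α : ℝ)) = z α := by
    intro α; simp only [hz, hd, hh]; push_cast; ring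
  have hpq : ∀ α : ℝ, v - (a0 + ρ * α) * u = p - α * q := by
    intro α; simp only [hp, hq]; ring
  have hder : ∀ {A B : ℂ → ℂ}, (∀ z : ℂ, 0 ≤ ρ * z.im → HasDerivAt A (B z) z) →
      ∀ α : ℝ, 0 ≤ α → HasDerivAt (fun α : ℝ => A (z α)) (B (z α) * (ρ * d)) α := by
    intro A B hAB α hα
    have h1 : HasDerivAt (fun τ : ℂ => (h : ℂ) + ρ * d * τ) (ρ * d) (α : ℂ) := by
      simpa using ((hasDerivAt_id (α : ℂ)).const_mul (ρ * d)).const_add (h : ℂ)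
    have h2 := (hAB (z α) (by rw [hzim]; exact hα)).comp (α : ℂ) h1
    exact h2.comp_ofReal
  have hC := hΨ.nonneg
  have hg1 : ‖g‖ ≤ 1 := norm_gw_le ξ x
  have key := kink_integral (fun α => g ^ 2 * Ψ0 (z α)) (fun α => -(ρ * g) * Ψ1 (z α))
    (fun α => Ψ2 (z α)) p q (fun h0 => by rw [hq, hgen h0, mul_zero])
    (fun α hα => by
      have := (hder hΨ.d0 α hα).const_mul (g ^ 2)
      have e : -(ρ * g) * Ψ1 (z α) = g ^ 2 * (Ψ1 (z α) * (ρ * d)) := by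
        linear_combination (-(ρ * g * Ψ1 (z α))) * hgd
      rw [e]; exact this)
    (fun α hα => by
      have := (hder hΨ.d1 α hα).const_mul (-(ρ * g))
      have e : Ψ2 (z α) = -(ρ * g) * (Ψ2 (z α) * (ρ * d)) := by
        linear_combination (ρ * ρ * Ψ2 (z α)) * hgd - Ψ2 (z α) * hρ2'
      rw [e]; exact this)
    (by
      refine Integrable.mono' ((integrable_inv_one_add_sq.const_mul ((|p| + |q|) * C)).integrableOn)
        ?_ ?_
      · have : Measurable z := by simp only [hz]; fun_prop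
        have := hΨ.m2
        exact (by fun_prop : Measurable fun α : ℝ =>
          ((p - α * q : ℝ) : ℂ) * Ψ2 (z α)).aestronglyMeasurable
      · filter_upwards [ae_restrict_mem measurableSet_Ioi] with α hα
        have hα' : 0 ≤ α := le_of_lt hα
        have := hΨ.b2 (z α) (by rw [hzim]; exact hα')
        rw [hzim] at this
        rw [norm_mul, Complex.norm_real, Real.norm_eq_abs]
        exact le_trans (by gcongr) (weight_bound hC hα'))
    (by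
      have hlim : Tendsto (fun α : ℝ => ((|p| + |q|) * C + |q| * C) * (1 + α)⁻¹) atTop (𝓝 0) := by
        simpa using (tendsto_inv_atTop_zero.comp
          (tendsto_atTop_add_const_left atTop 1 tendsto_id)).const_mul ((|p| + |q|) * C + |q| * C)
      refine squeeze_zero_norm' ?_ hlim
      filter_upwards [eventually_ge_atTop 0] with α hα
      have b0 := hΨ.b0 (z α) (by rw [hzim]; exact hα)
      have b1 := hΨ.b1 (z α) (by rw [hzim]; exact hα)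
      rw [hzim] at b0 b1
      have h1 : |p - α * q| ≤ (|p| + |q|) * (1 + α) := by
        have : |p - α * q| ≤ |p| + α * |q| := by
          have := abs_sub p (α * q)
          rwa [abs_mul, abs_of_nonneg hα] at this
        nlinarith [abs_nonneg p, abs_nonneg q, mul_nonneg hα (abs_nonneg p)]
      refine (norm_add_le _ _).trans ?_
      simp only [norm_mul, norm_neg, Complex.norm_real, Real.norm_eq_abs, hρabs, norm_pow]
      have h2 : ‖g‖ ^ 2 ≤ 1 := pow_le_one₀ (norm_nonneg _) hg1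
      calc |p - α * q| * (1 * ‖g‖ * ‖Ψ1 (z α)‖) + |q| * (‖g‖ ^ 2 * ‖Ψ0 (z α)‖)
          ≤ (|p| + |q|) * (1 + α) * (1 * 1 * (C / (1 + α) ^ 2)) + |q| * (1 * (C / (1 + α))) := by
            gcongr
        _ = ((|p| + |q|) * C + |q| * C) * (1 + α)⁻¹ := by field_simp)
  simp only [hzeq, hpq]
  rw [key]
  have hz0 : z 0 = (h : ℂ) := by simp [hz]
  rw [hz0]
  by_cases hu : u = 0
  · simp [hq, hu]; ring
  have hpq' : p / q = ρ * (v / u - a0) := by
    simp only [hp, hq]; field_simp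
    rw [pow_two, hρ2, mul_one]
  have hzc : z (p / q) = (((y - v / u * x : ℝ) : ℂ) + (ξ + I) * (v / u - a0 : ℝ)) := by
    rw [hpq']; simp only [hz, hd, hh]; push_cast
    linear_combination ((ξ + I - x) * (v / u - a0)) * hρ2'
  have hqabs : |q| = |u| := by rw [hq, abs_mul, hρabs, one_mul]
  rw [hzc, hpq', hqabs]
  have e1 : ((|p| / p * q : ℝ) : ℂ) = ρ * (|p| : ℝ) * (u / p : ℝ) := by
    rw [hq]; push_cast; ring
  rw [e1]
  split_ifs
  · linear_combination (-2 * ((|u| : ℝ) : ℂ) * g ^ 2 *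
      Ψ0 (((y - v / u * x : ℝ) : ℂ) + (ξ + I) * (v / u - a0 : ℝ))) * hρ2'
  · ring

/-- Standing assumptions on the abstract data: position `(x, y)`, velocity `(u, v)`, sign `ε`. -/
structure Good {Ω : Type} [MeasurableSpace Ω] (μ : Measure Ω) (x y u v ε : Ω → ℝ) : Prop where
  mx : Measurable x
  my : Measurable y
  mu : Measurable u
  mv : Measurable v
  me : Measurable ε
  be : ∀ ω, |ε ω| ≤ 1
  iu : Integrable u μ
  iv : Integrable v μ
  van : ∀ᵐ a : ℝ, ∀ φ : ℝ → ℂ, Measurable φ → (∃ C, ∀ b, ‖φ b‖ ≤ C) →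
    ∫ ω, (ε ω : ℂ) * ((|v ω - a * u ω| : ℝ) : ℂ) * φ (y ω - a * x ω) ∂μ = 0

variable {Ω : Type} [MeasurableSpace Ω] {μ : Measure Ω} [SFinite μ] {x y u v ε : Ω → ℝ}

theorem key_identity (H : Good μ x y u v ε) {ρ C : ℝ} (hρ : ρ = 1 ∨ ρ = -1) {Ψ0 Ψ1 Ψ2 : ℂ → ℂ}
    (hΨ : Adm ρ C Ψ0 Ψ1 Ψ2) (ξ a0 : ℝ) (hgen : ∀ᵐ ω ∂μ, v ω - a0 * u ω = 0 → u ω = 0) :
    ∫ ω, (ε ω : ℂ) * (((|v ω - a0 * u ω| : ℝ) : ℂ) * gw ξ (x ω) * Ψ1 ((y ω - a0 * x ω : ℝ) : ℂ) -
        ((|v ω - a0 * u ω| : ℝ) : ℂ) * (gw ξ (x ω) ^ 2 * (u ω / (v ω - a0 * u ω) : ℝ)) *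
          Ψ0 ((y ω - a0 * x ω : ℝ) : ℂ) +
        2 * ρ * ((|u ω| : ℝ) : ℂ) * gw ξ (x ω) ^ 2 *
          (if 0 < ρ * (v ω / u ω - a0) then
            Ψ0 (((y ω - v ω / u ω * x ω : ℝ) : ℂ) + (ξ + I) * (v ω / u ω - a0 : ℝ)) else 0)) ∂μ
      = 0 := by
  have hρ2 : ρ * ρ = 1 := by rcases hρ with rfl | rfl <;> norm_num
  have hρabs : |ρ| = 1 := by rcases hρ with rfl | rfl <;> norm_num
  have hρ0 : ρ ≠ 0 := by rcases hρ with rfl | rfl <;> norm_num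
  have hρ0' : (ρ : ℂ) ≠ 0 := by exact_mod_cast hρ0
  have hC := hΨ.nonneg
  set K : ℝ → Ω → ℂ := fun α ω => (ε ω : ℂ) * ((|v ω - (a0 + ρ * α) * u ω| : ℝ) : ℂ) *
    Ψ2 (((y ω - (a0 + ρ * α) * x ω : ℝ) : ℂ) + (ξ + I) * (ρ * α : ℝ)) with hK
  have him : ∀ (b α : ℝ), ρ * ((b : ℂ) + (ξ + I) * (ρ * α : ℝ)).im = α := by
    intro b α; simp; rw [← mul_assoc, hρ2, one_mul]
  have hint : Integrable (Function.uncurry K) ((volume.restrict (Ioi 0)).prod μ) := by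
    have i1 : Integrable (fun ω => (|v ω - a0 * u ω| + |ρ * u ω|) * C) μ :=
      (((H.iv.sub (H.iu.const_mul a0)).abs).add (H.iu.const_mul ρ).abs).mul_const C
    have i2 := (integrable_inv_one_add_sq.integrableOn (s := Ioi 0)).mul_prod i1
    refine i2.mono' ?_ ?_
    · have := H.mx; have := H.my; have := H.mu; have := H.mv; have := H.me; have := hΨ.m2
      exact (by simp only [hK]; fun_prop : Measurable (Function.uncurry K)).aestronglyMeasurable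
    · have : ∀ᵐ p : ℝ × Ω ∂((volume.restrict (Ioi 0)).prod μ), p.1 ∈ Ioi (0 : ℝ) :=
        (Measure.quasiMeasurePreserving_fst).ae (ae_restrict_mem measurableSet_Ioi)
      filter_upwards [this] with p hp
      have hα : 0 ≤ p.1 := le_of_lt hp
      have b2 := hΨ.b2 (((y p.2 - (a0 + ρ * p.1) * x p.2 : ℝ) : ℂ) + (ξ + I) * (ρ * p.1 : ℝ))
        (by rw [him]; exact hα)
      rw [him] at b2
      simp only [Function.uncurry, hK, norm_mul, Complex.norm_real, Real.norm_eq_abs, abs_abs]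
      have e : v p.2 - (a0 + ρ * p.1) * u p.2 = (v p.2 - a0 * u p.2) - p.1 * (ρ * u p.2) := by ring
      rw [e]
      have := weight_bound (p := v p.2 - a0 * u p.2) (q := ρ * u p.2) hC hα
      calc _ ≤ 1 * |v p.2 - a0 * u p.2 - p.1 * (ρ * u p.2)| * (C / (1 + p.1) ^ 3) := by
            gcongr; exact H.be _
        _ ≤ _ := by rw [one_mul, mul_comm (1 + p.1 ^ 2)⁻¹]; exact this
  have hswap := integral_integral_swap hint
  have hL : ∫ α in Ioi (0 : ℝ), ∫ ω, K α ω ∂μ = 0 := by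
    have hq : Measure.QuasiMeasurePreserving (fun α : ℝ => a0 + ρ * α) volume volume := by
      rcases hρ with rfl | rfl
      · simpa using (measurePreserving_add_left volume a0).quasiMeasurePreserving
      · simpa [sub_eq_add_neg] using (Measure.measurePreserving_sub_left volume a0).quasiMeasurePreserving
    refine integral_eq_zero_of_ae ?_
    filter_upwards [ae_restrict_of_ae (hq.ae H.van), ae_restrict_mem measurableSet_Ioi] with α h1 hα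
    have hα' : 0 ≤ α := le_of_lt hα
    refine h1 (fun b => Ψ2 ((b : ℂ) + (ξ + I) * (ρ * α : ℝ))) ?_ ⟨C / (1 + α) ^ 3, fun b => ?_⟩
    · have := hΨ.m2; fun_prop
    · have b2 := hΨ.b2 ((b : ℂ) + (ξ + I) * (ρ * α : ℝ)) (by rw [him]; exact hα')
      rwa [him] at b2
  rw [hL] at hswap
  refine mul_left_cancel₀ hρ0' ?_
  rw [mul_zero, ← integral_const_mul]
  refine Eq.trans (integral_congr_ae ?_) hswap.symm
  filter_upwards [hgen] with ω hω
  simp only [hK, mul_assoc (ε ω : ℂ)]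
  rw [integral_const_mul, pointwise_identity hρ hΨ ξ a0 _ _ _ _ hω]
  ring

end Pool.Agent.P.MP_fd5ae1_an
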