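import Pool.Agent.P.MP_fd5ae1_an.Main

/-! Limited angle: the key identity between two slopes. -/

set_option autoImplicit false

open MeasureTheory Set Filter Topology Complex
open scoped ENNReal

namespace Pool.Agent.P.MP_fd5ae1_an.Lim

/-- The standing assumptions without the vanishing of the counts. -/
structure Pre {Ω : Type} [MeasurableSpace Ω] (μ : Measure Ω) (x y u v ε : Ω → ℝ) : Prop where
  mx : Measurable x
  my : Measurable y
  mu : Measurable u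
  mv : Measurable v
  me : Measurable ε
  be : ∀ ω, |ε ω| ≤ 1
  iu : Integrable u μ
  iv : Integrable v μ

variable {Ω : Type} [MeasurableSpace Ω] {μ : Measure Ω} {x y u v ε : Ω → ℝ}

/-- The signed count vanishes on almost all lines of slope `a`. -/
def Van (μ : Measure Ω) (x y u v ε : Ω → ℝ) (a : ℝ) : Prop :=
  ∀ φ : ℝ → ℂ, Measurable φ → (∃ C, ∀ b, ‖φ b‖ ≤ C) →
    ∫ ω, (ε ω : ℂ) * ((|v ω - a * u ω| : ℝ) : ℂ) * φ (y ω - a * x ω) ∂μ = 0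

theorem Pre.good0 (H : Pre μ x y u v ε) : Good μ x y u v fun _ => 0 :=
  ⟨H.mx, H.my, H.mu, H.mv, measurable_const, by simp, H.iu, H.iv, by simp⟩

theorem Pre.integrable_f (H : Pre μ x y u v ε) (ξ : ℝ) :
    Integrable (fun ω => (ε ω : ℂ) * ((|u ω| : ℝ) : ℂ) * gw ξ (x ω) ^ 2) μ := by
  refine H.iu.abs.mono' ?_ (Eventually.of_forall fun ω => ?_)
  · have := H.mx; have := H.mu; have := H.me; have := measurable_gw ξ
    exact (by fun_prop : Measurable fun ω =>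
      (ε ω : ℂ) * ((|u ω| : ℝ) : ℂ) * gw ξ (x ω) ^ 2).aestronglyMeasurable
  · simp only [norm_mul, Complex.norm_real, Real.norm_eq_abs, abs_abs]
    calc _ ≤ 1 * |u ω| * 1 := by gcongr; exacts [H.be ω, norm_gw_sq_le _ _]
      _ = _ := by ring

/-- The integrand of the boundary form at slope `a0`. -/
noncomputable def kf (x y u v ε : Ω → ℝ) (ρ ξ a0 : ℝ) (Ψ0 Ψ1 : ℂ → ℂ) (ω : Ω) : ℂ :=
  (ε ω : ℂ) * (((|v ω - a0 * u ω| : ℝ) : ℂ) * gw ξ (x ω) * Ψ1 ((y ω - a0 * x ω : ℝ) : ℂ) -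
    ((|v ω - a0 * u ω| : ℝ) : ℂ) * (gw ξ (x ω) ^ 2 * (u ω / (v ω - a0 * u ω) : ℝ)) *
      Ψ0 ((y ω - a0 * x ω : ℝ) : ℂ) +
    2 * ρ * ((|u ω| : ℝ) : ℂ) * gw ξ (x ω) ^ 2 *
      (if 0 < ρ * (v ω / u ω - a0) then
        Ψ0 (((y ω - v ω / u ω * x ω : ℝ) : ℂ) + (ξ + I) * (v ω / u ω - a0 : ℝ)) else 0))

/-- The tested count at slope `a0 + ρ α`. -/
noncomputable def gf (μ : Measure Ω) (x y u v ε : Ω → ℝ) (ρ ξ a0 : ℝ) (Ψ2 : ℂ → ℂ) (α : ℝ) : ℂ :=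
  ∫ ω, (ε ω : ℂ) * ((|v ω - (a0 + ρ * α) * u ω| : ℝ) : ℂ) *
    Ψ2 (((y ω - (a0 + ρ * α) * x ω : ℝ) : ℂ) + (ξ + I) * (ρ * α : ℝ)) ∂μ

theorem key_swap [SFinite μ] (H : Pre μ x y u v ε) {ρ C : ℝ} (hρ : ρ = 1 ∨ ρ = -1)
    {Ψ0 Ψ1 Ψ2 : ℂ → ℂ} (hΨ : Adm ρ C Ψ0 Ψ1 Ψ2) (ξ a0 : ℝ)
    (hgen : ∀ᵐ ω ∂μ, v ω - a0 * u ω = 0 → u ω = 0) :
    IntegrableOn (gf μ x y u v ε ρ ξ a0 Ψ2) (Ioi 0) ∧
      ρ * ∫ ω, kf x y u v ε ρ ξ a0 Ψ0 Ψ1 ω ∂μ = ∫ α in Ioi (0 : ℝ), gf μ x y u v ε ρ ξ a0 Ψ2 α := by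
  have hρ2 : ρ * ρ = 1 := by rcases hρ with rfl | rfl <;> norm_num
  have hC := hΨ.nonneg
  set K : ℝ → Ω → ℂ := fun α ω => (ε ω : ℂ) * ((|v ω - (a0 + ρ * α) * u ω| : ℝ) : ℂ) *
    Ψ2 (((y ω - (a0 + ρ * α) * x ω : ℝ) : ℂ) + (ξ + I) * (ρ * α : ℝ)) with hK
  have him : ∀ (b α : ℝ), ρ * ((b : ℂ) + (ξ + I) * (ρ * α : ℝ)).im = α := by
    intro b α; simp; rw [← mul_assoc, hρ2, one_mul]
  have hint : Integrable (Function.uncurry K) ((volume.restrict (Ioi 0)).prod μ) := by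
    have i1 : Integrable (fun ω => (|v ω - a0 * u ω| + |ρ * u ω|) * C) μ :=
      (((H.iv.sub (H.iu.const_mul a0)).abs).add (H.iu.const_mul ρ).abs).mul_const C
    have i2 := (integrable_inv_one_add_sq.integrableOn (s := Ioi 0)).mul_prod i1
    refine i2.mono' ?_ ?_
    · have := H.mx; have := H.my; have := H.mu; have := H.mv; have := H.me; have := hΨ.m2
      exact (by simp only [hK]; fun_prop : Measurable (Function.uncurry K)).aestronglyMeasurable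
    · have : ∀ᵐ p : ℝ × Ω ∂((volume.restrict (Ioi 0)).prod μ), p.1 ∈ Ioi (0 : ℝ) :=
        (Measure.quasiMeasurePreserving_fst).ae (ae_restrict_mem measurableSet_Ioi)
      filter_upwards [this] with p hp
      have hα : 0 ≤ p.1 := le_of_lt hp
      have b2 := hΨ.b2 (((y p.2 - (a0 + ρ * p.1) * x p.2 : ℝ) : ℂ) + (ξ + I) * (ρ * p.1 : ℝ))
        (by rw [him]; exact hα)
      rw [him] at b2
      simp only [Function.uncurry, hK, norm_mul, Complex.norm_real, Real.norm_eq_abs, abs_abs]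
      have e : v p.2 - (a0 + ρ * p.1) * u p.2 = (v p.2 - a0 * u p.2) - p.1 * (ρ * u p.2) := by ring
      rw [e]
      have := weight_bound (p := v p.2 - a0 * u p.2) (q := ρ * u p.2) hC hα
      calc _ ≤ 1 * |v p.2 - a0 * u p.2 - p.1 * (ρ * u p.2)| * (C / (1 + p.1) ^ 3) := by
            gcongr; exact H.be _
        _ ≤ _ := by rw [one_mul, mul_comm (1 + p.1 ^ 2)⁻¹]; exact this
  refine ⟨hint.integral_prod_left, ?_⟩
  have hswap := integral_integral_swap hint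
  rw [← integral_const_mul]
  refine Eq.trans (integral_congr_ae ?_) hswap.symm
  filter_upwards [hgen] with ω hω
  simp only [hK, kf, mul_assoc (ε ω : ℂ)]
  rw [integral_const_mul, pointwise_identity hρ hΨ ξ a0 _ _ _ _ hω]
  ring

theorem im_shift {ρ : ℝ} (hρ : ρ = 1 ∨ ρ = -1) (ξ T : ℝ) (z : ℂ) :
    ρ * (z + (ξ + I) * (ρ * T : ℝ)).im = ρ * z.im + T := by
  rcases hρ with rfl | rfl <;> simp
  ring

theorem adm_shift {ρ C : ℝ} (hρ : ρ = 1 ∨ ρ = -1) {Ψ0 Ψ1 Ψ2 : ℂ → ℂ} (hΨ : Adm ρ C Ψ0 Ψ1 Ψ2)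
    (ξ : ℝ) {T : ℝ} (hT : 0 ≤ T) :
    Adm ρ C (fun z => Ψ0 (z + (ξ + I) * (ρ * T : ℝ))) (fun z => Ψ1 (z + (ξ + I) * (ρ * T : ℝ)))
      (fun z => Ψ2 (z + (ξ + I) * (ρ * T : ℝ))) := by
  have hC := hΨ.nonneg
  have h : ∀ z : ℂ, 0 ≤ ρ * z.im → 0 ≤ ρ * (z + (ξ + I) * (ρ * T : ℝ)).im := fun z hz => by
    rw [im_shift hρ]; linarith
  have := hΨ.m0; have := hΨ.m1; have := hΨ.m2
  refine ⟨by fun_prop, by fun_prop, by fun_prop, fun z hz => (hΨ.d0 _ (h z hz)).comp_add_const _ _,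
    fun z hz => (hΨ.d1 _ (h z hz)).comp_add_const _ _, fun z hz => (hΨ.b0 _ (h z hz)).trans ?_,
    fun z hz => (hΨ.b1 _ (h z hz)).trans ?_, fun z hz => (hΨ.b2 _ (h z hz)).trans ?_⟩ <;>
  · rw [im_shift hρ]
    gcongr
    linarith

theorem key_two [SFinite μ] (H : Pre μ x y u v ε) {ρ C : ℝ} (hρ : ρ = 1 ∨ ρ = -1)
    {Ψ0 Ψ1 Ψ2 : ℂ → ℂ} (hΨ : Adm ρ C Ψ0 Ψ1 Ψ2) (ξ a0 : ℝ) {T a1 a2 : ℝ} (hT : 0 ≤ T)
    (hv : ∀ᵐ a : ℝ, a ∈ Ioo a1 a2 → Van μ x y u v ε a) (h0 : a0 ∈ Ioo a1 a2)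
    (h1 : a0 + ρ * T ∈ Ioo a1 a2) (hgen : ∀ᵐ ω ∂μ, v ω - a0 * u ω = 0 → u ω = 0)
    (hgen' : ∀ᵐ ω ∂μ, v ω - (a0 + ρ * T) * u ω = 0 → u ω = 0) :
    ∫ ω, kf x y u v ε ρ ξ a0 Ψ0 Ψ1 ω ∂μ = ∫ ω, kf x y u v ε ρ ξ (a0 + ρ * T)
      (fun z => Ψ0 (z + (ξ + I) * (ρ * T : ℝ))) (fun z => Ψ1 (z + (ξ + I) * (ρ * T : ℝ))) ω ∂μ := by
  have hρ0 : (ρ : ℂ) ≠ 0 := by rcases hρ with rfl | rfl <;> norm_num
  obtain ⟨i1, e1⟩ := key_swap H hρ hΨ ξ a0 hgen
  obtain ⟨-, e2⟩ := key_swap H hρ (adm_shift hρ hΨ ξ hT) ξ (a0 + ρ * T) hgen'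
  refine mul_left_cancel₀ hρ0 ?_
  have e3 : gf μ x y u v ε ρ ξ (a0 + ρ * T) (fun z => Ψ2 (z + (ξ + I) * (ρ * T : ℝ))) =
      fun α => gf μ x y u v ε ρ ξ a0 Ψ2 (α + T) := by
    ext α
    unfold gf
    rw [show a0 + ρ * T + ρ * α = a0 + ρ * (α + T) by ring]
    congr 1; ext ω; congr 2; push_cast; ring_nf
  have e4 : ∫ α in Ioi (0 : ℝ), gf μ x y u v ε ρ ξ a0 Ψ2 (α + T) =
      ∫ α in Ioi T, gf μ x y u v ε ρ ξ a0 Ψ2 α := by
    have := (measurePreserving_add_right volume T).setIntegral_preimage_emb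
      (measurableEmbedding_addRight T) (gf μ x y u v ε ρ ξ a0 Ψ2) (Ioi T)
    simpa using this
  rw [e1, e2, e3, e4, ← Ioc_union_Ioi_eq_Ioi hT, setIntegral_union Ioc_disjoint_Ioi_same
    measurableSet_Ioi (i1.mono_set Ioc_subset_Ioi_self) (i1.mono_set (Ioi_subset_Ioi hT))]
  have hq : Measure.QuasiMeasurePreserving (fun α : ℝ => a0 + ρ * α) volume volume := by
    rcases hρ with rfl | rfl
    · simpa using (measurePreserving_add_left volume a0).quasiMeasurePreserving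
    · simpa [sub_eq_add_neg] using
        (Measure.measurePreserving_sub_left volume a0).quasiMeasurePreserving
  rw [add_eq_right]
  refine integral_eq_zero_of_ae ?_
  filter_upwards [ae_restrict_of_ae (hq.ae hv), ae_restrict_mem measurableSet_Ioc] with α h2 hα
  have him : ∀ b : ℝ, ρ * ((b : ℂ) + (ξ + I) * (ρ * α : ℝ)).im = α := by
    intro b; rw [im_shift hρ]; simp
  refine h2 ?_ (fun b => Ψ2 ((b : ℂ) + (ξ + I) * (ρ * α : ℝ))) ?_ ⟨C / (1 + α) ^ 3, fun b => ?_⟩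
  · obtain ⟨_, _⟩ := h0; obtain ⟨_, _⟩ := h1; obtain ⟨_, _⟩ := hα
    rcases hρ with rfl | rfl <;> constructor <;> linarith
  · have := hΨ.m2; fun_prop
  · have b2 := hΨ.b2 ((b : ℂ) + (ξ + I) * (ρ * α : ℝ)) (by rw [him]; exact hα.1.le)
    rwa [him] at b2

theorem split_eq (H : Pre μ x y u v ε) {ρ C : ℝ} {Ψ0 Ψ1 Ψ2 : ℂ → ℂ}
    (hΨ : Adm ρ C Ψ0 Ψ1 Ψ2) {ξ a0 : ℝ} {U F : ℝ → ℂ} (hR : Rep μ x y u v ε a0 ξ U F) :
    (∫ b : ℝ, U b * Ψ1 b) - (∫ b : ℝ, F b * Ψ0 b) + 2 * ρ *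
      ∫ ω, (ε ω : ℂ) * ((|u ω| : ℝ) : ℂ) * gw ξ (x ω) ^ 2 *
        (if 0 < ρ * (v ω / u ω - a0) then
          Ψ0 (((y ω - v ω / u ω * x ω : ℝ) : ℂ) + (ξ + I) * (v ω / u ω - a0 : ℝ)) else 0) ∂μ =
      ∫ ω, kf x y u v ε ρ ξ a0 Ψ0 Ψ1 ω ∂μ := by
  have hC := hΨ.nonneg
  have b0 : ∀ b : ℝ, ‖Ψ0 b‖ ≤ C := fun b => by simpa using hΨ.b0 b (by simp)
  have b1 : ∀ b : ℝ, ‖Ψ1 b‖ ≤ C := fun b => by simpa using hΨ.b1 b (by simp)
  have := H.mx; have := H.my; have := H.mu; have := H.mv; have := H.me; have := measurable_gw ξ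
  have := hΨ.m0; have := hΨ.m1
  have j1 : Integrable (fun ω => (ε ω : ℂ) * (((|v ω - a0 * u ω| : ℝ) : ℂ) * gw ξ (x ω) *
      Ψ1 ((y ω - a0 * x ω : ℝ) : ℂ))) μ := by
    refine ((H.iv.sub (H.iu.const_mul a0)).abs.mul_const C).mono' ?_
      (Eventually.of_forall fun ω => ?_)
    · exact Measurable.aestronglyMeasurable (by fun_prop)
    · simp only [norm_mul, Complex.norm_real, Real.norm_eq_abs, abs_abs, Pi.sub_apply]
      calc _ ≤ 1 * (|v ω - a0 * u ω| * 1 * C) := by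
            gcongr; exacts [H.be ω, norm_gw_le _ _, b1 _]
        _ = _ := by ring
  have j2 : Integrable (fun ω => (ε ω : ℂ) * (((|v ω - a0 * u ω| : ℝ) : ℂ) *
      (gw ξ (x ω) ^ 2 * (u ω / (v ω - a0 * u ω) : ℝ)) * Ψ0 ((y ω - a0 * x ω : ℝ) : ℂ))) μ := by
    refine (H.iu.abs.mul_const C).mono' ?_ (Eventually.of_forall fun ω => ?_)
    · exact Measurable.aestronglyMeasurable (by fun_prop)
    · simp only [norm_mul, Complex.norm_real, Real.norm_eq_abs, abs_abs]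
      calc _ ≤ 1 * (|v ω - a0 * u ω| * (1 * |u ω / (v ω - a0 * u ω)|) * C) := by
            gcongr; exacts [H.be ω, norm_gw_sq_le _ _, b0 _]
        _ ≤ _ := by
            rw [one_mul, one_mul]; gcongr; exact abs_mul_abs_div_le _ _
  rw [hR.eU (fun b => Ψ1 b) (by fun_prop) ⟨C, b1⟩, hR.eF (fun b => Ψ0 b) (by fun_prop) ⟨C, b0⟩,
    ← integral_const_mul, ← integral_sub j1 j2, ← integral_add]
  · congr 1; ext ω; unfold kf; ring
  · exact j1.sub j2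
  · refine Integrable.const_mul ?_ _
    refine (H.integrable_f ξ).mul_bdd (c := C) ?_ (Eventually.of_forall fun ω => ?_)
    · refine Measurable.aestronglyMeasurable (Measurable.ite ?_ (by fun_prop) measurable_const)
      exact measurableSet_lt measurable_const (by fun_prop)
    · split_ifs with h
      · have e : (((y ω - v ω / u ω * x ω : ℝ) : ℂ) + (ξ + I) * (v ω / u ω - a0 : ℝ)).im =
            v ω / u ω - a0 := by simp
        have := hΨ.b0 _ (by rw [e]; exact h.le)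
        rw [e] at this
        exact this.trans (div_le_self hC (by linarith))
      · simpa using hC

/-- The far boundary form for the Cauchy kernels: bounded, and continuous as `η` tends to zero. -/
theorem far (H : Pre μ x y u v ε) {ρ : ℝ} (hρ : ρ = 1 ∨ ρ = -1) (ξ a : ℝ) {T : ℝ} (hT : 0 < T) :
    ∃ M : ℝ, ∀ β : ℝ, (∀ η : ℝ, 0 ≤ η → ‖∫ ω, kf x y u v ε ρ ξ a
        (fun z => (z + (ξ + I) * (ρ * T : ℝ) - β + ρ * η * I)⁻¹)
        (fun z => -(z + (ξ + I) * (ρ * T : ℝ) - β + ρ * η * I)⁻¹ ^ 2) ω ∂μ‖ ≤ M) ∧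
      Tendsto (fun η : ℝ => ∫ ω, kf x y u v ε ρ ξ a
        (fun z => (z + (ξ + I) * (ρ * T : ℝ) - β + ρ * η * I)⁻¹)
        (fun z => -(z + (ξ + I) * (ρ * T : ℝ) - β + ρ * η * I)⁻¹ ^ 2) ω ∂μ) (𝓝[>] 0)
        (𝓝 (∫ ω, kf x y u v ε ρ ξ a
        (fun z => (z + (ξ + I) * (ρ * T : ℝ) - β + ρ * (0 : ℝ) * I)⁻¹)
        (fun z => -(z + (ξ + I) * (ρ * T : ℝ) - β + ρ * (0 : ℝ) * I)⁻¹ ^ 2) ω ∂μ)) := by
  have := H.mx; have := H.my; have := H.mu; have := H.mv; have := H.me; have := measurable_gw ξ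
  have hρa : |ρ| = 1 := by rcases hρ with rfl | rfl <;> norm_num
  have hn : ∀ (β η : ℝ) (z : ℂ), 0 ≤ η → 0 ≤ ρ * z.im →
      T ≤ ‖z + (ξ + I) * (ρ * T : ℝ) - β + ρ * η * I‖ := by
    intro β η z hη hz
    refine le_trans ?_ (Complex.abs_im_le_norm _)
    rcases hρ with rfl | rfl
    · refine le_trans ?_ (le_abs_self _); simp at hz ⊢; linarith
    · refine le_trans ?_ (neg_le_abs _); simp at hz ⊢; linarith
  have hb : ∀ (β η : ℝ) (z : ℂ), 0 ≤ η → 0 ≤ ρ * z.im →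
      ‖(z + (ξ + I) * (ρ * T : ℝ) - β + ρ * η * I)⁻¹‖ ≤ T⁻¹ := fun β η z hη hz => by
    rw [norm_inv]; exact inv_anti₀ hT (hn β η z hη hz)
  have hc : ∀ (β : ℝ) (z : ℂ), 0 ≤ ρ * z.im → ContinuousAt
      (fun η : ℝ => (z + (ξ + I) * (ρ * T : ℝ) - β + ρ * η * I)⁻¹) 0 := fun β z hz =>
    ContinuousAt.inv₀ (by fun_prop) (norm_pos_iff.mp (hT.trans_le (hn β 0 z le_rfl hz)))
  set B : Ω → ℝ := fun ω => |v ω - a * u ω| * T⁻¹ ^ 2 + |u ω| * T⁻¹ + 2 * |u ω| * T⁻¹ with hB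
  have hBi : Integrable B μ := (((H.iv.sub (H.iu.const_mul a)).abs.mul_const _).add
    (H.iu.abs.mul_const _)).add ((H.iu.abs.const_mul 2).mul_const _)
  have him : ∀ ω, (((y ω - v ω / u ω * x ω : ℝ) : ℂ) + (ξ + I) * (v ω / u ω - a : ℝ)).im =
      v ω / u ω - a := by intro ω; simp
  have hk : ∀ (β η : ℝ), 0 ≤ η → ∀ ω, ‖kf x y u v ε ρ ξ a
      (fun z => (z + (ξ + I) * (ρ * T : ℝ) - β + ρ * η * I)⁻¹)
      (fun z => -(z + (ξ + I) * (ρ * T : ℝ) - β + ρ * η * I)⁻¹ ^ 2) ω‖ ≤ B ω := by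
    intro β η hη ω
    have b0 := hb β η ((y ω - a * x ω : ℝ) : ℂ) hη (by simp)
    unfold kf
    rw [norm_mul, Complex.norm_real, Real.norm_eq_abs]
    refine (mul_le_of_le_one_left (norm_nonneg _) (H.be ω)).trans ((norm_add_le _ _).trans
      (add_le_add ((norm_sub_le _ _).trans (add_le_add ?_ ?_)) ?_))
    · simp only [norm_mul, norm_neg, norm_pow, Complex.norm_real, Real.norm_eq_abs, abs_abs]
      calc _ ≤ |v ω - a * u ω| * 1 * T⁻¹ ^ 2 := by gcongr; exact norm_gw_le _ _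
        _ = _ := by ring
    · simp only [norm_mul, Complex.norm_real, Real.norm_eq_abs, abs_abs]
      calc _ ≤ |v ω - a * u ω| * (1 * |u ω / (v ω - a * u ω)|) * T⁻¹ := by
            gcongr; exact norm_gw_sq_le _ _
        _ ≤ _ := by rw [one_mul]; gcongr; exact abs_mul_abs_div_le _ _
    · simp only [norm_mul, Complex.norm_real, Real.norm_eq_abs, abs_abs, hρa, Complex.norm_ofNat]
      calc _ ≤ 2 * 1 * |u ω| * 1 * T⁻¹ := by
            gcongr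
            · exact norm_gw_sq_le _ _
            · split_ifs with h
              · exact hb β η _ hη (by rw [him]; exact h.le)
              · simpa using hT.le
        _ = _ := by ring
  refine ⟨∫ ω, B ω ∂μ, fun β => ⟨fun η hη =>
    norm_integral_le_of_norm_le hBi (Eventually.of_forall (hk β η hη)), ?_⟩⟩
  refine tendsto_integral_filter_of_dominated_convergence B (Eventually.of_forall fun η => ?_) ?_
    hBi (Eventually.of_forall fun ω => ?_)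
  · refine Measurable.aestronglyMeasurable ?_
    unfold kf
    refine Measurable.mul (by fun_prop) (Measurable.add (by fun_prop) (Measurable.mul (by fun_prop)
      (Measurable.ite (measurableSet_lt measurable_const (by fun_prop)) (by fun_prop)
        measurable_const)))
  · filter_upwards [self_mem_nhdsWithin] with η hη
    exact Eventually.of_forall (hk β η (le_of_lt hη))
  · refine Tendsto.mono_left ?_ nhdsWithin_le_nhds
    have c0 := hc β ((y ω - a * x ω : ℝ) : ℂ) (by simp)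
    unfold kf
    refine (((((c0.pow 2).neg.tendsto).const_mul _).sub (c0.tendsto.const_mul _)).add
      (Tendsto.const_mul _ ?_)).const_mul _
    split_ifs with h
    · exact (hc β _ (by rw [him]; exact h.le)).tendsto
    · exact tendsto_const_nhds

end Pool.Agent.P.MP_fd5ae1_an.Lim
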