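import Pool.Agent.P.MP_fd5ae1_an.LimA

/-! Limited angle: the boundary terms vanish at almost every slope of the range. -/

set_option autoImplicit false

open MeasureTheory Set Filter Topology Complex
open scoped ENNReal

namespace Pool.Agent.P.MP_fd5ae1_an.Lim

variable {Ω : Type} [MeasurableSpace Ω] {μ : Measure Ω} [SFinite μ] {x y u v ε : Ω → ℝ}

omit [SFinite μ] in
theorem gen_of_kern (H : Pre μ x y u v ε) {a0 : ℝ}
    (hk : ∫⁻ ω, ‖u ω‖ₑ * kern (v ω / u ω - a0) ∂μ ≠ ∞) :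
    ∀ᵐ ω ∂μ, v ω - a0 * u ω = 0 → u ω = 0 := by
  have := H.mu; have := H.mv; have := measurable_kern
  filter_upwards [ae_lt_top (by fun_prop) hk] with ω hω h0
  by_contra hu
  have : v ω / u ω - a0 = 0 := by field_simp; linarith
  rw [this, kern_zero, ENNReal.mul_top (by simpa using hu)] at hω
  exact lt_irrefl _ hω

theorem exists_far (H : Pre μ x y u v ε) {a0 a1 a2 : ℝ} (h0 : a0 ∈ Ioo a1 a2) :
    ∃ T : ℝ, 0 < T ∧ ∀ ρ : ℝ, ρ = 1 ∨ ρ = -1 → a0 + ρ * T ∈ Ioo a1 a2 ∧
      ∀ᵐ ω ∂μ, v ω - (a0 + ρ * T) * u ω = 0 → u ω = 0 := by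
  have g := ae_generic H.good0
  have g1 := (measurePreserving_add_left volume a0).quasiMeasurePreserving.ae g
  have g2 := (Measure.measurePreserving_sub_left volume a0).quasiMeasurePreserving.ae g
  obtain ⟨T, hT, k1, k2⟩ := Measure.exists_mem_of_measure_ne_zero_of_ae (μ := volume)
    (s := Ioo 0 (min (a2 - a0) (a0 - a1))) (by simp [h0.1, h0.2]) (ae_restrict_of_ae (g1.and g2))
  obtain ⟨t0, t1⟩ := hT
  rw [lt_min_iff] at t1
  refine ⟨T, t0, ?_⟩
  rintro ρ (rfl | rfl)
  · rw [one_mul]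
    exact ⟨⟨by linarith [h0.1], by linarith⟩, gen_of_kern H k1⟩
  · rw [neg_one_mul, ← sub_eq_add_neg]
    exact ⟨⟨by linarith, by linarith [h0.2]⟩, gen_of_kern H k2⟩

theorem first_two (H : Pre μ x y u v ε) {ξ a0 a1 a2 : ℝ} {U F : ℝ → ℂ}
    (hv : ∀ᵐ a : ℝ, a ∈ Ioo a1 a2 → Van μ x y u v ε a) (h0 : a0 ∈ Ioo a1 a2)
    (hR : Rep μ x y u v ε a0 ξ U F) (hk : ∫⁻ ω, ‖u ω‖ₑ * kern (v ω / u ω - a0) ∂μ ≠ ∞)
    {s : ℝ} (hs0 : s ≠ 0) :
    ∫ b, U b * (s * I * cexp (s * I * b)) = ∫ b, F b * cexp (s * I * b) := by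
  have := H.mx; have := H.my; have := H.mu; have := H.mv; have := H.me; have := measurable_gw ξ
  have := measurable_kern
  have hgen := gen_of_kern H hk
  obtain ⟨T, hT, hfar⟩ := exists_far H h0
  obtain ⟨M1, hM1⟩ := far H (Or.inl rfl) ξ (a0 + 1 * T) hT
  obtain ⟨M2, hM2⟩ := far H (Or.inr rfl) ξ (a0 + -1 * T) hT
  set R : ℝ → ℝ → ℝ → ℂ := fun ρ η β => ∫ ω, kf x y u v ε ρ ξ (a0 + ρ * T)
    (fun z => (z + (ξ + I) * (ρ * T : ℝ) - β + ρ * η * I)⁻¹)
    (fun z => -(z + (ξ + I) * (ρ * T : ℝ) - β + ρ * η * I)⁻¹ ^ 2) ω ∂μ with hRd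
  set ζ : Ω → ℂ := fun ω =>
    ((y ω - v ω / u ω * x ω : ℝ) : ℂ) + (ξ + I) * (v ω / u ω - a0 : ℝ) with hζ
  have hζm : Measurable ζ := by simp only [hζ]; fun_prop
  have hζim : ∀ ω (β : ℝ), (ζ ω - β).im = v ω / u ω - a0 := by intro ω β; simp [hζ]
  set f : Ω → ℂ := fun ω => (ε ω : ℂ) * ((|u ω| : ℝ) : ℂ) * gw ξ (x ω) ^ 2 with hf
  have hfm : Measurable f := by simp only [hf]; fun_prop
  have hfb : ∀ ω, ‖f ω‖ ≤ |u ω| := by
    intro ω
    simp only [hf, norm_mul, Complex.norm_real, Real.norm_eq_abs, abs_abs]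
    calc _ ≤ 1 * |u ω| * 1 := by gcongr; exacts [H.be ω, norm_gw_sq_le _ _]
      _ = _ := by ring
  set κ : ℝ → ℝ → ℂ := fun η β => -I * ∫ ω, f ω * twoSided η (ζ ω - β) ∂μ +
    -I / 2 * (R (-1) η β - R 1 η β) with hκ
  set K : ℝ × Ω → ℝ := fun p => |u p.2| * ‖ζ p.2 - p.1‖⁻¹ with hK
  have hKm : Measurable K := by simp only [hK]; fun_prop
  have hKi : ∀ M : ℝ, Integrable K ((volume.restrict (Icc (-M) M)).prod μ) := by
    intro M
    obtain ⟨c, hc, hcb⟩ := exists_kern_bound M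
    refine ⟨hKm.aestronglyMeasurable, ?_⟩
    rw [hasFiniteIntegral_iff_enorm, lintegral_prod_symm' _ hKm.enorm]
    refine lt_of_le_of_lt (lintegral_mono (g := fun ω => ‖u ω‖ₑ * kern (v ω / u ω - a0) * c)
      fun ω => ?_) ?_
    · refine le_trans (lintegral_mono (g := fun β : ℝ =>
        ‖u ω‖ₑ * kern (v ω / u ω - a0) * kern ((ζ ω).re - β)) fun β => ?_) ?_
      · simp only [hK, enorm_mul]
        rw [mul_assoc, Real.enorm_abs]
        refine mul_le_mul_right ?_ _
        rw [Real.enorm_eq_ofReal (by positivity), mul_comm]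
        have := ofReal_norm_inv_le (ζ ω - β)
        rwa [hζim, Complex.sub_re, Complex.ofReal_re] at this
      · rw [lintegral_const_mul _ (by fun_prop)]
        exact mul_le_mul_right (hcb _) _
    · rw [lintegral_mul_const _ (by fun_prop)]
      exact ENNReal.mul_lt_top hk.lt_top hc.lt_top
  set Φ : ℝ → ℝ := fun β => ∫ ω, K (β, ω) ∂μ with hΦ
  have hΦl : LocallyIntegrable Φ volume := by
    rw [locallyIntegrable_iff]
    intro k hk
    obtain ⟨M, hM⟩ := hk.isBounded.subset_closedBall 0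
    rw [Real.closedBall_eq_Icc, zero_sub, zero_add] at hM
    exact IntegrableOn.mono_set (hKi M).integral_prod_left hM
  have hKae : ∀ᵐ β : ℝ, Integrable (fun ω => K (β, ω)) μ := by
    have : ∀ᵐ β : ℝ, ∀ n : ℕ, β ∈ Icc (-(n : ℝ)) n → Integrable (fun ω => K (β, ω)) μ :=
      ae_all_iff.mpr fun n => (ae_restrict_iff' measurableSet_Icc).mp (hKi n).prod_right_ae
    filter_upwards [this] with β hβ
    obtain ⟨n, hn⟩ := exists_nat_ge |β|
    exact hβ n (abs_le.mp hn)
  have hbd0 : ∀ η : ℝ, 0 ≤ η → ∀ (β : ℝ) ω, ‖f ω * twoSided η (ζ ω - β)‖ ≤ K (β, ω) := by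
    intro η hη β ω
    rw [norm_mul]
    exact mul_le_mul (hfb ω) (norm_twoSided_le hη _) (norm_nonneg _) (abs_nonneg _)
  have hmeas : ∀ η β : ℝ, AEStronglyMeasurable (fun ω => f ω * twoSided η (ζ ω - β)) μ := by
    intro η β
    have := measurable_twoSided η
    exact Measurable.aestronglyMeasurable (by fun_prop)
  obtain ⟨hκ0, c, hc⟩ := poisson_limit hR.iU hR.iF κ (κ 0) (fun β => Φ β + ‖-I / 2‖ * (M2 + M1))
    (hΦl.add (locallyIntegrable_const _))
    (fun η hη => by
      filter_upwards [hKae] with β hβ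
      refine (norm_add_le _ _).trans (add_le_add ?_ ?_)
      · simp only [norm_mul, norm_neg, Complex.norm_I, one_mul]
        exact norm_integral_le_of_norm_le hβ (Eventually.of_forall (hbd0 η hη.1.le β))
      · rw [norm_mul]
        exact mul_le_mul_of_nonneg_left ((norm_sub_le _ _).trans
          (add_le_add ((hM2 β).1 η hη.1.le) ((hM1 β).1 η hη.1.le))) (norm_nonneg _))
    (by
      filter_upwards [hKae] with β hβ
      refine (Tendsto.const_mul _ ?_).add (((hM2 β).2.sub (hM1 β).2).const_mul _)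
      refine tendsto_integral_filter_of_dominated_convergence (fun ω => K (β, ω))
        (Eventually.of_forall fun η => hmeas η β) ?_ hβ
        (Eventually.of_forall fun ω => (tendsto_twoSided _).const_mul _)
      filter_upwards [self_mem_nhdsWithin] with η hη
      exact Eventually.of_forall (hbd0 η (le_of_lt hη) β))
    (fun η hη β => by
      have k1 := (split_eq H (adm_rat (Or.inl rfl) β hη) hR).trans (key_two H (Or.inl rfl)
        (adm_rat (Or.inl rfl) β hη) ξ a0 hT.le hv h0 (hfar _ (Or.inl rfl)).1 hgen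
        (hfar _ (Or.inl rfl)).2)
      have k2 := (split_eq H (adm_rat (Or.inr rfl) β hη) hR).trans (key_two H (Or.inr rfl)
        (adm_rat (Or.inr rfl) β hη) ξ a0 hT.le hv h0 (hfar _ (Or.inr rfl)).1 hgen
        (hfar _ (Or.inr rfl)).2)
      have ib : ∀ {ρ : ℝ}, (ρ = 1 ∨ ρ = -1) → ∀ {G : ℝ → ℂ}, Integrable G →
          Integrable (fun b : ℝ => G b * ((b : ℂ) - β + ρ * η * I)⁻¹) ∧
          Integrable (fun b : ℝ => G b * -((b : ℂ) - β + ρ * η * I)⁻¹ ^ 2) := by
        intro ρ hρ G hG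
        have A := adm_rat hρ β hη
        constructor
        · refine hG.mul_bdd (c := 2 / η ^ 3) (Measurable.aestronglyMeasurable (by fun_prop))
            (Eventually.of_forall fun b => ?_)
          simpa using A.b0 b (by simp)
        · refine hG.mul_bdd (c := 2 / η ^ 3) (Measurable.aestronglyMeasurable (by fun_prop))
            (Eventually.of_forall fun b => ?_)
          simpa using A.b1 b (by simp)
      have e1 : (∫ b : ℝ, U b * -((b : ℂ) - β + (-1 : ℝ) * η * I)⁻¹ ^ 2) -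
          (∫ b : ℝ, U b * -((b : ℂ) - β + (1 : ℝ) * η * I)⁻¹ ^ 2) =
          2 * I * ∫ b, U b * (pk' η (b - β) : ℂ) := by
        rw [← integral_sub (ib (Or.inr rfl) hR.iU).2 (ib (Or.inl rfl) hR.iU).2,
          ← integral_const_mul]
        congr 1; ext b
        have := (pk_eq hη.1 (b - β)).2
        rw [Complex.ofReal_sub] at this
        rw [← mul_sub, this]; ring
      have e2 : (∫ b : ℝ, F b * ((b : ℂ) - β + (-1 : ℝ) * η * I)⁻¹) -
          (∫ b : ℝ, F b * ((b : ℂ) - β + (1 : ℝ) * η * I)⁻¹) =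
          2 * I * ∫ b, F b * (pk η (b - β) : ℂ) := by
        rw [← integral_sub (ib (Or.inr rfl) hR.iF).1 (ib (Or.inl rfl) hR.iF).1,
          ← integral_const_mul]
        congr 1; ext b
        have := (pk_eq hη.1 (b - β)).1
        rw [Complex.ofReal_sub] at this
        rw [← mul_sub, this]; ring
      have ic : ∀ {ρ : ℝ}, (ρ = 1 ∨ ρ = -1) → Integrable (fun ω => f ω *
          (if 0 < ρ * (v ω / u ω - a0) then (ζ ω - β + ρ * η * I)⁻¹ else 0)) μ := by
        intro ρ hρ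
        have A := adm_rat hρ β hη
        refine (H.integrable_f ξ).mul_bdd (c := 2 / η ^ 3) ?_ (Eventually.of_forall fun ω => ?_)
        · refine Measurable.aestronglyMeasurable (Measurable.ite ?_ (by fun_prop) measurable_const)
          exact measurableSet_lt measurable_const (by fun_prop)
        · split_ifs with h
          · have e : (ζ ω).im = v ω / u ω - a0 := by simp [hζ]
            have := A.b0 (ζ ω) (by rw [e]; exact h.le)
            rw [e] at this
            exact this.trans (div_le_self A.nonneg (by linarith))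
          · simpa using A.nonneg
      have e3 : ∫ ω, f ω * twoSided η (ζ ω - β) ∂μ =
          (∫ ω, f ω * (if 0 < (-1 : ℝ) * (v ω / u ω - a0) then
            (ζ ω - β + (-1 : ℝ) * η * I)⁻¹ else 0) ∂μ) +
          ∫ ω, f ω * (if 0 < (1 : ℝ) * (v ω / u ω - a0) then
            (ζ ω - β + (1 : ℝ) * η * I)⁻¹ else 0) ∂μ := by
        rw [← integral_add (ic (Or.inr rfl)) (ic (Or.inl rfl))]
        congr 1; ext ω
        rw [twoSided, hζim, mul_add]
      simp only [hκ]
      rw [e3]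
      have h2I : (2 * I : ℂ) ≠ 0 := by simp
      refine mul_left_cancel₀ h2I ?_
      rw [mul_sub, ← e1, ← e2]
      set A := ∫ ω, f ω * (if 0 < (-1 : ℝ) * (v ω / u ω - a0) then
            (ζ ω - β + (-1 : ℝ) * η * I)⁻¹ else 0) ∂μ with hA
      set B := ∫ ω, f ω * (if 0 < (1 : ℝ) * (v ω / u ω - a0) then
            (ζ ω - β + (1 : ℝ) * η * I)⁻¹ else 0) ∂μ with hB
      change _ + 2 * ((1 : ℝ) : ℂ) * B = R 1 η β at k1
      change _ + 2 * ((-1 : ℝ) : ℂ) * A = R (-1) η β at k2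
      rw [Complex.ofReal_one] at k1
      rw [Complex.ofReal_neg, Complex.ofReal_one] at k2
      rw [Complex.ofReal_neg, Complex.ofReal_one]
      linear_combination k2 - k1 + (2 * (A + B) + R (-1) η β - R 1 η β) * Complex.I_mul_I)
  have hπ : (Real.pi : ℂ) ≠ 0 := by exact_mod_cast Real.pi_ne_zero
  have hHl : LocallyIntegrable (fun b => Real.pi * F b + κ 0 b) volume :=
    (hR.iF.const_mul _).locallyIntegrable.add hκ0
  have hap := hR.ap.ae_eq
    (V := fun β => (Real.pi : ℂ)⁻¹ * (c - ∫ b in (0 : ℝ)..β, (Real.pi * F b + κ 0 b)))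
    (G := fun β => (Real.pi : ℂ)⁻¹ * (-(Real.pi * F β + κ 0 β)))
    (by filter_upwards [hc] with β hβ; rw [← hβ]; field_simp)
    (by
      filter_upwards [LocallyIntegrable.ae_hasDerivAt_integral hHl] with β hβ
      exact ((hβ 0).const_sub c).const_mul _)
  have hκz : ∀ᵐ β : ℝ, κ 0 β = 0 := by
    filter_upwards [hap] with β hβ
    field_simp at hβ
    linear_combination -hβ
  have hprim : ∀ᵐ β : ℝ, U β = (Real.pi : ℂ)⁻¹ * c - ∫ b in (0 : ℝ)..β, F b := by
    filter_upwards [hc] with β hβ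
    have e : ∫ b in (0 : ℝ)..β, (Real.pi * F b + κ 0 b) = Real.pi * ∫ b in (0 : ℝ)..β, F b := by
      rw [← intervalIntegral.integral_const_mul]
      refine intervalIntegral.integral_congr_ae ?_
      filter_upwards [hκz] with b hb _
      rw [hb, add_zero]
    rw [e] at hβ
    field_simp
    linear_combination hβ
  exact fourier_of_primitive hR.iU hR.iF hprim hs0

end Pool.Agent.P.MP_fd5ae1_an.Lim
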