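import Pool.Agent.P.MP_fd5ae1_an.LimB

/-! Limited angle: the abstract uniqueness theorem for the slopes inside the range. -/

set_option autoImplicit false

open MeasureTheory Set Filter Topology Complex
open scoped ENNReal

namespace Pool.Agent.P.MP_fd5ae1_an.Lim

variable {Ω : Type} [MeasurableSpace Ω] {μ : Measure Ω} [SFinite μ] {x y u v ε : Ω → ℝ}

theorem band (H : Pre μ x y u v ε) (hS : ∀ a ξ, ∃ U F, Rep μ x y u v ε a ξ U F) {a1 a2 : ℝ}
    (hv : ∀ᵐ a : ℝ, a ∈ Ioo a1 a2 → Van μ x y u v ε a) (ξ : ℝ) {ρ s : ℝ} (hρ : ρ = 1 ∨ ρ = -1)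
    (hs : 0 < ρ * s) {a a' : ℝ} (h0 : a ∈ Ioo a1 a2) (h1 : a' ∈ Ioo a1 a2) (hT : 0 ≤ ρ * (a' - a))
    (hk : ∫⁻ ω, ‖u ω‖ₑ * kern (v ω / u ω - a) ∂μ ≠ ∞)
    (hk' : ∫⁻ ω, ‖u ω‖ₑ * kern (v ω / u ω - a') ∂μ ≠ ∞) :
    ∫ ω, (ε ω : ℂ) * ((|u ω| : ℝ) : ℂ) * gw ξ (x ω) ^ 2 *
      (if 0 < ρ * (v ω / u ω - a) ∧ ρ * (v ω / u ω - a') < 0 then cexp (s * I *
        (((y ω - v ω / u ω * x ω : ℝ) : ℂ) + (ξ + I) * (v ω / u ω - a : ℝ))) else 0) ∂μ = 0 := by
  have := H.mx; have := H.my; have := H.mu; have := H.mv; have := H.me; have := measurable_gw ξ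
  have hs0 : s ≠ 0 := by rintro rfl; simp at hs
  have hρ0 : (2 * ρ : ℂ) ≠ 0 := by rcases hρ with rfl | rfl <;> norm_num
  have ea : a + ρ * (ρ * (a' - a)) = a' := by rcases hρ with rfl | rfl <;> ring
  have eT : ρ * (ρ * (a' - a)) = a' - a := by linarith
  obtain ⟨C, hA⟩ := adm_exp hρ hs
  obtain ⟨U, F, hR⟩ := hS a ξ
  obtain ⟨U', F', hR'⟩ := hS a' ξ
  have k := key_two H hρ hA ξ a hT hv h0 (ea.symm ▸ h1) (gen_of_kern H hk)
    (ea.symm ▸ gen_of_kern H hk')
  have hA' := adm_shift hρ hA ξ hT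
  rw [ea, ← split_eq H hA hR, ← split_eq H hA' hR', first_two H hv h0 hR hk hs0, sub_self,
    zero_add, eT] at k
  have f2 := first_two H hv h1 hR' hk' hs0
  have f3 : ∫ b : ℝ, U' b * (s * I * cexp (s * I * (b + (ξ + I) * (a' - a : ℝ)))) =
      ∫ b : ℝ, F' b * cexp (s * I * (b + (ξ + I) * (a' - a : ℝ))) := by
    simp only [mul_add (s * I : ℂ), Complex.exp_add, ← mul_assoc, integral_mul_const] at f2 ⊢
    rw [f2]
  rw [f3, sub_self, zero_add] at k
  have k2 := sub_eq_zero.2 (mul_left_cancel₀ hρ0 k)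
  have ii : ∀ {Ψ0 Ψ1 Ψ2 : ℂ → ℂ}, Adm ρ C Ψ0 Ψ1 Ψ2 → ∀ a0 : ℝ, Integrable (fun ω =>
      (ε ω : ℂ) * ((|u ω| : ℝ) : ℂ) * gw ξ (x ω) ^ 2 * (if 0 < ρ * (v ω / u ω - a0) then
        Ψ0 (((y ω - v ω / u ω * x ω : ℝ) : ℂ) + (ξ + I) * (v ω / u ω - a0 : ℝ)) else 0)) μ := by
    intro Ψ0 Ψ1 Ψ2 hΨ a0
    have := hΨ.m0
    refine (H.integrable_f ξ).mul_bdd (c := C) ?_ (Eventually.of_forall fun ω => ?_)
    · refine Measurable.aestronglyMeasurable (Measurable.ite ?_ (by fun_prop) measurable_const)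
      exact measurableSet_lt measurable_const (by fun_prop)
    · split_ifs with h
      · have e : (((y ω - v ω / u ω * x ω : ℝ) : ℂ) + (ξ + I) * (v ω / u ω - a0 : ℝ)).im =
            v ω / u ω - a0 := by simp
        have := hΨ.b0 _ (by rw [e]; exact h.le)
        rw [e] at this
        exact this.trans (div_le_self hΨ.nonneg (by linarith))
      · simpa using hΨ.nonneg
  rw [eT] at hA'
  rw [← integral_sub (ii hA a) (ii hA' a')] at k2
  refine Eq.trans (integral_congr_ae ?_) k2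
  filter_upwards [gen_of_kern H hk'] with ω hω
  by_cases hu : u ω = 0
  · simp [hu]
  have hne : ρ * (v ω / u ω - a') ≠ 0 := by
    intro h
    have : v ω / u ω - a' = 0 := by rcases hρ with rfl | rfl <;> linarith
    exact hu (hω (by field_simp at this; linarith))
  have e : ((y ω - v ω / u ω * x ω : ℝ) : ℂ) + (ξ + I) * (v ω / u ω - a' : ℝ) +
      (ξ + I) * (a' - a : ℝ) =
      ((y ω - v ω / u ω * x ω : ℝ) : ℂ) + (ξ + I) * (v ω / u ω - a : ℝ) := by push_cast; ring
  rw [e, ← mul_sub]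
  congr 1
  rcases hne.lt_or_gt with h | h
  · simp only [h, and_true, if_neg h.not_gt, sub_zero]
  · rw [if_neg fun h' => h.not_gt h'.2, if_pos h, if_pos (by linarith), sub_self]

/-- The tangent line term vanishes for almost every slope. -/
def Third (μ : Measure Ω) (x y u v ε : Ω → ℝ) : Prop :=
  ∀ ξ ρ s : ℝ, ρ = 1 ∨ ρ = -1 → 0 < ρ * s → ∀ᵐ a0 : ℝ,
    ∫ ω, (ε ω : ℂ) * ((|u ω| : ℝ) : ℂ) * gw ξ (x ω) ^ 2 *
        (if 0 < ρ * (v ω / u ω - a0) then cexp (s * I *
          (((y ω - v ω / u ω * x ω : ℝ) : ℂ) + (ξ + I) * (v ω / u ω - a0 : ℝ))) else 0) ∂μ = 0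

theorem third_cut (H : Pre μ x y u v ε) (hS : ∀ a ξ, ∃ U F, Rep μ x y u v ε a ξ U F) {a1 a2 : ℝ}
    (hv : ∀ᵐ a : ℝ, a ∈ Ioo a1 a2 → Van μ x y u v ε a) {p q : ℝ} (hp : p ∈ Ioo a1 a2)
    (hq : q ∈ Ioo a1 a2) (hpq : p ≤ q) (kp : ∫⁻ ω, ‖u ω‖ₑ * kern (v ω / u ω - p) ∂μ ≠ ∞)
    (kq : ∫⁻ ω, ‖u ω‖ₑ * kern (v ω / u ω - q) ∂μ ≠ ∞) :
    Third μ x y u v fun ω => if p < v ω / u ω ∧ v ω / u ω < q then ε ω else 0 := by
  intro ξ ρ s hρ hs
  obtain ⟨e0, e1, h0, h1, k0, k1, hT, hc⟩ : ∃ e0 e1 : ℝ, e0 ∈ Ioo a1 a2 ∧ e1 ∈ Ioo a1 a2 ∧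
      ∫⁻ ω, ‖u ω‖ₑ * kern (v ω / u ω - e0) ∂μ ≠ ∞ ∧ ∫⁻ ω, ‖u ω‖ₑ * kern (v ω / u ω - e1) ∂μ ≠ ∞ ∧
      0 ≤ ρ * (e1 - e0) ∧ ∀ m : ℝ, (p < m ∧ m < q) ↔ (0 < ρ * (m - e0) ∧ ρ * (m - e1) < 0) := by
    rcases hρ with rfl | rfl
    · exact ⟨p, q, hp, hq, kp, kq, by linarith, fun m =>
        ⟨fun h => ⟨by linarith [h.1], by linarith [h.2]⟩,
          fun h => ⟨by linarith [h.1], by linarith [h.2]⟩⟩⟩
    · exact ⟨q, p, hq, hp, kq, kp, by linarith, fun m =>
        ⟨fun h => ⟨by linarith [h.2], by linarith [h.1]⟩,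
          fun h => ⟨by linarith [h.2], by linarith [h.1]⟩⟩⟩
  filter_upwards [ae_generic H.good0] with a0 hk
  simp only [hc]
  rcases le_or_gt 0 (ρ * (a0 - e1)) with c1 | c1
  · refine integral_eq_zero_of_ae (Eventually.of_forall fun ω => ?_)
    simp only [Pi.zero_apply]
    split_ifs with h h'
    · linarith [h.2]
    all_goals simp
  rcases le_or_gt (ρ * (a0 - e0)) 0 with c0 | c0
  · have hb := congrArg (cexp (s * I * ((ξ + I) * (e0 - a0 : ℝ))) * ·)
      (band H hS hv ξ hρ hs h0 h1 hT k0 k1)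
    simp only [mul_zero] at hb
    rw [← integral_const_mul] at hb
    refine Eq.trans ?_ hb
    congr 1; ext ω
    by_cases h : 0 < ρ * (v ω / u ω - e0) ∧ ρ * (v ω / u ω - e1) < 0
    · rw [if_pos h, if_pos h, if_pos (by linarith [h.1]), mul_left_comm, ← Complex.exp_add]
      congr 2
      push_cast
      ring
    · simp [h]
  · have ha : a0 ∈ Ioo a1 a2 := by
      obtain ⟨_, _⟩ := h0; obtain ⟨_, _⟩ := h1
      rcases hρ with rfl | rfl <;> constructor <;> linarith
    refine Eq.trans ?_ (band H hS hv ξ hρ hs ha h1 (by linarith) hk k1)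
    congr 1; ext ω
    by_cases h : 0 < ρ * (v ω / u ω - a0) ∧ ρ * (v ω / u ω - e1) < 0
    · rw [if_pos h, if_pos h.1, if_pos ⟨by linarith [h.1], h.2⟩]
    · rw [if_neg h]
      split_ifs with h2 h3
      · exact absurd ⟨h3, h2.2⟩ h
      all_goals simp

theorem char_zero (H : Pre μ x y u v ε) (hS : Third μ x y u v ε) (ξ : ℝ) {s : ℝ} (hs : s ≠ 0) (t : ℝ) :
    ∫ ω, (ε ω : ℂ) * ((|u ω| : ℝ) : ℂ) *
      cexp (((s * (y ω - v ω / u ω * x ω) + t * (v ω / u ω) : ℝ) : ℂ) * I) *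
        gw ξ (x ω) ^ 2 ∂μ = 0 := by
  have := H.mx; have := H.my; have := H.mu; have := H.mv; have := H.me; have := measurable_gw ξ
  obtain ⟨ρ, hρ, hρs⟩ : ∃ ρ : ℝ, (ρ = 1 ∨ ρ = -1) ∧ 0 < ρ * s := by
    rcases lt_or_gt_of_ne hs with h | h
    · exact ⟨-1, Or.inr rfl, by linarith⟩
    · exact ⟨1, Or.inl rfl, by linarith⟩
  set l : ℂ := s * I * (ξ + I) - t * I with hl
  have hlre : l.re = -s := by simp [hl]
  have hl0 : l ≠ 0 := by
    intro h; rw [h] at hlre; simp at hlre; exact hs hlre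
  set E : ℝ → ℂ := fun α => if 0 < ρ * α then cexp (l * α) else 0 with hE
  have hEm : Measurable E :=
    Measurable.ite (measurableSet_lt measurable_const (by fun_prop)) (by fun_prop) measurable_const
  have hEi : Integrable E ∧ ∫ α, E α ≠ 0 := by
    rcases hρ with rfl | rfl
    · have e : E = (Ioi (0 : ℝ)).indicator fun α => cexp (l * α) := by
        ext α; simp [hE, indicator]
      have hneg : l.re < 0 := by rw [hlre]; linarith
      rw [e, integrable_indicator_iff measurableSet_Ioi, integral_indicator measurableSet_Ioi,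
        integral_exp_mul_complex_Ioi hneg]
      exact ⟨integrableOn_exp_mul_complex_Ioi hneg 0, by simpa using hl0⟩
    · have e : E = (Iio (0 : ℝ)).indicator fun α => cexp (l * α) := by
        ext α; simp [hE, indicator]
      have hpos : 0 < l.re := by rw [hlre]; linarith
      rw [e, integrable_indicator_iff measurableSet_Iio, integral_indicator measurableSet_Iio,
        ← integral_Iic_eq_integral_Iio, integral_exp_mul_complex_Iic hpos]
      exact ⟨(integrableOn_exp_mul_complex_Iic hpos 0).mono_set Iio_subset_Iic_self,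
        by simpa using hl0⟩
  set f : Ω → ℂ := fun ω => (ε ω : ℂ) * ((|u ω| : ℝ) : ℂ) *
      cexp (((s * (y ω - v ω / u ω * x ω) + t * (v ω / u ω) : ℝ) : ℂ) * I) *
        gw ξ (x ω) ^ 2 with hf
  have hfm : Measurable f := by simp only [hf]; fun_prop
  have hfi : Integrable f μ := by
    have := (H.integrable_f ξ).mul_bdd (c := 1) (g := fun ω =>
      cexp (((s * (y ω - v ω / u ω * x ω) + t * (v ω / u ω) : ℝ) : ℂ) * I))
      (Measurable.aestronglyMeasurable (by fun_prop))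
      (Eventually.of_forall fun ω => (Complex.norm_exp_ofReal_mul_I _).le)
    refine this.congr (Eventually.of_forall fun ω => ?_)
    simp only [hf]; ring
  set K : ℝ → Ω → ℂ := fun a0 ω => f ω * E (v ω / u ω - a0) with hK
  have hKi : Integrable (Function.uncurry K) (volume.prod μ) := by
    rw [integrable_prod_iff' (Measurable.aestronglyMeasurable (by simp only [hK]; fun_prop))]
    refine ⟨Eventually.of_forall fun ω =>
      (hEi.1.comp_sub_left (v ω / u ω)).const_mul (f ω), ?_⟩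
    refine (hfi.norm.mul_const (∫ α, ‖E α‖)).congr (Eventually.of_forall fun ω => ?_)
    simp only [Function.uncurry, hK, norm_mul]
    rw [integral_const_mul, integral_sub_left_eq_self (fun α => ‖E α‖)]
  have hL : ∫ a0, ∫ ω, K a0 ω ∂μ = 0 := by
    refine integral_eq_zero_of_ae ?_
    filter_upwards [hS ξ ρ s hρ hρs] with a0 this
    rw [Pi.zero_apply, ← mul_zero (cexp (t * a0 * I)), ← this, ← integral_const_mul]
    congr 1; ext ω
    simp only [hK, hf, hE]
    split_ifs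
    · have : cexp (((s * (y ω - v ω / u ω * x ω) + t * (v ω / u ω) : ℝ) : ℂ) * I) *
          cexp (l * (v ω / u ω - a0 : ℝ)) = cexp (t * a0 * I) * cexp (s * I *
          (((y ω - v ω / u ω * x ω : ℝ) : ℂ) + (ξ + I) * (v ω / u ω - a0 : ℝ))) := by
        rw [← Complex.exp_add, ← Complex.exp_add]; congr 1; simp only [hl]; push_cast; ring
      linear_combination ((ε ω : ℂ) * ((|u ω| : ℝ) : ℂ) * gw ξ (x ω) ^ 2) * this
    · simp
  rw [integral_integral_swap hKi] at hL
  have e : ∫ ω, ∫ a0, K a0 ω ∂volume ∂μ = (∫ ω, f ω ∂μ) * ∫ α, E α := by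
    rw [← integral_mul_const]
    congr 1; ext ω
    simp only [hK]
    rw [integral_const_mul, integral_sub_left_eq_self E]
  rw [e] at hL
  exact (mul_eq_zero.mp hL).resolve_right hEi.2

/-- The abstract uniqueness theorem. -/
theorem core (H : Pre μ x y u v ε) (hS : Third μ x y u v ε)
    {S : Set (ℝ × ℝ)} (hSm : MeasurableSet S) :
    ∫ ω in {ω | (x ω, y ω) ∈ S}, ε ω * |u ω| ∂μ = 0 := by
  have := H.mx; have := H.my; have := H.mu; have := H.mv; have := H.me
  have hfi : Integrable (fun ω => ε ω * |u ω|) μ := by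
    refine H.iu.abs.mono' (Measurable.aestronglyMeasurable (by fun_prop))
      (Eventually.of_forall fun ω => ?_)
    rw [norm_mul, Real.norm_eq_abs, Real.norm_eq_abs, abs_abs]
    exact mul_le_of_le_one_left (abs_nonneg _) (H.be ω)
  set b : Ω → ℝ := fun ω => y ω - v ω / u ω * x ω with hb
  set m : Ω → ℝ := fun ω => v ω / u ω with hm
  have hbm : Measurable b := by simp only [hb]; fun_prop
  have hmm : Measurable m := by simp only [hm]; fun_prop
  set G : ℝ → ℝ → ℝ → ℂ := fun s t r => ∫ ω, ((ε ω * |u ω| : ℝ) : ℂ) *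
    cexp (((s * b ω + t * m ω + r * x ω : ℝ) : ℂ) * I) ∂μ with hG
  have hneg : ∀ s, s ≠ 0 → ∀ t r, 0 < r → G s t (-r) = 0 := by
    intro s hs t r hr
    have := fourier_of_cauchy (μ := μ) (f := fun ω => (ε ω : ℂ) * ((|u ω| : ℝ) : ℂ) *
      cexp (((s * b ω + t * m ω : ℝ) : ℂ) * I)) ?_ H.mx (fun ξ => char_zero H hS ξ hs t) hr
    · rw [← this]; simp only [hG]
      congr 1; ext ω
      rw [mul_assoc ((ε ω : ℂ) * _), ← Complex.exp_add]
      congr 1
      · push_cast; ring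
      · congr 1; push_cast; ring
    · have := hfi.ofReal.mul_bdd (c := 1) (g := fun ω => cexp (((s * b ω + t * m ω : ℝ) : ℂ) * I))
        (Measurable.aestronglyMeasurable (by fun_prop))
        (Eventually.of_forall fun ω => (Complex.norm_exp_ofReal_mul_I _).le)
      refine this.congr (Eventually.of_forall fun ω => ?_)
      simp
  have hconj : ∀ s t r, G (-s) (-t) (-r) = starRingEnd ℂ (G s t r) := by
    intro s t r
    simp only [hG]
    rw [← integral_conj]
    congr 1; ext ω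
    rw [map_mul, Complex.conj_ofReal, ← Complex.exp_conj, map_mul, Complex.conj_ofReal,
      Complex.conj_I]
    congr 2; push_cast; ring
  have hne : ∀ s, s ≠ 0 → ∀ t r, r ≠ 0 → G s t r = 0 := by
    intro s hs t r hr
    rcases lt_or_gt_of_ne hr with h | h
    · simpa using hneg s hs t (-r) (by linarith)
    · have := hneg (-s) (neg_ne_zero.mpr hs) (-t) r h
      rw [hconj] at this
      simpa using this
  have hcont : Continuous fun p : ℝ × ℝ × ℝ => G p.1 p.2.1 p.2.2 := by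
    refine continuous_of_dominated (bound := fun ω => ‖ε ω * |u ω|‖)
      (fun p => Measurable.aestronglyMeasurable (by fun_prop))
      (fun p => Eventually.of_forall fun ω => ?_) hfi.norm
      (Eventually.of_forall fun ω => by fun_prop)
    rw [norm_mul, Complex.norm_exp_ofReal_mul_I, mul_one, Complex.norm_real]
  have hne' : ∀ s, s ≠ 0 → ∀ t r, G s t r = 0 := by
    intro s hs t
    have hc : Continuous fun r => G s t r :=
      hcont.comp (continuous_const.prodMk (continuous_const.prodMk continuous_id))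
    have := Continuous.ext_on (dense_compl_singleton (0 : ℝ)) hc continuous_const
      (fun r hr => hne s hs t r hr)
    exact fun r => congrFun this r
  have hall : ∀ s t r, G s t r = 0 := by
    intro s t r
    have hc : Continuous fun s => G s t r :=
      hcont.comp (f := fun s : ℝ => (s, t, r)) (by fun_prop)
    have := Continuous.ext_on (dense_compl_singleton (0 : ℝ)) hc continuous_const
      (fun s hs => hne' s hs t r)
    exact congrFun this s
  set Z : Ω → EuclideanSpace ℝ (Fin 3) := fun ω => WithLp.toLp 2 ![b ω, m ω, x ω] with hZ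
  have hZm : Measurable Z := by
    refine (WithLp.measurable_toLp 2 _).comp (measurable_pi_lambda _ fun i => ?_)
    fin_cases i <;> simpa
  have hmap : Measurable fun z : EuclideanSpace ℝ (Fin 3) => (z 2, z 0 + z 1 * z 2) := by fun_prop
  have := setIntegral_eq_zero_of_fourier (μ := μ) (f := fun ω => ε ω * |u ω|) (by fun_prop) hfi hZm
    (fun ξ => by
      rw [← hall (ξ 0) (ξ 1) (ξ 2)]
      simp only [hG]
      congr 1; ext ω
      congr 4
      simp [hZ, PiLp.inner_apply, Fin.sum_univ_three]) (hmap hSm)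
  convert this using 2
  congr 1
  ext ω
  simp [hZ, hb, hm]

end Pool.Agent.P.MP_fd5ae1_an.Lim
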