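import Pool.Agent.P.MP_fd5ae1_an.LimC

/-! Limited angle: uniqueness on the parameter side. -/

set_option autoImplicit false

open MeasureTheory Set Filter Topology Function
open scoped ENNReal NNReal

namespace Pool.Agent.P.MP_fd5ae1_an

theorem param_lim {A B : Set ℝ} (hA : MeasurableSet A) (hB : MeasurableSet B) {x y u v : ℝ → ℝ}
    (mx : Measurable x) (my : Measurable y) (mu : Measurable u) (mv : Measurable v)
    (dx : ∀ t ∈ A ∪ B, HasDerivAt x (u t) t) (dy : ∀ t ∈ A ∪ B, HasDerivAt y (v t) t)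
    (iu : IntegrableOn u (A ∪ B)) (iv : IntegrableOn v (A ∪ B))
    {r : ℝ} (hr : 0 < r) (hc : ∀ᵐ a : ℝ, |a| < r → ∀ᵐ b : ℝ,
      {t ∈ A | y t - a * x t = b}.encard = {t ∈ B | y t - a * x t = b}.encard)
    {S : Set (ℝ × ℝ)} (hS : MeasurableSet S) (hAS : ∀ t ∈ A, (x t, y t) ∈ S)
    (hBS : ∀ t ∈ B, (x t, y t) ∉ S) :
    ∀ᵐ t ∂(volume.restrict A), |v t / u t| < r / 2 → u t = 0 := by
  set ε : ℝ → ℝ := fun t => A.indicator 1 t - B.indicator 1 t with hε
  have hεm : Measurable ε := (measurable_one.indicator hA).sub (measurable_one.indicator hB)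
  have hεb : ∀ t, |ε t| ≤ 1 := by
    intro t
    by_cases h1 : t ∈ A <;> by_cases h2 : t ∈ B <;> simp [hε, h1, h2]
  have ih : ∀ a : ℝ, IntegrableOn (fun t => v t - a * u t) (A ∪ B) :=
    fun a => iv.sub (iu.const_mul a)
  have har : ∀ (a : ℝ) (s : Set ℝ), MeasurableSet s → s ⊆ A ∪ B → _ := fun a s hs hsub =>
    area hs (h := fun t => y t - a * x t) (h' := fun t => v t - a * u t) (x := x) (u := u)
      (fun t ht => ((dy t (hsub ht)).sub ((dx t (hsub ht)).const_mul a)).hasDerivWithinAt)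
      (fun t ht => (dx t (hsub ht)).hasDerivWithinAt) (by fun_prop) ((ih a).mono_set hsub)
  -- the signed area formula
  have signed : ∀ (a : ℝ) (NA NB : (ℝ → ℂ) → ℝ → ℂ),
      (∀ G : ℝ → ℂ, IntegrableOn (fun t => ((|v t - a * u t| : ℝ) : ℂ) * G t) A →
        Integrable (NA G) ∧ ∫ b, NA G b = ∫ t in A, ((|v t - a * u t| : ℝ) : ℂ) * G t) →
      (∀ (G φ : ℝ → ℂ) (b : ℝ), NA (fun t => G t * φ (y t - a * x t)) b = NA G b * φ b) →
      (∀ G : ℝ → ℂ, IntegrableOn (fun t => ((|v t - a * u t| : ℝ) : ℂ) * G t) B →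
        Integrable (NB G) ∧ ∫ b, NB G b = ∫ t in B, ((|v t - a * u t| : ℝ) : ℂ) * G t) →
      (∀ (G φ : ℝ → ℂ) (b : ℝ), NB (fun t => G t * φ (y t - a * x t)) b = NB G b * φ b) →
      ∀ G : ℝ → ℂ, IntegrableOn (fun t => ((|v t - a * u t| : ℝ) : ℂ) * G t) (A ∪ B) →
      Integrable (fun b => NA G b - NB G b) ∧ ∀ φ : ℝ → ℂ, Measurable φ → (∃ C, ∀ b, ‖φ b‖ ≤ C) →
        ∫ b, (NA G b - NB G b) * φ b =
          ∫ t in A ∪ B, (ε t : ℂ) * (((|v t - a * u t| : ℝ) : ℂ) * G t * φ (y t - a * x t)) := by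
    intro a NA NB a1 a2 b1 b2 G hG
    refine ⟨(a1 G (hG.mono_set subset_union_left)).1.sub (b1 G (hG.mono_set subset_union_right)).1,
      fun φ hφ ⟨C, hC⟩ => ?_⟩
    have hGφ : IntegrableOn (fun t => ((|v t - a * u t| : ℝ) : ℂ) * (G t * φ (y t - a * x t)))
        (A ∪ B) := by
      have := Integrable.mul_bdd (c := C) hG (g := fun t => φ (y t - a * x t))
        (Measurable.aestronglyMeasurable (by fun_prop)) (Eventually.of_forall fun t => hC _)
      simpa only [mul_assoc, IntegrableOn] using this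
    simp only [mul_assoc ((|_| : ℝ) : ℂ)]
    rw [integral_sign hA hB hGφ, ← (a1 _ (hGφ.mono_set subset_union_left)).2,
      ← (b1 _ (hGφ.mono_set subset_union_right)).2,
      ← integral_sub (a1 _ (hGφ.mono_set subset_union_left)).1
        (b1 _ (hGφ.mono_set subset_union_right)).1]
    simp only [a2, b2, sub_mul]
  have H : Lim.Pre (volume.restrict (A ∪ B)) x y u v ε := ⟨mx, my, mu, mv, hεm, hεb, iu, iv⟩
  have hv : ∀ᵐ a : ℝ, a ∈ Ioo (-r) r → Lim.Van (volume.restrict (A ∪ B)) x y u v ε a := by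
    filter_upwards [hc] with a ha har' φ hφ hb
    replace ha := ha (abs_lt.2 har')
    obtain ⟨NA, a1, a2, a3, -⟩ := har a A hA subset_union_left
    obtain ⟨NB, b1, b2, b3, -⟩ := har a B hB subset_union_right
    have := (signed a NA NB a1 a2 b1 b2 (fun _ => 1)
      (by simp only [mul_one]; exact (ih a).abs.ofReal (𝕜 := ℂ))).2 φ hφ hb
    simp only [mul_one, ← mul_assoc] at this
    rw [← this]
    refine integral_eq_zero_of_ae ?_
    filter_upwards [ha, a3, b3] with b h1 ⟨k, hk, hk'⟩ ⟨l, hl, hl'⟩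
    rw [hk, hl] at h1
    have : k = l := by exact_mod_cast h1
    simp [hk', hl', this]
  have hR : ∀ a ξ, ∃ U F, Rep (volume.restrict (A ∪ B)) x y u v ε a ξ U F := by
    intro a ξ
    obtain ⟨NA, a1, a2, -, a4⟩ := har a A hA subset_union_left
    obtain ⟨NB, b1, b2, -, b4⟩ := har a B hB subset_union_right
    have := measurable_gw ξ
    have s1 := signed a NA NB a1 a2 b1 b2 (fun t => gw ξ (x t))
      (Integrable.mul_bdd (c := 1) ((ih a).abs.ofReal (𝕜 := ℂ))
        (Measurable.aestronglyMeasurable (by fun_prop))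
        (Eventually.of_forall fun t => norm_gw_le _ _))
    have s2 := signed a NA NB a1 a2 b1 b2
      (fun t => -(gw ξ (x t) ^ 2) * (u t / (v t - a * u t) : ℝ)) (by
        refine Integrable.mono' iu.abs (Measurable.aestronglyMeasurable (by fun_prop))
          (Eventually.of_forall fun t => ?_)
        simp only [norm_mul, norm_neg, Complex.norm_real, Real.norm_eq_abs, abs_abs]
        calc _ ≤ |v t - a * u t| * (1 * |u t / (v t - a * u t)|) := by
              gcongr; exact norm_gw_sq_le _ _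
          _ ≤ _ := by rw [one_mul]; exact abs_mul_abs_div_le _ _)
    refine ⟨_, fun b => -(NA (fun t => -(gw ξ (x t) ^ 2) * (u t / (v t - a * u t) : ℝ)) b -
      NB (fun t => -(gw ξ (x t) ^ 2) * (u t / (v t - a * u t) : ℝ)) b), s1.1, s2.1.neg, s1.2,
      fun φ hφ hb => ?_, ?_⟩
    · simp only [neg_mul (_ - _)]
      rw [integral_neg, s2.2 φ hφ hb, ← integral_neg]
      congr 1; ext t; ring
    · simp only [neg_neg]
      exact (a4 _ _ (hasDerivAt_gw ξ)).sub (b4 _ _ (hasDerivAt_gw ξ))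
  obtain ⟨p, hp, kp⟩ := Measure.exists_mem_of_measure_ne_zero_of_ae (μ := volume)
    (s := Ioo (-r) (-(r / 2))) (by simp [hr]) (ae_restrict_of_ae (ae_generic H.good0))
  obtain ⟨q, hq, kq⟩ := Measure.exists_mem_of_measure_ne_zero_of_ae (μ := volume)
    (s := Ioo (r / 2) r) (by simp [hr]) (ae_restrict_of_ae (ae_generic H.good0))
  have hm : MeasurableSet {t | p < v t / u t ∧ v t / u t < q} :=
    (mv.div mu) (measurableSet_Ioo (a := p) (b := q))
  have hcore := Lim.core (ε := fun t => if p < v t / u t ∧ v t / u t < q then ε t else 0)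
    ⟨mx, my, mu, mv, Measurable.ite hm hεm measurable_const,
      fun t => by split_ifs; exacts [hεb t, by simp], iu, iv⟩
    (Lim.third_cut H hR hv ⟨hp.1, by linarith [hp.2]⟩ ⟨by linarith [hq.1], hq.2⟩
      (by linarith [hp.2, hq.1]) kp kq) hS
  have hSm : MeasurableSet {t | (x t, y t) ∈ S} := (mx.prodMk my) hS
  rw [Measure.restrict_restrict hSm] at hcore
  have e : {t | (x t, y t) ∈ S} ∩ (A ∪ B) = A := by
    ext t
    constructor
    · rintro ⟨h1, h2 | h2⟩
      · exact h2
      · exact absurd h1 (hBS t h2)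
    · exact fun h => ⟨hAS t h, Or.inl h⟩
  rw [e, setIntegral_congr_fun hA
    (g := {t | p < v t / u t ∧ v t / u t < q}.indicator fun t => |u t|) (fun t ht => by
      have : t ∉ B := fun h => hBS t h (hAS t ht)
      simp [hε, ht, this, indicator_apply]),
    integral_eq_zero_iff_of_nonneg (fun t => indicator_nonneg (fun _ _ => abs_nonneg _) t)
      ((iu.mono_set subset_union_left).abs.indicator hm)] at hcore
  filter_upwards [hcore] with t ht hlt
  rw [abs_lt] at hlt
  rw [indicator_of_mem (show t ∈ {t | p < v t / u t ∧ v t / u t < q} from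
    ⟨by linarith [hp.2], by linarith [hq.1]⟩)] at ht
  exact abs_eq_zero.mp ht

end Pool.Agent.P.MP_fd5ae1_an
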