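import Mathlib

set_option autoImplicit false

namespace Pool.Agent.P.MP_fd5ae1_an

theorem lex_inj {c s u v u' v' : ℝ} (hc : 0 < c) (hs : 0 < s)
    (h : (v = 0 ∧ 0 ≤ u ∧ u ≤ 1) ∨ (u = 1 ∧ 0 ≤ v ∧ v ≤ 1))
    (h' : (v' = 0 ∧ 0 ≤ u' ∧ u' ≤ 1) ∨ (u' = 1 ∧ 0 ≤ v' ∧ v' ≤ 1))
    (e : u * c + v * s = u' * c + v' * s) : u = u' ∧ v = v' := by
  have key : ∀ a b : ℝ, 0 ≤ a → 0 ≤ b → a * c + b * s = 0 → a = 0 ∧ b = 0 := fun a b ha hb e =>
    ⟨by nlinarith [mul_nonneg hb hs.le], by nlinarith [mul_nonneg ha hc.le]⟩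
  rcases h with ⟨rfl, a, b⟩ | ⟨rfl, a, b⟩ <;> rcases h' with ⟨rfl, a', b'⟩ | ⟨rfl, a', b'⟩
  · exact ⟨mul_right_cancel₀ hc.ne' (by linarith), rfl⟩
  · have := key (1 - u) v' (by linarith) a' (by linarith)
    exact ⟨by linarith [this.1], this.2.symm⟩
  · have := key (1 - u') v (by linarith) a (by linarith)
    exact ⟨by linarith [this.1], this.2⟩
  · exact ⟨rfl, mul_right_cancel₀ hs.ne' (by linarith)⟩

theorem lex_surj {c s t : ℝ} (hc : 0 < c) (hs : 0 < s) :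
    (∃ u v : ℝ, ((v = 0 ∧ 0 ≤ u ∧ u ≤ 1) ∨ (u = 1 ∧ 0 ≤ v ∧ v ≤ 1)) ∧ u * c + v * s = t) ↔
      0 ≤ t ∧ t ≤ c + s := by
  constructor
  · rintro ⟨u, v, ⟨rfl, a, b⟩ | ⟨rfl, a, b⟩, rfl⟩
    · constructor <;> nlinarith
    · constructor <;> nlinarith
  · rintro ⟨a, b⟩
    by_cases h : t ≤ c
    · exact ⟨t / c, 0, Or.inl ⟨rfl, by positivity, (div_le_one hc).2 h⟩, by field_simp; ring⟩
    · exact ⟨1, (t - c) / s, Or.inr ⟨rfl, div_nonneg (by linarith) hs.le,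
        (div_le_one hs).2 (by linarith)⟩, by field_simp; ring⟩

theorem lex_card {X : Type} {A : Set X} {l : X → ℝ} {a b t : ℝ} (h1 : Set.InjOn l A)
    (h2 : ∀ t, (∃ x, x ∈ A ∧ l x = t) ↔ a ≤ t ∧ t ≤ b) :
    (A ∩ {x | l x = t}).encard = (Set.Icc a b ∩ {t}).encard := by
  rw [← (h1.mono Set.inter_subset_left).encard_image]
  congr 1
  ext y
  constructor
  · rintro ⟨x, ⟨p, q⟩, rfl⟩
    exact ⟨(h2 _).1 ⟨x, p, rfl⟩, q⟩
  · rintro ⟨p, q⟩
    obtain ⟨x, r, e⟩ := (h2 y).2 p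
    exact ⟨x, ⟨r, e.trans q⟩, e⟩

theorem lex_var (P V : EuclideanSpace ℝ (Fin 2)) :
    eVariationOn (fun r : ℝ => P + r • V) (Set.Icc 0 1) ≤ ENNReal.ofReal ‖V‖ := by
  have h1 : LipschitzWith ‖V‖₊ fun r : ℝ => P + r • V := LipschitzWith.of_dist_le_mul fun x y => by
    rw [dist_add_left, dist_eq_norm, ← sub_smul, norm_smul, dist_eq_norm, mul_comm]
    rfl
  have h2 := (h1.lipschitzOnWith (s := Set.univ)).comp_eVariationOn_le (g := id)
    (s := Set.Icc 0 1) (Set.mapsTo_univ _ _)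
  have h3 := (monotoneOn_id (s := (Set.univ : Set ℝ))).eVariationOn_eq (Set.mem_univ 0)
    (Set.mem_univ 1)
  rw [Set.univ_inter] at h3
  rw [h3] at h2
  refine h2.trans_eq ?_
  rw [ofReal_norm, enorm_eq_nnnorm]
  simp

/-- Bottom and right side of the unit square against left and top side. -/
theorem square_example :
    ∃ C D : Set (EuclideanSpace ℝ (Fin 2)),
      MeasureTheory.NullMeasurableSet C (MeasureTheory.Measure.hausdorffMeasure 1) ∧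
      MeasureTheory.NullMeasurableSet D (MeasureTheory.Measure.hausdorffMeasure 1) ∧
      (∃ f : ℕ → ℝ → EuclideanSpace ℝ (Fin 2),
        (∀ i, ContinuousOn (f i) (Set.Icc 0 1) ∧ Set.InjOn (f i) (Set.Icc 0 1)) ∧
        (∑' i, eVariationOn (f i) (Set.Icc 0 1)) ≠ ⊤ ∧
        C ∪ D ⊆ ⋃ i, f i '' Set.Icc 0 1) ∧
      (∀ θ t : ℝ, θ ∈ Set.Ioo 0 (Real.pi / 2) →
        (C ∩ {x : EuclideanSpace ℝ (Fin 2) |
            x.ofLp 0 * Real.cos θ + x.ofLp 1 * Real.sin θ = t}).encard =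
        (D ∩ {x : EuclideanSpace ℝ (Fin 2) |
            x.ofLp 0 * Real.cos θ + x.ofLp 1 * Real.sin θ = t}).encard) ∧
      MeasureTheory.Measure.hausdorffMeasure 1 ((C \ D) ∪ (D \ C)) ≠ 0 := by
  refine ⟨{x | (x.ofLp 1 = 0 ∧ 0 ≤ x.ofLp 0 ∧ x.ofLp 0 ≤ 1) ∨
      (x.ofLp 0 = 1 ∧ 0 ≤ x.ofLp 1 ∧ x.ofLp 1 ≤ 1)},
    {x | (x.ofLp 0 = 0 ∧ 0 ≤ x.ofLp 1 ∧ x.ofLp 1 ≤ 1) ∨
      (x.ofLp 1 = 1 ∧ 0 ≤ x.ofLp 0 ∧ x.ofLp 0 ≤ 1)}, ?_, ?_, ?_, fun θ t hθ => ?_, ?_⟩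
  · exact MeasurableSet.nullMeasurableSet (by measurability)
  · exact MeasurableSet.nullMeasurableSet (by measurability)
  · set P : ℕ → EuclideanSpace ℝ (Fin 2) := fun i =>
      if i = 1 then !₂[1, 0] else if i = 3 then !₂[0, 1] else 0 with hP
    set V : ℕ → EuclideanSpace ℝ (Fin 2) := fun i =>
      if i = 1 ∨ i = 2 then !₂[0, 1] else if i = 0 ∨ i = 3 then !₂[1, 0]
        else !₂[(1 / 2) ^ i, 0] with hV
    have hn : ∀ i, 0 < ‖V i‖ ∧ ‖V i‖ ≤ 8 * (1 / 2) ^ i := fun i => by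
      simp only [hV]
      split_ifs with a b
      · rcases a with rfl | rfl <;> norm_num [EuclideanSpace.norm_eq]
      · rcases b with rfl | rfl <;> norm_num [EuclideanSpace.norm_eq]
      · have p : (0 : ℝ) < (1 / 2) ^ i := by positivity
        have : ‖(!₂[(1 / 2) ^ i, 0] : EuclideanSpace ℝ (Fin 2))‖ = (1 / 2) ^ i := by
          rw [EuclideanSpace.norm_eq, Fin.sum_univ_two]
          simp
        rw [this]
        exact ⟨p, by linarith⟩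
    refine ⟨fun i r => P i + r • V i, fun i => ⟨by fun_prop, fun x _ y _ e => ?_⟩, ?_, ?_⟩
    · exact smul_left_injective ℝ (norm_pos_iff.1 (hn i).1) (add_left_cancel e)
    · refine ne_top_of_le_ne_top ?_ (ENNReal.tsum_le_tsum fun i =>
        (lex_var _ _).trans (ENNReal.ofReal_le_ofReal (hn i).2))
      rw [← ENNReal.ofReal_tsum_of_nonneg (fun i => by positivity)
        (summable_geometric_two.mul_left 8)]
      exact ENNReal.ofReal_ne_top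
    · rintro x ((⟨a, b⟩ | ⟨a, b⟩) | (⟨a, b⟩ | ⟨a, b⟩))
      · refine Set.mem_iUnion.2 ⟨0, x.ofLp 0, b, ?_⟩
        ext j
        fin_cases j <;> simp [hP, hV, a]
      · refine Set.mem_iUnion.2 ⟨1, x.ofLp 1, b, ?_⟩
        ext j
        fin_cases j <;> simp [hP, hV, a]
      · refine Set.mem_iUnion.2 ⟨2, x.ofLp 1, b, ?_⟩
        ext j
        fin_cases j <;> simp [hP, hV, a]
      · refine Set.mem_iUnion.2 ⟨3, x.ofLp 0, b, ?_⟩
        ext j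
        fin_cases j <;> simp [hP, hV, a]
  · have hc : 0 < Real.cos θ := Real.cos_pos_of_mem_Ioo ⟨by linarith [hθ.1, Real.pi_pos], hθ.2⟩
    have hs : 0 < Real.sin θ :=
      Real.sin_pos_of_pos_of_lt_pi hθ.1 (by linarith [hθ.2, Real.pi_pos])
    have ex : ∀ x y : EuclideanSpace ℝ (Fin 2), x.ofLp 0 = y.ofLp 0 → x.ofLp 1 = y.ofLp 1 →
        x = y := fun x y a b => by
      ext j
      fin_cases j
      · exact a
      · exact b
    refine (lex_card (a := 0) (b := Real.cos θ + Real.sin θ) (fun x p y q e => ?_)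
      fun t => ?_).trans (lex_card (fun x p y q e => ?_) fun t => ?_).symm
    · have := lex_inj hc hs p q e
      exact ex x y this.1 this.2
    · rw [← lex_surj hc hs]
      exact ⟨fun ⟨x, p, q⟩ => ⟨_, _, p, q⟩, fun ⟨u, v, p, q⟩ => ⟨!₂[u, v], p, q⟩⟩
    · have := lex_inj hs hc p q (by linarith)
      exact ex x y this.2 this.1
    · rw [add_comm (Real.cos θ), ← lex_surj hs hc]
      exact ⟨fun ⟨x, p, q⟩ => ⟨_, _, p, by linarith⟩,
        fun ⟨u, v, p, q⟩ => ⟨!₂[v, u], p, (add_comm _ _).trans q⟩⟩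
  · intro h
    have h1 := MeasureTheory.measure_mono_null
      (s := segment ℝ (!₂[1 / 4, 0] : EuclideanSpace ℝ (Fin 2)) !₂[3 / 4, 0]) (fun x hx => ?_) h
    · rw [MeasureTheory.hausdorffMeasure_segment, edist_eq_zero] at h1
      have := congrArg (fun x : EuclideanSpace ℝ (Fin 2) => x.ofLp 0) h1
      norm_num at this
    · obtain ⟨a, b, ha, hb, hab, rfl⟩ := hx
      have e0 : (a • (!₂[1 / 4, 0] : EuclideanSpace ℝ (Fin 2)) + b • !₂[3 / 4, 0]).ofLp 0 =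
          a / 4 + b * 3 / 4 := by
        simp
        ring
      have e1 : (a • (!₂[1 / 4, 0] : EuclideanSpace ℝ (Fin 2)) + b • !₂[3 / 4, 0]).ofLp 1 = 0 := by
        simp
      generalize a • (!₂[1 / 4, 0] : EuclideanSpace ℝ (Fin 2)) + b • !₂[3 / 4, 0] = x at e0 e1
      refine Or.inl ⟨Or.inl ⟨e1, by linarith, by linarith⟩, ?_⟩
      rintro (⟨p, -⟩ | ⟨p, -⟩) <;> linarith

end Pool.Agent.P.MP_fd5ae1_an
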