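import Mathlib

set_option autoImplicit false

open MeasureTheory Set Filter Topology

namespace Pool.Agent.P.MP_fd5ae1_an

/-- Every angle of an open set is well inside one of countably many frames. -/
theorem frame_choice {Th : Set ℝ} (hTh : IsOpen Th) {θ : ℝ} (hθ : θ ∈ Th) :
    ∃ c r : ℚ, (0 : ℝ) < r ∧ (∀ a : ℝ, |a| < r → (c : ℝ) + Real.arctan a ∈ Th) ∧
      ∃ a : ℝ, |a| < (r : ℝ) / 2 ∧ θ = (c : ℝ) + Real.arctan a := by
  obtain ⟨δ, hδ, hball⟩ := Metric.isOpen_iff.mp hTh θ hθ
  have harc : ∀ a : ℝ, |Real.arctan a| ≤ |a| := by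
    have hp : ∀ a : ℝ, 0 ≤ a → |Real.arctan a| ≤ |a| := by
      intro a ha
      have h0 : 0 ≤ Real.arctan a := Real.arctan_nonneg.mpr ha
      have := Real.le_tan h0 (Real.arctan_lt_pi_div_two a)
      rw [Real.tan_arctan] at this
      rwa [abs_of_nonneg h0, abs_of_nonneg ha]
    intro a
    rcases le_total 0 a with ha | ha
    · exact hp a ha
    · have := hp (-a) (by linarith)
      rwa [Real.arctan_neg, abs_neg, abs_neg] at this
  obtain ⟨r, hr0, hr1⟩ := exists_rat_btwn (half_pos hδ)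
  have hpos : 0 < Real.arctan ((r : ℝ) / 2) := by
    rw [← Real.arctan_zero]; exact Real.arctan_strictMono (by linarith)
  obtain ⟨c, hc0, hc1⟩ := exists_rat_btwn (show θ - Real.arctan ((r : ℝ) / 2) < θ by linarith)
  have hlt : Real.arctan ((r : ℝ) / 2) < Real.pi / 2 := Real.arctan_lt_pi_div_two _
  have hle : Real.arctan ((r : ℝ) / 2) ≤ (r : ℝ) / 2 := by
    have := harc ((r : ℝ) / 2)
    rwa [abs_of_pos hpos, abs_of_pos (by linarith)] at this
  have e : Real.arctan (Real.tan (θ - c)) = θ - c :=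
    Real.arctan_tan (by linarith [Real.pi_pos]) (by linarith)
  refine ⟨c, r, hr0, fun a ha => hball ?_, Real.tan (θ - c), ?_, by rw [e]; ring⟩
  · rw [Metric.mem_ball, Real.dist_eq]
    have h1 := harc a
    have h2 := abs_le.mp h1
    rw [abs_lt]; constructor <;> linarith [h2.1, h2.2]
  · rw [abs_lt]
    constructor
    · have : Real.arctan 0 < Real.arctan (Real.tan (θ - c)) := by
        rw [e, Real.arctan_zero]; linarith
      have := Real.arctan_strictMono.lt_iff_lt.mp this
      linarith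
    · have : Real.arctan (Real.tan (θ - c)) < Real.arctan ((r : ℝ) / 2) := by
        rw [e]; linarith
      exact Real.arctan_strictMono.lt_iff_lt.mp this

/-- At an accumulation point of a set of parameters whose chords have normal angles in a compact
set `K`, the velocity has a normal angle in `K`. -/
theorem chord_tangent_at {x y : ℝ → ℝ} {T K : Set ℝ} (hK : IsCompact K)
    (hch : ∀ s ∈ T, ∀ t ∈ T, ∃ θ ∈ K,
      x s * Real.cos θ + y s * Real.sin θ = x t * Real.cos θ + y t * Real.sin θ)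
    {t u v : ℝ} (ht : t ∈ T) (hne : (𝓝[T ∩ Ioi t] t).NeBot) (hx : HasDerivAt x u t)
    (hy : HasDerivAt y v t) : ∃ θ ∈ K, u * Real.cos θ + v * Real.sin θ = 0 := by
  by_contra hcon
  push Not at hcon
  have hopen : IsOpen {p : (ℝ × ℝ) × ℝ | p.1.1 * Real.cos p.2 + p.1.2 * Real.sin p.2 ≠ 0} :=
    isOpen_ne_fun (by fun_prop) continuous_const
  have hev : ∀ᶠ q : ℝ × ℝ in 𝓝 (u, v), ∀ θ ∈ K, q.1 * Real.cos θ + q.2 * Real.sin θ ≠ 0 :=
    hK.eventually_forall_of_forall_eventually
      (P := fun (q : ℝ × ℝ) θ => q.1 * Real.cos θ + q.2 * Real.sin θ ≠ 0)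
      (fun θ hθ => hopen.mem_nhds (hcon θ hθ))
  have hle : 𝓝[T ∩ Ioi t] t ≤ 𝓝[≠] t :=
    nhdsWithin_mono _ fun s hs => ne_of_gt hs.2
  have h1 := (hasDerivAt_iff_tendsto_slope.mp hx).mono_left hle
  have h2 := (hasDerivAt_iff_tendsto_slope.mp hy).mono_left hle
  obtain ⟨s, hs, hsT⟩ := (((h1.prodMk_nhds h2).eventually hev).and self_mem_nhdsWithin).exists
  obtain ⟨θ, hθ, e⟩ := hch s hsT.1 t ht
  refine hs θ hθ ?_
  have hst : s - t ≠ 0 := sub_ne_zero.mpr (ne_of_gt hsT.2)
  simp only [slope_def_field]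
  field_simp
  linarith

/-- Step (6): the set `T` of parameters is arbitrary (no measurability). -/
theorem chord_tangent {x y u v : ℝ → ℝ} {T K : Set ℝ} (hK : IsCompact K)
    (hch : ∀ s ∈ T, ∀ t ∈ T, ∃ θ ∈ K,
      x s * Real.cos θ + y s * Real.sin θ = x t * Real.cos θ + y t * Real.sin θ)
    (hx : ∀ t ∈ T, HasDerivAt x (u t) t) (hy : ∀ t ∈ T, HasDerivAt y (v t) t) :
    ∀ᵐ t : ℝ, t ∈ T → ∃ θ ∈ K, u t * Real.cos θ + v t * Real.sin θ = 0 := by
  filter_upwards [(countable_setOfPred_isolated_right_within (s := T)).ae_notMem volume]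
    with t h ht
  exact chord_tangent_at hK hch ht ⟨fun hb => h ⟨ht, hb⟩⟩ (hx t ht) (hy t ht)

/-- Any two points of the plane lie on a common line with normal angle in `[-π, π]`. -/
theorem two_points_line (x y x' y' : ℝ) : ∃ θ ∈ Icc (-Real.pi) Real.pi,
    x * Real.cos θ + y * Real.sin θ = x' * Real.cos θ + y' * Real.sin θ := by
  set z : ℂ := ⟨-(y - y'), x - x'⟩ with hz
  refine ⟨Complex.arg z, ⟨(Complex.neg_pi_lt_arg z).le, Complex.arg_le_pi z⟩, ?_⟩
  by_cases h0 : z = 0
  · have h1 : -(y - y') = 0 := congrArg Complex.re h0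
    have h2 : x - x' = 0 := congrArg Complex.im h0
    rw [show x = x' by linarith, show y = y' by linarith]
  · have hn : ‖z‖ ≠ 0 := norm_ne_zero_iff.mpr h0
    rw [Complex.cos_arg h0, Complex.sin_arg]
    have h1 : z.re = -(y - y') := rfl
    have h2 : z.im = x - x' := rfl
    rw [h1, h2]
    field_simp
    ring

/-- The line of normal angle `c + arctan a` in the frame turned by `c`. -/
theorem frame_line (c a x y : ℝ) :
    x * Real.cos (c + Real.arctan a) + y * Real.sin (c + Real.arctan a) =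
      ((x * Real.cos c + y * Real.sin c) - a * (x * Real.sin c - y * Real.cos c)) *
        Real.cos (Real.arctan a) := by
  have hsin : Real.sin (Real.arctan a) = a * Real.cos (Real.arctan a) := by
    have := Real.tan_arctan a
    rwa [Real.tan_eq_sin_div_cos, div_eq_iff (Real.cos_arctan_pos a).ne'] at this
  rw [Real.cos_add, Real.sin_add, hsin]; ring

end Pool.Agent.P.MP_fd5ae1_an
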