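import Pool.Agent.P.MP_fd5ae1_an.LimD
import Pool.Agent.P.MP_fd5ae1_an.LimGeo

set_option autoImplicit false

open MeasureTheory Set Filter Topology Function
open scoped ENNReal NNReal

namespace Pool.Agent.P.MP_fd5ae1_an

/-- One half of the limited-angle theorem: a part of `C` outside `D` with chords in `K` is null. -/
theorem half_lim {C D : Set (EuclideanSpace ℝ (Fin 2))} (hC : NullMeasurableSet C μH[1])
    (hD : NullMeasurableSet D μH[1]) (k : ℕ → ℝ → EuclideanSpace ℝ (Fin 2))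
    (hinj : ∀ i, InjOn (k i) (Icc 0 1)) (hv : ∑' i, eVariationOn (k i) (Icc 0 1) ≠ ∞)
    (hCk : C ⊆ ⋃ i, k i '' Icc 0 1) (hDk : D ⊆ ⋃ i, k i '' Icc 0 1)
    {Th K : Set ℝ} (hTh : IsOpen Th) (hK : IsCompact K) (hKT : K ⊆ Th)
    (h : ∀ᵐ θ : ℝ, θ ∈ Th → ∀ᵐ t : ℝ,
      (C ∩ {p | p.ofLp 0 * Real.cos θ + p.ofLp 1 * Real.sin θ = t}).encard =
      (D ∩ {p | p.ofLp 0 * Real.cos θ + p.ofLp 1 * Real.sin θ = t}).encard)
    {E : Set (EuclideanSpace ℝ (Fin 2))} (hE : E ⊆ C \ D)
    (hch : ∀ p ∈ E, ∀ q ∈ E, ∃ θ ∈ K, p.ofLp 0 * Real.cos θ + p.ofLp 1 * Real.sin θ =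
      q.ofLp 0 * Real.cos θ + q.ofLp 1 * Real.sin θ) :
    μH[1] E = 0 := by
  obtain ⟨γ, Ω, hγm, hΩ, hdiff, hγi, hint, hcov⟩ := exists_param k hinj hv
  obtain ⟨P, hPs, hPm, hPe⟩ := (hC.diff hD).exists_measurable_subset_ae_eq
  obtain ⟨Q, hQs, hQm, hQe⟩ := (hD.diff hC).exists_measurable_subset_ae_eq
  set A := Ω ∩ γ ⁻¹' P with hA
  set B := Ω ∩ γ ⁻¹' Q with hB
  have hAm : MeasurableSet A := hΩ.inter (hγm hPm)
  have hBm : MeasurableSet B := hΩ.inter (hγm hQm)
  have hAB : A ∪ B ⊆ Ω := union_subset inter_subset_left inter_subset_left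
  set Z := ((⋃ i, k i '' Icc 0 1) \ γ '' Ω) ∪ (((C \ D) \ P) ∪ ((D \ C) \ Q)) with hZ
  have hZ0 : μH[1] Z = 0 :=
    measure_union_null hcov (measure_union_null (ae_eq_set.mp hPe).2 (ae_eq_set.mp hQe).2)
  set x : ℝ → ℝ := fun t => (γ t).ofLp 0 with hx
  set y : ℝ → ℝ := fun t => (γ t).ofLp 1 with hy
  set u : ℝ → ℝ := fun t => (deriv γ t).ofLp 0 with hu
  set v : ℝ → ℝ := fun t => (deriv γ t).ofLp 1 with hv'
  have mproj : ∀ i : Fin 2, Measurable fun p : EuclideanSpace ℝ (Fin 2) => p.ofLp i :=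
    fun i => by fun_prop
  have mx : Measurable x := (mproj 0).comp hγm
  have my : Measurable y := (mproj 1).comp hγm
  have mu : Measurable u := (mproj 0).comp (measurable_deriv γ)
  have mv : Measurable v := (mproj 1).comp (measurable_deriv γ)
  have dx : ∀ t ∈ Ω, HasDerivAt x (u t) t := fun t ht =>
    (EuclideanSpace.proj (0 : Fin 2) : EuclideanSpace ℝ (Fin 2) →L[ℝ] ℝ).hasFDerivAt.comp_hasDerivAt
      t (hdiff t ht).hasDerivAt
  have dy : ∀ t ∈ Ω, HasDerivAt y (v t) t := fun t ht =>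
    (EuclideanSpace.proj (1 : Fin 2) : EuclideanSpace ℝ (Fin 2) →L[ℝ] ℝ).hasFDerivAt.comp_hasDerivAt
      t (hdiff t ht).hasDerivAt
  have iu : IntegrableOn u Ω :=
    (EuclideanSpace.proj (0 : Fin 2) : EuclideanSpace ℝ (Fin 2) →L[ℝ] ℝ).integrable_comp hint
  have iv : IntegrableOn v Ω :=
    (EuclideanSpace.proj (1 : Fin 2) : EuclideanSpace ℝ (Fin 2) →L[ℝ] ℝ).integrable_comp hint
  -- counts on the parameter side
  have h1 : ∀ᵐ θ : ℝ, θ ∈ Th → ∀ᵐ t : ℝ,
      {s ∈ A | x s * Real.cos θ + y s * Real.sin θ = t}.encard =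
      {s ∈ B | x s * Real.cos θ + y s * Real.sin θ = t}.encard := by
    filter_upwards [h] with θ hθ0 hθT
    have hθ := hθ0 hθT
    obtain ⟨N, -, -, hN, -⟩ := area hΩ (h := fun s => x s * Real.cos θ + y s * Real.sin θ)
      (h' := fun s => u s * Real.cos θ + v s * Real.sin θ) (x := x) (u := u)
      (fun t ht => (((dx t ht).mul_const _).add ((dy t ht).mul_const _)).hasDerivWithinAt)
      (fun t ht => (dx t ht).hasDerivWithinAt) (by fun_prop) ((iu.mul_const _).add (iv.mul_const _))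
    filter_upwards [hθ, hN, ae_line_avoids hZ0 (Real.cos θ) (Real.sin θ)] with t e ⟨n, hn, _⟩ hav
    set L : Set (EuclideanSpace ℝ (Fin 2)) :=
      {p | p.ofLp 0 * Real.cos θ + p.ofLp 1 * Real.sin θ = t} with hL
    have himg : ∀ {X Y R : Set (EuclideanSpace ℝ (Fin 2))}, X ⊆ ⋃ i, k i '' Icc 0 1 → R ⊆ X \ Y →
        (X \ Y) \ R ⊆ Z → (X \ Y) ∩ L =
          γ '' {s ∈ Ω ∩ γ ⁻¹' R | x s * Real.cos θ + y s * Real.sin θ = t} := by
      intro X Y R hX hR hRZ
      ext p
      constructor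
      · rintro ⟨hp, hpL⟩
        have hpZ : p ∉ Z := fun hz => hav p hz hpL
        have hpR : p ∈ R := by
          by_contra hcon
          exact hpZ (hRZ ⟨hp, hcon⟩)
        have hpΩ : p ∈ γ '' Ω := by
          by_contra hcon
          exact hpZ (Or.inl ⟨hX hp.1, hcon⟩)
        obtain ⟨s, hs, rfl⟩ := hpΩ
        exact ⟨s, ⟨⟨hs, hpR⟩, hpL⟩, rfl⟩
      · rintro ⟨s, ⟨⟨_, hs⟩, hsL⟩, rfl⟩
        exact ⟨hR hs, hsL⟩
    have hfin : (C ∩ D ∩ L).encard ≠ ⊤ := by
      have hsub : C ∩ D ∩ L ⊆ γ '' {s ∈ Ω | x s * Real.cos θ + y s * Real.sin θ = t} := by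
        rintro p ⟨hp, hpL⟩
        have hpΩ : p ∈ γ '' Ω := by
          by_contra hcon
          exact hav p (Or.inl ⟨hCk hp.1, hcon⟩) hpL
        obtain ⟨s, hs, rfl⟩ := hpΩ
        exact ⟨s, ⟨hs, hpL⟩, rfl⟩
      refine ne_top_of_le_ne_top ?_ ((encard_le_encard hsub).trans (encard_image_le _ _))
      rw [hn]; exact ENat.natCast_ne_top n
    have split : ∀ X Y : Set (EuclideanSpace ℝ (Fin 2)),
        (X ∩ L).encard = ((X \ Y) ∩ L).encard + (X ∩ Y ∩ L).encard := by
      intro X Y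
      rw [← encard_union_eq (Disjoint.mono inter_subset_left inter_subset_left
        disjoint_sdiff_inter), ← union_inter_distrib_right, sdiff_union_inter]
    rw [split C D, split D C, inter_comm D C] at e
    have e' := (ENat.addLECancellable_of_ne_top hfin).inj_left.mp e
    rw [himg hCk hPs (subset_union_left.trans subset_union_right),
      himg hDk hQs (subset_union_right.trans subset_union_right),
      (hγi.mono fun s hs => hs.1.1).encard_image, (hγi.mono fun s hs => hs.1.1).encard_image] at e'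
    exact e'
  have hk0 : ∀ a : ℝ, 0 < Real.cos (Real.arctan a) := Real.cos_arctan_pos
  have harc : ∀ {R : ℝ → Prop}, (∀ᵐ θ : ℝ, R θ) → ∀ c : ℝ, ∀ᵐ a : ℝ, R (Real.arctan a + c) := by
    intro R hR c
    refine ae_comp_of_leftInverse hR (φ := fun θ => Real.tan (θ - c))
      (s := {θ | Real.cos (θ - c) ≠ 0}) (fun θ hθ => ?_) (fun a => ?_) (fun a => ?_)
    · exact (DifferentiableAt.comp θ (g := Real.tan) (f := fun θ => θ - c) (Real.differentiableAt_tan.mpr hθ)
        (differentiableAt_id.sub_const c)).differentiableWithinAt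
    · simpa using (hk0 a).ne'
    · simp
  have hscale : ∀ {R : ℝ → Prop}, (∀ᵐ t : ℝ, R t) → ∀ c : ℝ, c ≠ 0 → ∀ᵐ b : ℝ, R (b * c) := by
    intro R hR c hc
    exact ae_comp_of_leftInverse hR (φ := fun t => t / c) (s := univ) (by fun_prop)
      (fun _ => mem_univ _) (fun b => by field_simp)
  have hPQ : ∀ p ∈ Q, p ∉ P := fun p hq hp => (hQs hq).2 (hPs hp).1
  -- one frame
  have hframe : ∀ c r : ℝ, 0 < r → (∀ a : ℝ, |a| < r → c + Real.arctan a ∈ Th) →
      ∀ᵐ t ∂(volume.restrict A),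
        |(u t * Real.cos c + v t * Real.sin c) / (u t * Real.sin c - v t * Real.cos c)| < r / 2 →
          u t * Real.sin c - v t * Real.cos c = 0 := by
    intro c r hr hin
    have hback : ∀ t, (WithLp.toLp 2
        ![(x t * Real.sin c - y t * Real.cos c) * Real.sin c +
            (x t * Real.cos c + y t * Real.sin c) * Real.cos c,
          (x t * Real.cos c + y t * Real.sin c) * Real.sin c -
            (x t * Real.sin c - y t * Real.cos c) * Real.cos c] :
          EuclideanSpace ℝ (Fin 2)) = γ t := by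
      intro t
      ext i; fin_cases i
      · change _ = x t
        simp only [Fin.zero_eta, Matrix.cons_val_zero]
        linear_combination (x t) * Real.sin_sq_add_cos_sq c
      · change _ = y t
        simp only [Fin.mk_one, Matrix.cons_val_one, Matrix.cons_val_zero]
        linear_combination (y t) * Real.sin_sq_add_cos_sq c
    refine param_lim hAm hBm (x := fun t => x t * Real.sin c - y t * Real.cos c)
      (y := fun t => x t * Real.cos c + y t * Real.sin c)
      (u := fun t => u t * Real.sin c - v t * Real.cos c)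
      (v := fun t => u t * Real.cos c + v t * Real.sin c)
      (by fun_prop) (by fun_prop) (by fun_prop) (by fun_prop)
      (fun t ht => ((dx t (hAB ht)).mul_const _).sub ((dy t (hAB ht)).mul_const _))
      (fun t ht => ((dx t (hAB ht)).mul_const _).add ((dy t (hAB ht)).mul_const _))
      (((iu.mono_set hAB).mul_const _).sub ((iv.mono_set hAB).mul_const _))
      (((iu.mono_set hAB).mul_const _).add ((iv.mono_set hAB).mul_const _)) hr ?_
      (S := (fun q : ℝ × ℝ => (WithLp.toLp 2 ![q.1 * Real.sin c + q.2 * Real.cos c,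
        q.2 * Real.sin c - q.1 * Real.cos c] : EuclideanSpace ℝ (Fin 2))) ⁻¹' P)
      (Measurable.comp (WithLp.measurable_toLp 2 _)
        (measurable_pi_lambda _ fun i => by fin_cases i <;> simp <;> fun_prop) hPm) ?_ ?_
    · filter_upwards [harc h1 c] with a ha har
      rw [add_comm] at ha
      filter_upwards [hscale (ha (hin a har)) _ (hk0 a).ne'] with b hb
      simpa only [frame_line, mul_left_inj' (hk0 a).ne'] using hb
    · intro t ht
      simp only [mem_preimage, hback]; exact ht.2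
    · intro t ht
      simp only [mem_preimage, hback]; exact hPQ _ ht.2
  -- all frames: a velocity with normal angle in `Th` vanishes
  have hzero : ∀ᵐ t ∂(volume.restrict A),
      (∃ θ ∈ Th, u t * Real.cos θ + v t * Real.sin θ = 0) → u t = 0 ∧ v t = 0 := by
    have hall : ∀ᵐ t ∂(volume.restrict A), ∀ c r : ℚ, (0 : ℝ) < r →
        (∀ a : ℝ, |a| < r → (c : ℝ) + Real.arctan a ∈ Th) →
        |(u t * Real.cos c + v t * Real.sin c) / (u t * Real.sin c - v t * Real.cos c)| <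
          (r : ℝ) / 2 → u t * Real.sin c - v t * Real.cos c = 0 := by
      refine ae_all_iff.mpr fun c => ae_all_iff.mpr fun r => ?_
      by_cases hr : (0 : ℝ) < r
      · by_cases hin : ∀ a : ℝ, |a| < r → (c : ℝ) + Real.arctan a ∈ Th
        · filter_upwards [hframe c r hr hin] with t ht _ _ using ht
        · exact Eventually.of_forall fun t _ h' => absurd h' hin
      · exact Eventually.of_forall fun t h' => absurd h' hr
    filter_upwards [hall] with t ht ⟨θ, hθ, e⟩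
    obtain ⟨c, r, hr, hin, a, ha, rfl⟩ := frame_choice hTh hθ
    rw [frame_line, mul_eq_zero, or_iff_left (hk0 a).ne', sub_eq_zero] at e
    have hU : u t * Real.sin c - v t * Real.cos c = 0 := by
      by_contra hU
      refine hU (ht c r hr hin ?_)
      rwa [e, mul_div_cancel_right₀ _ hU]
    rw [hU, mul_zero] at e
    constructor
    · linear_combination (Real.sin c) * hU + (Real.cos c) * e - u t * Real.sin_sq_add_cos_sq c
    · linear_combination (Real.sin c) * e - (Real.cos c) * hU - v t * Real.sin_sq_add_cos_sq c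
  set T : Set ℝ := A ∩ γ ⁻¹' E with hT
  have htan := chord_tangent (x := x) (y := y) (u := u) (v := v) (T := T) hK
    (fun s hs t ht => hch _ hs.2 _ ht.2) (fun t ht => dx t ht.1.1) (fun t ht => dy t ht.1.1)
  have hT0 : ∀ᵐ t : ℝ, t ∈ T → deriv γ t = 0 := by
    filter_upwards [htan, (ae_restrict_iff' hAm).mp hzero] with t h2 h3 ht
    obtain ⟨θ, hθ, e⟩ := h2 ht
    obtain ⟨h4, h5⟩ := h3 ht.1 ⟨θ, hKT hθ, e⟩
    ext i; fin_cases i
    · exact h4
    · exact h5
  obtain ⟨N, hNs, hNm, hN0⟩ := exists_measurable_superset_of_null (ae_iff.mp hT0)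
  have hA'm : MeasurableSet (A ∩ ({t | deriv γ t = 0} ∪ N)) :=
    hAm.inter ((measurable_deriv γ (measurableSet_singleton 0)).union hNm)
  have hnull : μH[1] (γ '' (A ∩ ({t | deriv γ t = 0} ∪ N))) = 0 := by
    refine hausdorff_image_null hA'm (measurable_deriv γ)
      (fun t ht => (hdiff t ht.1.1).hasDerivAt) ((ae_restrict_iff' hA'm).mpr ?_)
    filter_upwards [measure_eq_zero_iff_ae_notMem.mp hN0] with t ht h'
    exact h'.2.resolve_right ht
  refine measure_mono_null (t := γ '' (A ∩ ({t | deriv γ t = 0} ∪ N)) ∪ Z) ?_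
    (measure_union_null hnull hZ0)
  intro p hpE
  have hp := hE hpE
  by_contra hcon
  rw [mem_union, not_or] at hcon
  have hpP : p ∈ P := by
    by_contra h'
    exact hcon.2 (Or.inr (Or.inl ⟨hp, h'⟩))
  have hpΩ : p ∈ γ '' Ω := by
    by_contra h'
    exact hcon.2 (Or.inl ⟨hCk hp.1, h'⟩)
  obtain ⟨s, hs, rfl⟩ := hpΩ
  refine hcon.1 ⟨s, ⟨⟨hs, hpP⟩, ?_⟩, rfl⟩
  by_cases h0 : deriv γ s = 0
  · exact Or.inl h0
  · exact Or.inr (hNs fun h' => h0 (h' ⟨⟨hs, hpP⟩, hpE⟩))

theorem main_lim :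
    ∀ C D : Set (EuclideanSpace ℝ (Fin 2)),
      MeasureTheory.NullMeasurableSet C (MeasureTheory.Measure.hausdorffMeasure 1) →
      MeasureTheory.NullMeasurableSet D (MeasureTheory.Measure.hausdorffMeasure 1) →
      (∃ f : ℕ → ℝ → EuclideanSpace ℝ (Fin 2),
        (∀ i, ContinuousOn (f i) (Set.Icc 0 1) ∧ Set.InjOn (f i) (Set.Icc 0 1)) ∧
        (∑' i, eVariationOn (f i) (Set.Icc 0 1)) ≠ ⊤ ∧
        C ⊆ ⋃ i, f i '' Set.Icc 0 1) →
      (∃ g : ℕ → ℝ → EuclideanSpace ℝ (Fin 2),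
        (∀ i, ContinuousOn (g i) (Set.Icc 0 1) ∧ Set.InjOn (g i) (Set.Icc 0 1)) ∧
        (∑' i, eVariationOn (g i) (Set.Icc 0 1)) ≠ ⊤ ∧
        D ⊆ ⋃ i, g i '' Set.Icc 0 1) →
      ∀ Th K : Set ℝ, IsOpen Th → IsCompact K → K ⊆ Th →
      (∀ᵐ p : ℝ × ℝ ∂MeasureTheory.volume, p.1 ∈ Th →
        (C ∩ {x : EuclideanSpace ℝ (Fin 2) |
            x.ofLp 0 * Real.cos p.1 + x.ofLp 1 * Real.sin p.1 = p.2}).encard =
        (D ∩ {x : EuclideanSpace ℝ (Fin 2) |
            x.ofLp 0 * Real.cos p.1 + x.ofLp 1 * Real.sin p.1 = p.2}).encard) →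
      ∀ E : Set (EuclideanSpace ℝ (Fin 2)), E ⊆ (C \ D) ∪ (D \ C) →
      (∀ x ∈ E, ∀ y ∈ E, ∃ θ ∈ K,
        x.ofLp 0 * Real.cos θ + x.ofLp 1 * Real.sin θ =
        y.ofLp 0 * Real.cos θ + y.ofLp 1 * Real.sin θ) →
      MeasureTheory.Measure.hausdorffMeasure 1 E = 0 := by
  rintro C D hC hD ⟨f, hf, hfv, hCf⟩ ⟨g, hg, hgv, hDg⟩ Th K hTh hK hKT h E hE hch
  set e := Equiv.natSumNatEquivNat with he
  set k : ℕ → ℝ → EuclideanSpace ℝ (Fin 2) := fun n => Sum.elim f g (e.symm n) with hk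
  have hinj : ∀ i, InjOn (k i) (Icc 0 1) := by
    intro i
    simp only [hk]
    rcases e.symm i with j | j
    exacts [(hf j).2, (hg j).2]
  have hv : ∑' i, eVariationOn (k i) (Icc 0 1) ≠ ∞ := by
    rw [Equiv.tsum_eq e.symm (fun j => eVariationOn (Sum.elim f g j) (Icc 0 1)),
      Summable.tsum_sum ENNReal.summable ENNReal.summable]
    exact ENNReal.add_ne_top.mpr ⟨hfv, hgv⟩
  have hCk : C ⊆ ⋃ i, k i '' Icc 0 1 := by
    refine hCf.trans (iUnion_subset fun j => subset_iUnion_of_subset (e (Sum.inl j)) ?_)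
    simp [hk]
  have hDk : D ⊆ ⋃ i, k i '' Icc 0 1 := by
    refine hDg.trans (iUnion_subset fun j => subset_iUnion_of_subset (e (Sum.inr j)) ?_)
    simp [hk]
  have h' : ∀ᵐ θ : ℝ, θ ∈ Th → ∀ᵐ t : ℝ,
      (C ∩ {p | p.ofLp 0 * Real.cos θ + p.ofLp 1 * Real.sin θ = t}).encard =
      (D ∩ {p | p.ofLp 0 * Real.cos θ + p.ofLp 1 * Real.sin θ = t}).encard := by
    filter_upwards [Measure.ae_ae_of_ae_prod (μ := volume) (ν := volume) h] with θ hθ hT
    filter_upwards [hθ] with t ht using ht hT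
  refine measure_mono_null (t := (E ∩ (C \ D)) ∪ (E ∩ (D \ C))) ?_ (measure_union_null
    (half_lim hC hD k hinj hv hCk hDk hTh hK hKT h' inter_subset_right
      fun p hp q hq => hch p hp.1 q hq.1)
    (half_lim hD hC k hinj hv hDk hCk hTh hK hKT ?_ inter_subset_right
      fun p hp q hq => hch p hp.1 q hq.1))
  · rw [← inter_union_distrib_left]; exact subset_inter Subset.rfl hE
  · filter_upwards [h'] with θ hθ hT
    filter_upwards [hθ hT] with t ht using ht.symm

end Pool.Agent.P.MP_fd5ae1_an
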