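import Pool.Agent.P.MP_fd5ae1_an.LocDef

/-! Local form: the contribution of the lines outside the box. -/

set_option autoImplicit false

open MeasureTheory Set Filter Topology Complex
open scoped ENNReal

namespace Pool.Agent.P.MP_fd5ae1_an.Loc

variable {Ω : Type} [MeasurableSpace Ω] {μ : Measure Ω} {x y u v ε : Ω → ℝ}

open Classical in
/-- The contribution of the lines outside the box, with a shifted pole. -/
noncomputable def tl (x y u v ε : Ω → ℝ) (a1 a2 b1 b2 ξ a0 β τ : ℝ) (z : ℝ × Ω) : ℂ :=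
  if z.1 ∈ Ioo a1 a2 ∧ y z.2 - z.1 * x z.2 ∈ Ioo b1 b2 then 0 else
    (ε z.2 : ℂ) * ((|v z.2 - z.1 * u z.2| : ℝ) : ℂ) *
      (((y z.2 - z.1 * x z.2 : ℝ) : ℂ) + (ξ + I) * (z.1 - a0 : ℝ) - β + τ * I)⁻¹ ^ 3

omit [MeasurableSpace Ω] in
theorem tl_zero (a1 a2 b1 b2 ξ a0 β : ℝ) (z : ℝ × Ω) :
    tl x y u v ε a1 a2 b1 b2 ξ a0 β 0 z = tail x y u v ε a1 a2 b1 b2 ξ z a0 β := by
  simp [tl, tail]

theorem box_meas (H : Lim.Pre μ x y u v ε) (a1 a2 b1 b2 : ℝ) :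
    MeasurableSet {z : ℝ × Ω | z.1 ∈ Ioo a1 a2 ∧ y z.2 - z.1 * x z.2 ∈ Ioo b1 b2} := by
  have := H.mx; have := H.my
  exact (measurable_fst measurableSet_Ioo).inter
    ((by fun_prop : Measurable fun z : ℝ × Ω => y z.2 - z.1 * x z.2) measurableSet_Ioo)

theorem tl_meas (H : Lim.Pre μ x y u v ε) (a1 a2 b1 b2 ξ a0 β τ : ℝ) :
    Measurable (tl x y u v ε a1 a2 b1 b2 ξ a0 β τ) := by
  have := H.mx; have := H.my; have := H.mu; have := H.mv; have := H.me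
  unfold tl
  exact Measurable.ite (box_meas H a1 a2 b1 b2) measurable_const (by fun_prop)

theorem tail_meas (H : Lim.Pre μ x y u v ε) (a1 a2 b1 b2 ξ : ℝ) :
    Measurable fun w : (ℝ × ℝ) × ℝ × Ω => tail x y u v ε a1 a2 b1 b2 ξ w.2 w.1.1 w.1.2 := by
  have := H.mx; have := H.my; have := H.mu; have := H.mv; have := H.me
  unfold tail
  exact Measurable.ite (measurable_snd (box_meas H a1 a2 b1 b2)) measurable_const (by fun_prop)

theorem tl_bound (H : Lim.Pre μ x y u v ε) (a1 a2 b1 b2 ξ : ℝ) {d : ℝ} (hd : 0 < d) :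
    ∃ c : ℝ, ∀ a0 ∈ Icc (a1 + d) (a2 - d), ∀ β ∈ Icc (b1 + d) (b2 - d), ∀ (τ : ℝ) (z : ℝ × Ω),
      0 ≤ τ * (z.1 - a0) → ‖tl x y u v ε a1 a2 b1 b2 ξ a0 β τ z‖ ≤
        (1 + z.1 ^ 2)⁻¹ * ((|v z.2| + |u z.2|) * c) := by
  obtain ⟨c, hc, hlow⟩ := low a1 a2 b1 b2 ξ hd
  refine ⟨c⁻¹ ^ 3, fun a0 h0 β hβ τ z hτ => ?_⟩
  unfold tl
  split_ifs with h
  · rw [norm_zero]; positivity
  · have h1 := hlow a0 h0 β hβ z.1 _ τ h hτ
    have hpos : 0 < c * (1 + |z.1|) := by positivity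
    have h2 : ‖(((y z.2 - z.1 * x z.2 : ℝ) : ℂ) + (ξ + I) * (z.1 - a0 : ℝ) - β + τ * I)⁻¹ ^ 3‖ ≤
        c⁻¹ ^ 3 / (1 + |z.1|) ^ 3 := by
      rw [norm_pow, norm_inv, ← div_pow]
      gcongr
      refine (inv_anti₀ hpos h1).trans (le_of_eq ?_)
      rw [mul_inv, div_eq_mul_inv]
    have h3 := weight_bound (C := c⁻¹ ^ 3) (α := |z.1|) (p := |v z.2|) (q := -|u z.2|)
      (by positivity) (abs_nonneg _)
    have h4 : |v z.2 - z.1 * u z.2| ≤ abs (|v z.2| - |z.1| * -|u z.2|) := by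
      refine le_trans ?_ (le_abs_self _)
      have := abs_sub (v z.2) (z.1 * u z.2)
      rw [abs_mul] at this
      linarith
    simp only [norm_mul, Complex.norm_real, Real.norm_eq_abs, abs_abs]
    simp only [abs_neg, abs_abs, sq_abs] at h3
    calc _ ≤ 1 * abs (|v z.2| - |z.1| * -|u z.2|) * (c⁻¹ ^ 3 / (1 + |z.1|) ^ 3) := by
          gcongr; exact H.be _
      _ ≤ _ := by rw [one_mul, mul_comm (1 + z.1 ^ 2)⁻¹]; exact h3

theorem dom_int [SFinite μ] (H : Lim.Pre μ x y u v ε) (c : ℝ) (S : Set ℝ) :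
    Integrable (fun z : ℝ × Ω => (1 + z.1 ^ 2)⁻¹ * ((|v z.2| + |u z.2|) * c))
      ((volume.restrict S).prod μ) :=
  (integrable_inv_one_add_sq.integrableOn (s := S)).mul_prod ((H.iv.abs.add H.iu.abs).mul_const c)

theorem shift_int {ρ : ℝ} (hρ : ρ = 1 ∨ ρ = -1) (a0 : ℝ) (g : ℝ → ℂ) :
    ∫ α in Ioi (0 : ℝ), g (a0 + ρ * α) = ∫ a in {a | 0 < ρ * (a - a0)}, g a := by
  rcases hρ with rfl | rfl
  · have := (measurePreserving_add_left volume a0).setIntegral_preimage_emb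
      (measurableEmbedding_addLeft a0) g {a | 0 < 1 * (a - a0)}
    rw [← this]
    have e : (fun α => a0 + α) ⁻¹' {a | 0 < 1 * (a - a0)} = Ioi (0 : ℝ) := by ext; simp
    rw [e]; simp
  · have := (Measure.measurePreserving_sub_left volume a0).setIntegral_preimage_emb
      (MeasurableEquiv.subLeft a0).measurableEmbedding g {a | 0 < -1 * (a - a0)}
    rw [← this]
    have e : (fun α => a0 - α) ⁻¹' {a | 0 < -1 * (a - a0)} = Ioi (0 : ℝ) := by ext; simp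
    rw [e]; simp [sub_eq_add_neg]

theorem side_meas (ρ a0 : ℝ) : MeasurableSet {a : ℝ | 0 < ρ * (a - a0)} :=
  measurableSet_lt measurable_const (by fun_prop)

theorem side_ae [SFinite μ] (ρ a0 : ℝ) :
    ∀ᵐ z : ℝ × Ω ∂((volume.restrict {a : ℝ | 0 < ρ * (a - a0)}).prod μ), 0 < ρ * (z.1 - a0) :=
  (Measure.quasiMeasurePreserving_fst).ae (ae_restrict_mem (side_meas ρ a0))

/-- The boundary form equals the contribution of the lines outside the box. -/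
theorem err_eq [SFinite μ] (H : Lim.Pre μ x y u v ε) {a1 a2 b1 b2 d ξ a0 β ρ η : ℝ} (hd : 0 < d)
    (hv : ∀ᵐ a : ℝ, a ∈ Ioo a1 a2 → VanL μ x y u v ε b1 b2 a) (h0 : a0 ∈ Icc (a1 + d) (a2 - d))
    (hβ : β ∈ Icc (b1 + d) (b2 - d)) (hρ : ρ = 1 ∨ ρ = -1) (hη : η ∈ Ioc (0 : ℝ) 1)
    (hgen : ∀ᵐ ω ∂μ, v ω - a0 * u ω = 0 → u ω = 0) :
    ∫ ω, Lim.kf x y u v ε ρ ξ a0 (fun z => (z - β + ρ * η * I)⁻¹)
        (fun z => -(z - β + ρ * η * I)⁻¹ ^ 2) ω ∂μ =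
      2 * ρ * ∫ z, tl x y u v ε a1 a2 b1 b2 ξ a0 β (ρ * η) z
        ∂((volume.restrict {a : ℝ | 0 < ρ * (a - a0)}).prod μ) := by
  classical
  have := H.mx; have := H.my; have := H.mu; have := H.mv; have := H.me
  have hρ2 : ρ * ρ = 1 := by rcases hρ with rfl | rfl <;> norm_num
  have hρ2' : (ρ : ℂ) * ρ = 1 := by exact_mod_cast hρ2
  have A := adm_rat hρ β hη
  obtain ⟨-, e1⟩ := Lim.key_swap H hρ A ξ a0 hgen
  obtain ⟨c, hc⟩ := tl_bound H a1 a2 b1 b2 ξ hd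
  have hint : Integrable (tl x y u v ε a1 a2 b1 b2 ξ a0 β (ρ * η))
      ((volume.restrict {a : ℝ | 0 < ρ * (a - a0)}).prod μ) := by
    refine (dom_int H c _).mono' (tl_meas H _ _ _ _ _ _ _ _).aestronglyMeasurable ?_
    filter_upwards [side_ae (μ := μ) ρ a0] with z hz
    exact hc a0 h0 β hβ _ z (by nlinarith [hη.1])
  rw [integral_prod _ hint, ← shift_int hρ a0
    (fun a => ∫ ω, tl x y u v ε a1 a2 b1 b2 ξ a0 β (ρ * η) (a, ω) ∂μ)]
  have hq : Measure.QuasiMeasurePreserving (fun α : ℝ => a0 + ρ * α) volume volume := by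
    rcases hρ with rfl | rfl
    · simpa using (measurePreserving_add_left volume a0).quasiMeasurePreserving
    · simpa [sub_eq_add_neg] using
        (Measure.measurePreserving_sub_left volume a0).quasiMeasurePreserving
  have e2 : ∫ α in Ioi (0 : ℝ), Lim.gf μ x y u v ε ρ ξ a0 (fun z => 2 * (z - β + ρ * η * I)⁻¹ ^ 3) α =
      2 * ∫ α in Ioi (0 : ℝ), ∫ ω, tl x y u v ε a1 a2 b1 b2 ξ a0 β (ρ * η) (a0 + ρ * α, ω) ∂μ := by
    rw [← integral_const_mul]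
    refine integral_congr_ae ?_
    filter_upwards [ae_restrict_of_ae (hq.ae hv), ae_restrict_mem measurableSet_Ioi] with α h2 hα
    have hα' : 0 ≤ α := le_of_lt hα
    set a := a0 + ρ * α with ha
    set φ : ℝ → ℂ := fun b => 2 * ((b : ℂ) + (ξ + I) * (ρ * α : ℝ) - β + ρ * η * I)⁻¹ ^ 3 with hφ
    have hφm : Measurable φ := by simp only [hφ]; fun_prop
    have him : ∀ b : ℝ, ρ * ((b : ℂ) + (ξ + I) * (ρ * α : ℝ)).im = α := by
      intro b; rw [Lim.im_shift hρ]; simp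
    have hφb : ∀ b, ‖φ b‖ ≤ 2 / η ^ 3 / (1 + α) ^ 3 := by
      intro b
      have b2 := A.b2 ((b : ℂ) + (ξ + I) * (ρ * α : ℝ)) (by rw [him]; exact hα')
      rwa [him] at b2
    have eφ : ∀ b : ℝ, 2 * ((b : ℂ) + (ξ + I) * (a - a0 : ℝ) - β + (ρ * η : ℝ) * I)⁻¹ ^ 3 = φ b := by
      intro b
      simp only [hφ, ha, add_sub_cancel_left, Complex.ofReal_mul]
    have ii : ∀ ψ : ℝ → ℂ, Measurable ψ → (∀ b, ‖ψ b‖ ≤ 2 / η ^ 3 / (1 + α) ^ 3) → Integrable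
        (fun ω => (ε ω : ℂ) * ((|v ω - a * u ω| : ℝ) : ℂ) * ψ (y ω - a * x ω)) μ := by
      intro ψ hψ hb
      refine ((H.iv.sub (H.iu.const_mul a)).abs.mul_const (2 / η ^ 3 / (1 + α) ^ 3)).mono'
        (Measurable.aestronglyMeasurable (by fun_prop)) (Eventually.of_forall fun ω => ?_)
      simp only [norm_mul, Complex.norm_real, Real.norm_eq_abs, abs_abs, Pi.sub_apply]
      calc _ ≤ 1 * |v ω - a * u ω| * (2 / η ^ 3 / (1 + α) ^ 3) := by
            gcongr; exacts [H.be ω, hb _]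
        _ = _ := by ring
    rw [← integral_const_mul]
    change ∫ ω, (ε ω : ℂ) * ((|v ω - a * u ω| : ℝ) : ℂ) * φ (y ω - a * x ω) ∂μ = _
    by_cases hin : a ∈ Ioo a1 a2
    · have hb1 : ∀ b, ‖(Ioo b1 b2).indicator φ b‖ ≤ 2 / η ^ 3 / (1 + α) ^ 3 :=
        fun b => (norm_indicator_le_norm_self φ b).trans (hφb b)
      have z0 := h2 hin ((Ioo b1 b2).indicator φ) (hφm.indicator measurableSet_Ioo) ⟨_, hb1⟩
        (fun b hb => indicator_of_notMem hb _)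
      rw [← sub_zero (∫ ω, _ ∂μ), ← z0,
        ← integral_sub (ii φ hφm hφb) (ii _ (hφm.indicator measurableSet_Ioo) hb1)]
      congr 1; ext ω
      simp only [tl]
      by_cases hb : y ω - a * x ω ∈ Ioo b1 b2
      · rw [if_pos ⟨hin, hb⟩, indicator_of_mem hb]; ring
      · rw [if_neg fun h => hb h.2, indicator_of_notMem hb, ← eφ]; ring
    · congr 1; ext ω
      simp only [tl]
      rw [if_neg fun h => hin h.1, ← eφ]; ring
  rw [e2] at e1
  linear_combination ρ * e1 - (∫ ω, Lim.kf x y u v ε ρ ξ a0 (fun z => (z - β + ρ * η * I)⁻¹)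
        (fun z => -(z - β + ρ * η * I)⁻¹ ^ 2) ω ∂μ) * hρ2'

/-- The outside contribution is bounded and has a limit. -/
theorem err_lim [SFinite μ] (H : Lim.Pre μ x y u v ε) {a1 a2 b1 b2 d ξ a0 : ℝ} (ρ : ℝ) (hd : 0 < d)
    (h0 : a0 ∈ Icc (a1 + d) (a2 - d)) : ∃ M : ℝ, ∀ β ∈ Icc (b1 + d) (b2 - d),
      (∀ η : ℝ, 0 ≤ η → ‖∫ z, tl x y u v ε a1 a2 b1 b2 ξ a0 β (ρ * η) z
        ∂((volume.restrict {a : ℝ | 0 < ρ * (a - a0)}).prod μ)‖ ≤ M) ∧
      Tendsto (fun η : ℝ => ∫ z, tl x y u v ε a1 a2 b1 b2 ξ a0 β (ρ * η) z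
        ∂((volume.restrict {a : ℝ | 0 < ρ * (a - a0)}).prod μ)) (𝓝[>] 0)
        (𝓝 (∫ z, tl x y u v ε a1 a2 b1 b2 ξ a0 β (ρ * 0) z
          ∂((volume.restrict {a : ℝ | 0 < ρ * (a - a0)}).prod μ))) := by
  obtain ⟨c, hc⟩ := tl_bound H a1 a2 b1 b2 ξ hd
  have hb : ∀ β ∈ Icc (b1 + d) (b2 - d), ∀ η : ℝ, 0 ≤ η →
      ∀ᵐ z : ℝ × Ω ∂((volume.restrict {a : ℝ | 0 < ρ * (a - a0)}).prod μ),
        ‖tl x y u v ε a1 a2 b1 b2 ξ a0 β (ρ * η) z‖ ≤
          (1 + z.1 ^ 2)⁻¹ * ((|v z.2| + |u z.2|) * c) := by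
    intro β hβ η hη
    filter_upwards [side_ae (μ := μ) ρ a0] with z hz
    exact hc a0 h0 β hβ _ z (by nlinarith)
  refine ⟨_, fun β hβ => ⟨fun η hη =>
    norm_integral_le_of_norm_le (dom_int H c _) (hb β hβ η hη), ?_⟩⟩
  refine tendsto_integral_filter_of_dominated_convergence _
    (Eventually.of_forall fun η => (tl_meas H _ _ _ _ _ _ _ _).aestronglyMeasurable) ?_
    (dom_int H c _) ?_
  · filter_upwards [self_mem_nhdsWithin] with η hη using hb β hβ η (le_of_lt hη)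
  · filter_upwards [side_ae (μ := μ) ρ a0] with z hz
    refine Tendsto.mono_left ?_ nhdsWithin_le_nhds
    unfold tl
    split_ifs with h
    · exact tendsto_const_nhds
    · refine ContinuousAt.tendsto (f := fun η : ℝ => (ε z.2 : ℂ) * ((|v z.2 - z.1 * u z.2| : ℝ) : ℂ) *
        (((y z.2 - z.1 * x z.2 : ℝ) : ℂ) + (ξ + I) * (z.1 - a0 : ℝ) - β + (ρ * η : ℝ) * I)⁻¹ ^ 3) ?_
      refine continuousAt_const.mul (ContinuousAt.pow (ContinuousAt.inv₀ (by fun_prop) ?_) 3)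
      intro h0
      have := congrArg Complex.im h0
      simp at this
      rw [this] at hz; simp at hz

/-- The two sides put together. -/
theorem err_sum [SFinite μ] (H : Lim.Pre μ x y u v ε) {a1 a2 b1 b2 d ξ a0 β : ℝ} (hd : 0 < d)
    (h0 : a0 ∈ Icc (a1 + d) (a2 - d)) (hβ : β ∈ Icc (b1 + d) (b2 - d)) :
    (∫ z, tl x y u v ε a1 a2 b1 b2 ξ a0 β (-1 * 0) z
        ∂((volume.restrict {a : ℝ | 0 < -1 * (a - a0)}).prod μ)) +
      ∫ z, tl x y u v ε a1 a2 b1 b2 ξ a0 β (1 * 0) z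
        ∂((volume.restrict {a : ℝ | 0 < 1 * (a - a0)}).prod μ) =
      ∫ z, tail x y u v ε a1 a2 b1 b2 ξ z a0 β ∂(volume.prod μ) := by
  obtain ⟨c, hc⟩ := tl_bound H a1 a2 b1 b2 ξ hd
  have hi : ∀ S : Set ℝ, Integrable (tl x y u v ε a1 a2 b1 b2 ξ a0 β 0)
      ((volume.restrict S).prod μ) := fun S =>
    (dom_int H c S).mono' (tl_meas H _ _ _ _ _ _ _ _).aestronglyMeasurable
      (Eventually.of_forall fun z => hc a0 h0 β hβ 0 z (by simp))
  have hu := hi univ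
  rw [Measure.restrict_univ] at hu
  have e1 : {a : ℝ | 0 < -1 * (a - a0)} = Iio a0 := by ext; simp
  have e2 : {a : ℝ | 0 < 1 * (a - a0)} = Ioi a0 := by ext; simp
  simp only [← tl_zero, mul_zero]
  rw [e1, e2, integral_prod _ (hi _), integral_prod _ (hi _), integral_prod _ hu,
    ← integral_Iic_eq_integral_Iio]
  exact intervalIntegral.integral_Iic_add_Ioi hu.integral_prod_left.integrableOn
    hu.integral_prod_left.integrableOn

end Pool.Agent.P.MP_fd5ae1_an.Loc
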