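import Pool.Agent.P.MP_fd5ae1_an.LocDef

/-! Local form: the Poisson limit on an interval. -/

set_option autoImplicit false

open MeasureTheory Set Filter Topology

namespace Pool.Agent.P.MP_fd5ae1_an.Loc

theorem locP_ae_eq {U F V G : ℝ → ℂ} {J : Set ℝ} (h : ApDer U F)
    (hUV : ∀ᵐ b : ℝ, b ∈ J → U b = V b) (hV : ∀ᵐ b : ℝ, HasDerivAt V (G b) b) :
    ∀ᵐ b : ℝ, b ∈ J → G b = F b := by
  obtain ⟨𝒯, hc, hae, hd⟩ := h
  set E : Set ℝ := {b | U b = V b} with hE
  have hiso : ∀ᵐ b : ℝ, ∀ T ∈ 𝒯, ¬ (b ∈ T ∩ E ∧ 𝓝[(T ∩ E) ∩ Ioi b] b = ⊥) := by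
    rw [ae_ball_iff hc]
    intro T _
    have := (countable_setOfPred_isolated_right_within (s := T ∩ E)).ae_notMem volume
    filter_upwards [this] with b hb
    exact hb
  filter_upwards [hae, hUV, hV, hiso] with b ⟨T, hT, hb⟩ hb0 hb2 hb3 hbJ
  have hb1 := hb0 hbJ
  have hbE : b ∈ T ∩ E := ⟨hb, hb1⟩
  have hne : (𝓝[(T ∩ E) ∩ Ioi b] b).NeBot := ⟨fun h => hb3 T hT ⟨hbE, h⟩⟩
  have hacc : AccPt b (𝓟 (T ∩ E)) := by
    rw [accPt_principal_iff_nhdsWithin]
    refine hne.mono (nhdsWithin_mono _ ?_)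
    rintro y ⟨hy1, hy2⟩
    exact ⟨hy1, fun h => (ne_of_gt hy2) h⟩
  have hu : UniqueDiffWithinAt ℝ (T ∩ E) b := hacc.uniqueDiffWithinAt
  have d1 : HasDerivWithinAt V (F b) (T ∩ E) b :=
    ((hd T hT b hb).mono inter_subset_left).congr (fun y hy => (hy.2 : U y = V y).symm) hb1.symm
  exact hu.eq_deriv _ hb2.hasDerivWithinAt d1

theorem locP_const {V : ℝ → ℂ} (hV : LocallyIntegrable V volume) {J : Set ℝ} (hJ : IsOpen J)
    {m : ℝ} (hm : m ∈ J)
    (h : ∀ γ δ : ℝ, γ ∈ J → γ + δ ∈ J → m + δ ∈ J →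
      ∫ b in γ..(γ + δ), V b = ∫ b in m..(m + δ), V b) :
    ∃ c : ℂ, ∀ᵐ b : ℝ, b ∈ J → V b = c := by
  refine ⟨deriv (fun δ : ℝ => ∫ b in m..(m + δ), V b) 0, ?_⟩
  filter_upwards [LocallyIntegrable.ae_hasDerivAt_integral hV] with γ hγ hγJ
  have h1 : HasDerivAt (fun x => ∫ b in γ..x, V b) (V γ) (γ + 0) := by simpa using hγ γ
  have h2 := h1.comp_const_add γ 0
  have e : ∀ z ∈ J, ∀ᶠ δ in 𝓝 (0 : ℝ), z + δ ∈ J := fun z hz =>
    (continuous_const.add continuous_id).continuousAt.eventually_mem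
      (by simpa using hJ.mem_nhds hz)
  have h3 : HasDerivAt (fun δ : ℝ => ∫ b in m..(m + δ), V b) (V γ) 0 := by
    refine h2.congr_of_eventuallyEq ?_
    filter_upwards [e γ hγJ, e m hm] with δ a b
    exact (h γ δ hγJ a b).symm
  exact h3.deriv.symm

theorem locP_limit {U F : ℝ → ℂ} (hU : Integrable U) (hF : Integrable F) {β1 β2 m : ℝ}
    (hm : m ∈ Ioo β1 β2)
    (κ : ℝ → ℝ → ℂ) (κ0 : ℝ → ℂ) (Φ : ℝ → ℝ) (hΦ : LocallyIntegrable Φ volume)
    (hκ0 : LocallyIntegrable κ0 volume)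
    (hbd : ∀ η ∈ Ioc (0 : ℝ) 1, ∀ᵐ β : ℝ, β ∈ Ioo β1 β2 → ‖κ η β‖ ≤ Φ β)
    (hlim : ∀ᵐ β : ℝ, β ∈ Ioo β1 β2 → Tendsto (fun η => κ η β) (𝓝[>] 0) (𝓝 (κ0 β)))
    (hκc : ∀ η ∈ Ioc (0 : ℝ) 1, Continuous (κ η))
    (hid : ∀ η ∈ Ioc (0 : ℝ) 1, ∀ β : ℝ,
      (∫ b, U b * (pk' η (b - β) : ℂ)) - (∫ b, F b * (pk η (b - β) : ℂ)) = κ η β) :
    ∃ c : ℂ, ∀ᵐ β : ℝ, β ∈ Ioo β1 β2 →
      Real.pi * U β = c - ∫ b in (0 : ℝ)..β, (Real.pi * F b + κ0 b) := by
  have hev : ∀ᶠ η in 𝓝[>] (0 : ℝ), η ∈ Ioc (0 : ℝ) 1 := Ioc_mem_nhdsGT one_pos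
  have hii : ∀ {G : ℝ → ℂ}, LocallyIntegrable G volume →
      ∀ a b, IntervalIntegrable G volume a b :=
    fun hG a b => intervalIntegrable_iff.mpr <|
      (hG.integrableOn_isCompact isCompact_uIcc).mono_set uIoc_subset_uIcc
  have hΦi : ∀ a b, IntervalIntegrable Φ volume a b := fun a b => intervalIntegrable_iff.mpr <|
      (hΦ.integrableOn_isCompact isCompact_uIcc).mono_set uIoc_subset_uIcc
  have hsub : ∀ {a b : ℝ}, a ∈ Ioo β1 β2 → b ∈ Ioo β1 β2 → uIoc a b ⊆ Ioo β1 β2 :=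
    fun ha hb => uIoc_subset_uIcc.trans (ordConnected_Ioo.uIcc_subset ha hb)
  have hmem : ∀ {z δ t : ℝ}, z ∈ Ioo β1 β2 → z + δ ∈ Ioo β1 β2 → t ∈ uIoc 0 δ →
      z + t ∈ Ioo β1 β2 := by
    intro z δ t hz hzδ ht
    rcases mem_uIoc.mp ht with h | h
    · exact ⟨by linarith [hz.1, h.1], by linarith [hzδ.2, h.2]⟩
    · exact ⟨by linarith [hzδ.1, h.1], by linarith [hz.2, h.2]⟩
  set H : ℝ → ℂ := fun b => Real.pi * F b + κ0 b with hH
  have hHl : LocallyIntegrable H volume := (hF.const_mul _).locallyIntegrable.add hκ0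
  set W : ℝ → ℂ := fun β => ∫ b in (0 : ℝ)..β, H b with hW
  have hWc : Continuous W := intervalIntegral.continuous_primitive (hii hHl) 0
  have E1 : ∀ η ∈ Ioc (0 : ℝ) 1, ∀ β0 β1 : ℝ,
      (∫ b, U b * (pk η (b - β0) : ℂ)) - (∫ b, U b * (pk η (b - β1) : ℂ)) =
      (∫ b, F b * ((Real.arctan ((b - β0) / η) - Real.arctan ((b - β1) / η) : ℝ) : ℂ)) +
        ∫ β in β0..β1, κ η β := by
    intro η hη β0 β1
    have a1 := swap_conv hU (continuous_pk' hη.1) (abs_pk'_le hη.1) (hasDerivAt_pk hη.1) β0 β1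
    have a2 := swap_conv hF (continuous_pk hη.1) (abs_pk_le hη.1)
      (hasDerivAt_arctan_div hη.1) β0 β1
    rw [← a2, ← integral_sub (integrable_mul_shift hU (continuous_pk hη.1) (abs_pk_le hη.1) _)
      (integrable_mul_shift hU (continuous_pk hη.1) (abs_pk_le hη.1) _)]
    have a3 : ∫ b, (U b * (pk η (b - β0) : ℂ) - U b * (pk η (b - β1) : ℂ)) =
        ∫ b, U b * ((pk η (b - β0) - pk η (b - β1) : ℝ) : ℂ) := by
      congr 1; ext b; push_cast; ring
    rw [a3, ← a1, ← intervalIntegral.integral_add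
      ((continuous_conv hF (continuous_pk hη.1) (abs_pk_le hη.1)).intervalIntegrable _ _)
      ((hκc η hη).intervalIntegrable _ _)]
    congr 1; ext β; rw [← hid η hη β]; ring
  have hκlim : ∀ a ∈ Ioo β1 β2, ∀ b ∈ Ioo β1 β2, Tendsto (fun η => ∫ β in a..b, κ η β) (𝓝[>] 0)
      (𝓝 (∫ β in a..b, κ0 β)) := by
    intro a ha b hb
    refine intervalIntegral.tendsto_integral_filter_of_dominated_convergence Φ ?_ ?_ (hΦi _ _) ?_
    · filter_upwards [hev] with η hη using (hκc η hη).aestronglyMeasurable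
    · filter_upwards [hev] with η hη
      filter_upwards [hbd η hη] with β hβ hβ' using hβ (hsub ha hb hβ')
    · filter_upwards [hlim] with β hβ hβ' using hβ (hsub ha hb hβ')
  set V : ℝ → ℂ := fun β => Real.pi * U β + W β with hV
  have hVl : LocallyIntegrable V volume :=
    (hU.const_mul _).locallyIntegrable.add hWc.locallyIntegrable
  have main : ∀ γ δ : ℝ, γ ∈ Ioo β1 β2 → γ + δ ∈ Ioo β1 β2 → m + δ ∈ Ioo β1 β2 →
      ∫ b in γ..(γ + δ), V b = ∫ b in m..(m + δ), V b := by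
    intro γ δ hγ hγδ hmδ
    set R : ℝ → ℝ → ℂ := fun η t =>
      (∫ b, U b * (pk η (b - (m + t)) : ℂ)) - (∫ b, U b * (pk η (b - (γ + t)) : ℂ)) with hR
    have hL : Tendsto (fun η => ∫ t in (0 : ℝ)..δ, R η t) (𝓝[>] 0)
        (𝓝 (Real.pi * (∫ b in m..(m + δ), U b) - Real.pi * ∫ b in γ..(γ + δ), U b)) := by
      refine ((tendsto_arctan_integral hU m (m + δ)).sub
        (tendsto_arctan_integral hU γ (γ + δ))).congr' ?_
      filter_upwards [hev] with η hη
      have c1 := continuous_conv hU (continuous_pk hη.1) (abs_pk_le hη.1)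
      rw [← swap_conv hU (continuous_pk hη.1) (abs_pk_le hη.1) (hasDerivAt_arctan_div hη.1),
        ← swap_conv hU (continuous_pk hη.1) (abs_pk_le hη.1) (hasDerivAt_arctan_div hη.1)]
      simp only [hR]
      have c2 : ∀ z : ℝ, Continuous fun t : ℝ => ∫ b, U b * (pk η (b - (z + t)) : ℂ) :=
        fun z => c1.comp (continuous_const.add continuous_id)
      rw [intervalIntegral.integral_sub ((c2 m).intervalIntegrable _ _)
        ((c2 γ).intervalIntegrable _ _)]
      have c3 : ∀ z : ℝ, ∫ t in (0 : ℝ)..δ, ∫ b, U b * (pk η (b - (z + t)) : ℂ) =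
          ∫ β in z..(z + δ), ∫ b, U b * (pk η (b - β) : ℂ) := fun z => by
        simpa using intervalIntegral.integral_comp_add_left
          (fun β => ∫ b, U b * (pk η (b - β) : ℂ)) z (a := 0) (b := δ)
      rw [c3, c3]
    have hR' : Tendsto (fun η => ∫ t in (0 : ℝ)..δ, R η t) (𝓝[>] 0)
        (𝓝 (∫ t in (0 : ℝ)..δ, (W (γ + t) - W (m + t)))) := by
      refine intervalIntegral.tendsto_integral_filter_of_dominated_convergence
        (fun _ => (∫ b, ‖F b‖ * Real.pi) + ∫ β in Icc β1 β2, |Φ β|) ?_ ?_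
        intervalIntegrable_const ?_
      · filter_upwards [hev] with η hη
        have c1 := continuous_conv hU (continuous_pk hη.1) (abs_pk_le hη.1)
        exact ((c1.comp (continuous_const.add continuous_id)).sub
          (c1.comp (continuous_const.add continuous_id))).aestronglyMeasurable
      · filter_upwards [hev] with η hη
        refine Eventually.of_forall fun t ht => ?_
        simp only [hR]
        rw [E1 η hη]
        refine (norm_add_le _ _).trans (add_le_add ?_ ?_)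
        · refine norm_integral_le_of_norm_le (hF.norm.mul_const _)
            (Eventually.of_forall fun b => ?_)
          rw [norm_mul]
          gcongr
          rw [Complex.norm_real]
          exact abs_arctan_sub_le _ _
        · have hs1 := hsub (hmem hm hmδ ht) (hmem hγ hγδ ht)
          have hs2 : uIoc (m + t) (γ + t) ⊆ Icc β1 β2 := hs1.trans Ioo_subset_Icc_self
          refine intervalIntegral.norm_integral_le_integral_norm_uIoc.trans ?_
          have hI : IntegrableOn (fun β => |Φ β|) (Icc β1 β2) :=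
            (hΦ.integrableOn_isCompact isCompact_Icc).abs
          refine le_trans (integral_mono_of_nonneg (Eventually.of_forall fun _ => norm_nonneg _)
            (hI.mono_set hs2) ?_) (setIntegral_mono_set hI
              (Eventually.of_forall fun _ => abs_nonneg _) hs2.eventuallyLE)
          filter_upwards [ae_restrict_of_ae (hbd η hη), ae_restrict_mem measurableSet_uIoc]
            with β hβ hβ' using (hβ (hs1 hβ')).trans (le_abs_self _)
      · refine Eventually.of_forall fun t ht => ?_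
        have e : W (γ + t) - W (m + t) = Real.pi * (∫ b in (m + t)..(γ + t), F b) +
            ∫ b in (m + t)..(γ + t), κ0 b := by
          simp only [hW]
          rw [intervalIntegral.integral_interval_sub_left (hii hHl _ _) (hii hHl _ _)]
          simp only [hH]
          rw [intervalIntegral.integral_add ((hF.const_mul _).intervalIntegrable) (hii hκ0 _ _),
            intervalIntegral.integral_const_mul]
        rw [e]
        refine ((tendsto_arctan_integral hF (m + t) (γ + t)).add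
          (hκlim _ (hmem hm hmδ ht) _ (hmem hγ hγδ ht))).congr' ?_
        filter_upwards [hev] with η hη
        simp only [hR]
        rw [E1 η hη]
    have heq := tendsto_nhds_unique hL hR'
    have c3 : ∀ z : ℝ, Continuous fun t : ℝ => W (z + t) :=
      fun z => hWc.comp (continuous_const.add continuous_id)
    rw [intervalIntegral.integral_sub ((c3 γ).intervalIntegrable _ _)
      ((c3 m).intervalIntegrable _ _)] at heq
    have e2 : ∀ z : ℝ, ∫ t in (0 : ℝ)..δ, W (z + t) = ∫ t in z..(z + δ), W t := fun z => by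
      simpa using intervalIntegral.integral_comp_add_left W z (a := 0) (b := δ)
    simp only [hV]
    rw [intervalIntegral.integral_add ((hU.const_mul _).intervalIntegrable)
        (hWc.intervalIntegrable _ _),
      intervalIntegral.integral_add ((hU.const_mul _).intervalIntegrable)
        (hWc.intervalIntegrable _ _), intervalIntegral.integral_const_mul,
      intervalIntegral.integral_const_mul, ← e2, ← e2]
    linear_combination -heq
  obtain ⟨c, hc⟩ := locP_const hVl isOpen_Ioo hm main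
  refine ⟨c, ?_⟩
  filter_upwards [hc] with β hβ hβJ
  rw [← hβ hβJ]; simp only [hV, hW]; ring

theorem poisson_local {U F : ℝ → ℂ} (hU : Integrable U) (hF : Integrable F)
    (hap : ApDer U fun b => -F b) {β1 β2 : ℝ}
    (κ : ℝ → ℝ → ℂ) (κ0 : ℝ → ℂ) (Φ : ℝ → ℝ) (hΦ : LocallyIntegrable Φ volume)
    (hbd : ∀ η ∈ Ioc (0 : ℝ) 1, ∀ᵐ β : ℝ, β ∈ Ioo β1 β2 → ‖κ η β‖ ≤ Φ β)
    (hlim : ∀ᵐ β : ℝ, β ∈ Ioo β1 β2 → Tendsto (fun η => κ η β) (𝓝[>] 0) (𝓝 (κ0 β)))
    (hid : ∀ η ∈ Ioc (0 : ℝ) 1, ∀ β ∈ Ioo β1 β2,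
      (∫ b, U b * (pk' η (b - β) : ℂ)) - (∫ b, F b * (pk η (b - β) : ℂ)) = κ η β) :
    ∀ᵐ β : ℝ, β ∈ Ioo β1 β2 → κ0 β = 0 := by
  rcases (Ioo β1 β2).eq_empty_or_nonempty with he | ⟨m, hm⟩
  · simp [he]
  have hev : ∀ᶠ η in 𝓝[>] (0 : ℝ), η ∈ Ioc (0 : ℝ) 1 := Ioc_mem_nhdsGT one_pos
  set K : ℝ → ℝ → ℂ := fun η β =>
    (∫ b, U b * (pk' η (b - β) : ℂ)) - (∫ b, F b * (pk η (b - β) : ℂ)) with hK
  set k0 : ℝ → ℂ := (Ioo β1 β2).indicator κ0 with hk0
  have hKc : ∀ η ∈ Ioc (0 : ℝ) 1, Continuous (K η) := fun η hη =>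
    (continuous_conv hU (continuous_pk' hη.1) (abs_pk'_le hη.1)).sub
      (continuous_conv hF (continuous_pk hη.1) (abs_pk_le hη.1))
  have hbd' : ∀ η ∈ Ioc (0 : ℝ) 1, ∀ᵐ β : ℝ, β ∈ Ioo β1 β2 → ‖K η β‖ ≤ Φ β := by
    intro η hη
    filter_upwards [hbd η hη] with β hβ hβJ
    have : K η β = κ η β := hid η hη β hβJ
    rw [this]; exact hβ hβJ
  have hlim' : ∀ᵐ β : ℝ, β ∈ Ioo β1 β2 → Tendsto (fun η => K η β) (𝓝[>] 0) (𝓝 (k0 β)) := by
    filter_upwards [hlim] with β hβ hβJ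
    rw [hk0, indicator_of_mem hβJ]
    refine (hβ hβJ).congr' ?_
    filter_upwards [hev] with η hη using (hid η hη β hβJ).symm
  have hseq : Tendsto (fun n : ℕ => 1 / ((n : ℝ) + 1)) atTop (𝓝[>] 0) := by
    refine tendsto_nhdsWithin_iff.mpr ⟨tendsto_one_div_add_atTop_nhds_zero_nat, ?_⟩
    exact Eventually.of_forall fun n => by simp only [mem_Ioi]; positivity
  have hseqmem : ∀ n : ℕ, 1 / ((n : ℝ) + 1) ∈ Ioc (0 : ℝ) 1 := fun n =>
    ⟨by positivity, by rw [div_le_one (by positivity)]; linarith [(n.cast_nonneg : (0 : ℝ) ≤ n)]⟩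
  have hk0m : AEStronglyMeasurable k0 volume := by
    refine aestronglyMeasurable_of_tendsto_ae atTop
      (f := fun n : ℕ => (Ioo β1 β2).indicator (K (1 / ((n : ℝ) + 1))))
      (fun n => (hKc _ (hseqmem n)).aestronglyMeasurable.indicator measurableSet_Ioo) ?_
    filter_upwards [hlim'] with β hβ
    by_cases hβJ : β ∈ Ioo β1 β2
    · simp only [indicator_of_mem hβJ]
      exact (hβ hβJ).comp hseq
    · simp only [hk0, indicator_of_notMem hβJ]
      exact tendsto_const_nhds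
  have hk0l : LocallyIntegrable k0 volume := by
    refine hΦ.mono hk0m ?_
    have : ∀ᵐ β : ℝ, ∀ n : ℕ, β ∈ Ioo β1 β2 → ‖K (1 / ((n : ℝ) + 1)) β‖ ≤ Φ β :=
      ae_all_iff.mpr fun n => hbd' _ (hseqmem n)
    filter_upwards [hlim', this] with β hβ h2
    by_cases hβJ : β ∈ Ioo β1 β2
    · exact (le_of_tendsto' ((hβ hβJ).comp hseq).norm fun n => h2 n hβJ).trans (le_abs_self _)
    · simp only [hk0, indicator_of_notMem hβJ, norm_zero, norm_nonneg]
  obtain ⟨c, hc⟩ := locP_limit hU hF hm K k0 Φ hΦ hk0l hbd' hlim' hKc (fun _ _ _ => rfl)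
  have hπ : (Real.pi : ℂ) ≠ 0 := by exact_mod_cast Real.pi_ne_zero
  have hHl : LocallyIntegrable (fun b => (Real.pi : ℂ) * F b + k0 b) volume :=
    (hF.const_mul _).locallyIntegrable.add hk0l
  have key := locP_ae_eq (J := Ioo β1 β2)
    (V := fun β => (Real.pi : ℂ)⁻¹ * (c - ∫ b in (0 : ℝ)..β, (Real.pi * F b + k0 b)))
    (G := fun β => (Real.pi : ℂ)⁻¹ * (-(Real.pi * F β + k0 β))) hap
    (by
      filter_upwards [hc] with β hβ hβJ
      rw [← hβ hβJ, inv_mul_cancel_left₀ hπ])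
    (by
      filter_upwards [LocallyIntegrable.ae_hasDerivAt_integral hHl] with β hβ
      exact ((hβ 0).const_sub c).const_mul _)
  filter_upwards [key] with β hβ hβJ
  have h1 := hβ hβJ
  rw [hk0, indicator_of_mem hβJ] at h1
  field_simp at h1
  linear_combination -h1

end Pool.Agent.P.MP_fd5ae1_an.Loc
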