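import Pool.Agent.P.MP_fd5ae1_an.LocB
import Pool.Agent.P.MP_fd5ae1_an.LocP

/-! Local form: the Cauchy transform of the tangent lines equals the outside contribution. -/

set_option autoImplicit false

open MeasureTheory Set Filter Topology Complex
open scoped ENNReal

namespace Pool.Agent.P.MP_fd5ae1_an.Loc

variable {Ω : Type} [MeasurableSpace Ω] {μ : Measure Ω} [SFinite μ] {x y u v ε : Ω → ℝ}

theorem line_int (H : Lim.Pre μ x y u v ε) (ξ : ℝ) {a0 : ℝ}
    (hk : ∫⁻ ω, ‖u ω‖ₑ * kern (v ω / u ω - a0) ∂μ ≠ ∞) (M : ℝ) :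
    Integrable (fun p : ℝ × Ω => |u p.2| * ‖((y p.2 - v p.2 / u p.2 * x p.2 : ℝ) : ℂ) +
      (ξ + I) * (v p.2 / u p.2 - a0 : ℝ) - p.1‖⁻¹) ((volume.restrict (Icc (-M) M)).prod μ) := by
  have := H.mx; have := H.my; have := H.mu; have := H.mv
  have := measurable_kern
  set ζ : Ω → ℂ := fun ω =>
    ((y ω - v ω / u ω * x ω : ℝ) : ℂ) + (ξ + I) * (v ω / u ω - a0 : ℝ) with hζ
  have hζm : Measurable ζ := by simp only [hζ]; fun_prop
  have hζim : ∀ ω (β : ℝ), (ζ ω - β).im = v ω / u ω - a0 := by intro ω β; simp [hζ]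
  set K : ℝ × Ω → ℝ := fun p => |u p.2| * ‖ζ p.2 - p.1‖⁻¹ with hK
  have hKm : Measurable K := by simp only [hK]; fun_prop
  change Integrable K _
  obtain ⟨c, hc, hcb⟩ := exists_kern_bound M
  refine ⟨hKm.aestronglyMeasurable, ?_⟩
  rw [hasFiniteIntegral_iff_enorm, lintegral_prod_symm' _ hKm.enorm]
  refine lt_of_le_of_lt (lintegral_mono (g := fun ω => ‖u ω‖ₑ * kern (v ω / u ω - a0) * c)
    fun ω => ?_) ?_
  · refine le_trans (lintegral_mono (g := fun β : ℝ =>
      ‖u ω‖ₑ * kern (v ω / u ω - a0) * kern ((ζ ω).re - β)) fun β => ?_) ?_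
    · simp only [hK, enorm_mul]
      rw [mul_assoc, Real.enorm_abs]
      refine mul_le_mul_right ?_ _
      rw [Real.enorm_eq_ofReal (by positivity), mul_comm]
      have := ofReal_norm_inv_le (ζ ω - β)
      rwa [hζim, Complex.sub_re, Complex.ofReal_re] at this
    · rw [lintegral_const_mul _ (by fun_prop)]
      exact mul_le_mul_right (hcb _) _
  · rw [lintegral_mul_const _ (by fun_prop)]
    exact ENNReal.mul_lt_top hk.lt_top hc.lt_top

theorem cauchy_eq (H : Lim.Pre μ x y u v ε) {a1 a2 b1 b2 d ξ a0 : ℝ} (hd : 0 < d)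
    (hv : ∀ᵐ a : ℝ, a ∈ Ioo a1 a2 → VanL μ x y u v ε b1 b2 a) (h0 : a0 ∈ Icc (a1 + d) (a2 - d))
    {U F : ℝ → ℂ} (hR : Rep μ x y u v ε a0 ξ U F)
    (hk : ∫⁻ ω, ‖u ω‖ₑ * kern (v ω / u ω - a0) ∂μ ≠ ∞) :
    ∀ᵐ β : ℝ, β ∈ Ioo (b1 + d) (b2 - d) → ∫ ω, cau x y u v ε ξ ω a0 β ∂μ =
      ∫ z, tail x y u v ε a1 a2 b1 b2 ξ z a0 β ∂(volume.prod μ) := by
  have := H.mx; have := H.my; have := H.mu; have := H.mv; have := H.me; have := measurable_gw ξ
  have := measurable_kern
  have hgen := Lim.gen_of_kern H hk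
  obtain ⟨M1, hM1⟩ := err_lim H (b1 := b1) (b2 := b2) (ξ := ξ) 1 hd h0
  obtain ⟨M2, hM2⟩ := err_lim H (b1 := b1) (b2 := b2) (ξ := ξ) (-1) hd h0
  set R : ℝ → ℝ → ℝ → ℂ := fun ρ η β => ∫ z, tl x y u v ε a1 a2 b1 b2 ξ a0 β (ρ * η) z
        ∂((volume.restrict {a : ℝ | 0 < ρ * (a - a0)}).prod μ) with hRd
  set ζ : Ω → ℂ := fun ω =>
    ((y ω - v ω / u ω * x ω : ℝ) : ℂ) + (ξ + I) * (v ω / u ω - a0 : ℝ) with hζ
  have hζm : Measurable ζ := by simp only [hζ]; fun_prop
  have hζim : ∀ ω (β : ℝ), (ζ ω - β).im = v ω / u ω - a0 := by intro ω β; simp [hζ]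
  set f : Ω → ℂ := fun ω => (ε ω : ℂ) * ((|u ω| : ℝ) : ℂ) * gw ξ (x ω) ^ 2 with hf
  have hfm : Measurable f := by simp only [hf]; fun_prop
  have hfb : ∀ ω, ‖f ω‖ ≤ |u ω| := by
    intro ω
    simp only [hf, norm_mul, Complex.norm_real, Real.norm_eq_abs, abs_abs]
    calc _ ≤ 1 * |u ω| * 1 := by gcongr; exacts [H.be ω, norm_gw_sq_le _ _]
      _ = _ := by ring
  set κ : ℝ → ℝ → ℂ := fun η β => -I * ∫ ω, f ω * twoSided η (ζ ω - β) ∂μ +
    I * (R (-1) η β + R 1 η β) with hκ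
  set K : ℝ × Ω → ℝ := fun p => |u p.2| * ‖ζ p.2 - p.1‖⁻¹ with hK
  have hKi : ∀ M : ℝ, Integrable K ((volume.restrict (Icc (-M) M)).prod μ) := line_int H ξ hk
  set Φ : ℝ → ℝ := fun β => ∫ ω, K (β, ω) ∂μ with hΦ
  have hΦl : LocallyIntegrable Φ volume := by
    rw [locallyIntegrable_iff]
    intro k hk
    obtain ⟨M, hM⟩ := hk.isBounded.subset_closedBall 0
    rw [Real.closedBall_eq_Icc, zero_sub, zero_add] at hM
    exact IntegrableOn.mono_set (hKi M).integral_prod_left hM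
  have hKae : ∀ᵐ β : ℝ, Integrable (fun ω => K (β, ω)) μ := by
    have : ∀ᵐ β : ℝ, ∀ n : ℕ, β ∈ Icc (-(n : ℝ)) n → Integrable (fun ω => K (β, ω)) μ :=
      ae_all_iff.mpr fun n => (ae_restrict_iff' measurableSet_Icc).mp (hKi n).prod_right_ae
    filter_upwards [this] with β hβ
    obtain ⟨n, hn⟩ := exists_nat_ge |β|
    exact hβ n (abs_le.mp hn)
  have hbd0 : ∀ η : ℝ, 0 ≤ η → ∀ (β : ℝ) ω, ‖f ω * twoSided η (ζ ω - β)‖ ≤ K (β, ω) := by
    intro η hη β ω
    rw [norm_mul]
    exact mul_le_mul (hfb ω) (norm_twoSided_le hη _) (norm_nonneg _) (abs_nonneg _)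
  have hmeas : ∀ η β : ℝ, AEStronglyMeasurable (fun ω => f ω * twoSided η (ζ ω - β)) μ := by
    intro η β
    have := measurable_twoSided η
    exact Measurable.aestronglyMeasurable (by fun_prop)
  have hκz := poisson_local hR.iU hR.iF hR.ap (β1 := b1 + d) (β2 := b2 - d) κ (κ 0)
    (fun β => Φ β + (M2 + M1)) (hΦl.add (locallyIntegrable_const _))
    (fun η hη => by
      filter_upwards [hKae] with β hβ hJ
      refine (norm_add_le _ _).trans (add_le_add ?_ ?_)
      · simp only [norm_mul, norm_neg, Complex.norm_I, one_mul]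
        exact norm_integral_le_of_norm_le hβ (Eventually.of_forall (hbd0 η hη.1.le β))
      · rw [norm_mul, Complex.norm_I, one_mul]
        exact (norm_add_le _ _).trans (add_le_add ((hM2 β (Ioo_subset_Icc_self hJ)).1 η hη.1.le)
          ((hM1 β (Ioo_subset_Icc_self hJ)).1 η hη.1.le)))
    (by
      filter_upwards [hKae] with β hβ hJ
      refine (Tendsto.const_mul _ ?_).add ((((hM2 β (Ioo_subset_Icc_self hJ)).2).add
        (hM1 β (Ioo_subset_Icc_self hJ)).2).const_mul _)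
      refine tendsto_integral_filter_of_dominated_convergence (fun ω => K (β, ω))
        (Eventually.of_forall fun η => hmeas η β) ?_ hβ
        (Eventually.of_forall fun ω => (tendsto_twoSided _).const_mul _)
      filter_upwards [self_mem_nhdsWithin] with η hη
      exact Eventually.of_forall (hbd0 η (le_of_lt hη) β))
    (fun η hη β hJ => by
      have k1 := (Lim.split_eq H (adm_rat (Or.inl rfl) β hη) hR).trans
        (err_eq H hd hv h0 (Ioo_subset_Icc_self hJ) (Or.inl rfl) hη hgen)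
      have k2 := (Lim.split_eq H (adm_rat (Or.inr rfl) β hη) hR).trans
        (err_eq H hd hv h0 (Ioo_subset_Icc_self hJ) (Or.inr rfl) hη hgen)
      have ib : ∀ {ρ : ℝ}, (ρ = 1 ∨ ρ = -1) → ∀ {G : ℝ → ℂ}, Integrable G →
          Integrable (fun b : ℝ => G b * ((b : ℂ) - β + ρ * η * I)⁻¹) ∧
          Integrable (fun b : ℝ => G b * -((b : ℂ) - β + ρ * η * I)⁻¹ ^ 2) := by
        intro ρ hρ G hG
        have A := adm_rat hρ β hη
        constructor
        · refine hG.mul_bdd (c := 2 / η ^ 3) (Measurable.aestronglyMeasurable (by fun_prop))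
            (Eventually.of_forall fun b => ?_)
          simpa using A.b0 b (by simp)
        · refine hG.mul_bdd (c := 2 / η ^ 3) (Measurable.aestronglyMeasurable (by fun_prop))
            (Eventually.of_forall fun b => ?_)
          simpa using A.b1 b (by simp)
      have e1 : (∫ b : ℝ, U b * -((b : ℂ) - β + (-1 : ℝ) * η * I)⁻¹ ^ 2) -
          (∫ b : ℝ, U b * -((b : ℂ) - β + (1 : ℝ) * η * I)⁻¹ ^ 2) =
          2 * I * ∫ b, U b * (pk' η (b - β) : ℂ) := by
        rw [← integral_sub (ib (Or.inr rfl) hR.iU).2 (ib (Or.inl rfl) hR.iU).2,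
          ← integral_const_mul]
        congr 1; ext b
        have := (pk_eq hη.1 (b - β)).2
        rw [Complex.ofReal_sub] at this
        rw [← mul_sub, this]; ring
      have e2 : (∫ b : ℝ, F b * ((b : ℂ) - β + (-1 : ℝ) * η * I)⁻¹) -
          (∫ b : ℝ, F b * ((b : ℂ) - β + (1 : ℝ) * η * I)⁻¹) =
          2 * I * ∫ b, F b * (pk η (b - β) : ℂ) := by
        rw [← integral_sub (ib (Or.inr rfl) hR.iF).1 (ib (Or.inl rfl) hR.iF).1,
          ← integral_const_mul]
        congr 1; ext b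
        have := (pk_eq hη.1 (b - β)).1
        rw [Complex.ofReal_sub] at this
        rw [← mul_sub, this]; ring
      have ic : ∀ {ρ : ℝ}, (ρ = 1 ∨ ρ = -1) → Integrable (fun ω => f ω *
          (if 0 < ρ * (v ω / u ω - a0) then (ζ ω - β + ρ * η * I)⁻¹ else 0)) μ := by
        intro ρ hρ
        have A := adm_rat hρ β hη
        refine (H.integrable_f ξ).mul_bdd (c := 2 / η ^ 3) ?_ (Eventually.of_forall fun ω => ?_)
        · refine Measurable.aestronglyMeasurable (Measurable.ite ?_ (by fun_prop) measurable_const)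
          exact measurableSet_lt measurable_const (by fun_prop)
        · split_ifs with h
          · have e : (ζ ω).im = v ω / u ω - a0 := by simp [hζ]
            have := A.b0 (ζ ω) (by rw [e]; exact h.le)
            rw [e] at this
            exact this.trans (div_le_self A.nonneg (by linarith))
          · simpa using A.nonneg
      have e3 : ∫ ω, f ω * twoSided η (ζ ω - β) ∂μ =
          (∫ ω, f ω * (if 0 < (-1 : ℝ) * (v ω / u ω - a0) then
            (ζ ω - β + (-1 : ℝ) * η * I)⁻¹ else 0) ∂μ) +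
          ∫ ω, f ω * (if 0 < (1 : ℝ) * (v ω / u ω - a0) then
            (ζ ω - β + (1 : ℝ) * η * I)⁻¹ else 0) ∂μ := by
        rw [← integral_add (ic (Or.inr rfl)) (ic (Or.inl rfl))]
        congr 1; ext ω
        rw [twoSided, hζim, mul_add]
      simp only [hκ]
      rw [e3]
      have h2I : (2 * I : ℂ) ≠ 0 := by simp
      refine mul_left_cancel₀ h2I ?_
      rw [mul_sub, ← e1, ← e2]
      set A := ∫ ω, f ω * (if 0 < (-1 : ℝ) * (v ω / u ω - a0) then
            (ζ ω - β + (-1 : ℝ) * η * I)⁻¹ else 0) ∂μ with hA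
      set B := ∫ ω, f ω * (if 0 < (1 : ℝ) * (v ω / u ω - a0) then
            (ζ ω - β + (1 : ℝ) * η * I)⁻¹ else 0) ∂μ with hB
      change _ + 2 * ((1 : ℝ) : ℂ) * B = 2 * ((1 : ℝ) : ℂ) * R 1 η β at k1
      change _ + 2 * ((-1 : ℝ) : ℂ) * A = 2 * ((-1 : ℝ) : ℂ) * R (-1) η β at k2
      rw [Complex.ofReal_one] at k1
      rw [Complex.ofReal_neg, Complex.ofReal_one] at k2
      rw [Complex.ofReal_neg, Complex.ofReal_one]
      linear_combination k2 - k1 +
        (2 * (A + B) - 2 * R (-1) η β - 2 * R 1 η β) * Complex.I_mul_I)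
  filter_upwards [hκz] with β hβ hJ
  have h1 := hβ hJ
  have e1 : ∫ ω, f ω * twoSided 0 (ζ ω - β) ∂μ = ∫ ω, cau x y u v ε ξ ω a0 β ∂μ := by
    refine integral_congr_ae ?_
    filter_upwards [hgen] with ω hω
    by_cases hu : u ω = 0
    · simp [hf, cau, hu]
    have hne : v ω / u ω - a0 ≠ 0 := by
      intro h
      exact hu (hω (by field_simp at h; linarith))
    change f ω * _ = f ω * (ζ ω - β)⁻¹
    congr 1
    rw [twoSided, hζim]
    rcases hne.lt_or_gt with h | h
    · rw [if_pos (by linarith), if_neg (by linarith)]; simp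
    · rw [if_neg (by linarith), if_pos (by linarith)]; simp
  have e2 : R (-1) 0 β + R 1 0 β = _ := err_sum H hd h0 (Ioo_subset_Icc_self hJ)
  simp only [hκ] at h1
  rw [e1, e2] at h1
  refine mul_left_cancel₀ Complex.I_ne_zero ?_
  linear_combination -h1

end Pool.Agent.P.MP_fd5ae1_an.Loc
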