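import Pool.Agent.P.MP_fd5ae1_an.LocDef

/-! Local form: from the rectangles to the vanishing of the tangent line term. -/

set_option autoImplicit false

open MeasureTheory Set Filter Topology Complex
open scoped ENNReal

namespace Pool.Agent.P.MP_fd5ae1_an.Loc

variable {Ω : Type} [MeasurableSpace Ω] {μ : Measure Ω} [SFinite μ] {x y u v ε : Ω → ℝ}

theorem locT_ftc (l : ℂ) {a m : ℝ} (h : a ≤ m) :
    ∫ c in Ioo a m, l * cexp (l * c) = cexp (l * m) - cexp (l * a) := by
  rw [← integral_Ioc_eq_integral_Ioo, ← intervalIntegral.integral_of_le h]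
  refine intervalIntegral.integral_eq_sub_of_hasDerivAt (f := fun c : ℝ => cexp (l * c))
    (fun c _ => ?_) (Continuous.intervalIntegrable (by fun_prop) _ _)
  exact ((hasDerivAt_id (c : ℂ)).const_mul l).cexp.comp_ofReal.congr_deriv (by simp [mul_comm])

theorem locT_core {g : Ω → ℂ} {m : Ω → ℝ} (hg : Integrable g μ) (hm : Measurable m) {a q : ℝ}
    (l : ℂ) (h0 : ∫ ω, (if a < m ω ∧ m ω < q then g ω else 0) ∂μ = 0)
    (h : ∀ᵐ c : ℝ, c ∈ Ioo a q → ∫ ω, (if c < m ω ∧ m ω < q then g ω else 0) ∂μ = 0) :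
    ∫ ω, (if a < m ω ∧ m ω < q then cexp (l * m ω) * g ω else 0) ∂μ = 0 := by
  have hs : MeasurableSet {z : ℝ × Ω | z.1 < m z.2 ∧ m z.2 < q} :=
    (measurableSet_lt measurable_fst (hm.comp measurable_snd)).inter
      (measurableSet_lt (hm.comp measurable_snd) measurable_const)
  have hs' : MeasurableSet {ω | a < m ω ∧ m ω < q} :=
    (measurableSet_lt measurable_const hm).inter (measurableSet_lt hm measurable_const)
  have hf : IntegrableOn (fun c : ℝ => l * cexp (l * c)) (Ioo a q) :=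
    (Continuous.integrableOn_Icc (by fun_prop)).mono_set Ioo_subset_Icc_self
  have hK : Integrable (Function.uncurry fun (c : ℝ) (ω : Ω) =>
      if c < m ω ∧ m ω < q then l * cexp (l * c) * g ω else 0)
      ((volume.restrict (Ioo a q)).prod μ) :=
    ((Integrable.mul_prod hf hg).indicator hs).congr (Eventually.of_forall fun z => by
      simp only [indicator_apply, mem_ofPred_eq, Function.uncurry])
  have h1 := integral_integral_swap hK
  have h2 : ∫ c in Ioo a q, ∫ ω, (if c < m ω ∧ m ω < q then l * cexp (l * c) * g ω else 0) ∂μ =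
      0 := by
    refine integral_eq_zero_of_ae ((ae_restrict_iff' measurableSet_Ioo).2 ?_)
    filter_upwards [h] with c hc hc'
    have h7 : l * cexp (l * c) * _ = l * cexp (l * c) * 0 := congrArg _ (hc hc')
    rw [← integral_const_mul] at h7
    simpa only [mul_ite, mul_zero, Pi.zero_apply] using h7
  have h3 : ∀ ω, ∫ c in Ioo a q, (if c < m ω ∧ m ω < q then l * cexp (l * c) * g ω else 0) =
      if a < m ω ∧ m ω < q then (cexp (l * m ω) - cexp (l * a)) * g ω else 0 := fun ω => by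
    split_ifs with hc
    · rw [← locT_ftc l hc.1.le, ← integral_mul_const, ← min_eq_right hc.2.le, ← Ioo_inter_Iio,
        ← setIntegral_indicator measurableSet_Iio, min_eq_right hc.2.le]
      simp only [indicator_apply, mem_Iio, hc.2, and_true]
    · exact setIntegral_eq_zero_of_forall_eq_zero fun c hc' =>
        if_neg fun h4 => hc ⟨hc'.1.trans h4.1, h4.2⟩
  have h4 := hK.integral_prod_right
  simp only [Function.uncurry, h3] at h4
  simp only [h2, h3] at h1
  have h5 : Integrable (fun ω => if a < m ω ∧ m ω < q then g ω else 0) μ :=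
    (hg.indicator hs').congr (Eventually.of_forall fun ω => by
      simp only [indicator_apply, mem_ofPred_eq])
  have h6 := integral_add h4 (h5.const_mul (cexp (l * a)))
  rw [← h1, integral_const_mul, h0, mul_zero, add_zero] at h6
  refine Eq.trans (integral_congr_ae (Eventually.of_forall fun ω => ?_)) h6
  simp only
  split_ifs <;> ring

theorem third_loc (H : Lim.Pre μ x y u v ε) {β1 β2 p q : ℝ} (hβ : β1 < β2) (G : ℝ → Prop)
    (hG : ∀ᵐ a : ℝ, G a) (gp : G p) (gq : G q)
    (hr : ∀ p' q' : ℝ, p ≤ p' → p' < q' → q' ≤ q → G p' → G q' → ∀ s ξ : ℝ,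
      ∫ ω, (ε ω : ℂ) * ((|u ω| : ℝ) : ℂ) * gw ξ (x ω) ^ 2 *
        (if (p' < v ω / u ω ∧ v ω / u ω < q') ∧ y ω - v ω / u ω * x ω ∈ Ioo β1 β2 then
          Bf β1 β2 s (y ω - v ω / u ω * x ω) else 0) ∂μ = 0) :
    Lim.Third μ x y u v fun ω =>
      if (p < v ω / u ω ∧ v ω / u ω < q) ∧ y ω - v ω / u ω * x ω ∈ Ioo β1 β2 then
        ε ω * ((y ω - v ω / u ω * x ω - β1) * (β2 - (y ω - v ω / u ω * x ω)) / (β2 - β1) ^ 2)
      else 0 := by
  intro ξ ρ s hρ _
  have := H.mx; have := H.my; have := H.mu; have := H.mv; have := H.me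
  obtain ⟨M, hM⟩ := exists_B_bound β1 β2 s
  have hg : Integrable (fun ω => (ε ω : ℂ) * ((|u ω| : ℝ) : ℂ) * gw ξ (x ω) ^ 2 *
      if y ω - v ω / u ω * x ω ∈ Ioo β1 β2 then Bf β1 β2 s (y ω - v ω / u ω * x ω) else 0) μ := by
    refine (H.integrable_f ξ).mul_bdd (c := M) (Measurable.aestronglyMeasurable (Measurable.ite
      (measurableSet_Ioo.preimage (by fun_prop))
      ((continuous_Bf β1 β2 s).measurable.comp (by fun_prop)) measurable_const))
      (Eventually.of_forall fun ω => ?_)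
    split_ifs with h
    · exact (hM _ (Ioo_subset_Icc_self h)).1
    · exact norm_zero.trans_le ((norm_nonneg _).trans (hM _ (left_mem_Icc.2 hβ.le)).1)
  have h1 : ∀ p' q' : ℝ, p ≤ p' → q' ≤ q → G p' → G q' →
      ∫ ω, (if p' < v ω / u ω ∧ v ω / u ω < q' then
        (ε ω : ℂ) * ((|u ω| : ℝ) : ℂ) * gw ξ (x ω) ^ 2 *
          if y ω - v ω / u ω * x ω ∈ Ioo β1 β2 then Bf β1 β2 s (y ω - v ω / u ω * x ω) else 0
        else 0) ∂μ = 0 := fun p' q' a b c d => by
    rcases lt_or_ge p' q' with h | h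
    · refine Eq.trans (integral_congr_ae (Eventually.of_forall fun ω => ?_)) (hr p' q' a h b c d s ξ)
      simp only [ite_and (p' < v ω / u ω ∧ v ω / u ω < q')]
      split_ifs <;> simp
    · exact integral_eq_zero_of_ae (Eventually.of_forall fun ω =>
        if_neg fun h2 => (h2.1.trans h2.2).not_ge h)
  filter_upwards [hG] with a0 h0
  obtain ⟨p', q', a, b, c, d, e⟩ : ∃ p' q' : ℝ, p ≤ p' ∧ q' ≤ q ∧ G p' ∧ G q' ∧
      ∀ m : ℝ, (p' < m ∧ m < q') ↔ ((p < m ∧ m < q) ∧ 0 < ρ * (m - a0)) := by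
    rcases hρ with rfl | rfl
    · refine ⟨max p a0, q, le_max_left _ _, le_rfl, ?_, gq, fun m => ?_⟩
      · rcases max_choice p a0 with h | h <;> rwa [h]
      · rw [max_lt_iff, one_mul, sub_pos, and_right_comm]
    · refine ⟨p, min q a0, le_rfl, min_le_left _ _, gp, ?_, fun m => ?_⟩
      · rcases min_choice q a0 with h | h <;> rwa [h]
      · rw [lt_min_iff, neg_one_mul, neg_sub, sub_pos, and_assoc]
  have h2 := locT_core (m := fun ω => v ω / u ω) hg (by fun_prop) (s * I * (ξ + I))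
    (h1 p' q' a b c d) (hG.mono fun c' hc' h => h1 c' q' (a.trans h.1.le) b hc' d)
  have h6 : cexp (-(s * I * (ξ + I) * a0)) / ((β2 - β1 : ℝ) : ℂ) ^ 2 * _ = _ * 0 := congrArg _ h2
  rw [mul_zero, ← integral_const_mul] at h6
  refine Eq.trans (integral_congr_ae (Eventually.of_forall fun ω => ?_)) h6
  have e2 : cexp (s * I * (((y ω - v ω / u ω * x ω : ℝ) : ℂ) + (ξ + I) * (v ω / u ω - a0 : ℝ))) =
      cexp (-(s * I * (ξ + I) * a0)) * cexp (s * I * (ξ + I) * (v ω / u ω : ℝ)) *
        cexp (s * I * (y ω - v ω / u ω * x ω : ℝ)) := by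
    rw [← Complex.exp_add, ← Complex.exp_add, Complex.ofReal_sub _ a0]
    exact congrArg cexp (by ring)
  simp only [e, e2, Bf]
  by_cases h3 : p < v ω / u ω ∧ v ω / u ω < q
  · by_cases h4 : 0 < ρ * (v ω / u ω - a0)
    · by_cases h5 : y ω - v ω / u ω * x ω ∈ Ioo β1 β2
      · rw [if_pos ⟨h3, h5⟩, if_pos h4, if_pos ⟨h3, h4⟩, if_pos h5, Complex.ofReal_mul (ε ω),
          Complex.ofReal_div _ (_ ^ 2), Complex.ofReal_pow]
        ring
      · rw [if_neg fun h => h5 h.2, if_neg h5]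
        simp
    · rw [if_neg h4, if_neg (show ¬ (_ ∧ 0 < ρ * (v ω / u ω - a0)) from fun h => h4 h.2)]
      simp
  · simp [h3]

end Pool.Agent.P.MP_fd5ae1_an.Loc
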