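import Pool.Agent.P.MP_fd5ae1_an.LimD

/-! Local form: definitions used by the proof. -/

set_option autoImplicit false

open MeasureTheory Set Filter Topology Complex
open scoped ENNReal

namespace Pool.Agent.P.MP_fd5ae1_an.Loc

/-- The test function on the interval with ends `β1`, `β2`. -/
noncomputable def Bf (β1 β2 s β : ℝ) : ℂ := (((β - β1) * (β2 - β) : ℝ) : ℂ) * cexp (s * I * β)

/-- Its derivative. -/
noncomputable def Bd (β1 β2 s β : ℝ) : ℂ :=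
  (((β1 + β2 - 2 * β : ℝ) : ℂ) + s * I * (((β - β1) * (β2 - β) : ℝ) : ℂ)) * cexp (s * I * β)

/-- The contour functional. -/
noncomputable def Lam (β1 β2 s p q ξ : ℝ) (h : ℝ → ℝ → ℂ) : ℂ :=
  (∫ β in Ioo β1 β2, Bf β1 β2 s β * h q β) - (∫ β in Ioo β1 β2, Bf β1 β2 s β * h p β) +
    (ξ + I) * ∫ a in Ioo p q, ∫ β in Ioo β1 β2, Bd β1 β2 s β * h a β

variable {Ω : Type} [MeasurableSpace Ω]

/-- The signed count vanishes on almost all lines of slope `a` with intercept between `b1` and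
`b2`. -/
def VanL (μ : Measure Ω) (x y u v ε : Ω → ℝ) (b1 b2 a : ℝ) : Prop :=
  ∀ φ : ℝ → ℂ, Measurable φ → (∃ C, ∀ b, ‖φ b‖ ≤ C) → (∀ b, b ∉ Ioo b1 b2 → φ b = 0) →
    ∫ ω, (ε ω : ℂ) * ((|v ω - a * u ω| : ℝ) : ℂ) * φ (y ω - a * x ω) ∂μ = 0

open Classical in
/-- The contribution of the lines outside the box. -/
noncomputable def tail (x y u v ε : Ω → ℝ) (a1 a2 b1 b2 ξ : ℝ) (z : ℝ × Ω) (a0 β : ℝ) : ℂ :=
  if z.1 ∈ Ioo a1 a2 ∧ y z.2 - z.1 * x z.2 ∈ Ioo b1 b2 then 0 else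
    (ε z.2 : ℂ) * ((|v z.2 - z.1 * u z.2| : ℝ) : ℂ) *
      (((y z.2 - z.1 * x z.2 : ℝ) : ℂ) + (ξ + I) * (z.1 - a0 : ℝ) - β)⁻¹ ^ 3

/-- The Cauchy kernel of the tangent line. -/
noncomputable def cau (x y u v ε : Ω → ℝ) (ξ : ℝ) (ω : Ω) (a0 β : ℝ) : ℂ :=
  (ε ω : ℂ) * ((|u ω| : ℝ) : ℂ) * gw ξ (x ω) ^ 2 *
    (((y ω - v ω / u ω * x ω : ℝ) : ℂ) + (ξ + I) * (v ω / u ω - a0 : ℝ) - β)⁻¹

theorem hasDerivAt_Bf (β1 β2 s β : ℝ) : HasDerivAt (Bf β1 β2 s) (Bd β1 β2 s β) β := by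
  have h1 : HasDerivAt (fun z : ℂ => (z - β1) * (β2 - z) * cexp (s * I * z))
      ((1 * ((β2 : ℂ) - β) + (β - β1) * (-1)) * cexp (s * I * β) +
        (β - β1) * (β2 - β) * (cexp (s * I * β) * (s * I * 1))) β :=
    (((hasDerivAt_id (β : ℂ)).sub_const _).mul ((hasDerivAt_id (β : ℂ)).const_sub _)).mul
      ((hasDerivAt_id (β : ℂ)).const_mul _).cexp
  have h2 := h1.comp_ofReal
  have e1 : Bf β1 β2 s = fun t : ℝ => ((t : ℂ) - β1) * (β2 - t) * cexp (s * I * t) := by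
    ext t; simp [Bf]
  have e2 : Bd β1 β2 s β = (1 * ((β2 : ℂ) - β) + (β - β1) * (-1)) * cexp (s * I * β) +
        (β - β1) * (β2 - β) * (cexp (s * I * β) * (s * I * 1)) := by
    simp only [Bd]; push_cast; ring
  rw [e1, e2]; exact h2

theorem continuous_Bf (β1 β2 s : ℝ) : Continuous (Bf β1 β2 s) := by unfold Bf; fun_prop

theorem continuous_Bd (β1 β2 s : ℝ) : Continuous (Bd β1 β2 s) := by unfold Bd; fun_prop

theorem exists_B_bound (β1 β2 s : ℝ) :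
    ∃ M : ℝ, ∀ β ∈ Icc β1 β2, ‖Bf β1 β2 s β‖ ≤ M ∧ ‖Bd β1 β2 s β‖ ≤ M := by
  obtain ⟨M1, h1⟩ := isCompact_Icc.exists_bound_of_continuousOn
    (continuous_Bf β1 β2 s).continuousOn (s := Icc β1 β2)
  obtain ⟨M2, h2⟩ := isCompact_Icc.exists_bound_of_continuousOn
    (continuous_Bd β1 β2 s).continuousOn (s := Icc β1 β2)
  exact ⟨max M1 M2, fun β hβ => ⟨(h1 β hβ).trans (le_max_left _ _),
    (h2 β hβ).trans (le_max_right _ _)⟩⟩

/-- Lower bound for the distance from a line outside the box to a line of the inner box. -/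
theorem low (a1 a2 b1 b2 ξ : ℝ) {d : ℝ} (hd : 0 < d) : ∃ c : ℝ, 0 < c ∧
    ∀ a0 ∈ Icc (a1 + d) (a2 - d), ∀ β ∈ Icc (b1 + d) (b2 - d), ∀ a b τ : ℝ,
      ¬ (a ∈ Ioo a1 a2 ∧ b ∈ Ioo b1 b2) → 0 ≤ τ * (a - a0) →
      c * (1 + |a|) ≤ ‖(b : ℂ) + (ξ + I) * (a - a0 : ℝ) - β + τ * I‖ := by
  set e : ℝ := d / (2 * (|ξ| + 1)) with he
  have hξ : 0 ≤ |ξ| := abs_nonneg ξ
  have he0 : 0 < e := by positivity
  have hed : e * (2 * (|ξ| + 1)) = d := by rw [he]; field_simp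
  set M : ℝ := |a1| + |a2| with hM
  have hM0 : 0 ≤ M := by positivity
  refine ⟨e / (1 + M + e), by positivity, fun a0 h0 β hβ a b τ hout hτ => ?_⟩
  set z : ℂ := (b : ℂ) + (ξ + I) * (a - a0 : ℝ) - β + τ * I with hz
  have him : z.im = a - a0 + τ := by simp [hz]
  have hre : z.re = b - β + ξ * (a - a0) := by simp [hz]; ring
  have h1 : |a - a0| ≤ ‖z‖ := by
    refine le_trans ?_ (Complex.abs_im_le_norm z)
    rw [him]
    refine sq_le_sq.mp ?_
    nlinarith [sq_nonneg τ]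
  have h2 : e ≤ ‖z‖ := by
    by_cases hc : e ≤ |a - a0|
    · exact hc.trans h1
    · push Not at hc
      have hed' : e ≤ d / 2 := by nlinarith
      have ha : a ∈ Ioo a1 a2 := by
        have := abs_lt.mp hc
        constructor <;> linarith [h0.1, h0.2]
      have hb : d ≤ |b - β| := by
        by_contra hcon
        push Not at hcon
        have := abs_lt.mp hcon
        exact hout ⟨ha, by linarith [hβ.1], by linarith [hβ.2]⟩
      refine le_trans ?_ (Complex.abs_re_le_norm z)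
      rw [hre]
      have h3 : |b - β| ≤ |b - β + ξ * (a - a0)| + |ξ * (a - a0)| := by
        simpa using abs_sub (b - β + ξ * (a - a0)) (ξ * (a - a0))
      have h4 : |ξ * (a - a0)| ≤ |ξ| * e := by rw [abs_mul]; gcongr
      nlinarith
  have h3 : |a0| ≤ M := by
    rw [abs_le]
    constructor <;> linarith [h0.1, h0.2, neg_abs_le a1, le_abs_self a2, abs_nonneg a1, abs_nonneg a2]
  have h4 : |a| ≤ |a - a0| + |a0| := by simpa using abs_add_le (a - a0) a0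
  rw [div_mul_eq_mul_div, div_le_iff₀ (by positivity)]
  nlinarith [norm_nonneg z]

end Pool.Agent.P.MP_fd5ae1_an.Loc
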