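import Pool.Agent.P.MP_fd5ae1_an.LocDef

/-! Local form: the contour functional kills inverse cubes and commutes with integrals. -/

set_option autoImplicit false

open MeasureTheory Set Filter Topology Complex
open scoped ENNReal

namespace Pool.Agent.P.MP_fd5ae1_an.Loc

theorem locf_ftc {p q : ℝ} (hpq : p ≤ q) {f f' : ℝ → ℂ}
    (hd : ∀ t ∈ Icc p q, HasDerivAt f (f' t) t) (hc : ContinuousOn f' (Icc p q)) :
    ∫ t in Ioo p q, f' t = f q - f p := by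
  rw [← integral_Ioc_eq_integral_Ioo, ← intervalIntegral.integral_of_le hpq]
  exact intervalIntegral.integral_eq_sub_of_hasDerivAt (by rwa [uIcc_of_le hpq])
    (hc.intervalIntegrable_of_Icc hpq)

theorem locf_deriv (c m : ℂ) (t : ℝ) (h : c - m * t ≠ 0) :
    HasDerivAt (fun t : ℝ => (c - m * t)⁻¹ ^ 3) (m * (3 * (c - m * t)⁻¹ ^ 4)) t := by
  have h1 : HasDerivAt (fun z : ℂ => c - m * z) (-(m * 1)) (t : ℂ) :=
    ((hasDerivAt_id (t : ℂ)).const_mul m).const_sub c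
  have h2 := ((h1.inv h).pow 3).comp_ofReal
  refine h2.congr_deriv ?_
  simp only [Pi.inv_apply, div_eq_mul_inv, ← inv_pow]
  push_cast
  ring

theorem lam_cube {β1 β2 p q : ℝ} (s ξ b a : ℝ) (hβ : β1 < β2) (hpq : p < q)
    (hz : ∀ a0 ∈ Icc p q, ∀ β ∈ Icc β1 β2, (b : ℂ) + (ξ + I) * (a - a0 : ℝ) - β ≠ 0) :
    Lam β1 β2 s p q ξ (fun a0 β => ((b : ℂ) + (ξ + I) * (a - a0 : ℝ) - β)⁻¹ ^ 3) = 0 := by
  obtain ⟨Z, hZ⟩ : ∃ Z : ℝ → ℝ → ℂ, ∀ a0 β, Z a0 β = (b : ℂ) + (ξ + I) * (a - a0 : ℝ) - β :=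
    ⟨_, fun _ _ => rfl⟩
  simp only [← hZ] at hz ⊢
  have cZ : Continuous fun z : ℝ × ℝ => Z z.1 z.2 := by simp only [hZ]; fun_prop
  have cI : ContinuousOn (fun z : ℝ × ℝ => (Z z.1 z.2)⁻¹) (Icc p q ×ˢ Icc β1 β2) :=
    cZ.continuousOn.inv₀ fun z hzz => hz _ hzz.1 _ hzz.2
  have cβ : ∀ a0 ∈ Icc p q, ContinuousOn (fun β => (Z a0 β)⁻¹) (Icc β1 β2) := fun a0 h0 =>
    (cZ.comp (Continuous.prodMk_right a0)).continuousOn.inv₀ (hz a0 h0)
  have ca : ∀ β ∈ Icc β1 β2, ContinuousOn (fun a0 => (Z a0 β)⁻¹) (Icc p q) := fun β h0 =>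
    (cZ.comp (Continuous.prodMk_left β)).continuousOn.inv₀ fun a0 h => hz a0 h β h0
  have cB := (continuous_Bf β1 β2 s).continuousOn (s := Icc β1 β2)
  have cD := (continuous_Bd β1 β2 s).continuousOn (s := Icc β1 β2)
  have iF : ∀ a0 ∈ Icc p q, IntegrableOn (fun β => Bf β1 β2 s β * (Z a0 β)⁻¹ ^ 3) (Ioo β1 β2) :=
    fun a0 h0 => (cB.mul ((cβ a0 h0).pow 3)).integrableOn_Icc.mono_set Ioo_subset_Icc_self
  have s1 : ∀ a0 ∈ Ioo p q, ∫ β in Ioo β1 β2, Bd β1 β2 s β * (Z a0 β)⁻¹ ^ 3 =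
      -∫ β in Ioo β1 β2, Bf β1 β2 s β * (3 * (Z a0 β)⁻¹ ^ 4) := by
    intro a0 h0
    have h0' := Ioo_subset_Icc_self h0
    have c1 : ContinuousOn (fun β => Bd β1 β2 s β * (Z a0 β)⁻¹ ^ 3) (Icc β1 β2) :=
      cD.mul ((cβ a0 h0').pow 3)
    have c2 : ContinuousOn (fun β => Bf β1 β2 s β * (3 * (Z a0 β)⁻¹ ^ 4)) (Icc β1 β2) :=
      cB.mul (((cβ a0 h0').pow 4).const_mul 3)
    have e : ∀ β : ℝ, Z a0 β = (b + (ξ + I) * (a - a0 : ℝ)) - 1 * β := fun β => by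
      rw [hZ, one_mul]
    have hd : ∀ β ∈ Icc β1 β2, HasDerivAt (fun β => Bf β1 β2 s β * (Z a0 β)⁻¹ ^ 3)
        (Bd β1 β2 s β * (Z a0 β)⁻¹ ^ 3 + Bf β1 β2 s β * (3 * (Z a0 β)⁻¹ ^ 4)) β := by
      intro β hb
      have h1 := locf_deriv _ 1 β (e β ▸ hz a0 h0' β hb)
      simp only [← e] at h1
      rw [one_mul] at h1
      exact (hasDerivAt_Bf β1 β2 s β).mul h1
    have h2 := locf_ftc hβ.le hd (c1.add c2)
    rw [integral_add (c1.integrableOn_Icc.mono_set Ioo_subset_Icc_self)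
      (c2.integrableOn_Icc.mono_set Ioo_subset_Icc_self)] at h2
    rw [eq_neg_iff_add_eq_zero, h2]
    simp [Bf]
  have s2 : ∀ β ∈ Ioo β1 β2, (ξ + I) * ∫ a0 in Ioo p q, Bf β1 β2 s β * (3 * (Z a0 β)⁻¹ ^ 4) =
      Bf β1 β2 s β * (Z q β)⁻¹ ^ 3 - Bf β1 β2 s β * (Z p β)⁻¹ ^ 3 := by
    intro β h0
    have h0' := Ioo_subset_Icc_self h0
    have e : ∀ a0 : ℝ, Z a0 β = (b + (ξ + I) * a - β) - (ξ + I) * a0 := fun a0 => by
      rw [hZ]; push_cast; ring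
    have hd : ∀ a0 ∈ Icc p q, HasDerivAt (fun a0 => (Z a0 β)⁻¹ ^ 3)
        ((ξ + I) * (3 * (Z a0 β)⁻¹ ^ 4)) a0 := by
      intro a0 ha
      have h1 := locf_deriv _ (ξ + I) a0 (e a0 ▸ hz a0 ha β h0')
      simpa only [← e] using h1
    have h2 := locf_ftc hpq.le hd ((((ca β h0').pow 4).const_mul 3).const_mul _)
    rw [integral_const_mul] at h2
    rw [integral_const_mul, ← mul_sub, ← h2]
    ring
  have iG : Integrable (Function.uncurry fun a0 β => Bf β1 β2 s β * (3 * (Z a0 β)⁻¹ ^ 4))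
      ((volume.restrict (Ioo p q)).prod (volume.restrict (Ioo β1 β2))) := by
    rw [Measure.prod_restrict]
    refine IntegrableOn.mono_set ?_ (prod_mono Ioo_subset_Icc_self Ioo_subset_Icc_self)
    exact (((continuous_Bf β1 β2 s).comp continuous_snd).continuousOn.mul
      ((cI.pow 4).const_mul 3)).integrableOn_compact (isCompact_Icc.prod isCompact_Icc)
  unfold Lam
  rw [setIntegral_congr_fun measurableSet_Ioo s1, integral_neg, integral_integral_swap iG,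
    mul_neg, ← integral_const_mul, setIntegral_congr_fun measurableSet_Ioo s2,
    integral_sub (iF q (right_mem_Icc.2 hpq.le)) (iF p (left_mem_Icc.2 hpq.le)), add_neg_cancel]

theorem locf_mul {X Ω : Type} [MeasurableSpace X] [MeasurableSpace Ω] (μ : Measure X) [SFinite μ]
    (ν : Measure Ω) [SFinite ν] {B : X → ℂ} (hB : AEStronglyMeasurable B μ) {M : ℝ}
    (hM : ∀ᵐ x ∂μ, ‖B x‖ ≤ M) (k : Ω → X → ℂ)
    (ik : Integrable (fun z : X × Ω => k z.2 z.1) (μ.prod ν)) :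
    Integrable (fun z : X × Ω => B z.1 * k z.2 z.1) (μ.prod ν) ∧
      ∫ x, B x * ∫ ω, k ω x ∂ν ∂μ = ∫ ω, ∫ x, B x * k ω x ∂μ ∂ν := by
  have h : Integrable (fun z : X × Ω => B z.1 * k z.2 z.1) (μ.prod ν) :=
    ik.bdd_mul hB.comp_fst (Measure.quasiMeasurePreserving_fst.ae hM)
  refine ⟨h, ?_⟩
  simp only [← integral_const_mul]
  exact integral_integral_swap (f := fun x ω => B x * k ω x) h

theorem lam_swap {Ω : Type} [MeasurableSpace Ω] (ν : Measure Ω) [SFinite ν] (β1 β2 s p q ξ : ℝ)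
    (k : Ω → ℝ → ℝ → ℂ)
    (ip : Integrable (fun z : ℝ × Ω => k z.2 p z.1) ((volume.restrict (Ioo β1 β2)).prod ν))
    (iq : Integrable (fun z : ℝ × Ω => k z.2 q z.1) ((volume.restrict (Ioo β1 β2)).prod ν))
    (ia : Integrable (fun z : (ℝ × ℝ) × Ω => k z.2 z.1.1 z.1.2)
      (((volume.restrict (Ioo p q)).prod (volume.restrict (Ioo β1 β2))).prod ν)) :
    Lam β1 β2 s p q ξ (fun a β => ∫ ω, k ω a β ∂ν) = ∫ ω, Lam β1 β2 s p q ξ (k ω) ∂ν := by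
  obtain ⟨M, hM⟩ := exists_B_bound β1 β2 s
  have hm : ∀ᵐ β ∂volume.restrict (Ioo β1 β2), ‖Bf β1 β2 s β‖ ≤ M ∧ ‖Bd β1 β2 s β‖ ≤ M :=
    (ae_restrict_mem measurableSet_Ioo).mono fun β h => hM β (Ioo_subset_Icc_self h)
  have mB : AEStronglyMeasurable (Bf β1 β2 s) (volume.restrict (Ioo β1 β2)) :=
    (continuous_Bf β1 β2 s).aestronglyMeasurable
  obtain ⟨jp, ep⟩ := locf_mul _ ν mB (hm.mono fun _ h => h.1) (fun ω => k ω p) ip
  obtain ⟨jq, eq⟩ := locf_mul _ ν mB (hm.mono fun _ h => h.1) (fun ω => k ω q) iq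
  obtain ⟨ja, ea⟩ := locf_mul ((volume.restrict (Ioo p q)).prod (volume.restrict (Ioo β1 β2))) ν
    (B := fun z => Bd β1 β2 s z.2)
    ((continuous_Bd β1 β2 s).comp continuous_snd).aestronglyMeasurable
    (Measure.quasiMeasurePreserving_snd.ae (hm.mono fun _ h => h.2)) (fun ω z => k ω z.1 z.2) ia
  have j1 : Integrable (fun z : ℝ × ℝ => Bd β1 β2 s z.2 * ∫ ω, k ω z.1 z.2 ∂ν)
      ((volume.restrict (Ioo p q)).prod (volume.restrict (Ioo β1 β2))) := by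
    simpa only [integral_const_mul] using ja.integral_prod_left
  have e3 : (fun ω => ∫ z, Bd β1 β2 s z.2 * k ω z.1 z.2
      ∂(volume.restrict (Ioo p q)).prod (volume.restrict (Ioo β1 β2))) =ᵐ[ν]
      fun ω => ∫ a in Ioo p q, ∫ β in Ioo β1 β2, Bd β1 β2 s β * k ω a β :=
    ja.prod_left_ae.mono fun ω h => integral_prod _ h
  rw [integral_prod _ j1, integral_congr_ae e3] at ea
  have kp : Integrable (fun ω => ∫ β in Ioo β1 β2, Bf β1 β2 s β * k ω p β) ν :=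
    jp.integral_prod_right
  have kq : Integrable (fun ω => ∫ β in Ioo β1 β2, Bf β1 β2 s β * k ω q β) ν :=
    jq.integral_prod_right
  have kqp : Integrable (fun ω => (∫ β in Ioo β1 β2, Bf β1 β2 s β * k ω q β) -
      ∫ β in Ioo β1 β2, Bf β1 β2 s β * k ω p β) ν := kq.sub kp
  unfold Lam
  rw [integral_add kqp ((ja.integral_prod_right.congr e3).const_mul _), integral_sub kq kp,
    integral_const_mul, ← ep, ← eq, ← ea]

theorem lam_const_mul (β1 β2 s p q ξ : ℝ) (c : ℂ) (h : ℝ → ℝ → ℂ) :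
    Lam β1 β2 s p q ξ (fun a β => c * h a β) = c * Lam β1 β2 s p q ξ h := by
  unfold Lam
  simp only [mul_left_comm _ c, integral_const_mul]
  ring

end Pool.Agent.P.MP_fd5ae1_an.Loc
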