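import Pool.Agent.P.MP_fd5ae1_an.LocD
import Pool.Agent.P.MP_fd5ae1_an.LimGeo

set_option autoImplicit false

open MeasureTheory Set Filter Topology Function
open scoped ENNReal NNReal

namespace Pool.Agent.P.MP_fd5ae1_an.Loc

/-- Every line of an open set of lines is well inside one of countably many boxes. -/
theorem frame_choice_loc {W : Set (ℝ × ℝ)} (hW : IsOpen W) {θ t : ℝ} (hθ : (θ, t) ∈ W) :
    ∃ c r b0 : ℚ, (0 : ℝ) < r ∧
      (∀ a b : ℝ, |a| < r → |b - b0| < r →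
        ((c : ℝ) + Real.arctan a, b * Real.cos (Real.arctan a)) ∈ W) ∧
      ∃ a b : ℝ, |a| < (r : ℝ) / 2 ∧ |b - b0| < (r : ℝ) / 2 ∧ θ = (c : ℝ) + Real.arctan a ∧
        t = b * Real.cos (Real.arctan a) := by
  have hc : Continuous fun q : ℝ × ℝ × ℝ =>
      (q.1 + Real.arctan q.2.1, q.2.2 * Real.cos (Real.arctan q.2.1)) := by fun_prop
  obtain ⟨ρ, hρ, hball⟩ := Metric.isOpen_iff.mp (hW.preimage hc) (θ, 0, t) (by simpa using hθ)
  obtain ⟨r, hr0, hr1⟩ := exists_rat_btwn (half_pos hρ)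
  have hcos : Real.cos (θ - θ) ≠ 0 := by simp
  have c1 : ContinuousAt (fun c : ℝ => Real.tan (θ - c)) θ :=
    ContinuousAt.comp (f := fun c : ℝ => θ - c) (Real.continuousAt_tan.mpr hcos) (by fun_prop)
  have c2 : ContinuousAt (fun c : ℝ => t / Real.cos (θ - c)) θ :=
    continuousAt_const.div (by fun_prop) hcos
  have e1 : ∀ᶠ c in 𝓝 θ, |Real.tan (θ - c)| < (r : ℝ) / 2 := by
    have := Metric.tendsto_nhds.mp c1 ((r : ℝ) / 2) (by linarith)
    simpa [Real.dist_eq] using this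
  have e2 : ∀ᶠ c in 𝓝 θ, |t / Real.cos (θ - c) - t| < (r : ℝ) / 4 := by
    have := Metric.tendsto_nhds.mp c2 ((r : ℝ) / 4) (by linarith)
    simpa [Real.dist_eq] using this
  have e3 : ∀ᶠ c in 𝓝 θ, |c - θ| < min ρ (Real.pi / 2) := by
    have := Metric.ball_mem_nhds θ (lt_min hρ (half_pos Real.pi_pos))
    filter_upwards [this] with c hc using hc
  obtain ⟨c, h1, h2, h3⟩ := Rat.denseRange_cast.mem_nhds (e1.and (e2.and e3))
  obtain ⟨b0, hb0, hb1⟩ := exists_rat_btwn (show t - (r : ℝ) / 4 < t by linarith)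
  have h4 := abs_lt.mp (h3.trans_le (min_le_right _ _))
  have e : Real.arctan (Real.tan (θ - c)) = θ - c :=
    Real.arctan_tan (by linarith [h4.2]) (by linarith [h4.1])
  have hpos : 0 < Real.cos (θ - c) := by rw [← e]; exact Real.cos_arctan_pos _
  refine ⟨c, r, b0, hr0, fun a b ha hb => hball (a := ((c : ℝ), a, b)) ?_, Real.tan (θ - c),
    t / Real.cos (θ - c), h1, ?_, by rw [e]; ring, by rw [e]; field_simp⟩
  · simp only [Metric.mem_ball, Prod.dist_eq, Real.dist_eq, max_lt_iff, sub_zero]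
    refine ⟨h3.trans_le (min_le_left _ _), by linarith, ?_⟩
    have := abs_lt.mp hb
    rw [abs_lt]; constructor <;> linarith [this.1, this.2]
  · have := abs_lt.mp h2
    rw [abs_lt]; constructor <;> linarith [this.1, this.2]

/-- At an accumulation point of a set of parameters whose chords lie in a compact set `K` of lines,
a line of `K` is tangent. -/
theorem chord_tangent_loc_at {x y : ℝ → ℝ} {T : Set ℝ} {K : Set (ℝ × ℝ)} (hK : IsCompact K)
    {t u v : ℝ} (hch : ∀ s ∈ T, ∃ k ∈ K, x s * Real.cos k.1 + y s * Real.sin k.1 = k.2 ∧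
      x t * Real.cos k.1 + y t * Real.sin k.1 = k.2)
    (hne : (𝓝[T ∩ Ioi t] t).NeBot) (hx : HasDerivAt x u t) (hy : HasDerivAt y v t) :
    ∃ k ∈ K, u * Real.cos k.1 + v * Real.sin k.1 = 0 ∧
      x t * Real.cos k.1 + y t * Real.sin k.1 = k.2 := by
  by_contra hcon
  push Not at hcon
  have hK' : IsCompact (K ∩ {k : ℝ × ℝ | x t * Real.cos k.1 + y t * Real.sin k.1 = k.2}) :=
    hK.inter_right (isClosed_eq (by fun_prop) (by fun_prop))
  have hopen : IsOpen {p : (ℝ × ℝ) × ℝ × ℝ |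
      p.1.1 * Real.cos p.2.1 + p.1.2 * Real.sin p.2.1 ≠ 0} :=
    isOpen_ne_fun (by fun_prop) continuous_const
  have hev : ∀ᶠ q : ℝ × ℝ in 𝓝 (u, v),
      ∀ k ∈ K ∩ {k : ℝ × ℝ | x t * Real.cos k.1 + y t * Real.sin k.1 = k.2},
        q.1 * Real.cos k.1 + q.2 * Real.sin k.1 ≠ 0 :=
    hK'.eventually_forall_of_forall_eventually
      (P := fun (q : ℝ × ℝ) (k : ℝ × ℝ) => q.1 * Real.cos k.1 + q.2 * Real.sin k.1 ≠ 0)
      (fun k hk => hopen.mem_nhds fun h0 => hcon k hk.1 h0 hk.2)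
  have hle : 𝓝[T ∩ Ioi t] t ≤ 𝓝[≠] t :=
    nhdsWithin_mono _ fun s hs => ne_of_gt hs.2
  have h1 := (hasDerivAt_iff_tendsto_slope.mp hx).mono_left hle
  have h2 := (hasDerivAt_iff_tendsto_slope.mp hy).mono_left hle
  obtain ⟨s, hs, hsT⟩ := (((h1.prodMk_nhds h2).eventually hev).and self_mem_nhdsWithin).exists
  obtain ⟨k, hk, e1, e2⟩ := hch s hsT.1
  refine hs k ⟨hk, e2⟩ ?_
  have hst : s - t ≠ 0 := sub_ne_zero.mpr (ne_of_gt hsT.2)
  simp only [slope_def_field]
  field_simp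
  linarith

theorem chord_tangent_loc {x y u v : ℝ → ℝ} {T : Set ℝ} {K : Set (ℝ × ℝ)} (hK : IsCompact K)
    (hch : ∀ s ∈ T, ∀ t ∈ T, ∃ k ∈ K, x s * Real.cos k.1 + y s * Real.sin k.1 = k.2 ∧
      x t * Real.cos k.1 + y t * Real.sin k.1 = k.2)
    (hx : ∀ t ∈ T, HasDerivAt x (u t) t) (hy : ∀ t ∈ T, HasDerivAt y (v t) t) :
    ∀ᵐ t : ℝ, t ∈ T → ∃ k ∈ K, u t * Real.cos k.1 + v t * Real.sin k.1 = 0 ∧
      x t * Real.cos k.1 + y t * Real.sin k.1 = k.2 := by
  filter_upwards [(countable_setOfPred_isolated_right_within (s := T)).ae_notMem volume]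
    with t h ht
  exact chord_tangent_loc_at hK (fun s hs => hch s hs t ht) ⟨fun hb => h ⟨ht, hb⟩⟩
    (hx t ht) (hy t ht)

/-- One half of the local theorem: a part of `C` outside `D` with chords in `K` is null. -/
theorem half_loc {C D : Set (EuclideanSpace ℝ (Fin 2))} (hC : NullMeasurableSet C μH[1])
    (hD : NullMeasurableSet D μH[1]) (k : ℕ → ℝ → EuclideanSpace ℝ (Fin 2))
    (hinj : ∀ i, InjOn (k i) (Icc 0 1)) (hv : ∑' i, eVariationOn (k i) (Icc 0 1) ≠ ∞)
    (hCk : C ⊆ ⋃ i, k i '' Icc 0 1) (hDk : D ⊆ ⋃ i, k i '' Icc 0 1)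
    {W K : Set (ℝ × ℝ)} (hW : IsOpen W) (hK : IsCompact K) (hKW : K ⊆ W)
    (h : ∀ᵐ θ : ℝ, ∀ᵐ t : ℝ, (θ, t) ∈ W →
      (C ∩ {p | p.ofLp 0 * Real.cos θ + p.ofLp 1 * Real.sin θ = t}).encard =
      (D ∩ {p | p.ofLp 0 * Real.cos θ + p.ofLp 1 * Real.sin θ = t}).encard)
    {E : Set (EuclideanSpace ℝ (Fin 2))} (hE : E ⊆ C \ D)
    (hch : ∀ p ∈ E, ∀ q ∈ E, ∃ k ∈ K,
      p.ofLp 0 * Real.cos k.1 + p.ofLp 1 * Real.sin k.1 = k.2 ∧
      q.ofLp 0 * Real.cos k.1 + q.ofLp 1 * Real.sin k.1 = k.2) :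
    μH[1] E = 0 := by
  obtain ⟨γ, Ω, hγm, hΩ, hdiff, hγi, hint, hcov⟩ := exists_param k hinj hv
  obtain ⟨P, hPs, hPm, hPe⟩ := (hC.diff hD).exists_measurable_subset_ae_eq
  obtain ⟨Q, hQs, hQm, hQe⟩ := (hD.diff hC).exists_measurable_subset_ae_eq
  set A := Ω ∩ γ ⁻¹' P with hA
  set B := Ω ∩ γ ⁻¹' Q with hB
  have hAm : MeasurableSet A := hΩ.inter (hγm hPm)
  have hBm : MeasurableSet B := hΩ.inter (hγm hQm)
  have hAB : A ∪ B ⊆ Ω := union_subset inter_subset_left inter_subset_left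
  set Z := ((⋃ i, k i '' Icc 0 1) \ γ '' Ω) ∪ (((C \ D) \ P) ∪ ((D \ C) \ Q)) with hZ
  have hZ0 : μH[1] Z = 0 :=
    measure_union_null hcov (measure_union_null (ae_eq_set.mp hPe).2 (ae_eq_set.mp hQe).2)
  set x : ℝ → ℝ := fun t => (γ t).ofLp 0 with hx
  set y : ℝ → ℝ := fun t => (γ t).ofLp 1 with hy
  set u : ℝ → ℝ := fun t => (deriv γ t).ofLp 0 with hu
  set v : ℝ → ℝ := fun t => (deriv γ t).ofLp 1 with hv'
  have mproj : ∀ i : Fin 2, Measurable fun p : EuclideanSpace ℝ (Fin 2) => p.ofLp i :=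
    fun i => by fun_prop
  have mx : Measurable x := (mproj 0).comp hγm
  have my : Measurable y := (mproj 1).comp hγm
  have mu : Measurable u := (mproj 0).comp (measurable_deriv γ)
  have mv : Measurable v := (mproj 1).comp (measurable_deriv γ)
  have dx : ∀ t ∈ Ω, HasDerivAt x (u t) t := fun t ht =>
    (EuclideanSpace.proj (0 : Fin 2) : EuclideanSpace ℝ (Fin 2) →L[ℝ] ℝ).hasFDerivAt.comp_hasDerivAt
      t (hdiff t ht).hasDerivAt
  have dy : ∀ t ∈ Ω, HasDerivAt y (v t) t := fun t ht =>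
    (EuclideanSpace.proj (1 : Fin 2) : EuclideanSpace ℝ (Fin 2) →L[ℝ] ℝ).hasFDerivAt.comp_hasDerivAt
      t (hdiff t ht).hasDerivAt
  have iu : IntegrableOn u Ω :=
    (EuclideanSpace.proj (0 : Fin 2) : EuclideanSpace ℝ (Fin 2) →L[ℝ] ℝ).integrable_comp hint
  have iv : IntegrableOn v Ω :=
    (EuclideanSpace.proj (1 : Fin 2) : EuclideanSpace ℝ (Fin 2) →L[ℝ] ℝ).integrable_comp hint
  -- counts on the parameter side
  have h1 : ∀ᵐ θ : ℝ, ∀ᵐ t : ℝ, (θ, t) ∈ W →
      {s ∈ A | x s * Real.cos θ + y s * Real.sin θ = t}.encard =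
      {s ∈ B | x s * Real.cos θ + y s * Real.sin θ = t}.encard := by
    filter_upwards [h] with θ hθ
    obtain ⟨N, -, -, hN, -⟩ := area hΩ (h := fun s => x s * Real.cos θ + y s * Real.sin θ)
      (h' := fun s => u s * Real.cos θ + v s * Real.sin θ) (x := x) (u := u)
      (fun t ht => (((dx t ht).mul_const _).add ((dy t ht).mul_const _)).hasDerivWithinAt)
      (fun t ht => (dx t ht).hasDerivWithinAt) (by fun_prop) ((iu.mul_const _).add (iv.mul_const _))
    filter_upwards [hθ, hN, ae_line_avoids hZ0 (Real.cos θ) (Real.sin θ)]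
      with t e0 ⟨n, hn, _⟩ hav hWt
    have e := e0 hWt
    set L : Set (EuclideanSpace ℝ (Fin 2)) :=
      {p | p.ofLp 0 * Real.cos θ + p.ofLp 1 * Real.sin θ = t} with hL
    have himg : ∀ {X Y R : Set (EuclideanSpace ℝ (Fin 2))}, X ⊆ ⋃ i, k i '' Icc 0 1 → R ⊆ X \ Y →
        (X \ Y) \ R ⊆ Z → (X \ Y) ∩ L =
          γ '' {s ∈ Ω ∩ γ ⁻¹' R | x s * Real.cos θ + y s * Real.sin θ = t} := by
      intro X Y R hX hR hRZ
      ext p
      constructor
      · rintro ⟨hp, hpL⟩
        have hpZ : p ∉ Z := fun hz => hav p hz hpL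
        have hpR : p ∈ R := by
          by_contra hcon
          exact hpZ (hRZ ⟨hp, hcon⟩)
        have hpΩ : p ∈ γ '' Ω := by
          by_contra hcon
          exact hpZ (Or.inl ⟨hX hp.1, hcon⟩)
        obtain ⟨s, hs, rfl⟩ := hpΩ
        exact ⟨s, ⟨⟨hs, hpR⟩, hpL⟩, rfl⟩
      · rintro ⟨s, ⟨⟨_, hs⟩, hsL⟩, rfl⟩
        exact ⟨hR hs, hsL⟩
    have hfin : (C ∩ D ∩ L).encard ≠ ⊤ := by
      have hsub : C ∩ D ∩ L ⊆ γ '' {s ∈ Ω | x s * Real.cos θ + y s * Real.sin θ = t} := by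
        rintro p ⟨hp, hpL⟩
        have hpΩ : p ∈ γ '' Ω := by
          by_contra hcon
          exact hav p (Or.inl ⟨hCk hp.1, hcon⟩) hpL
        obtain ⟨s, hs, rfl⟩ := hpΩ
        exact ⟨s, ⟨hs, hpL⟩, rfl⟩
      refine ne_top_of_le_ne_top ?_ ((encard_le_encard hsub).trans (encard_image_le _ _))
      rw [hn]; exact ENat.natCast_ne_top n
    have split : ∀ X Y : Set (EuclideanSpace ℝ (Fin 2)),
        (X ∩ L).encard = ((X \ Y) ∩ L).encard + (X ∩ Y ∩ L).encard := by
      intro X Y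
      rw [← encard_union_eq (Disjoint.mono inter_subset_left inter_subset_left
        disjoint_sdiff_inter), ← union_inter_distrib_right, sdiff_union_inter]
    rw [split C D, split D C, inter_comm D C] at e
    have e' := (ENat.addLECancellable_of_ne_top hfin).inj_left.mp e
    rw [himg hCk hPs (subset_union_left.trans subset_union_right),
      himg hDk hQs (subset_union_right.trans subset_union_right),
      (hγi.mono fun s hs => hs.1.1).encard_image, (hγi.mono fun s hs => hs.1.1).encard_image] at e'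
    exact e'
  have hk0 : ∀ a : ℝ, 0 < Real.cos (Real.arctan a) := Real.cos_arctan_pos
  have harc : ∀ {R : ℝ → Prop}, (∀ᵐ θ : ℝ, R θ) → ∀ c : ℝ, ∀ᵐ a : ℝ, R (Real.arctan a + c) := by
    intro R hR c
    refine ae_comp_of_leftInverse hR (φ := fun θ => Real.tan (θ - c))
      (s := {θ | Real.cos (θ - c) ≠ 0}) (fun θ hθ => ?_) (fun a => ?_) (fun a => ?_)
    · exact (DifferentiableAt.comp θ (g := Real.tan) (f := fun θ => θ - c) (Real.differentiableAt_tan.mpr hθ)
        (differentiableAt_id.sub_const c)).differentiableWithinAt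
    · simpa using (hk0 a).ne'
    · simp
  have hscale : ∀ {R : ℝ → Prop}, (∀ᵐ t : ℝ, R t) → ∀ c : ℝ, c ≠ 0 → ∀ᵐ b : ℝ, R (b * c) := by
    intro R hR c hc
    exact ae_comp_of_leftInverse hR (φ := fun t => t / c) (s := univ) (by fun_prop)
      (fun _ => mem_univ _) (fun b => by field_simp)
  have hPQ : ∀ p ∈ Q, p ∉ P := fun p hq hp => (hQs hq).2 (hPs hp).1
  -- one frame
  have hframe : ∀ c r b0 : ℝ, 0 < r → (∀ a b : ℝ, |a| < r → |b - b0| < r →
        (c + Real.arctan a, b * Real.cos (Real.arctan a)) ∈ W) →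
      ∀ᵐ t ∂(volume.restrict A),
        |(u t * Real.cos c + v t * Real.sin c) / (u t * Real.sin c - v t * Real.cos c)| < r / 2 →
        |x t * Real.cos c + y t * Real.sin c -
          (u t * Real.cos c + v t * Real.sin c) / (u t * Real.sin c - v t * Real.cos c) *
            (x t * Real.sin c - y t * Real.cos c) - b0| < r / 2 →
          u t * Real.sin c - v t * Real.cos c = 0 := by
    intro c r b0 hr hin
    have hback : ∀ t, (WithLp.toLp 2
        ![(x t * Real.sin c - y t * Real.cos c) * Real.sin c +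
            (x t * Real.cos c + y t * Real.sin c) * Real.cos c,
          (x t * Real.cos c + y t * Real.sin c) * Real.sin c -
            (x t * Real.sin c - y t * Real.cos c) * Real.cos c] :
          EuclideanSpace ℝ (Fin 2)) = γ t := by
      intro t
      ext i; fin_cases i
      · change _ = x t
        simp only [Fin.zero_eta, Matrix.cons_val_zero]
        linear_combination (x t) * Real.sin_sq_add_cos_sq c
      · change _ = y t
        simp only [Fin.mk_one, Matrix.cons_val_one, Matrix.cons_val_zero]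
        linear_combination (y t) * Real.sin_sq_add_cos_sq c
    refine param_loc hAm hBm (x := fun t => x t * Real.sin c - y t * Real.cos c)
      (y := fun t => x t * Real.cos c + y t * Real.sin c)
      (u := fun t => u t * Real.sin c - v t * Real.cos c)
      (v := fun t => u t * Real.cos c + v t * Real.sin c)
      (by fun_prop) (by fun_prop) (by fun_prop) (by fun_prop)
      (fun t ht => ((dx t (hAB ht)).mul_const _).sub ((dy t (hAB ht)).mul_const _))
      (fun t ht => ((dx t (hAB ht)).mul_const _).add ((dy t (hAB ht)).mul_const _))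
      (((iu.mono_set hAB).mul_const _).sub ((iv.mono_set hAB).mul_const _))
      (((iu.mono_set hAB).mul_const _).add ((iv.mono_set hAB).mul_const _)) hr ?_
      (S := (fun q : ℝ × ℝ => (WithLp.toLp 2 ![q.1 * Real.sin c + q.2 * Real.cos c,
        q.2 * Real.sin c - q.1 * Real.cos c] : EuclideanSpace ℝ (Fin 2))) ⁻¹' P)
      (Measurable.comp (WithLp.measurable_toLp 2 _)
        (measurable_pi_lambda _ fun i => by fin_cases i <;> simp <;> fun_prop) hPm) ?_ ?_
    · filter_upwards [harc h1 c] with a ha har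
      rw [add_comm] at ha
      filter_upwards [hscale ha _ (hk0 a).ne'] with b hb hbr
      simpa only [frame_line, mul_left_inj' (hk0 a).ne'] using hb (hin a b har hbr)
    · intro t ht
      simp only [mem_preimage, hback]; exact ht.2
    · intro t ht
      simp only [mem_preimage, hback]; exact hPQ _ ht.2
  -- all frames: a velocity whose tangent line is in `W` vanishes
  have hzero : ∀ᵐ t ∂(volume.restrict A),
      (∃ k ∈ W, u t * Real.cos k.1 + v t * Real.sin k.1 = 0 ∧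
        x t * Real.cos k.1 + y t * Real.sin k.1 = k.2) → u t = 0 ∧ v t = 0 := by
    have hall : ∀ᵐ t ∂(volume.restrict A), ∀ c r b0 : ℚ, (0 : ℝ) < r →
        (∀ a b : ℝ, |a| < r → |b - b0| < r →
          ((c : ℝ) + Real.arctan a, b * Real.cos (Real.arctan a)) ∈ W) →
        |(u t * Real.cos c + v t * Real.sin c) / (u t * Real.sin c - v t * Real.cos c)| <
          (r : ℝ) / 2 →
        |x t * Real.cos c + y t * Real.sin c -
          (u t * Real.cos c + v t * Real.sin c) / (u t * Real.sin c - v t * Real.cos c) *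
            (x t * Real.sin c - y t * Real.cos c) - b0| < (r : ℝ) / 2 →
          u t * Real.sin c - v t * Real.cos c = 0 := by
      refine ae_all_iff.mpr fun c => ae_all_iff.mpr fun r => ae_all_iff.mpr fun b0 => ?_
      by_cases hr : (0 : ℝ) < r
      · by_cases hin : ∀ a b : ℝ, |a| < r → |b - b0| < r →
            ((c : ℝ) + Real.arctan a, b * Real.cos (Real.arctan a)) ∈ W
        · filter_upwards [hframe c r b0 hr hin] with t ht _ _ using ht
        · exact Eventually.of_forall fun t _ h' => absurd h' hin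
      · exact Eventually.of_forall fun t h' => absurd h' hr
    filter_upwards [hall] with t ht ⟨⟨θ, τ⟩, hθ, e, e'⟩
    obtain ⟨c, r, b0, hr, hin, a, b, ha, hb, rfl, rfl⟩ := frame_choice_loc hW hθ
    simp only at e e'
    rw [frame_line, mul_eq_zero, or_iff_left (hk0 a).ne', sub_eq_zero] at e
    rw [frame_line, mul_left_inj' (hk0 a).ne'] at e'
    have hU : u t * Real.sin c - v t * Real.cos c = 0 := by
      by_contra hU
      refine hU (ht c r b0 hr hin ?_ ?_)
      · rwa [e, mul_div_cancel_right₀ _ hU]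
      · rwa [e, mul_div_cancel_right₀ _ hU, e']
    rw [hU, mul_zero] at e
    constructor
    · linear_combination (Real.sin c) * hU + (Real.cos c) * e - u t * Real.sin_sq_add_cos_sq c
    · linear_combination (Real.sin c) * e - (Real.cos c) * hU - v t * Real.sin_sq_add_cos_sq c
  set T : Set ℝ := A ∩ γ ⁻¹' E with hT
  have htan := chord_tangent_loc (x := x) (y := y) (u := u) (v := v) (T := T) hK
    (fun s hs t ht => hch _ hs.2 _ ht.2) (fun t ht => dx t ht.1.1) (fun t ht => dy t ht.1.1)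
  have hT0 : ∀ᵐ t : ℝ, t ∈ T → deriv γ t = 0 := by
    filter_upwards [htan, (ae_restrict_iff' hAm).mp hzero] with t h2 h3 ht
    obtain ⟨θ, hθ, e⟩ := h2 ht
    obtain ⟨h4, h5⟩ := h3 ht.1 ⟨θ, hKW hθ, e⟩
    ext i; fin_cases i
    · exact h4
    · exact h5
  obtain ⟨N, hNs, hNm, hN0⟩ := exists_measurable_superset_of_null (ae_iff.mp hT0)
  have hA'm : MeasurableSet (A ∩ ({t | deriv γ t = 0} ∪ N)) :=
    hAm.inter ((measurable_deriv γ (measurableSet_singleton 0)).union hNm)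
  have hnull : μH[1] (γ '' (A ∩ ({t | deriv γ t = 0} ∪ N))) = 0 := by
    refine hausdorff_image_null hA'm (measurable_deriv γ)
      (fun t ht => (hdiff t ht.1.1).hasDerivAt) ((ae_restrict_iff' hA'm).mpr ?_)
    filter_upwards [measure_eq_zero_iff_ae_notMem.mp hN0] with t ht h'
    exact h'.2.resolve_right ht
  refine measure_mono_null (t := γ '' (A ∩ ({t | deriv γ t = 0} ∪ N)) ∪ Z) ?_
    (measure_union_null hnull hZ0)
  intro p hpE
  have hp := hE hpE
  by_contra hcon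
  rw [mem_union, not_or] at hcon
  have hpP : p ∈ P := by
    by_contra h'
    exact hcon.2 (Or.inr (Or.inl ⟨hp, h'⟩))
  have hpΩ : p ∈ γ '' Ω := by
    by_contra h'
    exact hcon.2 (Or.inl ⟨hCk hp.1, h'⟩)
  obtain ⟨s, hs, rfl⟩ := hpΩ
  refine hcon.1 ⟨s, ⟨⟨hs, hpP⟩, ?_⟩, rfl⟩
  by_cases h0 : deriv γ s = 0
  · exact Or.inl h0
  · exact Or.inr (hNs fun h' => h0 (h' ⟨⟨hs, hpP⟩, hpE⟩))

theorem main_loc :
    ∀ C D : Set (EuclideanSpace ℝ (Fin 2)),
      MeasureTheory.NullMeasurableSet C (MeasureTheory.Measure.hausdorffMeasure 1) →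
      MeasureTheory.NullMeasurableSet D (MeasureTheory.Measure.hausdorffMeasure 1) →
      (∃ f : ℕ → ℝ → EuclideanSpace ℝ (Fin 2),
        (∀ i, ContinuousOn (f i) (Set.Icc 0 1) ∧ Set.InjOn (f i) (Set.Icc 0 1)) ∧
        (∑' i, eVariationOn (f i) (Set.Icc 0 1)) ≠ ⊤ ∧
        C ⊆ ⋃ i, f i '' Set.Icc 0 1) →
      (∃ g : ℕ → ℝ → EuclideanSpace ℝ (Fin 2),
        (∀ i, ContinuousOn (g i) (Set.Icc 0 1) ∧ Set.InjOn (g i) (Set.Icc 0 1)) ∧
        (∑' i, eVariationOn (g i) (Set.Icc 0 1)) ≠ ⊤ ∧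
        D ⊆ ⋃ i, g i '' Set.Icc 0 1) →
      ∀ W K : Set (ℝ × ℝ), IsOpen W → IsCompact K → K ⊆ W →
      (∀ᵐ p : ℝ × ℝ ∂MeasureTheory.volume, p ∈ W →
        (C ∩ {x : EuclideanSpace ℝ (Fin 2) |
            x.ofLp 0 * Real.cos p.1 + x.ofLp 1 * Real.sin p.1 = p.2}).encard =
        (D ∩ {x : EuclideanSpace ℝ (Fin 2) |
            x.ofLp 0 * Real.cos p.1 + x.ofLp 1 * Real.sin p.1 = p.2}).encard) →
      ∀ E : Set (EuclideanSpace ℝ (Fin 2)), E ⊆ (C \ D) ∪ (D \ C) →
      (∀ x ∈ E, ∀ y ∈ E, ∃ p ∈ K,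
        x.ofLp 0 * Real.cos p.1 + x.ofLp 1 * Real.sin p.1 = p.2 ∧
        y.ofLp 0 * Real.cos p.1 + y.ofLp 1 * Real.sin p.1 = p.2) →
      MeasureTheory.Measure.hausdorffMeasure 1 E = 0 := by
  rintro C D hC hD ⟨f, hf, hfv, hCf⟩ ⟨g, hg, hgv, hDg⟩ W K hW hK hKW h E hE hch
  set e := Equiv.natSumNatEquivNat with he
  set k : ℕ → ℝ → EuclideanSpace ℝ (Fin 2) := fun n => Sum.elim f g (e.symm n) with hk
  have hinj : ∀ i, InjOn (k i) (Icc 0 1) := by
    intro i
    simp only [hk]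
    rcases e.symm i with j | j
    exacts [(hf j).2, (hg j).2]
  have hv : ∑' i, eVariationOn (k i) (Icc 0 1) ≠ ∞ := by
    rw [Equiv.tsum_eq e.symm (fun j => eVariationOn (Sum.elim f g j) (Icc 0 1)),
      Summable.tsum_sum ENNReal.summable ENNReal.summable]
    exact ENNReal.add_ne_top.mpr ⟨hfv, hgv⟩
  have hCk : C ⊆ ⋃ i, k i '' Icc 0 1 := by
    refine hCf.trans (iUnion_subset fun j => subset_iUnion_of_subset (e (Sum.inl j)) ?_)
    simp [hk]
  have hDk : D ⊆ ⋃ i, k i '' Icc 0 1 := by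
    refine hDg.trans (iUnion_subset fun j => subset_iUnion_of_subset (e (Sum.inr j)) ?_)
    simp [hk]
  have h' := Measure.ae_ae_of_ae_prod (μ := volume) (ν := volume) h
  refine measure_mono_null (t := (E ∩ (C \ D)) ∪ (E ∩ (D \ C))) ?_ (measure_union_null
    (half_loc hC hD k hinj hv hCk hDk hW hK hKW h' inter_subset_right
      fun p hp q hq => hch p hp.1 q hq.1)
    (half_loc hD hC k hinj hv hDk hCk hW hK hKW ?_ inter_subset_right
      fun p hp q hq => hch p hp.1 q hq.1))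
  · rw [← inter_union_distrib_left]; exact subset_inter Subset.rfl hE
  · filter_upwards [h'] with θ hθ
    filter_upwards [hθ] with t ht hT using (ht hT).symm

end Pool.Agent.P.MP_fd5ae1_an.Loc
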