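import Pool.Agent.P.MP_fd5ae1_an.LocDef

/-! Local form: the contour functional of the Cauchy kernel. -/

set_option autoImplicit false

open MeasureTheory Set Filter Topology Complex
open scoped ENNReal

namespace Pool.Agent.P.MP_fd5ae1_an.Loc

lemma locw_ftc {f f' : ℝ → ℂ} {a b : ℝ} (hab : a ≤ b)
    (hd : ∀ x ∈ Icc a b, HasDerivAt f (f' x) x) (hc : ContinuousOn f' (Icc a b)) :
    ∫ x in Ioo a b, f' x = f b - f a := by
  rw [← integral_Ioc_eq_integral_Ioo, ← intervalIntegral.integral_of_le hab]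
  exact intervalIntegral.integral_eq_sub_of_hasDerivAt (fun x hx => hd x (uIcc_of_le hab ▸ hx))
    (hc.intervalIntegrable_of_Icc hab)

lemma locw_int {f : ℝ → ℂ} (hc : Continuous f) (a b : ℝ) : IntegrableOn f (Ioo a b) :=
  hc.continuousOn.integrableOn_Icc.mono_set Ioo_subset_Icc_self

lemma locw_log {z : ℂ} (hz : z.im ≠ 0) (β : ℝ) :
    HasDerivAt (fun t : ℝ => log (z - t)) (-(z - β)⁻¹) β := by
  have h : HasDerivAt (fun t : ℝ => z - t) (-1) β :=
    ((hasDerivAt_id (β : ℂ)).const_sub z).comp_ofReal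
  exact (h.clog_real (Or.inr (by simpa using hz))).congr_deriv (by rw [neg_div, one_div])

lemma locw_cont {z : ℂ} (hz : z.im ≠ 0) : Continuous fun β : ℝ => log (z - β) :=
  continuous_iff_continuousAt.2 fun β => (locw_log hz β).continuousAt

lemma locw_left (β1 β2 s : ℝ) : Bf β1 β2 s β1 = 0 := by simp [Bf]

lemma locw_right (β1 β2 s : ℝ) : Bf β1 β2 s β2 = 0 := by simp [Bf]

lemma locw_parts {β1 β2 : ℝ} (s : ℝ) (hβ : β1 < β2) {z : ℂ} (hz : z.im ≠ 0) :
    ∫ β in Ioo β1 β2, Bf β1 β2 s β * (z - β)⁻¹ =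
      ∫ β in Ioo β1 β2, Bd β1 β2 s β * log (z - β) := by
  have c2 : Continuous fun β : ℝ => (z - β)⁻¹ :=
    (by fun_prop : Continuous fun β : ℝ => z - β).inv₀ fun β h =>
      hz (by simpa using congrArg im h)
  have c3 : Continuous fun β : ℝ => Bd β1 β2 s β * log (z - β) :=
    (continuous_Bd β1 β2 s).mul (locw_cont hz)
  have c4 : Continuous fun β : ℝ => Bf β1 β2 s β * (z - β)⁻¹ := (continuous_Bf β1 β2 s).mul c2
  have h := locw_ftc hβ.le (f := fun β => Bf β1 β2 s β * log (z - β))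
    (f' := fun β => Bd β1 β2 s β * log (z - β) - Bf β1 β2 s β * (z - β)⁻¹)
    (fun β _ => ((hasDerivAt_Bf β1 β2 s β).mul (locw_log hz β)).congr_deriv (by ring))
    (c3.sub c4).continuousOn
  rw [integral_sub (locw_int c3 _ _) (locw_int c4 _ _), locw_left, locw_right, zero_mul, zero_mul,
    sub_zero] at h
  exact (sub_eq_zero.1 h).symm

lemma locw_path {p q : ℝ} (hpq : p ≤ q) {Z : ℝ → ℂ} {w : ℂ} (hZ : ∀ a, HasDerivAt Z (-w) a)
    (h : ∀ a ∈ Icc p q, Z a ∈ slitPlane) :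
    w * ∫ a in Ioo p q, (Z a)⁻¹ = log (Z p) - log (Z q) := by
  have cZ : Continuous Z := continuous_iff_continuousAt.2 fun a => (hZ a).continuousAt
  have h1 := locw_ftc hpq (f := fun a => log (Z a)) (f' := fun a => -w * (Z a)⁻¹)
    (fun a ha => ((hZ a).clog_real (h a ha)).congr_deriv (div_eq_mul_inv _ _))
    (continuousOn_const.mul (cZ.continuousOn.inv₀ fun a ha => slitPlane_ne_zero (h a ha)))
  rw [integral_const_mul] at h1
  linear_combination -h1

lemma locw_re (ξ b m a β : ℝ) :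
    ((b : ℂ) + (ξ + I) * (m - a : ℝ) - β).re = b + ξ * (m - a) - β := by simp

lemma locw_im (ξ b m a β : ℝ) : ((b : ℂ) + (ξ + I) * (m - a : ℝ) - β).im = m - a := by simp

lemma locw_jump {p q β b m : ℝ} (ξ : ℝ) (hpq : p < q) (hp : m ≠ p) (hq : m ≠ q) (hb : β ≠ b) :
    (ξ + I) * ∫ a in Ioo p q, ((b : ℂ) + (ξ + I) * (m - a : ℝ) - β)⁻¹ =
      log ((b : ℂ) + (ξ + I) * (m - p : ℝ) - β) - log ((b : ℂ) + (ξ + I) * (m - q : ℝ) - β) -
        2 * Real.pi * I * (if (p < m ∧ m < q) ∧ b < β then 1 else 0) := by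
  have hZ : ∀ a : ℝ, HasDerivAt (fun a : ℝ => (b : ℂ) + (ξ + I) * (m - a : ℝ) - β)
      (-(ξ + I)) a := fun a =>
    ((((((hasDerivAt_id a).const_sub m).ofReal_comp).const_mul ((ξ : ℂ) + I)).const_add
      (b : ℂ)).sub_const (β : ℂ)).congr_deriv (by simp)
  split_ifs with h
  · have h1 := locw_path hpq.le (Z := fun a : ℝ => -((b : ℂ) + (ξ + I) * (m - a : ℝ) - β))
      (w := -(ξ + I)) (fun a => (hZ a).neg) fun a _ => by
        rw [mem_slitPlane_iff, neg_re, neg_im, locw_re, locw_im]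
        by_cases h2 : m - a = 0
        · left
          rw [h2]
          linarith [h.2]
        · exact Or.inr (neg_ne_zero.2 h2)
    simp only [inv_neg, integral_neg, neg_mul_neg] at h1
    have h2 := arg_neg_eq_arg_sub_pi_of_im_pos (x := (b : ℂ) + (ξ + I) * (m - p : ℝ) - β)
      (by rw [locw_im]; linarith [h.1.1])
    have h3 := arg_neg_eq_arg_add_pi_of_im_neg (x := (b : ℂ) + (ξ + I) * (m - q : ℝ) - β)
      (by rw [locw_im]; linarith [h.1.2])
    rw [h1]
    simp only [log, norm_neg, h2, h3, ofReal_sub (arg _), ofReal_add (arg _)]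
    ring
  · rw [mul_zero, sub_zero]
    refine locw_path hpq.le hZ fun a ha => ?_
    rw [mem_slitPlane_iff, locw_re, locw_im]
    by_cases h2 : m - a = 0
    · left
      obtain rfl : m = a := sub_eq_zero.1 h2
      have h3 : ¬ b < β := fun h3 => h ⟨⟨ha.1.lt_of_ne hp.symm, ha.2.lt_of_ne hq⟩, h3⟩
      have h4 := (not_lt.1 h3).lt_of_ne hb
      rw [h2]
      linarith
    · exact Or.inr h2

lemma locw_tail {β1 β2 : ℝ} (s b : ℝ) (hβ : β1 < β2) :
    ∫ β in Ioo β1 β2, (Ioi b).indicator (Bd β1 β2 s) β =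
      -(if b ∈ Ioo β1 β2 then Bf β1 β2 s b else 0) := by
  have h : ∀ c ≤ β2, ∫ β in Ioo c β2, Bd β1 β2 s β = -Bf β1 β2 s c := fun c hc => by
    rw [locw_ftc hc (fun x _ => hasDerivAt_Bf β1 β2 s x) (continuous_Bd β1 β2 s).continuousOn,
      locw_right, zero_sub]
  rw [setIntegral_indicator measurableSet_Ioi, Ioo_inter_Ioi]
  rcases le_or_gt b β1 with h1 | h1
  · rw [max_eq_left h1, h β1 hβ.le, locw_left, if_neg fun h2 => h1.not_gt h2.1]
  · rw [max_eq_right h1.le]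
    rcases lt_or_ge b β2 with h2 | h2
    · rw [h b h2.le, if_pos ⟨h1, h2⟩]
    · rw [Ioo_eq_empty h2.not_gt, setIntegral_empty, if_neg fun h3 => h2.not_gt h3.2, neg_zero]

lemma locw_prod (β1 β2 p q s ξ b m : ℝ) :
    Integrable (fun z : ℝ × ℝ => Bd β1 β2 s z.2 * ((b : ℂ) + (ξ + I) * (m - z.1 : ℝ) - z.2)⁻¹)
      ((volume.restrict (Ioo p q)).prod (volume.restrict (Ioo β1 β2))) := by
  obtain ⟨M, hM⟩ := exists_B_bound β1 β2 s
  obtain ⟨c, hc, hk⟩ := exists_kern_bound (|p| + |q| + |β1| + |β2|)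
  have hm : Measurable fun z : ℝ × ℝ => ((b : ℂ) + (ξ + I) * (m - z.1 : ℝ) - z.2)⁻¹ := by fun_prop
  refine Integrable.bdd_mul (c := M) ⟨hm.aestronglyMeasurable, ?_⟩
    ((continuous_Bd β1 β2 s).comp continuous_snd).aestronglyMeasurable ?_
  · have s1 : Ioo p q ⊆ Icc (-(|p| + |q| + |β1| + |β2|)) (|p| + |q| + |β1| + |β2|) :=
      fun x hx => by
        constructor <;> linarith [hx.1, hx.2, neg_abs_le p, le_abs_self q, abs_nonneg p,
          abs_nonneg q, abs_nonneg β1, abs_nonneg β2]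
    have s2 : Ioo β1 β2 ⊆ Icc (-(|p| + |q| + |β1| + |β2|)) (|p| + |q| + |β1| + |β2|) :=
      fun x hx => by
        constructor <;> linarith [hx.1, hx.2, neg_abs_le β1, le_abs_self β2, abs_nonneg p,
          abs_nonneg q, abs_nonneg β1, abs_nonneg β2]
    have mk : ∀ X : ℝ, Measurable fun t : ℝ => kern (X - t) := fun X =>
      measurable_kern.comp (measurable_const.sub measurable_id)
    rw [HasFiniteIntegral, lintegral_prod _ hm.enorm.aemeasurable]
    refine lt_of_le_of_lt (lintegral_mono (g := fun a => c * kern (m - a)) fun a => ?_) ?_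
    · refine le_trans (lintegral_mono (g := fun β => kern (b + ξ * (m - a) - β) * kern (m - a))
        fun β => ?_) ?_
      · have := ofReal_norm_inv_le ((b : ℂ) + (ξ + I) * (m - a : ℝ) - β)
        rwa [locw_re, locw_im, ← norm_inv, ofReal_norm] at this
      · rw [lintegral_mul_const _ (mk _)]
        exact mul_le_mul_left ((lintegral_mono_set s2).trans (hk _)) _
    · rw [lintegral_const_mul _ (mk _)]
      exact ENNReal.mul_lt_top hc.lt_top (((lintegral_mono_set s1).trans (hk _)).trans_lt hc.lt_top)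
  · rw [Measure.prod_restrict]
    exact ae_restrict_of_forall_mem (measurableSet_Ioo.prod measurableSet_Ioo) fun z hz =>
      (hM z.2 (Ioo_subset_Icc_self hz.2)).2

theorem lam_inv {β1 β2 p q : ℝ} (s ξ b m : ℝ) (hβ : β1 < β2) (hpq : p < q) (hp : m ≠ p)
    (hq : m ≠ q) :
    Lam β1 β2 s p q ξ (fun a β => ((b : ℂ) + (ξ + I) * (m - a : ℝ) - β)⁻¹) =
      2 * Real.pi * I * (if (p < m ∧ m < q) ∧ b ∈ Ioo β1 β2 then Bf β1 β2 s b else 0) := by
  have i1 : ((b : ℂ) + (ξ + I) * (m - p : ℝ)).im ≠ 0 := by simpa using sub_ne_zero.2 hp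
  have i2 : ((b : ℂ) + (ξ + I) * (m - q : ℝ)).im ≠ 0 := by simpa using sub_ne_zero.2 hq
  have j1 : IntegrableOn (fun β : ℝ => Bd β1 β2 s β * log ((b : ℂ) + (ξ + I) * (m - p : ℝ) - β))
      (Ioo β1 β2) := locw_int ((continuous_Bd β1 β2 s).mul (locw_cont i1)) β1 β2
  have j2 : IntegrableOn (fun β : ℝ => Bd β1 β2 s β * log ((b : ℂ) + (ξ + I) * (m - q : ℝ) - β))
      (Ioo β1 β2) := locw_int ((continuous_Bd β1 β2 s).mul (locw_cont i2)) β1 β2
  have j4 : IntegrableOn (fun β : ℝ => Bd β1 β2 s β * log ((b : ℂ) + (ξ + I) * (m - p : ℝ) - β) -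
      Bd β1 β2 s β * log ((b : ℂ) + (ξ + I) * (m - q : ℝ) - β)) (Ioo β1 β2) := j1.sub j2
  have j3 : IntegrableOn (fun β => 2 * Real.pi * I * (if p < m ∧ m < q then 1 else 0) *
      (Ioi b).indicator (Bd β1 β2 s) β) (Ioo β1 β2) :=
    ((locw_int (continuous_Bd β1 β2 s) β1 β2).indicator measurableSet_Ioi).const_mul _
  have e : ∫ β in Ioo β1 β2, (ξ + I) * ∫ a in Ioo p q,
      Bd β1 β2 s β * ((b : ℂ) + (ξ + I) * (m - a : ℝ) - β)⁻¹ =
      ∫ β in Ioo β1 β2, (Bd β1 β2 s β * log ((b : ℂ) + (ξ + I) * (m - p : ℝ) - β) -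
        Bd β1 β2 s β * log ((b : ℂ) + (ξ + I) * (m - q : ℝ) - β) -
        2 * Real.pi * I * (if p < m ∧ m < q then 1 else 0) * (Ioi b).indicator (Bd β1 β2 s) β) := by
    refine integral_congr_ae (ae_restrict_of_ae ?_)
    filter_upwards [compl_mem_ae_iff.2 (measure_singleton b)] with β hb
    rw [integral_const_mul, mul_left_comm, locw_jump ξ hpq hp hq hb]
    by_cases h1 : p < m ∧ m < q <;> by_cases h2 : b < β
    · rw [if_pos ⟨h1, h2⟩, if_pos h1, indicator_of_mem (mem_Ioi.2 h2)]; ring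
    · rw [if_neg fun h => h2 h.2, indicator_of_notMem (mt mem_Ioi.1 h2)]; ring
    · rw [if_neg fun h => h1 h.1, if_neg h1]; ring
    · rw [if_neg fun h => h1 h.1, if_neg h1]; ring
  rw [Lam, locw_parts s hβ i1, locw_parts s hβ i2,
    integral_integral_swap (locw_prod β1 β2 p q s ξ b m), ← integral_const_mul, e,
    integral_sub j4 j3, integral_sub j1 j2, integral_const_mul, locw_tail s b hβ]
  by_cases h1 : p < m ∧ m < q <;> by_cases h2 : b ∈ Ioo β1 β2
  · rw [if_pos h1, if_pos h2, if_pos ⟨h1, h2⟩]; ring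
  · rw [if_pos h1, if_neg h2, if_neg fun h => h2 h.2]; ring
  · rw [if_neg h1, if_neg (c := _ ∧ _) fun h => h1 h.1]; ring
  · rw [if_neg h1, if_neg (c := _ ∧ _) fun h => h1 h.1]; ring

end Pool.Agent.P.MP_fd5ae1_an.Loc
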