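import Pool.Agent.P.MP_fd5ae1_an.LocC
import Pool.Agent.P.MP_fd5ae1_an.LocW
import Pool.Agent.P.MP_fd5ae1_an.LocF

/-! Local form: the tangent line measure vanishes on rectangles of the inner box. -/

set_option autoImplicit false

open MeasureTheory Set Filter Topology Complex
open scoped ENNReal

namespace Pool.Agent.P.MP_fd5ae1_an.Loc

theorem locR_congr {β1 β2 s p q ξ : ℝ} {h h' : ℝ → ℝ → ℂ}
    (ep : ∀ᵐ β : ℝ, β ∈ Ioo β1 β2 → h p β = h' p β) (eq : ∀ᵐ β : ℝ, β ∈ Ioo β1 β2 → h q β = h' q β)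
    (ea : ∀ᵐ a : ℝ, a ∈ Ioo p q → ∀ᵐ β : ℝ, β ∈ Ioo β1 β2 → h a β = h' a β) :
    Lam β1 β2 s p q ξ h = Lam β1 β2 s p q ξ h' := by
  have one : ∀ (B : ℝ → ℂ) (a : ℝ), (∀ᵐ β : ℝ, β ∈ Ioo β1 β2 → h a β = h' a β) →
      ∫ β in Ioo β1 β2, B β * h a β = ∫ β in Ioo β1 β2, B β * h' a β := by
    intro B a e
    refine setIntegral_congr_ae measurableSet_Ioo ?_
    filter_upwards [e] with β hβ hJ
    rw [hβ hJ]
  unfold Lam
  rw [one _ p ep, one _ q eq]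
  congr 2
  refine setIntegral_congr_ae measurableSet_Ioo ?_
  filter_upwards [ea] with a ha hP using one _ a (ha hP)

theorem locR_kern (α β : ℝ) :
    ∃ c : ℝ≥0∞, c ≠ ∞ ∧ ∀ X : ℝ, ∫⁻ t in Ioo α β, kern (X - t) ≤ c := by
  obtain ⟨c, hc, hcb⟩ := exists_kern_bound (|α| + |β|)
  refine ⟨c, hc, fun X => le_trans (lintegral_mono_set fun t ht => ?_) (hcb X)⟩
  constructor <;> linarith [ht.1, ht.2, neg_abs_le α, le_abs_self β, abs_nonneg α, abs_nonneg β]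

variable {Ω : Type} [MeasurableSpace Ω] {μ : Measure Ω} {x y u v ε : Ω → ℝ}

theorem locR_meas (H : Lim.Pre μ x y u v ε) (ξ : ℝ) :
    Measurable fun z : (ℝ × ℝ) × Ω => cau x y u v ε ξ z.2 z.1.1 z.1.2 := by
  have := H.mx; have := H.my; have := H.mu; have := H.mv; have := H.me; have := measurable_gw ξ
  unfold cau; fun_prop

theorem locR_le (H : Lim.Pre μ x y u v ε) (ξ : ℝ) (ω : Ω) (a β : ℝ) :
    ‖cau x y u v ε ξ ω a β‖ₑ ≤ ‖u ω‖ₑ * kern (v ω / u ω - a) *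
      kern (y ω - v ω / u ω * x ω + ξ * (v ω / u ω - a) - β) := by
  set z : ℂ := ((y ω - v ω / u ω * x ω : ℝ) : ℂ) + (ξ + I) * (v ω / u ω - a : ℝ) - β with hz
  have him : z.im = v ω / u ω - a := by simp [hz]
  have hre : z.re = y ω - v ω / u ω * x ω + ξ * (v ω / u ω - a) - β := by simp [hz]
  have h1 : ‖cau x y u v ε ξ ω a β‖ ≤ |u ω| * ‖z‖⁻¹ := by
    simp only [cau, norm_mul, Complex.norm_real, Real.norm_eq_abs, abs_abs, norm_inv]
    calc _ ≤ 1 * |u ω| * 1 * ‖z‖⁻¹ := by gcongr; exacts [H.be ω, norm_gw_sq_le _ _]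
      _ = _ := by ring
  have h2 := ofReal_norm_inv_le z
  rw [him, hre, mul_comm] at h2
  rw [← ofReal_norm, mul_assoc]
  refine (ENNReal.ofReal_le_ofReal h1).trans ?_
  rw [ENNReal.ofReal_mul (abs_nonneg _), ← Real.enorm_eq_ofReal_abs]
  exact mul_le_mul_right h2 _

variable [SFinite μ]

theorem locR_line (H : Lim.Pre μ x y u v ε) (ξ β1 β2 : ℝ) {a : ℝ}
    (hk : ∫⁻ ω, ‖u ω‖ₑ * kern (v ω / u ω - a) ∂μ ≠ ∞) :
    Integrable (fun z : ℝ × Ω => cau x y u v ε ξ z.2 a z.1)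
      ((volume.restrict (Ioo β1 β2)).prod μ) := by
  have := H.mu; have := H.mv; have := measurable_kern
  have hm : Measurable fun z : ℝ × Ω => cau x y u v ε ξ z.2 a z.1 :=
    (locR_meas H ξ).comp (f := fun z : ℝ × Ω => ((a, z.1), z.2)) (by fun_prop)
  obtain ⟨c, hc, hcb⟩ := locR_kern β1 β2
  refine ⟨hm.aestronglyMeasurable, ?_⟩
  rw [hasFiniteIntegral_iff_enorm, lintegral_prod_symm' _ hm.enorm]
  refine lt_of_le_of_lt (lintegral_mono (g := fun ω => ‖u ω‖ₑ * kern (v ω / u ω - a) * c)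
    fun ω => ?_) ?_
  · refine le_trans (lintegral_mono fun β => locR_le H ξ ω a β) ?_
    rw [lintegral_const_mul _ (by fun_prop)]
    exact mul_le_mul_right (hcb _) _
  · rw [lintegral_mul_const _ (by fun_prop)]
    exact ENNReal.mul_lt_top hk.lt_top hc.lt_top

theorem locR_area (H : Lim.Pre μ x y u v ε) (ξ β1 β2 p q : ℝ) :
    Integrable (fun z : (ℝ × ℝ) × Ω => cau x y u v ε ξ z.2 z.1.1 z.1.2)
      (((volume.restrict (Ioo p q)).prod (volume.restrict (Ioo β1 β2))).prod μ) := by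
  have := H.mu; have := H.mv; have := measurable_kern
  have hm := locR_meas H ξ
  obtain ⟨c, hc, hcb⟩ := locR_kern β1 β2
  obtain ⟨c', hc', hcb'⟩ := locR_kern p q
  refine ⟨hm.aestronglyMeasurable, ?_⟩
  rw [hasFiniteIntegral_iff_enorm, lintegral_prod_symm' _ hm.enorm]
  refine lt_of_le_of_lt (lintegral_mono (g := fun ω => ‖u ω‖ₑ * c' * c) fun ω => ?_) ?_
  · refine le_trans (lintegral_mono fun z => locR_le H ξ ω z.1 z.2) ?_
    rw [lintegral_prod _ (Measurable.aemeasurable (by fun_prop))]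
    refine le_trans (lintegral_mono (g := fun a => ‖u ω‖ₑ * kern (v ω / u ω - a) * c)
      fun a => ?_) ?_
    · simp only
      rw [lintegral_const_mul _ (by fun_prop)]
      exact mul_le_mul_right (hcb _) _
    · rw [lintegral_mul_const _ (by fun_prop), lintegral_const_mul _ (by fun_prop)]
      exact mul_le_mul_left (mul_le_mul_right (hcb' _) _) _
  · rw [lintegral_mul_const _ (by fun_prop), lintegral_mul_const _ (by fun_prop)]
    exact ENNReal.mul_lt_top (ENNReal.mul_lt_top H.iu.2 hc'.lt_top) hc.lt_top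

theorem locR_tail (H : Lim.Pre μ x y u v ε) {a1 a2 b1 b2 d : ℝ} (hd : 0 < d)
    (hb : b1 + d < b2 - d) {p q : ℝ} (hp : a1 + d ≤ p) (hpq : p < q) (hq : q ≤ a2 - d) (s ξ : ℝ) :
    Lam (b1 + d) (b2 - d) s p q ξ
      (fun a β => ∫ z, tail x y u v ε a1 a2 b1 b2 ξ z a β ∂(volume.prod μ)) = 0 := by
  obtain ⟨c, hc⟩ := tl_bound H a1 a2 b1 b2 ξ hd
  obtain ⟨c0, hc0, hlow⟩ := low a1 a2 b1 b2 ξ hd
  have hdom := dom_int H c univ
  rw [Measure.restrict_univ] at hdom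
  have hm := tail_meas H a1 a2 b1 b2 ξ
  have hbd : ∀ a ∈ Icc p q, ∀ β ∈ Ioo (b1 + d) (b2 - d), ∀ z : ℝ × Ω,
      ‖tail x y u v ε a1 a2 b1 b2 ξ z a β‖ ≤ (1 + z.1 ^ 2)⁻¹ * ((|v z.2| + |u z.2|) * c) := by
    intro a ha β hβ z
    rw [← tl_zero]
    exact hc a ⟨hp.trans ha.1, ha.2.trans hq⟩ β (Ioo_subset_Icc_self hβ) 0 z (by simp)
  have line : ∀ a ∈ Icc p q, Integrable
      (fun w : ℝ × ℝ × Ω => tail x y u v ε a1 a2 b1 b2 ξ w.2 a w.1)
      ((volume.restrict (Ioo (b1 + d) (b2 - d))).prod (volume.prod μ)) := by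
    intro a ha
    refine (hdom.comp_snd _).mono' (hm.comp (f := fun w : ℝ × ℝ × Ω => ((a, w.1), w.2))
      (by fun_prop)).aestronglyMeasurable ?_
    filter_upwards [(Measure.quasiMeasurePreserving_fst).ae (ae_restrict_mem measurableSet_Ioo)]
      with w hw using hbd a ha _ hw _
  rw [lam_swap (volume.prod μ) _ _ s p q ξ (tail x y u v ε a1 a2 b1 b2 ξ)
    (line p ⟨le_rfl, hpq.le⟩) (line q ⟨hpq.le, le_rfl⟩)]
  · refine integral_eq_zero_of_ae (Eventually.of_forall fun z => ?_)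
    by_cases hz : z.1 ∈ Ioo a1 a2 ∧ y z.2 - z.1 * x z.2 ∈ Ioo b1 b2
    · have e : tail x y u v ε a1 a2 b1 b2 ξ z = fun _ _ => 0 := by
        ext a β; simp only [tail]; rw [if_pos hz]
      simp [e, Lam]
    · have e : tail x y u v ε a1 a2 b1 b2 ξ z = fun a β : ℝ =>
          ((ε z.2 : ℂ) * ((|v z.2 - z.1 * u z.2| : ℝ) : ℂ)) *
            (((y z.2 - z.1 * x z.2 : ℝ) : ℂ) + (ξ + I) * (z.1 - a : ℝ) - β)⁻¹ ^ 3 := by
        ext a β; simp only [tail]; rw [if_neg hz]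
      simp only [e, Pi.zero_apply]
      rw [lam_const_mul, lam_cube s ξ _ _ hb hpq, mul_zero]
      intro a ha β hβ h0
      have := hlow a ⟨hp.trans ha.1, ha.2.trans hq⟩ β hβ z.1 _ 0 hz (by simp)
      rw [h0] at this
      have hpos : 0 < c0 * (1 + |z.1|) := by positivity
      simp at this
      linarith
  · refine (hdom.comp_snd _).mono' hm.aestronglyMeasurable ?_
    have h1 : ∀ᵐ w : ℝ × ℝ ∂((volume.restrict (Ioo p q)).prod
        (volume.restrict (Ioo (b1 + d) (b2 - d)))), w.1 ∈ Ioo p q ∧ w.2 ∈ Ioo (b1 + d) (b2 - d) :=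
      ((Measure.quasiMeasurePreserving_fst).ae (ae_restrict_mem measurableSet_Ioo)).and
        ((Measure.quasiMeasurePreserving_snd).ae (ae_restrict_mem measurableSet_Ioo))
    filter_upwards [(Measure.quasiMeasurePreserving_fst).ae h1] with w hw
      using hbd _ (Ioo_subset_Icc_self hw.1) _ hw.2 _

theorem rect_zero (H : Lim.Pre μ x y u v ε) (hS : ∀ a ξ, ∃ U F, Rep μ x y u v ε a ξ U F)
    {a1 a2 b1 b2 d : ℝ} (hd : 0 < d) (hb : b1 + d < b2 - d)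
    (hv : ∀ᵐ a : ℝ, a ∈ Ioo a1 a2 → VanL μ x y u v ε b1 b2 a) {p q : ℝ}
    (hp : a1 + d ≤ p) (hpq : p < q) (hq : q ≤ a2 - d)
    (kp : ∫⁻ ω, ‖u ω‖ₑ * kern (v ω / u ω - p) ∂μ ≠ ∞)
    (kq : ∫⁻ ω, ‖u ω‖ₑ * kern (v ω / u ω - q) ∂μ ≠ ∞) (s ξ : ℝ) :
    ∫ ω, (ε ω : ℂ) * ((|u ω| : ℝ) : ℂ) * gw ξ (x ω) ^ 2 *
      (if (p < v ω / u ω ∧ v ω / u ω < q) ∧ y ω - v ω / u ω * x ω ∈ Ioo (b1 + d) (b2 - d) then
        Bf (b1 + d) (b2 - d) s (y ω - v ω / u ω * x ω) else 0) ∂μ = 0 := by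
  have hC : ∀ a ∈ Icc p q, ∫⁻ ω, ‖u ω‖ₑ * kern (v ω / u ω - a) ∂μ ≠ ∞ →
      ∀ᵐ β : ℝ, β ∈ Ioo (b1 + d) (b2 - d) → ∫ ω, cau x y u v ε ξ ω a β ∂μ =
        ∫ z, tail x y u v ε a1 a2 b1 b2 ξ z a β ∂(volume.prod μ) := by
    intro a ha hk
    obtain ⟨U, F, hR⟩ := hS a ξ
    exact cauchy_eq H hd hv ⟨hp.trans ha.1, ha.2.trans hq⟩ hR hk
  have e1 := locR_congr (s := s) (ξ := ξ) (h := fun a β => ∫ ω, cau x y u v ε ξ ω a β ∂μ)
    (h' := fun a β => ∫ z, tail x y u v ε a1 a2 b1 b2 ξ z a β ∂(volume.prod μ))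
    (hC p ⟨le_rfl, hpq.le⟩ kp) (hC q ⟨hpq.le, le_rfl⟩ kq)
    (by filter_upwards [ae_generic H.good0] with a hk ha using hC a (Ioo_subset_Icc_self ha) hk)
  rw [locR_tail H hd hb hp hpq hq, lam_swap μ _ _ s p q ξ (cau x y u v ε ξ)
    (locR_line H ξ _ _ kp) (locR_line H ξ _ _ kq) (locR_area H ξ _ _ p q)] at e1
  refine mul_left_cancel₀ Complex.two_pi_I_ne_zero ?_
  rw [mul_zero, ← integral_const_mul]
  refine Eq.trans (integral_congr_ae ?_) e1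
  filter_upwards [Lim.gen_of_kern H kp, Lim.gen_of_kern H kq] with ω h1 h2
  have e : cau x y u v ε ξ ω = fun a β : ℝ => ((ε ω : ℂ) * ((|u ω| : ℝ) : ℂ) * gw ξ (x ω) ^ 2) *
      (((y ω - v ω / u ω * x ω : ℝ) : ℂ) + (ξ + I) * (v ω / u ω - a : ℝ) - β)⁻¹ := rfl
  rw [e, lam_const_mul]
  by_cases hu : u ω = 0
  · simp [hu]
  rw [lam_inv s ξ _ _ hb hpq (fun h => hu (h1 (by rw [← h]; field_simp; ring)))
    (fun h => hu (h2 (by rw [← h]; field_simp; ring)))]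
  ring

end Pool.Agent.P.MP_fd5ae1_an.Loc
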