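import Mathlib

/-! Local form: chords of a curve are close to the tangent line. -/

set_option autoImplicit false

open MeasureTheory Set Filter Topology

namespace Pool.Agent.P.MP_fd5ae1_an.Loc

theorem tan_near {x y : ℝ → ℝ} {t u v θ τ : ℝ} (hx : HasDerivAt x u t) (hy : HasDerivAt y v t)
    (hne : u ≠ 0 ∨ v ≠ 0) (h1 : u * Real.cos θ + v * Real.sin θ = 0)
    (h2 : x t * Real.cos θ + y t * Real.sin θ = τ) {N : Set (ℝ × ℝ)} (hN : N ∈ 𝓝 (θ, τ)) :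
    ∀ᶠ s in 𝓝 t, ∃ p ∈ N, x s * Real.cos p.1 + y s * Real.sin p.1 = p.2 ∧
      x t * Real.cos p.1 + y t * Real.sin p.1 = p.2 := by
  have he : v * Real.cos θ - u * Real.sin θ ≠ 0 := by
    intro h
    have hs := Real.cos_sq_add_sin_sq θ
    rcases hne with h' | h'
    · exact h' (by linear_combination Real.cos θ * h1 - Real.sin θ * h - u * hs)
    · exact h' (by linear_combination Real.sin θ * h1 + Real.cos θ * h - v * hs)
  set φ : ℝ × ℝ → ℝ := fun q => Real.arctan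
    (-(q.1 * Real.cos θ + q.2 * Real.sin θ) / (q.2 * Real.cos θ - q.1 * Real.sin θ)) with hφ
  have hφc : ContinuousAt φ (u, v) :=
    Real.continuous_arctan.continuousAt.comp (ContinuousAt.div (by fun_prop) (by fun_prop) he)
  have hφ0 : φ (u, v) = 0 := by simp only [hφ, h1, neg_zero, zero_div, Real.arctan_zero]
  have hP : ContinuousAt (fun q : ℝ × ℝ =>
      (θ + φ q, x t * Real.cos (θ + φ q) + y t * Real.sin (θ + φ q))) (u, v) := by fun_prop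
  have hP' : ∀ᶠ q : ℝ × ℝ in 𝓝 (u, v),
      (θ + φ q, x t * Real.cos (θ + φ q) + y t * Real.sin (θ + φ q)) ∈ N := by
    refine hP.eventually_mem ?_
    simpa [hφ0, h2] using hN
  have hQ : ∀ᶠ q : ℝ × ℝ in 𝓝 (u, v), q.2 * Real.cos θ - q.1 * Real.sin θ ≠ 0 :=
    ContinuousAt.eventually_ne (by fun_prop) he
  have hs := ((hasDerivAt_iff_tendsto_slope.mp hx).prodMk_nhds
    (hasDerivAt_iff_tendsto_slope.mp hy)).eventually (hP'.and hQ)
  rw [eventually_nhdsWithin_iff] at hs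
  filter_upwards [hs] with s hs
  by_cases hst : s = t
  · exact ⟨(θ, τ), mem_of_mem_nhds hN, hst ▸ h2, h2⟩
  obtain ⟨a, b⟩ := hs hst
  refine ⟨_, a, ?_, rfl⟩
  set q : ℝ × ℝ := (slope x t s, slope y t s) with hq
  have hst' : s - t ≠ 0 := sub_ne_zero.mpr hst
  have ex : x s = x t + (s - t) * q.1 := by simp only [hq, slope_def_field]; field_simp; ring
  have ey : y s = y t + (s - t) * q.2 := by simp only [hq, slope_def_field]; field_simp; ring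
  have hsin : Real.sin (φ q) * (q.2 * Real.cos θ - q.1 * Real.sin θ) =
      -(q.1 * Real.cos θ + q.2 * Real.sin θ) * Real.cos (φ q) := by
    have h3 := Real.tan_arctan
      (-(q.1 * Real.cos θ + q.2 * Real.sin θ) / (q.2 * Real.cos θ - q.1 * Real.sin θ))
    rw [Real.tan_eq_sin_div_cos, div_eq_div_iff (Real.cos_arctan_pos _).ne' b] at h3
    exact h3
  simp only
  rw [ex, ey, Real.cos_add, Real.sin_add]
  linear_combination (s - t) * hsin

/-- From chords to tangent lines. -/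
theorem tan_null {W : Set (ℝ × ℝ)} (hW : IsOpen W) {S : Set (EuclideanSpace ℝ (Fin 2))}
    (h : ∀ K : Set (ℝ × ℝ), IsCompact K → K ⊆ W → ∀ E ⊆ S, (∀ x ∈ E, ∀ y ∈ E, ∃ p ∈ K,
        x.ofLp 0 * Real.cos p.1 + x.ofLp 1 * Real.sin p.1 = p.2 ∧
        y.ofLp 0 * Real.cos p.1 + y.ofLp 1 * Real.sin p.1 = p.2) → μH[1] E = 0)
    (γ γ' : ℝ → EuclideanSpace ℝ (Fin 2)) :
    μH[1] (γ '' {t | γ t ∈ S ∧ HasDerivAt γ (γ' t) t ∧ γ' t ≠ 0 ∧ ∃ p ∈ W,
      (γ' t).ofLp 0 * Real.cos p.1 + (γ' t).ofLp 1 * Real.sin p.1 = 0 ∧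
      (γ t).ofLp 0 * Real.cos p.1 + (γ t).ofLp 1 * Real.sin p.1 = p.2}) = 0 := by
  have := hW.locallyCompactSpace
  set K : ℕ → Set (ℝ × ℝ) := fun j => Subtype.val '' CompactExhaustion.choice W j with hK
  set T : ℕ × ℚ × ℚ → Set ℝ := fun i => {t | γ t ∈ S ∧ t ∈ Ioo (i.2.1 : ℝ) i.2.2 ∧
    ∀ s ∈ Ioo (i.2.1 : ℝ) i.2.2, ∃ p ∈ K i.1,
      (γ s).ofLp 0 * Real.cos p.1 + (γ s).ofLp 1 * Real.sin p.1 = p.2 ∧
      (γ t).ofLp 0 * Real.cos p.1 + (γ t).ofLp 1 * Real.sin p.1 = p.2} with hT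
  refine measure_mono_null (t := ⋃ i, γ '' T i) ?_ (measure_iUnion_null fun i => ?_)
  · rintro _ ⟨t, ⟨hS, hd, hne, p, hp, h1, h2⟩, rfl⟩
    obtain ⟨j, hj⟩ := (CompactExhaustion.choice W).exists_mem_nhds ⟨p, hp⟩
    have hN : K j ∈ 𝓝 (p.1, p.2) := hW.isOpenMap_subtype_val.image_mem_nhds hj
    have dx : HasDerivAt (fun s => (γ s).ofLp 0) ((γ' t).ofLp 0) t :=
      (EuclideanSpace.proj (0 : Fin 2) :
        EuclideanSpace ℝ (Fin 2) →L[ℝ] ℝ).hasFDerivAt.comp_hasDerivAt t hd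
    have dy : HasDerivAt (fun s => (γ s).ofLp 1) ((γ' t).ofLp 1) t :=
      (EuclideanSpace.proj (1 : Fin 2) :
        EuclideanSpace ℝ (Fin 2) →L[ℝ] ℝ).hasFDerivAt.comp_hasDerivAt t hd
    have hne' : (γ' t).ofLp 0 ≠ 0 ∨ (γ' t).ofLp 1 ≠ 0 := by
      by_contra hcon
      push Not at hcon
      refine hne ?_
      ext i; fin_cases i
      exacts [hcon.1, hcon.2]
    obtain ⟨l, r, hlr, hsub⟩ := mem_nhds_iff_exists_Ioo_subset.mp (tan_near dx dy hne' h1 h2 hN)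
    obtain ⟨a, ha1, ha2⟩ := exists_rat_btwn hlr.1
    obtain ⟨b, hb1, hb2⟩ := exists_rat_btwn hlr.2
    exact mem_iUnion.mpr ⟨(j, a, b), t, ⟨hS, ⟨ha2, hb1⟩,
      fun s hs => hsub ⟨ha1.trans hs.1, hs.2.trans hb2⟩⟩, rfl⟩
  · refine h (K i.1) (((CompactExhaustion.choice W).isCompact _).image continuous_subtype_val)
      (Subtype.coe_image_subset _ _) _ ?_ ?_
    · rintro _ ⟨t, ht, rfl⟩; exact ht.1
    · rintro _ ⟨s, hs, rfl⟩ _ ⟨t, ht, rfl⟩
      exact ht.2.2 s hs.2.1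

end Pool.Agent.P.MP_fd5ae1_an.Loc
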