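import Mathlib

set_option autoImplicit false

open MeasureTheory Set Filter Topology Function
open scoped ENNReal NNReal

namespace Pool.Agent.P.MP_fd5ae1_an

variable {E : Type} [NormedAddCommGroup E] [NormedSpace ℝ E] [FiniteDimensional ℝ E]
  [MeasurableSpace E] [BorelSpace E]

omit [MeasurableSpace E] [BorelSpace E] in
theorem arc_param {f : ℝ → E} (hinj : InjOn f (Icc 0 1)) (hv : eVariationOn f (Icc 0 1) ≠ ∞) :
    ∃ g : ℝ → E, LipschitzWith (lipschitzExtensionConstant E * (eVariationOn f (Icc 0 1)).toNNReal) g ∧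
      ∃ S ⊆ Icc (0 : ℝ) 1, MeasurableSet S ∧ InjOn g S ∧ g '' S = f '' Icc 0 1 := by
  set s : Set ℝ := Icc 0 1 with hs
  have hb : BoundedVariationOn f s := hv
  have hl : LocallyBoundedVariationOn f s := hb.locallyBoundedVariationOn
  have h0 : (0 : ℝ) ∈ s := ⟨le_rfl, zero_le_one⟩
  have h1 : (1 : ℝ) ∈ s := ⟨zero_le_one, le_rfl⟩
  set v := variationOnFromTo f s 0 with hvdef
  set L : ℝ := (eVariationOn f s).toReal with hL
  have hLpos : 0 < L := by
    refine ENNReal.toReal_pos ?_ hv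
    intro h
    have := eVariationOn.edist_le f h0 h1
    rw [h, nonpos_iff_eq_zero, edist_eq_zero] at this
    exact zero_ne_one (hinj h0 h1 this)
  set np := naturalParameterization f s 0 with hnp
  have hnpv : ∀ a ∈ s, np (v a) = f a := fun a ha =>
    edist_eq_zero.mp (edist_naturalParameterization_eq_zero hl h0 ha)
  have hd : ∀ a ∈ s, ∀ b ∈ s, a ≤ b → dist (f a) (f b) ≤ v b - v a := by
    intro a ha b hb' hab
    rw [hvdef, variationOnFromTo.sub_right hl h0 hb' ha, variationOnFromTo.eq_of_le f s hab,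
      dist_edist]
    exact ENNReal.toReal_mono (hl a b ha hb')
      (eVariationOn.edist_le f ⟨ha, le_rfl, hab⟩ ⟨hb', hab, le_rfl⟩)
  have hlip : LipschitzOnWith 1 np (v '' s) := by
    refine LipschitzOnWith.of_dist_le_mul ?_
    rintro _ ⟨a, ha, rfl⟩ _ ⟨b, hb', rfl⟩
    rw [hnpv a ha, hnpv b hb', NNReal.coe_one, one_mul, Real.dist_eq]
    rcases le_total a b with hab | hab
    · exact (hd a ha b hb' hab).trans (by rw [abs_sub_comm]; exact le_abs_self _)
    · rw [dist_comm]; exact (hd b hb' a ha hab).trans (le_abs_self _)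
  obtain ⟨g0, hg0, hge⟩ := hlip.extend_finite_dimension
  have hLlip : LipschitzWith (eVariationOn f s).toNNReal fun t : ℝ => L * t := by
    refine LipschitzWith.of_dist_le_mul fun a b => ?_
    rw [Real.dist_eq, Real.dist_eq, ← mul_sub, abs_mul, abs_of_pos hLpos]
    rfl
  have hgv : ∀ a ∈ s, g0 (L * (v a / L)) = f a := by
    intro a ha
    rw [mul_div_cancel₀ _ hLpos.ne', ← hge ⟨a, ha, rfl⟩, hnpv a ha]
  refine ⟨fun t => g0 (L * t), by simpa [Function.comp_def] using hg0.comp hLlip, (fun a => v a / L) '' s, ?_, ?_, ?_, ?_⟩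
  · rintro _ ⟨a, ha, rfl⟩
    refine ⟨div_nonneg (variationOnFromTo.nonneg_of_le f s ha.1) hLpos.le, ?_⟩
    rw [div_le_one hLpos]
    exact (le_abs_self _).trans (variationOnFromTo.abs_le_eVariationOn hb)
  · refine MeasurableSet.image_of_monotoneOn measurableSet_Icc ?_
    intro a ha b hb' hab
    exact div_le_div_of_nonneg_right (variationOnFromTo.monotoneOn hl h0 ha hb' hab) hLpos.le
  · rintro _ ⟨a, ha, rfl⟩ _ ⟨b, hb', rfl⟩ h
    simp only [hgv a ha, hgv b hb'] at h
    rw [hinj ha hb' h]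
  · rw [image_image]
    exact image_congr hgv

theorem exists_param (f : ℕ → ℝ → E) (hinj : ∀ i, InjOn (f i) (Icc 0 1))
    (hv : ∑' i, eVariationOn (f i) (Icc 0 1) ≠ ∞) :
    ∃ (γ : ℝ → E) (Ω : Set ℝ), Measurable γ ∧ MeasurableSet Ω ∧
      (∀ t ∈ Ω, DifferentiableAt ℝ γ t) ∧ InjOn γ Ω ∧ IntegrableOn (deriv γ) Ω ∧
      μH[1] ((⋃ i, f i '' Icc 0 1) \ γ '' Ω) = 0 := by
  classical
  choose g hg S hS hSm hSi hSe using fun i => arc_param (hinj i) (ENNReal.ne_top_of_tsum_ne_top hv i)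
  set A : ℕ → Set E := fun i => f i '' Icc 0 1 with hA
  have hAm : ∀ i, MeasurableSet (A i) := by
    intro i
    simp only [hA]
    rw [← hSe i]
    exact (hSm i).image_of_continuousOn_injOn (hg i).continuous.continuousOn (hSi i)
  set γ : ℝ → E := fun t => g ⌊t⌋₊ (t - ⌊t⌋₊) with hγ
  have hγm : Measurable γ := by
    have h1 : Measurable fun p : ℕ × ℝ => g p.1 p.2 :=
      measurable_from_prod_countable_right fun i => (hg i).continuous.measurable
    have h2 : Measurable fun t : ℝ => (⌊t⌋₊, t - ⌊t⌋₊) :=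
      Nat.measurable_floor.prodMk (measurable_id.sub
        ((measurable_of_countable (fun n : ℕ => (n : ℝ))).comp Nat.measurable_floor))
    exact h1.comp h2
  set W : ℕ → Set ℝ := fun i => (S i ∩ Ioo 0 1) ∩ ({s | DifferentiableAt ℝ (g i) s} ∩
    g i ⁻¹' disjointed A i) with hW
  have hWm : ∀ i, MeasurableSet (W i) := fun i =>
    ((hSm i).inter measurableSet_Ioo).inter ((measurableSet_of_differentiableAt ℝ _).inter
      ((hg i).continuous.measurable (MeasurableSet.disjointed hAm i)))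
  set V : ℕ → Set ℝ := fun i => (fun t => t - i) ⁻¹' W i with hV
  have hVm : ∀ i, MeasurableSet (V i) := fun i => (measurable_sub_const _) (hWm i)
  have hfl : ∀ (i : ℕ) (t : ℝ), t - i ∈ Ioo (0 : ℝ) 1 → γ t = g i (t - i) := by
    intro i t ht
    have : ⌊t⌋₊ = i := by
      rw [Nat.floor_eq_iff (by linarith [ht.1, (i.cast_nonneg : (0 : ℝ) ≤ i)])]
      constructor <;> linarith [ht.1, ht.2]
    simp only [hγ, this]
  have hev : ∀ (i : ℕ) (t : ℝ), t - i ∈ Ioo (0 : ℝ) 1 → γ =ᶠ[𝓝 t] fun t => g i (t - i) := by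
    intro i t ht
    have : ∀ᶠ t' : ℝ in 𝓝 t, t' - (i : ℝ) ∈ Ioo (0 : ℝ) 1 :=
      (continuous_sub_right (i : ℝ)).continuousAt.eventually_mem (isOpen_Ioo.mem_nhds ht)
    filter_upwards [this] with t' ht' using hfl i t' ht'
  refine ⟨γ, ⋃ i, V i, hγm, MeasurableSet.iUnion hVm, ?_, ?_, ?_, ?_⟩
  · intro t ht
    obtain ⟨i, hi⟩ := mem_iUnion.mp ht
    rw [(hev i t hi.1.2).differentiableAt_iff]
    exact DifferentiableAt.comp t (g := g i) hi.2.1 (differentiableAt_id.sub_const _)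
  · intro t ht t' ht' e
    obtain ⟨i, hi⟩ := mem_iUnion.mp ht
    obtain ⟨j, hj⟩ := mem_iUnion.mp ht'
    rw [hfl i t hi.1.2, hfl j t' hj.1.2] at e
    have hij : i = j := by
      by_contra hij
      have h1 : g i (t - i) ∈ disjointed A i := hi.2.2
      have h2 : g j (t' - j) ∈ disjointed A j := hj.2.2
      rw [← e] at h2
      exact disjoint_left.mp (disjoint_disjointed A hij) h1 h2
    subst hij
    have := hSi i hi.1.1 hj.1.1 e
    linarith
  · refine ⟨(measurable_deriv γ).aestronglyMeasurable, ?_⟩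
    refine lt_of_le_of_lt (lintegral_iUnion_le _ _) (lt_of_le_of_lt (ENNReal.tsum_le_tsum
      (g := fun i => (lipschitzExtensionConstant E : ℝ≥0∞) * eVariationOn (f i) (Icc 0 1))
      fun i => ?_) ?_)
    · have hsub : V i ⊆ Ioo (i : ℝ) (i + 1) := fun t ht =>
        ⟨by linarith [ht.1.2.1], by linarith [ht.1.2.2]⟩
      refine le_trans (setLIntegral_mono' (hVm i) (g := fun _ =>
        (lipschitzExtensionConstant E : ℝ≥0∞) * eVariationOn (f i) (Icc 0 1)) fun t ht => ?_) ?_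
      · rw [(hev i t ht.1.2).deriv_eq]
        have hl : LipschitzWith (lipschitzExtensionConstant E * (eVariationOn (f i) (Icc 0 1)).toNNReal)
            fun t => g i (t - i) := by
          simpa [Function.comp_def, sub_eq_add_neg] using
            (hg i).comp (isometry_add_right (-(i : ℝ))).lipschitz
        have := norm_deriv_le_of_lipschitz (x₀ := t) hl
        rw [← ENNReal.coe_toNNReal (ENNReal.ne_top_of_tsum_ne_top hv i), ← ENNReal.coe_mul,
          enorm_le_coe]
        exact this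
      · rw [setLIntegral_const]
        refine mul_le_of_le_one_right' ((measure_mono hsub).trans ?_)
        simp
    · rw [ENNReal.tsum_mul_left]
      exact ENNReal.mul_lt_top ENNReal.coe_lt_top hv.lt_top
  · refine measure_mono_null (t := ⋃ i, g i '' ({0, 1} ∪ {s | ¬ DifferentiableAt ℝ (g i) s})) ?_ ?_
    · rintro p ⟨hp, hp'⟩
      have : p ∈ ⋃ i, disjointed A i := by rw [iUnion_disjointed]; exact hp
      obtain ⟨i, hi⟩ := mem_iUnion.mp this
      have hpA : p ∈ g i '' S i := by rw [hSe i]; exact disjointed_subset A i hi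
      obtain ⟨s, hs, rfl⟩ := hpA
      refine mem_iUnion.mpr ⟨i, s, ?_, rfl⟩
      by_contra hcon
      simp only [mem_union, mem_insert_iff, mem_singleton_iff, mem_ofPred_eq, not_or, not_not] at hcon
      have hs' : s ∈ Ioo (0 : ℝ) 1 :=
        ⟨lt_of_le_of_ne (hS i hs).1 (Ne.symm hcon.1.1), lt_of_le_of_ne (hS i hs).2 hcon.1.2⟩
      refine hp' ⟨s + i, mem_iUnion.mpr ⟨i, ?_⟩, ?_⟩
      · simp only [hV, mem_preimage, add_sub_cancel_right]
        exact ⟨⟨hs, hs'⟩, hcon.2, hi⟩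
      · rw [hfl i _ (by simpa using hs')]; simp
    · refine measure_iUnion_null fun i => ?_
      have h0 : μH[1] (({0, 1} : Set ℝ) ∪ {s | ¬ DifferentiableAt ℝ (g i) s}) = 0 := by
        rw [hausdorffMeasure_real]
        refine measure_union_null ((Set.toFinite _).measure_zero _) ?_
        exact ae_iff.mp (hg i).ae_differentiableAt
      have := (hg i).hausdorffMeasure_image_le zero_le_one
        (({0, 1} : Set ℝ) ∪ {s | ¬ DifferentiableAt ℝ (g i) s})
      rwa [h0, mul_zero, nonpos_iff_eq_zero] at this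

theorem image_le_of_pieces {γ γ' : ℝ → E} {s : Set ℝ} (hd : ∀ t ∈ s, HasDerivWithinAt γ (γ' t) s t)
    {η : ℝ≥0} (hη : η ≠ 0) :
    ∃ (T : ℕ → Set ℝ) (K : ℕ → ℝ≥0), Pairwise (Disjoint on T) ∧ (∀ n, MeasurableSet (T n)) ∧
      μH[1] (γ '' s) ≤ ∑' n, K n * volume (s ∩ T n) ∧
      ((∀ t ∈ s, γ' t = 0) → s.Nonempty → ∀ n, K n = η) := by
  obtain ⟨T, A, h1, h2, h3, h4, h5⟩ := exists_partition_approximatesLinearOn_of_hasFDerivWithinAt
    γ s (fun t => ContinuousLinearMap.toSpanSingleton ℝ (γ' t))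
    (fun t ht => (hd t ht).hasFDerivWithinAt) (fun _ => η) (fun _ => hη)
  refine ⟨T, fun n => ‖A n‖₊ + η, h1, h2, ?_, fun h0 hne n => ?_⟩
  · have : γ '' s ⊆ ⋃ n, γ '' (s ∩ T n) := by
      rw [← image_iUnion, ← inter_iUnion, inter_eq_left.mpr h3]
    refine (measure_mono this).trans ((measure_iUnion_le _).trans (ENNReal.tsum_le_tsum fun n => ?_))
    have hl : LipschitzOnWith (‖A n‖₊ + η) γ (s ∩ T n) :=
      lipschitzOnWith_iff_restrict.mpr (h4 n).lipschitz
    simpa [hausdorffMeasure_real] using hl.hausdorffMeasure_image_le zero_le_one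
  · obtain ⟨y, hy, e⟩ := h5 hne n
    simp [e, h0 y hy]

theorem hausdorff_image_null {γ γ' : ℝ → E} {s : Set ℝ} (hs : MeasurableSet s) (hm : Measurable γ')
    (hd : ∀ t ∈ s, HasDerivAt γ (γ' t) t) (h0 : ∀ᵐ t ∂(volume.restrict s), γ' t = 0) :
    μH[1] (γ '' s) = 0 := by
  have e : γ '' s ⊆ γ '' (s ∩ {t | γ' t ≠ 0}) ∪
      ⋃ n : ℕ, γ '' (s ∩ {t | γ' t = 0} ∩ Icc (-(n : ℝ)) n) := by
    rintro _ ⟨t, ht, rfl⟩
    by_cases h : γ' t = 0
    · obtain ⟨n, hn⟩ := exists_nat_ge |t|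
      exact Or.inr (mem_iUnion.mpr ⟨n, t, ⟨⟨ht, h⟩, abs_le.mp hn⟩, rfl⟩)
    · exact Or.inl ⟨t, ⟨ht, h⟩, rfl⟩
  refine measure_mono_null e (measure_union_null ?_ (measure_iUnion_null fun n => ?_))
  · obtain ⟨T, K, -, -, h3, -⟩ := image_le_of_pieces (γ := γ) (γ' := γ') (s := s ∩ {t | γ' t ≠ 0})
      (fun t ht => (hd t ht.1).hasDerivWithinAt) one_ne_zero
    have hn : volume (s ∩ {t | γ' t ≠ 0}) = 0 := by
      rw [ae_restrict_iff' hs, ae_iff] at h0
      refine measure_mono_null (fun t ht => ?_) h0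
      exact fun h => ht.2 (h ht.1)
    have : ∀ n, volume (s ∩ {t | γ' t ≠ 0} ∩ T n) = 0 :=
      fun n => measure_mono_null inter_subset_left hn
    simpa [this] using h3
  · set s' := s ∩ {t | γ' t = 0} ∩ Icc (-(n : ℝ)) n with hs'
    have hs'm : MeasurableSet s' := (hs.inter (hm (measurableSet_singleton 0))).inter measurableSet_Icc
    rcases s'.eq_empty_or_nonempty with h | hne
    · simp [h]
    have hfin : volume s' ≠ ∞ := ((measure_mono inter_subset_right).trans_lt measure_Icc_lt_top).ne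
    have hle : ∀ η : ℝ≥0, η ≠ 0 → μH[1] (γ '' s') ≤ η * volume s' := by
      intro η hη
      obtain ⟨T, K, h1, h2, h3, h4⟩ := image_le_of_pieces (γ := γ) (γ' := γ') (s := s')
        (fun t ht => (hd t ht.1.1).hasDerivWithinAt) hη
      simp only [h4 (fun t ht => ht.1.2) hne] at h3
      rw [ENNReal.tsum_mul_left, ← measure_iUnion
        (fun i j hij => (h1 hij).mono inter_subset_right inter_subset_right)
        (fun n => hs'm.inter (h2 n))] at h3
      refine h3.trans (mul_le_mul_right (measure_mono ?_) _)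
      exact iUnion_subset fun n => inter_subset_left
    have ht : Tendsto (fun η : ℝ≥0 => (η : ℝ≥0∞) * volume s') (𝓝[>] 0) (𝓝 0) := by
      have : Tendsto (fun η : ℝ≥0 => (η : ℝ≥0∞) * volume s') (𝓝 0) (𝓝 (((0 : ℝ≥0) : ℝ≥0∞) * volume s')) :=
        ENNReal.Tendsto.mul_const (ENNReal.continuous_coe.tendsto 0) (Or.inr hfin)
      simpa using this.mono_left nhdsWithin_le_nhds
    refine nonpos_iff_eq_zero.mp (ge_of_tendsto ht ?_)
    filter_upwards [self_mem_nhdsWithin] with η hη using hle η (ne_of_gt hη)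

theorem ae_comp_of_leftInverse {P : ℝ → Prop} (h : ∀ᵐ θ : ℝ, P θ) {ψ φ : ℝ → ℝ} {s : Set ℝ}
    (hφ : DifferentiableOn ℝ φ s) (hψ : ∀ a, ψ a ∈ s) (hinv : ∀ a, φ (ψ a) = a) :
    ∀ᵐ a : ℝ, P (ψ a) := by
  rw [ae_iff] at h ⊢
  have := addHaar_image_eq_zero_of_differentiableOn_of_addHaar_eq_zero volume
    (hφ.mono (inter_subset_left (t := {θ | ¬ P θ}))) (measure_mono_null inter_subset_right h)
  refine measure_mono_null (fun a ha => ?_) this
  exact ⟨ψ a, ⟨hψ a, ha⟩, hinv a⟩

end Pool.Agent.P.MP_fd5ae1_an
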