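import Pool.Agent.P.MP_fd5ae1_an.Core
import Pool.Agent.P.MP_fd5ae1_an.Area
import Pool.Agent.P.MP_fd5ae1_an.Param

set_option autoImplicit false

open MeasureTheory Set Filter Topology Function
open scoped ENNReal NNReal

namespace Pool.Agent.P.MP_fd5ae1_an

theorem integral_sign {A B : Set ℝ} (hA : MeasurableSet A) (hB : MeasurableSet B) {G : ℝ → ℂ}
    (hG : IntegrableOn G (A ∪ B)) :
    ∫ t in A ∪ B, ((A.indicator 1 t - B.indicator 1 t : ℝ) : ℂ) * G t =
      (∫ t in A, G t) - ∫ t in B, G t := by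
  have e : ∀ t, ((A.indicator 1 t - B.indicator 1 t : ℝ) : ℂ) * G t =
      A.indicator G t - B.indicator G t := by
    intro t
    by_cases h1 : t ∈ A <;> by_cases h2 : t ∈ B <;> simp [h1, h2]
  simp only [e]
  rw [integral_sub (hG.indicator hA) (hG.indicator hB), setIntegral_indicator hA,
    setIntegral_indicator hB, inter_eq_right.mpr subset_union_left,
    inter_eq_right.mpr subset_union_right]

theorem param_unique {A B : Set ℝ} (hA : MeasurableSet A) (hB : MeasurableSet B) {x y u v : ℝ → ℝ}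
    (mx : Measurable x) (my : Measurable y) (mu : Measurable u) (mv : Measurable v)
    (dx : ∀ t ∈ A ∪ B, HasDerivAt x (u t) t) (dy : ∀ t ∈ A ∪ B, HasDerivAt y (v t) t)
    (iu : IntegrableOn u (A ∪ B)) (iv : IntegrableOn v (A ∪ B))
    (hc : ∀ᵐ a : ℝ, ∀ᵐ b : ℝ,
      {t ∈ A | y t - a * x t = b}.encard = {t ∈ B | y t - a * x t = b}.encard)
    {S : Set (ℝ × ℝ)} (hS : MeasurableSet S) (hAS : ∀ t ∈ A, (x t, y t) ∈ S)
    (hBS : ∀ t ∈ B, (x t, y t) ∉ S) : ∀ᵐ t ∂(volume.restrict A), u t = 0 := by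
  set ε : ℝ → ℝ := fun t => A.indicator 1 t - B.indicator 1 t with hε
  have hεm : Measurable ε := (measurable_one.indicator hA).sub (measurable_one.indicator hB)
  have hεb : ∀ t, |ε t| ≤ 1 := by
    intro t
    by_cases h1 : t ∈ A <;> by_cases h2 : t ∈ B <;> simp [hε, h1, h2]
  have ih : ∀ a : ℝ, IntegrableOn (fun t => v t - a * u t) (A ∪ B) :=
    fun a => iv.sub (iu.const_mul a)
  have har : ∀ (a : ℝ) (s : Set ℝ), MeasurableSet s → s ⊆ A ∪ B → _ := fun a s hs hsub =>
    area hs (h := fun t => y t - a * x t) (h' := fun t => v t - a * u t) (x := x) (u := u)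
      (fun t ht => ((dy t (hsub ht)).sub ((dx t (hsub ht)).const_mul a)).hasDerivWithinAt)
      (fun t ht => (dx t (hsub ht)).hasDerivWithinAt) (by fun_prop) ((ih a).mono_set hsub)
  -- the signed area formula
  have signed : ∀ (a : ℝ) (NA NB : (ℝ → ℂ) → ℝ → ℂ),
      (∀ G : ℝ → ℂ, IntegrableOn (fun t => ((|v t - a * u t| : ℝ) : ℂ) * G t) A →
        Integrable (NA G) ∧ ∫ b, NA G b = ∫ t in A, ((|v t - a * u t| : ℝ) : ℂ) * G t) →
      (∀ (G φ : ℝ → ℂ) (b : ℝ), NA (fun t => G t * φ (y t - a * x t)) b = NA G b * φ b) →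
      (∀ G : ℝ → ℂ, IntegrableOn (fun t => ((|v t - a * u t| : ℝ) : ℂ) * G t) B →
        Integrable (NB G) ∧ ∫ b, NB G b = ∫ t in B, ((|v t - a * u t| : ℝ) : ℂ) * G t) →
      (∀ (G φ : ℝ → ℂ) (b : ℝ), NB (fun t => G t * φ (y t - a * x t)) b = NB G b * φ b) →
      ∀ G : ℝ → ℂ, IntegrableOn (fun t => ((|v t - a * u t| : ℝ) : ℂ) * G t) (A ∪ B) →
      Integrable (fun b => NA G b - NB G b) ∧ ∀ φ : ℝ → ℂ, Measurable φ → (∃ C, ∀ b, ‖φ b‖ ≤ C) →
        ∫ b, (NA G b - NB G b) * φ b =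
          ∫ t in A ∪ B, (ε t : ℂ) * (((|v t - a * u t| : ℝ) : ℂ) * G t * φ (y t - a * x t)) := by
    intro a NA NB a1 a2 b1 b2 G hG
    refine ⟨(a1 G (hG.mono_set subset_union_left)).1.sub (b1 G (hG.mono_set subset_union_right)).1,
      fun φ hφ ⟨C, hC⟩ => ?_⟩
    have hGφ : IntegrableOn (fun t => ((|v t - a * u t| : ℝ) : ℂ) * (G t * φ (y t - a * x t)))
        (A ∪ B) := by
      have := Integrable.mul_bdd (c := C) hG (g := fun t => φ (y t - a * x t))
        (Measurable.aestronglyMeasurable (by fun_prop)) (Eventually.of_forall fun t => hC _)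
      simpa only [mul_assoc, IntegrableOn] using this
    simp only [mul_assoc ((|_| : ℝ) : ℂ)]
    rw [integral_sign hA hB hGφ, ← (a1 _ (hGφ.mono_set subset_union_left)).2,
      ← (b1 _ (hGφ.mono_set subset_union_right)).2,
      ← integral_sub (a1 _ (hGφ.mono_set subset_union_left)).1
        (b1 _ (hGφ.mono_set subset_union_right)).1]
    simp only [a2, b2, sub_mul]
  have H : Good (volume.restrict (A ∪ B)) x y u v ε := by
    refine ⟨mx, my, mu, mv, hεm, hεb, iu, iv, ?_⟩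
    filter_upwards [hc] with a ha φ hφ hb
    obtain ⟨NA, a1, a2, a3, -⟩ := har a A hA subset_union_left
    obtain ⟨NB, b1, b2, b3, -⟩ := har a B hB subset_union_right
    have := (signed a NA NB a1 a2 b1 b2 (fun _ => 1)
      (by simp only [mul_one]; exact (ih a).abs.ofReal (𝕜 := ℂ))).2 φ hφ hb
    simp only [mul_one, ← mul_assoc] at this
    rw [← this]
    refine integral_eq_zero_of_ae ?_
    filter_upwards [ha, a3, b3] with b h1 ⟨k, hk, hk'⟩ ⟨l, hl, hl'⟩
    rw [hk, hl] at h1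
    have : k = l := by exact_mod_cast h1
    simp [hk', hl', this]
  have hR : ∀ a ξ, ∃ U F, Rep (volume.restrict (A ∪ B)) x y u v ε a ξ U F := by
    intro a ξ
    obtain ⟨NA, a1, a2, -, a4⟩ := har a A hA subset_union_left
    obtain ⟨NB, b1, b2, -, b4⟩ := har a B hB subset_union_right
    have := measurable_gw ξ
    have s1 := signed a NA NB a1 a2 b1 b2 (fun t => gw ξ (x t))
      (Integrable.mul_bdd (c := 1) ((ih a).abs.ofReal (𝕜 := ℂ))
        (Measurable.aestronglyMeasurable (by fun_prop))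
        (Eventually.of_forall fun t => norm_gw_le _ _))
    have s2 := signed a NA NB a1 a2 b1 b2
      (fun t => -(gw ξ (x t) ^ 2) * (u t / (v t - a * u t) : ℝ)) (by
        refine Integrable.mono' iu.abs (Measurable.aestronglyMeasurable (by fun_prop))
          (Eventually.of_forall fun t => ?_)
        simp only [norm_mul, norm_neg, Complex.norm_real, Real.norm_eq_abs, abs_abs]
        calc _ ≤ |v t - a * u t| * (1 * |u t / (v t - a * u t)|) := by
              gcongr; exact norm_gw_sq_le _ _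
          _ ≤ _ := by rw [one_mul]; exact abs_mul_abs_div_le _ _)
    refine ⟨_, fun b => -(NA (fun t => -(gw ξ (x t) ^ 2) * (u t / (v t - a * u t) : ℝ)) b -
      NB (fun t => -(gw ξ (x t) ^ 2) * (u t / (v t - a * u t) : ℝ)) b), s1.1, s2.1.neg, s1.2,
      fun φ hφ hb => ?_, ?_⟩
    · simp only [neg_mul (_ - _)]
      rw [integral_neg, s2.2 φ hφ hb, ← integral_neg]
      congr 1; ext t; ring
    · simp only [neg_neg]
      exact (a4 _ _ (hasDerivAt_gw ξ)).sub (b4 _ _ (hasDerivAt_gw ξ))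
  have hcore := core H hR hS
  have hSm : MeasurableSet {t | (x t, y t) ∈ S} := (mx.prodMk my) hS
  rw [Measure.restrict_restrict hSm] at hcore
  have e : {t | (x t, y t) ∈ S} ∩ (A ∪ B) = A := by
    ext t
    constructor
    · rintro ⟨h1, h2 | h2⟩
      · exact h2
      · exact absurd h1 (hBS t h2)
    · exact fun h => ⟨hAS t h, Or.inl h⟩
  rw [e, setIntegral_congr_fun hA (g := fun t => |u t|) (fun t ht => by
    have : t ∉ B := fun h => hBS t h (hAS t ht)
    simp [hε, ht, this]),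
    integral_eq_zero_iff_of_nonneg (fun t => abs_nonneg _) (iu.mono_set subset_union_left).abs]
    at hcore
  filter_upwards [hcore] with t ht using abs_eq_zero.mp ht

theorem ae_line_avoids {Z : Set (EuclideanSpace ℝ (Fin 2))} (hZ : μH[1] Z = 0) (c d : ℝ) :
    ∀ᵐ t : ℝ, ∀ p ∈ Z, p.ofLp 0 * c + p.ofLp 1 * d ≠ t := by
  let L : EuclideanSpace ℝ (Fin 2) →L[ℝ] ℝ := c • EuclideanSpace.proj 0 + d • EuclideanSpace.proj 1
  have := L.lipschitz.hausdorffMeasure_image_le zero_le_one Z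
  rw [hZ, mul_zero, nonpos_iff_eq_zero, hausdorffMeasure_real] at this
  filter_upwards [measure_eq_zero_iff_ae_notMem.mp this] with t ht p hp e
  refine ht ⟨p, hp, ?_⟩
  rw [← e]; simp [L, mul_comm]

/-- One half of the theorem: the part of `C` outside `D` is null. -/
theorem half {C D : Set (EuclideanSpace ℝ (Fin 2))} (hC : NullMeasurableSet C μH[1])
    (hD : NullMeasurableSet D μH[1]) (k : ℕ → ℝ → EuclideanSpace ℝ (Fin 2))
    (hinj : ∀ i, InjOn (k i) (Icc 0 1)) (hv : ∑' i, eVariationOn (k i) (Icc 0 1) ≠ ∞)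
    (hCk : C ⊆ ⋃ i, k i '' Icc 0 1) (hDk : D ⊆ ⋃ i, k i '' Icc 0 1)
    (h : ∀ᵐ θ : ℝ, ∀ᵐ t : ℝ,
      (C ∩ {p | p.ofLp 0 * Real.cos θ + p.ofLp 1 * Real.sin θ = t}).encard =
      (D ∩ {p | p.ofLp 0 * Real.cos θ + p.ofLp 1 * Real.sin θ = t}).encard) :
    μH[1] (C \ D) = 0 := by
  obtain ⟨γ, Ω, hγm, hΩ, hdiff, hγi, hint, hcov⟩ := exists_param k hinj hv
  obtain ⟨P, hPs, hPm, hPe⟩ := (hC.diff hD).exists_measurable_subset_ae_eq
  obtain ⟨Q, hQs, hQm, hQe⟩ := (hD.diff hC).exists_measurable_subset_ae_eq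
  set A := Ω ∩ γ ⁻¹' P with hA
  set B := Ω ∩ γ ⁻¹' Q with hB
  have hAm : MeasurableSet A := hΩ.inter (hγm hPm)
  have hBm : MeasurableSet B := hΩ.inter (hγm hQm)
  have hAB : A ∪ B ⊆ Ω := union_subset inter_subset_left inter_subset_left
  set Z := ((⋃ i, k i '' Icc 0 1) \ γ '' Ω) ∪ (((C \ D) \ P) ∪ ((D \ C) \ Q)) with hZ
  have hZ0 : μH[1] Z = 0 :=
    measure_union_null hcov (measure_union_null (ae_eq_set.mp hPe).2 (ae_eq_set.mp hQe).2)
  set x : ℝ → ℝ := fun t => (γ t).ofLp 0 with hx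
  set y : ℝ → ℝ := fun t => (γ t).ofLp 1 with hy
  set u : ℝ → ℝ := fun t => (deriv γ t).ofLp 0 with hu
  set v : ℝ → ℝ := fun t => (deriv γ t).ofLp 1 with hv'
  have mproj : ∀ i : Fin 2, Measurable fun p : EuclideanSpace ℝ (Fin 2) => p.ofLp i :=
    fun i => by fun_prop
  have mx : Measurable x := (mproj 0).comp hγm
  have my : Measurable y := (mproj 1).comp hγm
  have mu : Measurable u := (mproj 0).comp (measurable_deriv γ)
  have mv : Measurable v := (mproj 1).comp (measurable_deriv γ)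
  have dx : ∀ t ∈ Ω, HasDerivAt x (u t) t := fun t ht =>
    (EuclideanSpace.proj (0 : Fin 2) : EuclideanSpace ℝ (Fin 2) →L[ℝ] ℝ).hasFDerivAt.comp_hasDerivAt
      t (hdiff t ht).hasDerivAt
  have dy : ∀ t ∈ Ω, HasDerivAt y (v t) t := fun t ht =>
    (EuclideanSpace.proj (1 : Fin 2) : EuclideanSpace ℝ (Fin 2) →L[ℝ] ℝ).hasFDerivAt.comp_hasDerivAt
      t (hdiff t ht).hasDerivAt
  have iu : IntegrableOn u Ω :=
    (EuclideanSpace.proj (0 : Fin 2) : EuclideanSpace ℝ (Fin 2) →L[ℝ] ℝ).integrable_comp hint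
  have iv : IntegrableOn v Ω :=
    (EuclideanSpace.proj (1 : Fin 2) : EuclideanSpace ℝ (Fin 2) →L[ℝ] ℝ).integrable_comp hint
  -- counts on the parameter side
  have h1 : ∀ᵐ θ : ℝ, ∀ᵐ t : ℝ,
      {s ∈ A | x s * Real.cos θ + y s * Real.sin θ = t}.encard =
      {s ∈ B | x s * Real.cos θ + y s * Real.sin θ = t}.encard := by
    filter_upwards [h] with θ hθ
    obtain ⟨N, -, -, hN, -⟩ := area hΩ (h := fun s => x s * Real.cos θ + y s * Real.sin θ)
      (h' := fun s => u s * Real.cos θ + v s * Real.sin θ) (x := x) (u := u)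
      (fun t ht => (((dx t ht).mul_const _).add ((dy t ht).mul_const _)).hasDerivWithinAt)
      (fun t ht => (dx t ht).hasDerivWithinAt) (by fun_prop) ((iu.mul_const _).add (iv.mul_const _))
    filter_upwards [hθ, hN, ae_line_avoids hZ0 (Real.cos θ) (Real.sin θ)] with t e ⟨n, hn, _⟩ hav
    set L : Set (EuclideanSpace ℝ (Fin 2)) :=
      {p | p.ofLp 0 * Real.cos θ + p.ofLp 1 * Real.sin θ = t} with hL
    have himg : ∀ {X Y R : Set (EuclideanSpace ℝ (Fin 2))}, X ⊆ ⋃ i, k i '' Icc 0 1 → R ⊆ X \ Y →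
        (X \ Y) \ R ⊆ Z → (X \ Y) ∩ L =
          γ '' {s ∈ Ω ∩ γ ⁻¹' R | x s * Real.cos θ + y s * Real.sin θ = t} := by
      intro X Y R hX hR hRZ
      ext p
      constructor
      · rintro ⟨hp, hpL⟩
        have hpZ : p ∉ Z := fun hz => hav p hz hpL
        have hpR : p ∈ R := by
          by_contra hcon
          exact hpZ (hRZ ⟨hp, hcon⟩)
        have hpΩ : p ∈ γ '' Ω := by
          by_contra hcon
          exact hpZ (Or.inl ⟨hX hp.1, hcon⟩)
        obtain ⟨s, hs, rfl⟩ := hpΩ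
        exact ⟨s, ⟨⟨hs, hpR⟩, hpL⟩, rfl⟩
      · rintro ⟨s, ⟨⟨_, hs⟩, hsL⟩, rfl⟩
        exact ⟨hR hs, hsL⟩
    have hfin : (C ∩ D ∩ L).encard ≠ ⊤ := by
      have hsub : C ∩ D ∩ L ⊆ γ '' {s ∈ Ω | x s * Real.cos θ + y s * Real.sin θ = t} := by
        rintro p ⟨hp, hpL⟩
        have hpΩ : p ∈ γ '' Ω := by
          by_contra hcon
          exact hav p (Or.inl ⟨hCk hp.1, hcon⟩) hpL
        obtain ⟨s, hs, rfl⟩ := hpΩ
        exact ⟨s, ⟨hs, hpL⟩, rfl⟩
      refine ne_top_of_le_ne_top ?_ ((encard_le_encard hsub).trans (encard_image_le _ _))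
      rw [hn]; exact ENat.natCast_ne_top n
    have split : ∀ X Y : Set (EuclideanSpace ℝ (Fin 2)),
        (X ∩ L).encard = ((X \ Y) ∩ L).encard + (X ∩ Y ∩ L).encard := by
      intro X Y
      rw [← encard_union_eq (Disjoint.mono inter_subset_left inter_subset_left
        disjoint_sdiff_inter), ← union_inter_distrib_right, sdiff_union_inter]
    rw [split C D, split D C, inter_comm D C] at e
    have e' := (ENat.addLECancellable_of_ne_top hfin).inj_left.mp e
    rw [himg hCk hPs (subset_union_left.trans subset_union_right),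
      himg hDk hQs (subset_union_right.trans subset_union_right),
      (hγi.mono fun s hs => hs.1.1).encard_image, (hγi.mono fun s hs => hs.1.1).encard_image] at e'
    exact e'
  have hk0 : ∀ a : ℝ, 0 < Real.cos (Real.arctan a) := Real.cos_arctan_pos
  have hsin : ∀ a : ℝ, Real.sin (Real.arctan a) = a * Real.cos (Real.arctan a) := by
    intro a
    have := Real.tan_arctan a
    rw [Real.tan_eq_sin_div_cos, div_eq_iff (hk0 a).ne'] at this
    exact this
  have harc : ∀ {R : ℝ → Prop}, (∀ᵐ θ : ℝ, R θ) → ∀ c : ℝ, ∀ᵐ a : ℝ, R (Real.arctan a + c) := by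
    intro R hR c
    refine ae_comp_of_leftInverse hR (φ := fun θ => Real.tan (θ - c))
      (s := {θ | Real.cos (θ - c) ≠ 0}) (fun θ hθ => ?_) (fun a => ?_) (fun a => ?_)
    · exact (DifferentiableAt.comp θ (g := Real.tan) (f := fun θ => θ - c) (Real.differentiableAt_tan.mpr hθ)
        (differentiableAt_id.sub_const c)).differentiableWithinAt
    · simpa using (hk0 a).ne'
    · simp
  have hscale : ∀ {R : ℝ → Prop}, (∀ᵐ t : ℝ, R t) → ∀ c : ℝ, c ≠ 0 → ∀ᵐ b : ℝ, R (b * c) := by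
    intro R hR c hc
    exact ae_comp_of_leftInverse hR (φ := fun t => t / c) (s := univ) (by fun_prop)
      (fun _ => mem_univ _) (fun b => by field_simp)
  have hPQ : ∀ p ∈ Q, p ∉ P := fun p hq hp => (hQs hq).2 (hPs hp).1
  have hu0 : ∀ᵐ t ∂(volume.restrict A), u t = 0 := by
    refine param_unique hAm hBm mx my mu mv (fun t ht => dx t (hAB ht)) (fun t ht => dy t (hAB ht))
      (iu.mono_set hAB) (iv.mono_set hAB) ?_
      (S := (fun q : ℝ × ℝ => (WithLp.toLp 2 ![q.1, q.2] : EuclideanSpace ℝ (Fin 2))) ⁻¹' P)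
      (Measurable.comp (WithLp.measurable_toLp 2 _)
        (measurable_pi_lambda _ fun i => by fin_cases i <;> simp <;> fun_prop) hPm) ?_ ?_
    · filter_upwards [harc h1 (Real.pi / 2)] with a ha
      filter_upwards [hscale ha _ (hk0 a).ne'] with b hb
      rw [Real.cos_add_pi_div_two, Real.sin_add_pi_div_two, hsin] at hb
      have e : ∀ s, (x s * -(a * Real.cos (Real.arctan a)) + y s * Real.cos (Real.arctan a) =
          b * Real.cos (Real.arctan a)) ↔ y s - a * x s = b := by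
        intro s
        rw [← mul_left_inj' (hk0 a).ne' (a := y s - a * x s)]
        constructor <;> intro h <;> linarith
      simpa only [e] using hb
    · intro t ht
      have : (WithLp.toLp 2 ![x t, y t] : EuclideanSpace ℝ (Fin 2)) = γ t := by
        ext i; fin_cases i <;> simp [hx, hy]
      simp only [mem_preimage, this]; exact ht.2
    · intro t ht
      have : (WithLp.toLp 2 ![x t, y t] : EuclideanSpace ℝ (Fin 2)) = γ t := by
        ext i; fin_cases i <;> simp [hx, hy]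
      simp only [mem_preimage, this]; exact hPQ _ ht.2
  have hv0 : ∀ᵐ t ∂(volume.restrict A), -v t = 0 := by
    refine param_unique hAm hBm (x := fun t => -y t) (y := x) (u := fun t => -v t) (v := u)
      my.neg mx mv.neg mu (fun t ht => (dy t (hAB ht)).neg) (fun t ht => dx t (hAB ht))
      (iv.mono_set hAB).neg (iu.mono_set hAB) ?_
      (S := (fun q : ℝ × ℝ => (WithLp.toLp 2 ![q.2, -q.1] : EuclideanSpace ℝ (Fin 2))) ⁻¹' P)
      (Measurable.comp (WithLp.measurable_toLp 2 _)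
        (measurable_pi_lambda _ fun i => by fin_cases i <;> simp <;> fun_prop) hPm) ?_ ?_
    · filter_upwards [harc h1 0] with a ha
      filter_upwards [hscale ha _ (hk0 a).ne'] with b hb
      rw [add_zero, hsin] at hb
      have e : ∀ s, (x s * Real.cos (Real.arctan a) + y s * (a * Real.cos (Real.arctan a)) =
          b * Real.cos (Real.arctan a)) ↔ x s - a * -y s = b := by
        intro s
        rw [← mul_left_inj' (hk0 a).ne' (a := x s - a * -y s)]
        constructor <;> intro h <;> linarith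
      simpa only [e] using hb
    · intro t ht
      have : (WithLp.toLp 2 ![x t, - -y t] : EuclideanSpace ℝ (Fin 2)) = γ t := by
        ext i; fin_cases i <;> simp [hx, hy]
      simp only [mem_preimage, this]; exact ht.2
    · intro t ht
      have : (WithLp.toLp 2 ![x t, - -y t] : EuclideanSpace ℝ (Fin 2)) = γ t := by
        ext i; fin_cases i <;> simp [hx, hy]
      simp only [mem_preimage, this]; exact hPQ _ ht.2
  have hnull : μH[1] (γ '' A) = 0 := by
    refine hausdorff_image_null hAm (measurable_deriv γ)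
      (fun t ht => (hdiff t ht.1).hasDerivAt) ?_
    filter_upwards [hu0, hv0] with t h0 h1
    ext i; fin_cases i
    · exact h0
    · exact neg_eq_zero.mp h1
  refine measure_mono_null (t := γ '' A ∪ Z) ?_ (measure_union_null hnull hZ0)
  intro p hp
  by_contra hcon
  rw [mem_union, not_or] at hcon
  have hpP : p ∈ P := by
    by_contra h'
    exact hcon.2 (Or.inr (Or.inl ⟨hp, h'⟩))
  have hpΩ : p ∈ γ '' Ω := by
    by_contra h'
    exact hcon.2 (Or.inl ⟨hCk hp.1, h'⟩)
  obtain ⟨s, hs, rfl⟩ := hpΩ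
  exact hcon.1 ⟨s, ⟨hs, hpP⟩, rfl⟩

theorem main :
    ∀ C D : Set (EuclideanSpace ℝ (Fin 2)),
      MeasureTheory.NullMeasurableSet C (MeasureTheory.Measure.hausdorffMeasure 1) →
      MeasureTheory.NullMeasurableSet D (MeasureTheory.Measure.hausdorffMeasure 1) →
      (∃ f : ℕ → ℝ → EuclideanSpace ℝ (Fin 2),
        (∀ i, ContinuousOn (f i) (Set.Icc 0 1) ∧ Set.InjOn (f i) (Set.Icc 0 1)) ∧
        (∑' i, eVariationOn (f i) (Set.Icc 0 1)) ≠ ⊤ ∧
        C ⊆ ⋃ i, f i '' Set.Icc 0 1) →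
      (∃ g : ℕ → ℝ → EuclideanSpace ℝ (Fin 2),
        (∀ i, ContinuousOn (g i) (Set.Icc 0 1) ∧ Set.InjOn (g i) (Set.Icc 0 1)) ∧
        (∑' i, eVariationOn (g i) (Set.Icc 0 1)) ≠ ⊤ ∧
        D ⊆ ⋃ i, g i '' Set.Icc 0 1) →
      (∀ᵐ p : ℝ × ℝ ∂MeasureTheory.volume,
        (C ∩ {x : EuclideanSpace ℝ (Fin 2) |
            x.ofLp 0 * Real.cos p.1 + x.ofLp 1 * Real.sin p.1 = p.2}).encard =
        (D ∩ {x : EuclideanSpace ℝ (Fin 2) |
            x.ofLp 0 * Real.cos p.1 + x.ofLp 1 * Real.sin p.1 = p.2}).encard) →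
      MeasureTheory.Measure.hausdorffMeasure 1 ((C \ D) ∪ (D \ C)) = 0 := by
  rintro C D hC hD ⟨f, hf, hfv, hCf⟩ ⟨g, hg, hgv, hDg⟩ h
  set e := Equiv.natSumNatEquivNat with he
  set k : ℕ → ℝ → EuclideanSpace ℝ (Fin 2) := fun n => Sum.elim f g (e.symm n) with hk
  have hinj : ∀ i, InjOn (k i) (Icc 0 1) := by
    intro i
    simp only [hk]
    rcases e.symm i with j | j
    exacts [(hf j).2, (hg j).2]
  have hv : ∑' i, eVariationOn (k i) (Icc 0 1) ≠ ∞ := by
    rw [Equiv.tsum_eq e.symm (fun j => eVariationOn (Sum.elim f g j) (Icc 0 1)),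
      Summable.tsum_sum ENNReal.summable ENNReal.summable]
    exact ENNReal.add_ne_top.mpr ⟨hfv, hgv⟩
  have hCk : C ⊆ ⋃ i, k i '' Icc 0 1 := by
    refine hCf.trans (iUnion_subset fun j => subset_iUnion_of_subset (e (Sum.inl j)) ?_)
    simp [hk]
  have hDk : D ⊆ ⋃ i, k i '' Icc 0 1 := by
    refine hDg.trans (iUnion_subset fun j => subset_iUnion_of_subset (e (Sum.inr j)) ?_)
    simp [hk]
  have h' := Measure.ae_ae_of_ae_prod (μ := volume) (ν := volume) h
  refine measure_union_null (half hC hD k hinj hv hCk hDk h') (half hD hC k hinj hv hDk hCk ?_)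
  filter_upwards [h'] with θ hθ
  filter_upwards [hθ] with t ht using ht.symm

end Pool.Agent.P.MP_fd5ae1_an
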