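import Pool.Agent.P.MP_fd5ae1_an.Calc

set_option autoImplicit false

open MeasureTheory Set Filter Topology

namespace Pool.Agent.P.MP_fd5ae1_an

/-- Poisson kernel (without the factor `1 / π`). -/
noncomputable def pk (η t : ℝ) : ℝ := η / (t ^ 2 + η ^ 2)

/-- Derivative of the Poisson kernel. -/
noncomputable def pk' (η t : ℝ) : ℝ := -(2 * t * η) / (t ^ 2 + η ^ 2) ^ 2

theorem hasDerivAt_arctan_div {η : ℝ} (hη : 0 < η) (t : ℝ) :
    HasDerivAt (fun t => Real.arctan (t / η)) (pk η t) t := by
  have h := ((hasDerivAt_id t).div_const η).arctan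
  have e : pk η t = 1 / (1 + (id t / η) ^ 2) * (1 / η) := by
    simp only [pk, id]; field_simp; ring
  rw [e]; exact h

theorem hasDerivAt_pk {η : ℝ} (hη : 0 < η) (t : ℝ) : HasDerivAt (pk η) (pk' η t) t := by
  have h0 : t ^ 2 + η ^ 2 ≠ 0 := by positivity
  have h1 : HasDerivAt (fun t : ℝ => t ^ 2 + η ^ 2) (2 * t) t := by
    simpa using (hasDerivAt_pow 2 t).add_const (η ^ 2)
  have h := (hasDerivAt_const t η).div h1 h0
  have e : pk' η t = (0 * (t ^ 2 + η ^ 2) - η * (2 * t)) / (t ^ 2 + η ^ 2) ^ 2 := by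
    simp only [pk']; ring
  rw [e]; exact h

theorem continuous_pk {η : ℝ} (hη : 0 < η) : Continuous (pk η) :=
  continuous_iff_continuousAt.mpr fun t => (hasDerivAt_pk hη t).continuousAt

theorem continuous_pk' {η : ℝ} (hη : 0 < η) : Continuous (pk' η) := by
  unfold pk'
  refine Continuous.div (by fun_prop) (by fun_prop) fun t => by positivity

theorem abs_pk_le {η : ℝ} (hη : 0 < η) (t : ℝ) : |pk η t| ≤ 1 / η := by
  unfold pk
  rw [abs_of_nonneg (by positivity), div_le_div_iff₀ (by positivity) hη]
  nlinarith [sq_nonneg t]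

theorem abs_pk'_le {η : ℝ} (hη : 0 < η) (t : ℝ) : |pk' η t| ≤ 1 / η ^ 2 := by
  unfold pk'
  have h0 : 0 < t ^ 2 + η ^ 2 := by positivity
  rw [abs_div, abs_of_nonneg (by positivity : 0 ≤ (t ^ 2 + η ^ 2) ^ 2),
    div_le_div_iff₀ (by positivity) (by positivity)]
  have h1 : |-(2 * t * η)| ≤ t ^ 2 + η ^ 2 := by
    rw [abs_le]; constructor <;> nlinarith [sq_nonneg (t - η), sq_nonneg (t + η)]
  have h2 : η ^ 2 ≤ t ^ 2 + η ^ 2 := by nlinarith [sq_nonneg t]
  calc |-(2 * t * η)| * η ^ 2 ≤ (t ^ 2 + η ^ 2) * (t ^ 2 + η ^ 2) :=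
        mul_le_mul h1 h2 (by positivity) h0.le
    _ = 1 * (t ^ 2 + η ^ 2) ^ 2 := by ring

theorem integrable_mul_shift {G : ℝ → ℂ} (hG : Integrable G) {K : ℝ → ℝ} (hK : Continuous K)
    {C : ℝ} (hC : ∀ t, |K t| ≤ C) (β : ℝ) : Integrable (fun b => G b * (K (b - β) : ℂ)) := by
  refine hG.mul_bdd (c := C) (by fun_prop : Continuous fun b : ℝ =>
    ((K (b - β) : ℝ) : ℂ)).aestronglyMeasurable (Eventually.of_forall fun b => ?_)
  simpa using hC _

theorem continuous_conv {G : ℝ → ℂ} (hG : Integrable G) {K : ℝ → ℝ} (hK : Continuous K)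
    {C : ℝ} (hC : ∀ t, |K t| ≤ C) : Continuous fun β : ℝ => ∫ b, G b * (K (b - β) : ℂ) := by
  refine continuous_of_dominated (bound := fun b => ‖G b‖ * C)
    (fun β => (integrable_mul_shift hG hK hC β).aestronglyMeasurable)
    (fun β => Eventually.of_forall fun b => ?_) (hG.norm.mul_const C)
    (Eventually.of_forall fun b => by fun_prop)
  rw [norm_mul]
  gcongr
  simpa using hC _

theorem swap_conv {G : ℝ → ℂ} (hG : Integrable G) {K L : ℝ → ℝ} (hK : Continuous K)
    {C : ℝ} (hC : ∀ t, |K t| ≤ C) (hL : ∀ t, HasDerivAt L (K t) t) (β0 β1 : ℝ) :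
    ∫ β in β0..β1, ∫ b, G b * (K (b - β) : ℂ) =
      ∫ b, G b * ((L (b - β0) - L (b - β1) : ℝ) : ℂ) := by
  rw [intervalIntegral_integral_swap]
  · congr 1
    ext b
    rw [intervalIntegral.integral_const_mul, intervalIntegral.integral_ofReal]
    congr 2
    rw [intervalIntegral.integral_comp_sub_left (fun t => K t) b,
      intervalIntegral.integral_eq_sub_of_hasDerivAt (fun t _ => hL t)
        (hK.intervalIntegrable _ _)]
  · have h1 : Integrable (fun p : ℝ × ℝ => (1 : ℂ) * G p.2)
        ((volume.restrict (uIoc β0 β1)).prod volume) := by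
      refine Integrable.mul_prod (f := fun _ : ℝ => (1 : ℂ)) ?_ hG
      exact integrableOn_const (by simp [uIoc])
    have h2 := h1.mul_bdd (c := C) (g := fun p : ℝ × ℝ => ((K (p.2 - p.1) : ℝ) : ℂ))
      (by fun_prop : Continuous fun p : ℝ × ℝ => ((K (p.2 - p.1) : ℝ) : ℂ)).aestronglyMeasurable
      (Eventually.of_forall fun b => by simpa using hC _)
    refine h2.congr (Eventually.of_forall fun p => ?_)
    simp [Function.uncurry]

theorem tendsto_arctan_div {t : ℝ} (ht : t ≠ 0) :
    Tendsto (fun η : ℝ => Real.arctan (t / η)) (𝓝[>] 0)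
      (𝓝 (if 0 < t then Real.pi / 2 else -(Real.pi / 2))) := by
  split_ifs with h
  · have h1 : Tendsto (fun η : ℝ => t / η) (𝓝[>] 0) atTop := by
      simpa [div_eq_mul_inv] using tendsto_inv_nhdsGT_zero.const_mul_atTop h
    exact (Real.tendsto_arctan_atTop.comp h1).mono_right nhdsWithin_le_nhds
  · have h' : t < 0 := lt_of_le_of_ne (not_lt.mp h) ht
    have h1 : Tendsto (fun η : ℝ => t / η) (𝓝[>] 0) atBot := by
      simpa [div_eq_mul_inv] using tendsto_inv_nhdsGT_zero.const_mul_atTop_of_neg h'
    exact (Real.tendsto_arctan_atBot.comp h1).mono_right nhdsWithin_le_nhds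

theorem abs_arctan_sub_le (s t : ℝ) : |Real.arctan s - Real.arctan t| ≤ Real.pi := by
  have := Real.arctan_lt_pi_div_two s
  have := Real.arctan_lt_pi_div_two t
  have := Real.neg_pi_div_two_lt_arctan s
  have := Real.neg_pi_div_two_lt_arctan t
  rw [abs_le]; constructor <;> linarith

theorem tendsto_arctan_integral {G : ℝ → ℂ} (hG : Integrable G) (β0 β1 : ℝ) :
    Tendsto (fun η : ℝ => ∫ b, G b *
      ((Real.arctan ((b - β0) / η) - Real.arctan ((b - β1) / η) : ℝ) : ℂ)) (𝓝[>] 0)
      (𝓝 (Real.pi * ∫ b in β0..β1, G b)) := by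
  have key : (Real.pi : ℂ) * ∫ b in β0..β1, G b = ∫ b, G b *
      (((if β0 < b then Real.pi / 2 else -(Real.pi / 2)) -
        (if β1 < b then Real.pi / 2 else -(Real.pi / 2)) : ℝ) : ℂ) := by
    rw [← intervalIntegral.integral_Ioi_sub_Ioi' hG.integrableOn hG.integrableOn,
      ← integral_indicator measurableSet_Ioi, ← integral_indicator measurableSet_Ioi,
      ← integral_sub (hG.indicator measurableSet_Ioi) (hG.indicator measurableSet_Ioi),
      ← integral_const_mul]
    congr 1
    ext b
    by_cases h0 : β0 < b <;> by_cases h1 : β1 < b <;> simp [indicator, h0, h1] <;> ring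
  rw [key]
  refine tendsto_integral_filter_of_dominated_convergence (fun b => ‖G b‖ * Real.pi)
    (Eventually.of_forall fun η => ?_) (Eventually.of_forall fun η =>
      Eventually.of_forall fun b => ?_) (hG.norm.mul_const _) ?_
  · refine hG.aestronglyMeasurable.mul ?_
    exact (by fun_prop : Measurable fun b : ℝ =>
      ((Real.arctan ((b - β0) / η) - Real.arctan ((b - β1) / η) : ℝ) : ℂ)).aestronglyMeasurable
  · rw [norm_mul]
    gcongr
    rw [Complex.norm_real]
    exact abs_arctan_sub_le _ _
  · filter_upwards [Measure.ae_ne volume β0, Measure.ae_ne volume β1] with b h0 h1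
    refine Tendsto.const_mul _ ?_
    refine (Complex.continuous_ofReal.tendsto _).comp ?_
    have a0 := tendsto_arctan_div (sub_ne_zero.mpr h0)
    have a1 := tendsto_arctan_div (sub_ne_zero.mpr h1)
    simp only [sub_pos] at a0 a1
    exact a0.sub a1

theorem poisson_limit {U F : ℝ → ℂ} (hU : Integrable U) (hF : Integrable F)
    (κ : ℝ → ℝ → ℂ) (κ0 : ℝ → ℂ) (Φ : ℝ → ℝ) (hΦ : LocallyIntegrable Φ volume)
    (hbd : ∀ η ∈ Ioc (0 : ℝ) 1, ∀ᵐ β : ℝ, ‖κ η β‖ ≤ Φ β)
    (hlim : ∀ᵐ β : ℝ, Tendsto (fun η => κ η β) (𝓝[>] 0) (𝓝 (κ0 β)))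
    (hid : ∀ η ∈ Ioc (0 : ℝ) 1, ∀ β : ℝ,
      (∫ b, U b * (pk' η (b - β) : ℂ)) - (∫ b, F b * (pk η (b - β) : ℂ)) = κ η β) :
    LocallyIntegrable κ0 volume ∧ ∃ c : ℂ, ∀ᵐ β : ℝ,
      Real.pi * U β = c - ∫ b in (0 : ℝ)..β, (Real.pi * F b + κ0 b) := by
  have hev : ∀ᶠ η in 𝓝[>] (0 : ℝ), η ∈ Ioc (0 : ℝ) 1 := Ioc_mem_nhdsGT one_pos
  have hκc : ∀ η ∈ Ioc (0 : ℝ) 1, Continuous (κ η) := by
    intro η hη
    have : κ η = fun β => (∫ b, U b * (pk' η (b - β) : ℂ)) - (∫ b, F b * (pk η (b - β) : ℂ)) := by
      ext β; exact (hid η hη β).symm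
    rw [this]
    exact (continuous_conv hU (continuous_pk' hη.1) (abs_pk'_le hη.1)).sub
      (continuous_conv hF (continuous_pk hη.1) (abs_pk_le hη.1))
  have hseq : Tendsto (fun n : ℕ => 1 / ((n : ℝ) + 1)) atTop (𝓝[>] 0) := by
    refine tendsto_nhdsWithin_iff.mpr ⟨tendsto_one_div_add_atTop_nhds_zero_nat, ?_⟩
    exact Eventually.of_forall fun n => by simp only [mem_Ioi]; positivity
  have hseqmem : ∀ n : ℕ, 1 / ((n : ℝ) + 1) ∈ Ioc (0 : ℝ) 1 := fun n =>
    ⟨by positivity, by rw [div_le_one (by positivity)]; linarith [(n.cast_nonneg : (0 : ℝ) ≤ n)]⟩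
  have hκ0m : AEStronglyMeasurable κ0 volume := by
    refine aestronglyMeasurable_of_tendsto_ae atTop
      (f := fun n : ℕ => κ (1 / ((n : ℝ) + 1))) (fun n => (hκc _ (hseqmem n)).aestronglyMeasurable) ?_
    filter_upwards [hlim] with β hβ using hβ.comp hseq
  have hκ0b : ∀ᵐ β : ℝ, ‖κ0 β‖ ≤ Φ β := by
    have : ∀ᵐ β : ℝ, ∀ n : ℕ, ‖κ (1 / ((n : ℝ) + 1)) β‖ ≤ Φ β :=
      ae_all_iff.mpr fun n => hbd _ (hseqmem n)
    filter_upwards [hlim, this] with β hβ h2
    exact le_of_tendsto' (hβ.comp hseq).norm h2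
  have hκ0 : LocallyIntegrable κ0 volume :=
    hΦ.mono hκ0m (by
      filter_upwards [hκ0b] with β hβ using hβ.trans (le_abs_self _))
  have hii : ∀ {G : ℝ → ℂ}, LocallyIntegrable G volume → ∀ a b, IntervalIntegrable G volume a b :=
    fun hG a b => intervalIntegrable_iff.mpr <|
      (hG.integrableOn_isCompact isCompact_uIcc).mono_set uIoc_subset_uIcc
  have hΦi : ∀ a b, IntervalIntegrable Φ volume a b := fun a b => intervalIntegrable_iff.mpr <|
      (hΦ.integrableOn_isCompact isCompact_uIcc).mono_set uIoc_subset_uIcc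
  refine ⟨hκ0, ?_⟩
  set H : ℝ → ℂ := fun b => Real.pi * F b + κ0 b with hH
  have hHl : LocallyIntegrable H volume := (hF.const_mul _).locallyIntegrable.add hκ0
  set W : ℝ → ℂ := fun β => ∫ b in (0 : ℝ)..β, H b with hW
  have hWc : Continuous W := intervalIntegral.continuous_primitive (hii hHl) 0
  -- first integration
  have E1 : ∀ η ∈ Ioc (0 : ℝ) 1, ∀ β0 β1 : ℝ,
      (∫ b, U b * (pk η (b - β0) : ℂ)) - (∫ b, U b * (pk η (b - β1) : ℂ)) =
      (∫ b, F b * ((Real.arctan ((b - β0) / η) - Real.arctan ((b - β1) / η) : ℝ) : ℂ)) +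
        ∫ β in β0..β1, κ η β := by
    intro η hη β0 β1
    have a1 := swap_conv hU (continuous_pk' hη.1) (abs_pk'_le hη.1) (hasDerivAt_pk hη.1) β0 β1
    have a2 := swap_conv hF (continuous_pk hη.1) (abs_pk_le hη.1) (hasDerivAt_arctan_div hη.1) β0 β1
    rw [← a2, ← integral_sub (integrable_mul_shift hU (continuous_pk hη.1) (abs_pk_le hη.1) _)
      (integrable_mul_shift hU (continuous_pk hη.1) (abs_pk_le hη.1) _)]
    have a3 : ∫ b, (U b * (pk η (b - β0) : ℂ) - U b * (pk η (b - β1) : ℂ)) =
        ∫ b, U b * ((pk η (b - β0) - pk η (b - β1) : ℝ) : ℂ) := by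
      congr 1; ext b; push_cast; ring
    rw [a3, ← a1, ← intervalIntegral.integral_add
      ((continuous_conv hF (continuous_pk hη.1) (abs_pk_le hη.1)).intervalIntegrable _ _)
      ((hκc η hη).intervalIntegrable _ _)]
    congr 1; ext β; rw [← hid η hη β]; ring
  have hκlim : ∀ β0 β1 : ℝ, Tendsto (fun η => ∫ β in β0..β1, κ η β) (𝓝[>] 0)
      (𝓝 (∫ β in β0..β1, κ0 β)) := by
    intro β0 β1
    refine intervalIntegral.tendsto_integral_filter_of_dominated_convergence Φ ?_ ?_ (hΦi _ _) ?_
    · filter_upwards [hev] with η hη using (hκc η hη).aestronglyMeasurable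
    · filter_upwards [hev] with η hη
      filter_upwards [hbd η hη] with β hβ _ using hβ
    · filter_upwards [hlim] with β hβ _ using hβ
  set V : ℝ → ℂ := fun β => Real.pi * U β + W β with hV
  have hVl : LocallyIntegrable V volume := (hU.const_mul _).locallyIntegrable.add hWc.locallyIntegrable
  have main : ∀ γ δ : ℝ, ∫ b in γ..(γ + δ), V b = ∫ b in (0 : ℝ)..δ, V b := by
    intro γ δ
    set R : ℝ → ℝ → ℂ := fun η t =>
      (∫ b, U b * (pk η (b - t) : ℂ)) - (∫ b, U b * (pk η (b - (γ + t)) : ℂ)) with hR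
    have hL : Tendsto (fun η => ∫ t in (0 : ℝ)..δ, R η t) (𝓝[>] 0)
        (𝓝 (Real.pi * (∫ b in (0 : ℝ)..δ, U b) - Real.pi * ∫ b in γ..(γ + δ), U b)) := by
      refine ((tendsto_arctan_integral hU 0 δ).sub (tendsto_arctan_integral hU γ (γ + δ))).congr' ?_
      filter_upwards [hev] with η hη
      have c1 := continuous_conv hU (continuous_pk hη.1) (abs_pk_le hη.1)
      rw [← swap_conv hU (continuous_pk hη.1) (abs_pk_le hη.1) (hasDerivAt_arctan_div hη.1),
        ← swap_conv hU (continuous_pk hη.1) (abs_pk_le hη.1) (hasDerivAt_arctan_div hη.1)]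
      simp only [hR]
      have c2 : Continuous fun t : ℝ => ∫ b, U b * (pk η (b - (γ + t)) : ℂ) :=
        c1.comp (continuous_const.add continuous_id)
      rw [intervalIntegral.integral_sub (c1.intervalIntegrable _ _) (c2.intervalIntegrable _ _)]
      congr 1
      have := intervalIntegral.integral_comp_add_left
        (fun β => ∫ b, U b * (pk η (b - β) : ℂ)) γ (a := 0) (b := δ)
      simpa using this.symm
    set M : ℝ := |γ| + |δ| with hM
    have hR' : Tendsto (fun η => ∫ t in (0 : ℝ)..δ, R η t) (𝓝[>] 0)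
        (𝓝 (∫ t in (0 : ℝ)..δ, (W (γ + t) - W t))) := by
      refine intervalIntegral.tendsto_integral_filter_of_dominated_convergence
        (fun _ => (∫ b, ‖F b‖ * Real.pi) + ∫ β in Icc (-M) M, |Φ β|) ?_ ?_
        intervalIntegrable_const ?_
      · filter_upwards [hev] with η hη
        have c1 := continuous_conv hU (continuous_pk hη.1) (abs_pk_le hη.1)
        exact (c1.sub (c1.comp (continuous_const.add continuous_id))).aestronglyMeasurable
      · filter_upwards [hev] with η hη
        refine Eventually.of_forall fun t ht => ?_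
        simp only [hR]
        rw [E1 η hη]
        refine (norm_add_le _ _).trans (add_le_add ?_ ?_)
        · refine norm_integral_le_of_norm_le (hF.norm.mul_const _) (Eventually.of_forall fun b => ?_)
          rw [norm_mul]
          gcongr
          rw [Complex.norm_real]
          exact abs_arctan_sub_le _ _
        · have ht' : |t| ≤ |δ| := by
            have := uIoc_subset_uIcc ht
            simpa using abs_sub_left_of_mem_uIcc this
          have hsub : uIoc t (γ + t) ⊆ Icc (-M) M := by
            intro z hz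
            have h1 := abs_sub_left_of_mem_uIcc (uIoc_subset_uIcc hz)
            have h2 : |z| ≤ M := by
              have : |z| ≤ |z - t| + |t| := by simpa using abs_add_le (z - t) t
              simp only [add_sub_cancel_right] at h1
              linarith
            exact abs_le.mp h2
          refine intervalIntegral.norm_integral_le_integral_norm_uIoc.trans ?_
          have hI : IntegrableOn (fun β => |Φ β|) (Icc (-M) M) :=
            (hΦ.integrableOn_isCompact isCompact_Icc).abs
          refine le_trans (integral_mono_of_nonneg (Eventually.of_forall fun _ => norm_nonneg _)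
            (hI.mono_set hsub) ?_) (setIntegral_mono_set hI
              (Eventually.of_forall fun _ => abs_nonneg _) hsub.eventuallyLE)
          filter_upwards [ae_restrict_of_ae (hbd η hη)] with β hβ using hβ.trans (le_abs_self _)
      · refine Eventually.of_forall fun t _ => ?_
        have e : W (γ + t) - W t = Real.pi * (∫ b in t..(γ + t), F b) + ∫ b in t..(γ + t), κ0 b := by
          simp only [hW]
          rw [intervalIntegral.integral_interval_sub_left (hii hHl _ _) (hii hHl _ _)]
          simp only [hH]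
          rw [intervalIntegral.integral_add ((hF.const_mul _).intervalIntegrable) (hii hκ0 _ _),
            intervalIntegral.integral_const_mul]
        rw [e]
        refine ((tendsto_arctan_integral hF t (γ + t)).add (hκlim t (γ + t))).congr' ?_
        filter_upwards [hev] with η hη
        simp only [hR]
        rw [E1 η hη]
    have heq := tendsto_nhds_unique hL hR'
    have c3 : Continuous fun t : ℝ => W (γ + t) := hWc.comp (continuous_const.add continuous_id)
    rw [intervalIntegral.integral_sub (c3.intervalIntegrable _ _)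
      (hWc.intervalIntegrable _ _)] at heq
    have e2 : ∫ t in (0 : ℝ)..δ, W (γ + t) = ∫ t in γ..(γ + δ), W t := by
      simpa using intervalIntegral.integral_comp_add_left W γ (a := 0) (b := δ)
    simp only [hV]
    rw [intervalIntegral.integral_add ((hU.const_mul _).intervalIntegrable)
        (hWc.intervalIntegrable _ _),
      intervalIntegral.integral_add ((hU.const_mul _).intervalIntegrable)
        (hWc.intervalIntegrable _ _), intervalIntegral.integral_const_mul,
      intervalIntegral.integral_const_mul, ← e2]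
    linear_combination -heq
  obtain ⟨c, hc⟩ := ae_const_of_shift hVl main
  refine ⟨c, ?_⟩
  filter_upwards [hc] with β hβ
  rw [← hβ]; simp only [hV, hW]; ring

/-- If `U` is almost everywhere a primitive of `-F`, the Fourier transforms are related as
expected. -/
theorem fourier_of_primitive {U F : ℝ → ℂ} (hU : Integrable U) (hF : Integrable F) {c : ℂ}
    (h : ∀ᵐ β : ℝ, U β = c - ∫ b in (0 : ℝ)..β, F b) {s : ℝ} (hs : s ≠ 0) :
    ∫ b, U b * (s * Complex.I * Complex.exp (s * Complex.I * b)) =
      ∫ b, F b * Complex.exp (s * Complex.I * b) := by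
  set e : ℝ → ℂ := fun b => Complex.exp (s * Complex.I * b) with he
  have hen : ∀ b, ‖e b‖ = 1 := by
    intro b
    have : (s * Complex.I * b : ℂ) = ((s * b : ℝ) : ℂ) * Complex.I := by push_cast; ring
    simp only [he]; rw [this, Complex.norm_exp_ofReal_mul_I]
  have hec : Continuous e := by simp only [he]; fun_prop
  have headd : ∀ a b : ℝ, e (a + b) = e a * e b := by
    intro a b; simp only [he]; rw [← Complex.exp_add]; congr 1; push_cast; ring
  have hint : ∀ {G : ℝ → ℂ}, Integrable G → Integrable (fun b => G b * e b) := fun hG =>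
    hG.mul_bdd (c := 1) hec.aestronglyMeasurable (Eventually.of_forall fun b => (hen b).le)
  have hshift : ∀ (G : ℝ → ℂ) (t : ℝ), ∫ b, G (b + t) * e b = e (-t) * ∫ b, G b * e b := by
    intro G t
    rw [← integral_const_mul, ← integral_add_right_eq_self (fun b => e (-t) * (G b * e b)) t]
    congr 1; ext b
    have : e b = e (-t) * e (b + t) := by rw [← headd]; congr 1; ring
    rw [this]; ring
  set δ : ℝ := Real.pi / s with hδ
  have heδ : e (-δ) = -1 := by
    simp only [he, hδ]
    have : (s * Complex.I * ((-(Real.pi / s) : ℝ) : ℂ)) = -(Real.pi * Complex.I) := by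
      have : (s : ℂ) ≠ 0 := by exact_mod_cast hs
      push_cast; field_simp
    rw [this, Complex.exp_neg, Complex.exp_pi_mul_I]; norm_num
  have h' : ∀ᵐ β : ℝ, U (β + δ) = c - ∫ b in (0 : ℝ)..(β + δ), F b :=
    (measurePreserving_add_right volume δ).quasiMeasurePreserving.ae h
  have hdiff : ∀ᵐ β : ℝ, U (β + δ) * e β - U β * e β = -∫ t in (0 : ℝ)..δ, F (β + t) * e β := by
    filter_upwards [h, h'] with β h1 h2
    rw [h1, h2, intervalIntegral.integral_mul_const, intervalIntegral.integral_comp_add_left F β,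
      add_zero, ← intervalIntegral.integral_interval_sub_left (a := 0) (b := β + δ) (c := β)
        hF.intervalIntegrable hF.intervalIntegrable]
    ring
  have l1 : ∫ β, (U (β + δ) * e β - U β * e β) = -2 * ∫ b, U b * e b := by
    rw [integral_sub (hint (hU.comp_add_right δ)) (hint hU), hshift, heδ]; ring
  have l2 : ∫ β, ∫ t in (0 : ℝ)..δ, F (β + t) * e β = (∫ t in (0 : ℝ)..δ, e (-t)) * ∫ b, F b * e b := by
    rw [← intervalIntegral_integral_swap (f := fun t β => F (β + t) * e β)]
    · simp only [hshift]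
      rw [intervalIntegral.integral_mul_const]
    · have h1 : Integrable (fun p : ℝ × ℝ => (1 : ℂ) * F p.2)
          ((volume.restrict (uIoc 0 δ)).prod volume) := by
        refine Integrable.mul_prod (f := fun _ : ℝ => (1 : ℂ)) ?_ hF
        exact integrableOn_const (by simp [uIoc])
      have h2 := (measurePreserving_prod_add (volume.restrict (uIoc 0 δ)) volume).integrable_comp_of_integrable h1
      have h3 := h2.mul_bdd (c := 1) (g := fun p : ℝ × ℝ => e p.2)
        (hec.comp continuous_snd).aestronglyMeasurable (Eventually.of_forall fun p => (hen _).le)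
      refine h3.congr (Eventually.of_forall fun p => ?_)
      simp [Function.uncurry, add_comm]
  have l3 : s * Complex.I * ∫ t in (0 : ℝ)..δ, e (-t) = 2 := by
    rw [← intervalIntegral.integral_const_mul,
      intervalIntegral.integral_eq_sub_of_hasDerivAt (f := fun t => -e (-t))]
    · rw [heδ]; simp [he]; norm_num
    · intro t _
      have a1 : HasDerivAt (fun t : ℝ => s * Complex.I * ((-t : ℝ) : ℂ)) (s * Complex.I * ((-1 : ℝ) : ℂ)) t :=
        ((hasDerivAt_id t).neg.ofReal_comp).const_mul _
      have a2 := a1.cexp.neg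
      have e' : s * Complex.I * e (-t) =
          -(Complex.exp (s * Complex.I * ((-t : ℝ) : ℂ)) * (s * Complex.I * ((-1 : ℝ) : ℂ))) := by
        simp only [he]; push_cast; ring
      rw [e']; exact a2
    · exact (continuous_const.mul (hec.comp continuous_neg)).intervalIntegrable _ _
  have l4 : -2 * ∫ b, U b * e b = -((∫ t in (0 : ℝ)..δ, e (-t)) * ∫ b, F b * e b) := by
    rw [← l1, ← l2, ← integral_neg]
    exact integral_congr_ae hdiff
  have l5 : ∫ b, U b * (s * Complex.I * e b) = s * Complex.I * ∫ b, U b * e b := by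
    rw [← integral_const_mul]; congr 1; ext b; ring
  change ∫ b, U b * (s * Complex.I * e b) = ∫ b, F b * e b
  rw [l5]
  linear_combination (-(s * Complex.I) / 2) * l4 + ((∫ b, F b * e b) / 2) * l3

end Pool.Agent.P.MP_fd5ae1_an
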