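import Pool.Agent.P.MP_fd5ae1_an.Key

set_option autoImplicit false

open MeasureTheory Set Filter Topology Complex
open scoped ENNReal

namespace Pool.Agent.P.MP_fd5ae1_an

/-- The locally integrable singularity `|t| ^ (-1/2)`, infinite at the origin. -/
noncomputable def kern (t : ℝ) : ℝ≥0∞ := ‖t‖ₑ ^ (-(1 / 2) : ℝ)

theorem measurable_kern : Measurable kern := by unfold kern; fun_prop

theorem kern_zero : kern 0 = ∞ := by
  simp only [kern, enorm_zero]; exact ENNReal.zero_rpow_of_neg (by norm_num)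

theorem kern_ne_zero (t : ℝ) : kern t ≠ 0 := by
  simp [kern]

theorem kern_eq {t : ℝ} (ht : t ≠ 0) : kern t = ENNReal.ofReal (|t| ^ (-(1 / 2) : ℝ)) := by
  rw [kern, Real.enorm_eq_ofReal_abs, ENNReal.ofReal_rpow_of_pos (abs_pos.mpr ht)]

theorem exists_kern_bound (M : ℝ) :
    ∃ c : ℝ≥0∞, c ≠ ∞ ∧ ∀ X : ℝ, ∫⁻ t in Icc (-M) M, kern (X - t) ≤ c := by
  have h1 : LocallyIntegrable (fun t : ℝ => |t| ^ (-(1 / 2) : ℝ)) volume := by
    refine locallyIntegrable_of_norm_le_rpow (C := 1) (α := 1 / 2) (by simp) (by norm_num)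
      (Eventually.of_forall fun t => ?_) (by fun_prop : Measurable fun t : ℝ =>
        |t| ^ (-(1 / 2) : ℝ)).aestronglyMeasurable
    rw [one_mul, Real.norm_eq_abs, Real.norm_eq_abs, abs_of_nonneg (by positivity)]
  have h2 : ∫⁻ t in Icc (-1 : ℝ) 1, kern t ≠ ∞ := by
    have := (h1.integrableOn_isCompact (isCompact_Icc (a := -1) (b := 1))).lintegral_lt_top
    refine ne_of_lt (lt_of_eq_of_lt (lintegral_congr_ae ?_) this)
    filter_upwards [ae_restrict_of_ae (Measure.ae_ne volume 0)] with t ht using kern_eq ht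
  refine ⟨volume (Icc (-M) M) + ∫⁻ t in Icc (-1 : ℝ) 1, kern t,
    ENNReal.add_ne_top.mpr ⟨by simp, h2⟩, fun X => ?_⟩
  have h3 : ∀ s : ℝ, kern s ≤ 1 + (Icc (-1 : ℝ) 1).indicator kern s := by
    intro s
    by_cases hs : s ∈ Icc (-1 : ℝ) 1
    · rw [indicator_of_mem hs]; exact le_add_self
    · refine le_trans ?_ le_self_add
      refine ENNReal.rpow_le_one_of_one_le_of_neg ?_ (by norm_num)
      rw [Real.enorm_eq_ofReal_abs, ENNReal.one_le_ofReal]
      by_contra h
      exact hs (abs_le.mp (not_le.mp h).le)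
  calc ∫⁻ t in Icc (-M) M, kern (X - t)
      ≤ ∫⁻ t in Icc (-M) M, (1 + (Icc (-1 : ℝ) 1).indicator kern (X - t)) :=
        lintegral_mono fun t => h3 _
    _ = volume (Icc (-M) M) + ∫⁻ t in Icc (-M) M, (Icc (-1 : ℝ) 1).indicator kern (X - t) := by
        rw [lintegral_add_left measurable_const]; simp
    _ ≤ volume (Icc (-M) M) + ∫⁻ t, (Icc (-1 : ℝ) 1).indicator kern (X - t) := by
        gcongr; exact Measure.restrict_le_self
    _ = _ := by
        rw [lintegral_sub_left_eq_self ((Icc (-1 : ℝ) 1).indicator kern) X,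
          lintegral_indicator measurableSet_Icc]

theorem ofReal_norm_inv_le (z : ℂ) : ENNReal.ofReal ‖z‖⁻¹ ≤ kern z.re * kern z.im := by
  by_cases h1 : z.re = 0
  · rw [h1, kern_zero, ENNReal.top_mul (kern_ne_zero _)]; exact le_top
  by_cases h2 : z.im = 0
  · rw [h2, kern_zero, ENNReal.mul_top (kern_ne_zero _)]; exact le_top
  rw [kern_eq h1, kern_eq h2, ← ENNReal.ofReal_mul (by positivity)]
  refine ENNReal.ofReal_le_ofReal ?_
  have a1 := abs_pos.mpr h1
  have a2 := abs_pos.mpr h2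
  have hz : 0 < ‖z‖ := lt_of_lt_of_le a1 (Complex.abs_re_le_norm z)
  have e : ‖z‖⁻¹ = ‖z‖ ^ (-(1 / 2) : ℝ) * ‖z‖ ^ (-(1 / 2) : ℝ) := by
    rw [← Real.rpow_add hz]; norm_num [Real.rpow_neg_one]
  rw [e]
  exact mul_le_mul (Real.rpow_le_rpow_of_nonpos a1 (Complex.abs_re_le_norm z) (by norm_num))
    (Real.rpow_le_rpow_of_nonpos a2 (Complex.abs_im_le_norm z) (by norm_num))
    (by positivity) (by positivity)

theorem adm_rat {ρ : ℝ} (hρ : ρ = 1 ∨ ρ = -1) (β : ℝ) {η : ℝ} (hη : η ∈ Ioc (0 : ℝ) 1) :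
    Adm ρ (2 / η ^ 3) (fun z => (z - β + ρ * η * I)⁻¹) (fun z => -(z - β + ρ * η * I)⁻¹ ^ 2)
      (fun z => 2 * (z - β + ρ * η * I)⁻¹ ^ 3) := by
  obtain ⟨h0, h1⟩ := hη
  have hn : ∀ z : ℂ, 0 ≤ ρ * z.im → η * (1 + ρ * z.im) ≤ ‖z - β + ρ * η * I‖ := by
    intro z hz
    refine le_trans ?_ (Complex.abs_im_le_norm _)
    have e : (z - β + ρ * η * I).im = z.im + ρ * η := by simp
    rw [e]
    rcases hρ with rfl | rfl
    · refine le_trans ?_ (le_abs_self _); nlinarith
    · refine le_trans ?_ (neg_le_abs _); nlinarith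
  have hne : ∀ z : ℂ, 0 ≤ ρ * z.im → z - β + ρ * η * I ≠ 0 := by
    intro z hz h
    have := hn z hz
    rw [h, norm_zero] at this
    have : 0 < η * (1 + ρ * z.im) := by positivity
    linarith
  have hinv : ∀ z : ℂ, 0 ≤ ρ * z.im → ‖(z - β + ρ * η * I)⁻¹‖ ≤ 1 / η / (1 + ρ * z.im) := by
    intro z hz
    rw [norm_inv, div_div, one_div]
    exact inv_anti₀ (by positivity) (hn z hz)
  have hd : ∀ z : ℂ, 0 ≤ ρ * z.im →
      HasDerivAt (fun z : ℂ => (z - β + ρ * η * I)⁻¹) (-(z - β + ρ * η * I)⁻¹ ^ 2) z := by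
    intro z hz
    have := (((hasDerivAt_id z).sub_const (β : ℂ)).add_const (ρ * η * I)).inv (hne z hz)
    have e : -(z - β + ρ * η * I)⁻¹ ^ 2 = -1 / (id z - β + ρ * η * I) ^ 2 := by
      simp only [id]; rw [inv_pow]; ring
    rw [e]; exact this
  have hη1 : 1 ≤ 1 / η := by rw [le_div_iff₀ h0]; linarith
  refine ⟨by fun_prop, by fun_prop, by fun_prop, hd, fun z hz => ?_, fun z hz => ?_,
    fun z hz => ?_, fun z hz => ?_⟩
  · have := ((hd z hz).pow 2).neg
    have e : 2 * (z - β + ρ * η * I)⁻¹ ^ 3 =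
        -(((2 : ℕ) : ℂ) * (z - β + ρ * η * I)⁻¹ ^ (2 - 1) * -(z - β + ρ * η * I)⁻¹ ^ 2) := by
      push_cast; ring
    rw [e]; exact this
  · refine (hinv z hz).trans ?_
    refine div_le_div_of_nonneg_right ?_ (by positivity)
    have : 2 / η ^ 3 = 2 * (1 / η) ^ 3 := by field_simp
    rw [this]; nlinarith [pow_le_pow_right₀ hη1 (by norm_num : 1 ≤ 3)]
  · rw [norm_neg, norm_pow]
    refine (pow_le_pow_left₀ (norm_nonneg _) (hinv z hz) 2).trans ?_
    rw [div_pow]
    gcongr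
    have : 2 / η ^ 3 = 2 * (1 / η) ^ 3 := by field_simp
    rw [this]; nlinarith [pow_le_pow_right₀ hη1 (by norm_num : 2 ≤ 3), pow_nonneg (by positivity : 0 ≤ 1 / η) 3]
  · rw [norm_mul, norm_pow]
    have := pow_le_pow_left₀ (norm_nonneg _) (hinv z hz) 3
    calc _ ≤ 2 * (1 / η / (1 + ρ * z.im)) ^ 3 := by
          rw [Complex.norm_two]; gcongr
      _ = _ := by field_simp

theorem adm_exp {ρ : ℝ} (hρ : ρ = 1 ∨ ρ = -1) {s : ℝ} (hs : 0 < ρ * s) :
    ∃ C, Adm ρ C (fun z => cexp (s * I * z)) (fun z => s * I * cexp (s * I * z))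
      (fun z => (s * I) ^ 2 * cexp (s * I * z)) := by
  set σ := ρ * s with hσ
  have habs : |s| = σ := by
    rcases hρ with rfl | rfl
    · rw [abs_of_pos (by linarith)]; linarith
    · rw [abs_of_neg (by linarith)]; linarith
  set K := 6 * Real.exp σ / σ ^ 3 with hK
  have hK0 : 0 ≤ K := by positivity
  have hb : ∀ z : ℂ, 0 ≤ ρ * z.im → ‖cexp (s * I * z)‖ ≤ K / (1 + ρ * z.im) ^ 3 := by
    intro z hz
    set t := ρ * z.im with ht
    have e : ‖cexp (s * I * z)‖ = Real.exp (-(σ * t)) := by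
      rw [Complex.norm_exp]; congr 1
      simp only [hσ, ht]
      rcases hρ with rfl | rfl <;> simp
    rw [e, le_div_iff₀ (by positivity), hK, le_div_iff₀ (by positivity)]
    have h1 := Real.pow_div_factorial_le_exp (σ * (1 + t)) (by positivity) 3
    have h2 : Real.exp (σ * (1 + t)) * Real.exp (-(σ * t)) = Real.exp σ := by
      rw [← Real.exp_add]; congr 1; ring
    have h3 : (σ * (1 + t)) ^ 3 ≤ 6 * Real.exp (σ * (1 + t)) := by
      have : ((Nat.factorial 3 : ℕ) : ℝ) = 6 := by norm_num [Nat.factorial]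
      rw [this] at h1; linarith
    calc Real.exp (-(σ * t)) * (1 + t) ^ 3 * σ ^ 3 = (σ * (1 + t)) ^ 3 * Real.exp (-(σ * t)) := by ring
      _ ≤ 6 * Real.exp (σ * (1 + t)) * Real.exp (-(σ * t)) := by gcongr
      _ = 6 * Real.exp σ := by rw [mul_assoc, h2]
  have hd : ∀ z : ℂ, HasDerivAt (fun z => cexp (s * I * z)) (s * I * cexp (s * I * z)) z := by
    intro z
    have := ((hasDerivAt_id z).const_mul (s * I)).cexp
    have e : s * I * cexp (s * I * z) = cexp (s * I * id z) * (s * I * 1) := by simp only [id]; ring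
    rw [e]; exact this
  have hsI : ‖(s : ℂ) * I‖ = σ := by simp [habs]
  refine ⟨K * (1 + σ) ^ 2, by fun_prop, by fun_prop, by fun_prop, fun z _ => hd z, fun z _ => ?_,
    fun z hz => ?_, fun z hz => ?_, fun z hz => ?_⟩
  · have := (hd z).const_mul (s * I)
    have e : (s * I) ^ 2 * cexp (s * I * z) = s * I * (s * I * cexp (s * I * z)) := by ring
    rw [e]; exact this
  · refine (hb z hz).trans ?_
    refine div_le_div₀ (by positivity) ?_ (by positivity) ?_
    · nlinarith [mul_nonneg hK0 hs.le, mul_nonneg hK0 (sq_nonneg σ)]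
    · nth_rewrite 1 [← pow_one (1 + ρ * z.im)]
      exact pow_le_pow_right₀ (by linarith) (by norm_num)
  · rw [norm_mul, hsI]
    refine (mul_le_mul_of_nonneg_left (hb z hz) hs.le).trans ?_
    rw [← mul_div_assoc]
    refine div_le_div₀ (by positivity) ?_ (by positivity) ?_
    · nlinarith [mul_nonneg hK0 hs.le, mul_nonneg hK0 (sq_nonneg σ)]
    · exact pow_le_pow_right₀ (by linarith) (by norm_num)
  · rw [norm_mul, norm_pow, hsI]
    refine (mul_le_mul_of_nonneg_left (hb z hz) (by positivity)).trans ?_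
    rw [← mul_div_assoc]
    refine div_le_div₀ (by positivity) ?_ (by positivity) le_rfl
    nlinarith [mul_nonneg hK0 hs.le, mul_nonneg hK0 (sq_nonneg σ)]

variable {Ω : Type} [MeasurableSpace Ω] {μ : Measure Ω}

/-- Uniqueness for the Fourier transform of a signed measure. -/
theorem setIntegral_eq_zero_of_fourier {E : Type} [NormedAddCommGroup E] [InnerProductSpace ℝ E]
    [MeasurableSpace E] [BorelSpace E] [SecondCountableTopology E] [CompleteSpace E]
    {f : Ω → ℝ} (hfm : Measurable f) (hf : Integrable f μ) {Z : Ω → E} (hZ : Measurable Z)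
    (h : ∀ ξ : E, ∫ ω, (f ω : ℂ) * cexp ((inner ℝ (Z ω) ξ : ℝ) * I) ∂μ = 0)
    {S : Set E} (hS : MeasurableSet S) : ∫ ω in Z ⁻¹' S, f ω ∂μ = 0 := by
  have fin : ∀ {g : Ω → ℝ}, Integrable g μ →
      IsFiniteMeasure (μ.withDensity fun ω => ENNReal.ofReal (g ω)) :=
    fun hg => isFiniteMeasure_withDensity_ofReal hg.2
  have i1 := fin hf
  have i2 := fin hf.neg
  have hchar : ∀ {g : Ω → ℝ}, Measurable g → ∀ ξ : E,
      charFun ((μ.withDensity fun ω => ENNReal.ofReal (g ω)).map Z) ξ =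
        ∫ ω, ((max (g ω) 0 : ℝ) : ℂ) * cexp ((inner ℝ (Z ω) ξ : ℝ) * I) ∂μ := by
    intro g hg ξ
    rw [charFun_apply, integral_map hZ.aemeasurable (by fun_prop),
      integral_withDensity_eq_integral_toReal_smul hg.ennreal_ofReal
        (Eventually.of_forall fun _ => ENNReal.ofReal_lt_top)]
    congr 1
  have hint : ∀ {g : Ω → ℝ}, Integrable g μ → ∀ ξ : E,
      Integrable (fun ω => ((max (g ω) 0 : ℝ) : ℂ) * cexp ((inner ℝ (Z ω) ξ : ℝ) * I)) μ := by
    intro g hg ξ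
    refine (hg.pos_part.ofReal).mul_bdd (c := 1) ?_ (Eventually.of_forall fun ω => ?_)
    · exact (by fun_prop : Measurable fun ω =>
        cexp ((inner ℝ (Z ω) ξ : ℝ) * I)).aestronglyMeasurable
    · rw [Complex.norm_exp_ofReal_mul_I]
  have heq : (μ.withDensity fun ω => ENNReal.ofReal (f ω)).map Z =
      (μ.withDensity fun ω => ENNReal.ofReal ((-f) ω)).map Z := by
    refine Measure.ext_of_charFun (funext fun ξ => ?_)
    rw [hchar hfm, hchar hfm.neg, ← sub_eq_zero, ← integral_sub (hint hf ξ) (hint hf.neg ξ), ← h ξ]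
    congr 1; ext ω
    rw [← sub_mul, ← Complex.ofReal_sub]
    congr 2
    simp only [Pi.neg_apply]
    exact max_zero_sub_max_neg_zero_eq_self _
  have h1 := congrArg (fun ν : Measure E => ν S) heq
  simp only [Measure.map_apply hZ hS, withDensity_apply _ (hZ hS)] at h1
  rw [integral_eq_lintegral_pos_part_sub_lintegral_neg_part hf.integrableOn, h1]
  simp

theorem integral_mul_exp_Ioi {l : ℂ} (hl : 0 < l.re) :
    IntegrableOn (fun r : ℝ => (r : ℂ) * cexp (-l * r)) (Ioi 0) ∧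
      ∫ r in Ioi (0 : ℝ), (r : ℂ) * cexp (-l * r) = (l⁻¹) ^ 2 := by
  have hl0 : l ≠ 0 := by rintro rfl; simp at hl
  have hnorm : ∀ r : ℝ, ‖cexp (-l * r)‖ = Real.exp (-(l.re * r)) := by
    intro r; rw [Complex.norm_exp]; simp
  have hi : IntegrableOn (fun r : ℝ => (r : ℂ) * cexp (-l * r)) (Ioi 0) := by
    have := integrableOn_rpow_mul_exp_neg_mul_rpow (p := 1) (s := 1) (b := l.re) (by norm_num)
      one_pos hl
    refine Integrable.mono' this (by fun_prop : Continuous fun r : ℝ =>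
      (r : ℂ) * cexp (-l * r)).aestronglyMeasurable ?_
    filter_upwards [ae_restrict_mem measurableSet_Ioi] with r hr
    rw [norm_mul, hnorm, Complex.norm_real, Real.norm_eq_abs, abs_of_pos hr]
    simp
  refine ⟨hi, ?_⟩
  rw [integral_Ioi_of_hasDerivAt_of_tendsto' (f := fun r : ℝ => -((r : ℂ) * l⁻¹ + l⁻¹ ^ 2) * cexp (-l * r))
    (m := 0) ?_ hi ?_]
  · simp
  · intro r _
    have a1 : HasDerivAt (fun z : ℂ => -(z * l⁻¹ + l⁻¹ ^ 2) * cexp (-l * z))
        (-(1 * l⁻¹) * cexp (-l * r) + -((r : ℂ) * l⁻¹ + l⁻¹ ^ 2) * (cexp (-l * r) * (-l * 1))) (r : ℂ) :=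
      ((((hasDerivAt_id (r : ℂ)).mul_const l⁻¹).add_const (l⁻¹ ^ 2)).neg).mul
        ((hasDerivAt_id (r : ℂ)).const_mul (-l)).cexp
    have e : (r : ℂ) * cexp (-l * r) =
        -(1 * l⁻¹) * cexp (-l * r) + -((r : ℂ) * l⁻¹ + l⁻¹ ^ 2) * (cexp (-l * r) * (-l * 1)) := by
      field_simp; ring
    rw [e]; exact a1.comp_ofReal
  · have t0 : Tendsto (fun r : ℝ => l.re * r) atTop atTop := tendsto_id.const_mul_atTop hl
    have t1 := (Real.tendsto_pow_mul_exp_neg_atTop_nhds_zero 1).comp t0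
    have t2 := Real.tendsto_exp_neg_atTop_nhds_zero.comp t0
    have t3 : Tendsto (fun r : ℝ => ‖l⁻¹‖ / l.re * ((l.re * r) ^ 1 * Real.exp (-(l.re * r))) +
        ‖l⁻¹‖ ^ 2 * Real.exp (-(l.re * r))) atTop (𝓝 0) := by
      have := (t1.const_mul (‖l⁻¹‖ / l.re)).add (t2.const_mul (‖l⁻¹‖ ^ 2))
      rw [mul_zero, mul_zero, add_zero] at this
      exact this
    refine squeeze_zero_norm' ?_ t3
    filter_upwards [eventually_ge_atTop 0] with r hr
    rw [norm_mul, hnorm, norm_neg]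
    have : ‖(r : ℂ) * l⁻¹ + l⁻¹ ^ 2‖ ≤ r * ‖l⁻¹‖ + ‖l⁻¹‖ ^ 2 := by
      refine (norm_add_le _ _).trans ?_
      rw [norm_mul, norm_pow, Complex.norm_real, Real.norm_eq_abs, abs_of_nonneg hr]
    calc _ ≤ (r * ‖l⁻¹‖ + ‖l⁻¹‖ ^ 2) * Real.exp (-(l.re * r)) := by gcongr
      _ = _ := by field_simp

/-- If the second Cauchy transforms along `Im w = 1` vanish, so do the Fourier coefficients of
negative frequency. -/
theorem fourier_of_cauchy [SFinite μ] {f : Ω → ℂ} (hf : Integrable f μ) {x : Ω → ℝ}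
    (hx : Measurable x) (h : ∀ ξ : ℝ, ∫ ω, f ω * gw ξ (x ω) ^ 2 ∂μ = 0) {r : ℝ} (hr : 0 < r) :
    ∫ ω, f ω * cexp (-(r * x ω : ℝ) * I) ∂μ = 0 := by
  have hen : ∀ t : ℝ, ‖cexp (-(t : ℂ) * I)‖ = 1 := by
    intro t; rw [← Complex.ofReal_neg, Complex.norm_exp_ofReal_mul_I]
  set fh : ℝ → ℂ := fun r => ∫ ω, f ω * cexp (-(r * x ω : ℝ) * I) ∂μ with hfh
  have hfc : Continuous fh := by
    refine continuous_of_dominated (bound := fun ω => ‖f ω‖) (fun r => ?_)
      (fun r => Eventually.of_forall fun ω => ?_) hf.norm (Eventually.of_forall fun ω => by fun_prop)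
    · exact hf.aestronglyMeasurable.mul (by fun_prop : Measurable fun ω =>
        cexp (-(r * x ω : ℝ) * I)).aestronglyMeasurable
    · rw [norm_mul, hen, mul_one]
  set g : ℝ → ℂ := fun r => ((max r 0 : ℝ) : ℂ) * cexp (-1 * r) * fh r with hg
  have hgc : Continuous g := by simp only [hg]; fun_prop
  have hgind : g = (Ioi (0 : ℝ)).indicator fun r => (r : ℂ) * cexp (-1 * r) * fh r := by
    ext r
    by_cases h0 : 0 < r
    · rw [indicator_of_mem (mem_Ioi.mpr h0)]; simp only [hg, max_eq_left h0.le]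
    · rw [indicator_of_notMem (by simpa using h0)]; simp [hg, max_eq_right (not_lt.mp h0)]
  have i0 := (integral_mul_exp_Ioi (l := 1) (by simp)).1
  have hgi : Integrable g := by
    rw [hgind, integrable_indicator_iff measurableSet_Ioi]
    refine Integrable.mul_bdd (c := ∫ ω, ‖f ω‖ ∂μ) i0 hfc.aestronglyMeasurable
      (Eventually.of_forall fun r => ?_)
    refine norm_integral_le_of_norm_le hf.norm (Eventually.of_forall fun ω => ?_)
    rw [norm_mul, hen, mul_one]
  have hF : ∀ ξ : ℝ, ∫ r, cexp (((ξ * r : ℝ) : ℂ) * I) * g r = 0 := by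
    intro ξ
    set K : ℝ → Ω → ℂ := fun r ω => f ω * ((r : ℂ) * cexp (-(1 + (x ω - ξ) * I) * r)) with hK
    have hKe : ∀ r ω, K r ω = ((r : ℂ) * cexp (-1 * r) * f ω) *
        (cexp (((ξ * r : ℝ) : ℂ) * I) * cexp (-(r * x ω : ℝ) * I)) := by
      intro r ω
      have : cexp (-(1 + (x ω - ξ) * I) * r) =
          cexp (-1 * r) * (cexp (((ξ * r : ℝ) : ℂ) * I) * cexp (-(r * x ω : ℝ) * I)) := by
        rw [← Complex.exp_add, ← Complex.exp_add]; congr 1; push_cast; ring
      simp only [hK]; rw [this]; ring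
    have hKi : Integrable (Function.uncurry K) ((volume.restrict (Ioi 0)).prod μ) := by
      have := (i0.mul_prod hf).mul_bdd (c := 1) (g := fun p : ℝ × Ω =>
        cexp (((ξ * p.1 : ℝ) : ℂ) * I) * cexp (-(p.1 * x p.2 : ℝ) * I))
        (by fun_prop : Measurable fun p : ℝ × Ω =>
          cexp (((ξ * p.1 : ℝ) : ℂ) * I) * cexp (-(p.1 * x p.2 : ℝ) * I)).aestronglyMeasurable
        (Eventually.of_forall fun p => by rw [norm_mul, hen, Complex.norm_exp_ofReal_mul_I]; simp)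
      exact this.congr (Eventually.of_forall fun p => (hKe p.1 p.2).symm)
    have e1 : ∫ r, cexp (((ξ * r : ℝ) : ℂ) * I) * g r = ∫ r in Ioi (0 : ℝ), ∫ ω, K r ω ∂μ := by
      rw [← integral_indicator measurableSet_Ioi, hgind]
      congr 1; ext r
      by_cases h0 : r ∈ Ioi (0 : ℝ)
      · rw [indicator_of_mem h0, indicator_of_mem h0]
        simp only [hKe, hfh]
        rw [← integral_const_mul, ← integral_const_mul]
        congr 1; ext ω; ring
      · rw [indicator_of_notMem h0, indicator_of_notMem h0, mul_zero]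
    rw [e1, integral_integral_swap hKi, ← neg_eq_zero, ← h ξ, ← integral_neg]
    congr 1; ext ω
    simp only [hK]
    rw [integral_const_mul, (integral_mul_exp_Ioi (l := 1 + (x ω - ξ) * I) (by simp)).2]
    have : (1 + (x ω - ξ) * I : ℂ) = I * ((x ω : ℂ) - (ξ + I)) := by
      linear_combination Complex.I_mul_I
    rw [this, mul_inv, mul_pow, Complex.inv_I, gw]
    linear_combination (-(f ω * ((x ω : ℂ) - (ξ + I))⁻¹ ^ 2)) * Complex.I_mul_I
  have hF0 : FourierTransform.fourier g = 0 := by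
    ext w
    rw [Real.fourier_real_eq_integral_exp_smul, Pi.zero_apply, ← hF (-2 * Real.pi * w)]
    congr 1; ext r
    rw [smul_eq_mul]; congr 3; push_cast; ring
  have hinv := hgc.fourierInv_fourier_eq hgi (by rw [hF0]; exact integrable_zero _ _ _)
  rw [hF0] at hinv
  have hg0 : g r = 0 := by
    rw [← hinv, Real.fourierInv_eq']; simp
  simp only [hg, max_eq_left hr.le, mul_eq_zero, Complex.exp_ne_zero, or_false] at hg0
  rcases hg0 with h0 | h0
  · exact absurd (by exact_mod_cast h0) hr.ne'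
  · exact h0

end Pool.Agent.P.MP_fd5ae1_an
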